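import Pool.Agent.Lib.MP_1ad228_ntH.HA1
import Pool.Agent.Lib.MP_10e784_agF.RC
import Pool.Agent.Lib.MP_10e784_agF.RD

/-! JOB HB1 -/

set_option autoImplicit false

open Classical

namespace HNF

open Finset Polynomial FGO FQQ

/-- Proof. `Polynomial.resultant_mul_left` at the natural degrees and `Polynomial.resultant_add_left_deg` three times (signs and powers of `g.coeff n` cancel: `(-1)^(n (k1 + k2)) * c^(k1 + k2)` on both sides). -/
theorem res_mul {F : Type} [CommRing F] (f1 f2 f3 : F[X]) (m1 m2 n : ℕ) (h1 : f1.natDegree ≤ m1) (h2 : f2.natDegree ≤ m2)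
    (h3 : f3.natDegree ≤ n) : (f1 * f2).resultant f3 (m1 + m2) n = f1.resultant f3 m1 n * f2.resultant f3 m2 n := by
  have h := resultant_mul_left f1 f2 f3 n h3
  obtain ⟨k1, rfl⟩ := Nat.exists_eq_add_of_le h1
  obtain ⟨k2, rfl⟩ := Nat.exists_eq_add_of_le h2
  have e : f1.natDegree + k1 + (f2.natDegree + k2) = (f1.natDegree + f2.natDegree) + (k1 + k2) := by ring
  rw [e, resultant_add_left_deg _ _ _ _ _ natDegree_mul_le, resultant_add_left_deg _ _ _ _ _ le_rfl,
    resultant_add_left_deg _ _ _ _ _ le_rfl, h]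
  rw [Nat.mul_add, pow_add, pow_add]
  ring

/-- Proof. `Pf (hw w A B) = C a * (Pf (A - q B) * Pf (A - q' B))` (`Pf_hw`, `ring` after unfolding `Pf (fun i => A i - q * B i) = Pf A - C q * Pf B`), `resultant_C_mul_left`, `res_mul` with `m1 = m2 = g`. -/
theorem Rg_split {F : Type} [CommRing F] {g : ℕ} (A B : Fin (g + 1) → F) (v : F × F × F) (a q q' : F) :
    Rg A B v (a, -(a * (q + q')), a * q * q') = a ^ 2 * (Rs (fun i => A i - q * B i) v * Rs (fun i => A i - q' * B i) v) := by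
  have hP : ∀ t : F, Pf (fun i => A i - t * B i) = Pf A - C t * Pf B := by
    intro t
    unfold Pf
    rw [Finset.mul_sum, ← Finset.sum_sub_distrib]
    refine Finset.sum_congr rfl fun i _ => ?_
    rw [C_sub, C_mul]
    ring
  have h1 : Pf (hw (a, -(a * (q + q')), a * q * q') A B) =
      C a * (Pf (fun i => A i - q * B i) * Pf (fun i => A i - q' * B i)) := by
    rw [Pf_hw, hP, hP]
    simp only [map_neg, map_mul, map_add]
    ring
  have e : 2 * g = g + g := by ring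
  have hq : (Pq v).natDegree ≤ 2 := by
    unfold Pq
    compute_degree
  unfold Rg Rs
  rw [h1, resultant_C_mul_left, e, res_mul _ _ _ _ _ _ (natDegree_Pf _) (natDegree_Pf _) hq]

/-- Proof. `Rs_split` for `f = hw w A B` (`m = 2 g`) and `hv_hw`. -/
theorem Rg_vsplit {F : Type} [CommRing F] {g : ℕ} (A B : Fin (g + 1) → F) (w : F × F × F) (a r s : F) :
    Rg A B (a, -(a * (r + s)), a * r * s) w =
      a ^ (2 * g) * qv w (hv A r 1) (hv B r 1) * qv w (hv A s 1) (hv B s 1) := by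
  unfold Rg
  rw [Rs_split, hv_hw, hv_hw]

/-- a form with square discriminant and nonzero leading coefficient splits. Proof. `ds v = t²` (`t * t`), `r = (- b + t) / (2 a)`, `s = (- b - t) / (2 a)`. -/
theorem split_of_sq {F : Type} [Field F] (h2 : (2 : F) ≠ 0) (v : F × F × F) (hv : v.1 ≠ 0) (h : IsSquare (ds v)) :
    ∃ r s : F, v = (v.1, -(v.1 * (r + s)), v.1 * r * s) := by
  obtain ⟨t, ht⟩ := h
  obtain ⟨a, b, c⟩ := v
  have ha : a ≠ 0 := hv
  have ht' : b ^ 2 - 4 * a * c = t * t := ht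
  refine ⟨(-b + t) / (2 * a), (-b - t) / (2 * a), ?_⟩
  have e1 : (-b + t) / (2 * a) + (-b - t) / (2 * a) = - b / a := by
    field_simp
    ring
  have e2 : a * ((-b + t) / (2 * a)) * ((-b - t) / (2 * a)) = c := by
    field_simp
    linear_combination ht'
  refine Prod.ext rfl (Prod.ext ?_ ?_)
  · show b = -(a * ((-b + t) / (2 * a) + (-b - t) / (2 * a)))
    rw [e1]
    field_simp
  · exact e2.symm

/-- Proof. `split_of_sq` for `v` and `w`; `Rg_vsplit`: `h(r) = 0` for one of the two roots `r` of `v` (call it `r`), and `h(r) = w.1 (G₁(r) - q G₂(r)) (G₁(r) - q' G₂(r))`, so `G₁(r) = q G₂(r)` for one of the roots `q` of `w(q, 1) = 0`; `hl_eH`. -/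
theorem Ez_of_Rg {F : Type} [Field F] (h2 : (2 : F) ≠ 0) {g : ℕ} (hg : 1 ≤ g) (c : Fin (2 * g + 1 + 1) → F) (v w : F × F × F)
    (hv : v.1 ≠ 0) (hw1 : w.1 ≠ 0) (hdv : IsSquare (ds v)) (hdw : IsSquare (ds w)) (h : Rg (gA c) (gB c) v w = 0) :
    Ez eH c v w := by
  obtain ⟨r, s, hrs⟩ := split_of_sq h2 v hv hdv
  obtain ⟨q, q', hqq⟩ := split_of_sq h2 w hw1 hdw
  have key : ∀ x : F, qv w (FQQ.hv (gA c) x 1) (FQQ.hv (gB c) x 1) = 0 → qv v x 1 = 0 → Ez eH c v w := by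
    intro x hx hvx
    have hx' : w.1 * (FQQ.hv (gA c) x 1 - q * FQQ.hv (gB c) x 1) * (FQQ.hv (gA c) x 1 - q' * FQQ.hv (gB c) x 1) = 0 := by
      rw [← hx, hqq]
      unfold qv
      ring
    have hw : ∀ y : F, (y = q ∨ y = q') → qv w y 1 = 0 := by
      intro y hy
      rw [hqq]
      unfold qv
      rcases hy with rfl | rfl <;> ring
    rcases mul_eq_zero.mp hx' with h' | h'
    · rcases mul_eq_zero.mp h' with h'' | h''
      · exact absurd h'' hw1
      · exact ⟨x, q, hvx, hw q (Or.inl rfl), by rw [hl_eH hg]; exact h''⟩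
    · exact ⟨x, q', hvx, hw q' (Or.inr rfl), by rw [hl_eH hg]; exact h'⟩
  have hv1 : ∀ y : F, (y = r ∨ y = s) → qv v y 1 = 0 := by
    intro y hy
    rw [hrs]
    unfold qv
    rcases hy with rfl | rfl <;> ring
  rw [hrs, Rg_vsplit] at h
  rcases mul_eq_zero.mp h with h' | h'
  · rcases mul_eq_zero.mp h' with h'' | h''
    · exact absurd ((pow_eq_zero_iff (by omega)).mp h'') hv
    · exact key r h'' (hv1 r (Or.inl rfl))
  · exact key s h' (hv1 s (Or.inr rfl))

/-- Proof. `ds v = 0`: `v = v.1 (x - r z)²` (`split_of_sq`, `r = s` as `(r - s)² v.1² = ds v`), so `Rg = (v.1^g h(r))²` with `h(r) = qv w ..` (`Rg_vsplit`), a nonzero square. -/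
theorem Sq_Rg_v {F : Type} [Field F] (h2 : (2 : F) ≠ 0) {g : ℕ} (A B : Fin (g + 1) → F) (v w : F × F × F)
    (hv : v.1 ≠ 0) (hd : ds v = 0) (h : Rg A B v w ≠ 0) : Sq (Rg A B v w) := by
  obtain ⟨r, s, hrs⟩ := split_of_sq h2 v hv ⟨0, by rw [hd, mul_zero]⟩
  have hd2 : v.1 ^ 2 * (r - s) ^ 2 = 0 := by
    rw [← hd]
    have e : ds v = ds (v.1, -(v.1 * (r + s)), v.1 * r * s) := by rw [← hrs]
    rw [e]
    unfold ds
    ring
  have hrs' : r = s := by
    rcases mul_eq_zero.mp hd2 with h' | h'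
    · exact absurd (pow_eq_zero_iff (two_ne_zero) |>.mp h') hv
    · exact sub_eq_zero.mp (pow_eq_zero_iff (two_ne_zero) |>.mp h')
  refine ⟨h, ?_⟩
  rw [hrs, Rg_vsplit, hrs']
  exact ⟨v.1 ^ g * qv w (FQQ.hv A s 1) (FQQ.hv B s 1), by ring⟩

/-- Proof. `ds w = 0`: `q = q'` and `Rg = (w.1 * Rs (A - q B) v)²` (`Rg_split`). -/
theorem Sq_Rg_w {F : Type} [Field F] (h2 : (2 : F) ≠ 0) {g : ℕ} (A B : Fin (g + 1) → F) (v w : F × F × F)
    (hw1 : w.1 ≠ 0) (hd : ds w = 0) (h : Rg A B v w ≠ 0) : Sq (Rg A B v w) := by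
  obtain ⟨q, q', hqq⟩ := split_of_sq h2 w hw1 ⟨0, by rw [hd, mul_zero]⟩
  have hd2 : w.1 ^ 2 * (q - q') ^ 2 = 0 := by
    rw [← hd]
    have e : ds w = ds (w.1, -(w.1 * (q + q')), w.1 * q * q') := by rw [← hqq]
    rw [e]
    unfold ds
    ring
  have hqq' : q = q' := by
    rcases mul_eq_zero.mp hd2 with h' | h'
    · exact absurd (pow_eq_zero_iff (two_ne_zero) |>.mp h') hw1
    · exact sub_eq_zero.mp (pow_eq_zero_iff (two_ne_zero) |>.mp h')
  refine ⟨h, ?_⟩
  rw [hqq, Rg_split, hqq']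
  exact ⟨w.1 * Rs (fun i => A i - q' * B i) v, by ring⟩

end HNF
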