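import Pool.Agent.Lib.MP_1ad228_ntH.HB1

/-! JOB HB2 -/

set_option autoImplicit false

open Classical

namespace HNF

open Finset Polynomial FGO FQQ

theorem HB2_jac (a : ℤ) (p : ℕ) (hp : p.Prime) (h : Sq ((a : ZMod p))) : jacobiSym a p = 1 := by
  haveI := Fact.mk hp
  rw [← jacobiSym.legendreSym.to_jacobiSym, legendreSym.eq_one_iff p h.1]
  exact h.2

theorem HB2_two (p : ℕ) (hp : p.Prime) (h2 : p ≠ 2) : (2 : ZMod p) ≠ 0 := by
  intro h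
  have h3 : ((2 : ℕ) : ZMod p) = 0 := by exact_mod_cast h
  rw [ZMod.natCast_eq_zero_iff] at h3
  exact h2 ((Nat.prime_dvd_prime_iff_eq hp Nat.prime_two).1 h3)

/-- Proof. `Rg_cast`, `Sq_Rg_v` over `ZMod p`, `jacobiSym` of a nonzero square modulo `p` is `1` (`jacobiSym.legendreSym.to_jacobiSym`, `legendreSym.eq_one_iff`). -/
theorem jac_Rg_v {g : ℕ} (A B : Vn g) (v w : V) (p : ℕ) (hp : p.Prime) (h2 : p ≠ 2) (hR : ¬ (p : ℤ) ∣ Rg A B v w)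
    (hd : (p : ℤ) ∣ ds v) (hv : ¬ (p : ℤ) ∣ v.1) : jacobiSym (Rg A B v w) p = 1 := by
  haveI := Fact.mk hp
  refine HB2_jac _ p hp ?_
  have hR' : ((Rg A B v w : ℤ) : ZMod p) ≠ 0 := fun h => hR ((ZMod.intCast_zmod_eq_zero_iff_dvd _ _).1 h)
  rw [Rg_cast] at hR' ⊢
  refine Sq_Rg_v (HB2_two p hp h2) _ _ (cV p v) (cV p w) ?_ ?_ hR'
  · exact fun h => hv ((ZMod.intCast_zmod_eq_zero_iff_dvd _ _).1 h)
  · rw [← ds_cast]
    exact (ZMod.intCast_zmod_eq_zero_iff_dvd _ _).2 hd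

theorem jac_Rg_w {g : ℕ} (A B : Vn g) (v w : V) (p : ℕ) (hp : p.Prime) (h2 : p ≠ 2) (hR : ¬ (p : ℤ) ∣ Rg A B v w)
    (hd : (p : ℤ) ∣ ds w) (hw1 : ¬ (p : ℤ) ∣ w.1) : jacobiSym (Rg A B v w) p = 1 := by
  haveI := Fact.mk hp
  refine HB2_jac _ p hp ?_
  have hR' : ((Rg A B v w : ℤ) : ZMod p) ≠ 0 := fun h => hR ((ZMod.intCast_zmod_eq_zero_iff_dvd _ _).1 h)
  rw [Rg_cast] at hR' ⊢
  refine Sq_Rg_w (HB2_two p hp h2) _ _ (cV p v) (cV p w) ?_ ?_ hR'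
  · exact fun h => hw1 ((ZMod.intCast_zmod_eq_zero_iff_dvd _ _).1 h)
  · rw [← ds_cast]
    exact (ZMod.intCast_zmod_eq_zero_iff_dvd _ _).2 hd

/-- the quadratic algebra `ℚ[ω]`, `ω² = d`, with its conjugation -/
theorem HB2_quad (d : ℚ) : ∃ (Q : Type) (_ : CommRing Q) (φ : ℚ →+* Q) (σ : Q →+* Q) (ω : Q),
    Function.Injective φ ∧ ω * ω = φ d ∧ σ ω = -ω ∧ (∀ a, σ (φ a) = φ a) ∧
      ∀ t : Q, ∃ x y : ℚ, t * σ t = φ (x ^ 2 - d * y ^ 2) := by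
  refine ⟨QuadraticAlgebra ℚ d 0, inferInstance, algebraMap ℚ (QuadraticAlgebra ℚ d 0),
    starRingEnd (QuadraticAlgebra ℚ d 0), ⟨0, 1⟩, QuadraticAlgebra.algebraMap_injective, ?_, ?_, ?_, ?_⟩
  · ext <;> simp
  · rw [starRingEnd_apply]
    ext <;> simp
  · intro a
    rw [starRingEnd_apply]
    ext <;> simp
  · intro t
    refine ⟨t.re, t.im, ?_⟩
    rw [starRingEnd_apply, ← QuadraticAlgebra.algebraMap_norm_eq_mul_star, QuadraticAlgebra.norm_def]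
    congr 1
    ring

theorem HB2_map_hv {F F' : Type} [CommRing F] [CommRing F'] (φ : F →+* F') {m : ℕ} (f : Fin (m + 1) → F) (x z : F) :
    φ (hv f x z) = hv (fun i => φ (f i)) (φ x) (φ z) := by
  unfold hv
  rw [map_sum]
  refine Finset.sum_congr rfl fun i _ => ?_
  rw [map_mul, map_mul, map_pow, map_pow]

theorem HB2_map_qv {F F' : Type} [CommRing F] [CommRing F'] (φ : F →+* F') (v : F × F × F) (x z : F) :
    φ (qv v x z) = qv (φ v.1, φ v.2.1, φ v.2.2) (φ x) (φ z) := by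
  unfold qv
  simp only [map_add, map_mul, map_pow]

theorem HB2_map_Rs {F F' : Type} [CommRing F] [CommRing F'] (φ : F →+* F') {m : ℕ} (f : Fin (m + 1) → F)
    (v : F × F × F) : φ (Rs f v) = Rs (fun i => φ (f i)) (φ v.1, φ v.2.1, φ v.2.2) := by
  have h1 : (Pf f).map φ = Pf (fun i => φ (f i)) := by
    unfold Pf
    rw [Polynomial.map_sum]
    refine Finset.sum_congr rfl fun i _ => ?_
    rw [Polynomial.map_mul, Polynomial.map_pow, Polynomial.map_C, Polynomial.map_X]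
  have h2 : (Pq v).map φ = Pq (φ v.1, φ v.2.1, φ v.2.2) := by
    unfold Pq
    rw [Polynomial.map_add, Polynomial.map_add, Polynomial.map_mul, Polynomial.map_mul,
      Polynomial.map_pow, Polynomial.map_C, Polynomial.map_C, Polynomial.map_C, Polynomial.map_X]
  unfold Rs
  rw [← h1, ← h2, Polynomial.resultant_map_map]

/-- the roots of a quadratic form in the quadratic algebra of its discriminant -/
theorem HB2_roots {Q : Type} [CommRing Q] (φ : ℚ →+* Q) (σ : Q →+* Q) (ω : Q) (v : V) (hv : v.1 ≠ 0)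
    (hω : ω * ω = φ ((ds v : ℤ) : ℚ)) (hσω : σ ω = -ω) (hσ : ∀ a, σ (φ a) = φ a) :
    ∃ r s : Q, σ r = s ∧ σ s = r ∧
      ((φ v.1, φ v.2.1, φ v.2.2) : Q × Q × Q) = (φ v.1, -(φ v.1 * (r + s)), φ v.1 * r * s) := by
  obtain ⟨a, b, c⟩ := v
  have ha : (a : ℚ) ≠ 0 := by exact_mod_cast hv
  refine ⟨φ (1 / (2 * a)) * (-φ b + ω), φ (1 / (2 * a)) * (-φ b - ω), ?_, ?_, ?_⟩
  · rw [map_mul, map_add, map_neg, hσ, hσ, hσω]
    ring
  · rw [map_mul, map_sub, map_neg, hσ, hσ, hσω]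
    ring
  · have e1 : φ a * φ (1 / (2 * a)) * 2 = 1 := by
      have h2 : (2 : Q) = φ 2 := (map_ofNat φ 2).symm
      rw [h2, ← map_mul, ← map_mul]
      have h3 : (a : ℚ) * (1 / (2 * a)) * 2 = 1 := by field_simp
      rw [h3, map_one]
    have e2 : φ b ^ 2 - ω * ω = 4 * φ a * φ c := by
      rw [hω]
      have h4 : (4 : Q) = φ 4 := (map_ofNat φ 4).symm
      rw [h4, ← map_pow, ← map_sub, ← map_mul, ← map_mul]
      congr 1
      simp only [ds]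
      push_cast
      ring
    refine Prod.ext rfl (Prod.ext ?_ ?_)
    · show φ b = -(φ a * (φ (1 / (2 * a)) * (-φ b + ω) + φ (1 / (2 * a)) * (-φ b - ω)))
      linear_combination -(φ b) * e1
    · show φ c = φ a * (φ (1 / (2 * a)) * (-φ b + ω)) * (φ (1 / (2 * a)) * (-φ b - ω))
      linear_combination -(φ a * φ (1 / (2 * a)) ^ 2) * e2 - (φ c) * (φ a * φ (1 / (2 * a)) * 2 + 1) * e1

/-- Proof. Let `Q = QuadraticAlgebra ℚ (ds v) 0` (commutative ring), `ω = ⟨0, 1⟩`, `ω² = ds v`. Over `Q`: `v = (a, -(a (r + s)), a r s)` with `r = (- b + ω)/(2 a)`, `s = (- b - ω)/(2 a)` (`a = v.1 ≠ 0`), so by `Rg_map`, `Rg_vsplit` the image of `Rg` is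
`a^(2g) t t'`, `t = qv w (hv A r 1) (hv B r 1) = x0 + y0 ω`, `t' = star t = x0 - y0 ω` (`star` is a ring homomorphism which fixes `ℚ` and exchanges `r`, `s`), so `Rg = a^(2g) (x0² - ds v y0²) = (a^g x0)² - ds v (a^g y0)²`. (Model for the use of
`QuadraticAlgebra`: `FGO.norm_form` in Al1.lean.) -/
theorem rat_Rg_v {g : ℕ} (A B : Vn g) (v w : V) (hv : v.1 ≠ 0) :
    ∃ x y : ℚ, ((Rg A B v w : ℤ) : ℚ) = x ^ 2 - ((ds v : ℤ) : ℚ) * y ^ 2 := by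
  obtain ⟨Q, _, φ, σ, ω, hinj, hω, hσω, hσ, hnorm⟩ := HB2_quad ((ds v : ℤ) : ℚ)
  obtain ⟨r, s, hr, hs, hvs⟩ := HB2_roots φ σ ω v hv hω hσω hσ
  have h1 := Rg_map (φ.comp (Int.castRingHom ℚ)) A B v w
  have h2 : ((φ.comp (Int.castRingHom ℚ) v.1, φ.comp (Int.castRingHom ℚ) v.2.1,
      φ.comp (Int.castRingHom ℚ) v.2.2) : Q × Q × Q) = (φ v.1, φ v.2.1, φ v.2.2) := rfl
  rw [h2, hvs, Rg_vsplit] at h1
  obtain ⟨t, ht⟩ : ∃ t : Q, t = qv (φ.comp (Int.castRingHom ℚ) w.1, φ.comp (Int.castRingHom ℚ) w.2.1,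
      φ.comp (Int.castRingHom ℚ) w.2.2)
      (FQQ.hv (fun i => φ.comp (Int.castRingHom ℚ) (A i)) r 1)
      (FQQ.hv (fun i => φ.comp (Int.castRingHom ℚ) (B i)) r 1) := ⟨_, rfl⟩
  have hσt : σ t = qv (φ.comp (Int.castRingHom ℚ) w.1, φ.comp (Int.castRingHom ℚ) w.2.1,
      φ.comp (Int.castRingHom ℚ) w.2.2)
      (FQQ.hv (fun i => φ.comp (Int.castRingHom ℚ) (A i)) s 1)
      (FQQ.hv (fun i => φ.comp (Int.castRingHom ℚ) (B i)) s 1) := by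
    rw [ht, HB2_map_qv, HB2_map_hv, HB2_map_hv, hr, map_one]
    simp only [RingHom.coe_comp, Function.comp_apply, hσ]
  rw [← ht, ← hσt, mul_assoc] at h1
  obtain ⟨x, y, hxy⟩ := hnorm t
  rw [hxy] at h1
  refine ⟨v.1 ^ g * x, v.1 ^ g * y, ?_⟩
  apply hinj
  have h3 : φ ((Rg A B v w : ℤ) : ℚ) = (φ.comp (Int.castRingHom ℚ)) (Rg A B v w) := rfl
  rw [h3, h1, ← map_pow, ← map_mul]
  congr 1
  ring

/-- Proof. The same over `QuadraticAlgebra ℚ (ds w) 0` with `Rg_split`: `Rg = c² t t'`, `c = w.1`, `t = Rs (A - q B) v`, `t' = Rs (A - q' B) v = star t` (`Rs` commutes with ring homomorphisms, model `FQQ.Rs_cast`; `q = (- b + ω)/(2 c)`). -/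
theorem rat_Rg_w {g : ℕ} (A B : Vn g) (v w : V) (hw1 : w.1 ≠ 0) :
    ∃ x y : ℚ, ((Rg A B v w : ℤ) : ℚ) = x ^ 2 - ((ds w : ℤ) : ℚ) * y ^ 2 := by
  obtain ⟨Q, _, φ, σ, ω, hinj, hω, hσω, hσ, hnorm⟩ := HB2_quad ((ds w : ℤ) : ℚ)
  obtain ⟨r, s, hr, hs, hvs⟩ := HB2_roots φ σ ω w hw1 hω hσω hσ
  have h1 := Rg_map (φ.comp (Int.castRingHom ℚ)) A B v w
  have h2 : ((φ.comp (Int.castRingHom ℚ) w.1, φ.comp (Int.castRingHom ℚ) w.2.1,
      φ.comp (Int.castRingHom ℚ) w.2.2) : Q × Q × Q) = (φ w.1, φ w.2.1, φ w.2.2) := rfl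
  rw [h2, hvs, Rg_split] at h1
  obtain ⟨t, ht⟩ : ∃ t : Q, t = Rs (fun i => φ.comp (Int.castRingHom ℚ) (A i) -
      r * φ.comp (Int.castRingHom ℚ) (B i)) (φ.comp (Int.castRingHom ℚ) v.1, φ.comp (Int.castRingHom ℚ) v.2.1,
      φ.comp (Int.castRingHom ℚ) v.2.2) := ⟨_, rfl⟩
  have hσt : σ t = Rs (fun i => φ.comp (Int.castRingHom ℚ) (A i) -
      s * φ.comp (Int.castRingHom ℚ) (B i)) (φ.comp (Int.castRingHom ℚ) v.1, φ.comp (Int.castRingHom ℚ) v.2.1,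
      φ.comp (Int.castRingHom ℚ) v.2.2) := by
    rw [ht, HB2_map_Rs]
    simp only [RingHom.coe_comp, Function.comp_apply, hσ, map_sub, map_mul, hr]
  rw [← ht, ← hσt] at h1
  obtain ⟨x, y, hxy⟩ := hnorm t
  rw [hxy] at h1
  refine ⟨w.1 * x, w.1 * y, ?_⟩
  apply hinj
  have h3 : φ ((Rg A B v w : ℤ) : ℚ) = (φ.comp (Int.castRingHom ℚ)) (Rg A B v w) := rfl
  rw [h3, h1, ← map_pow, ← map_mul]
  congr 1
  ring

end HNF
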