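import Pool.Agent.Lib.MP_1ad228_ntH.LDefs
import Pool.Agent.Lib.MP_10e784_agF.RB

/-! JOB LD1 -/

set_option autoImplicit false

open Classical

namespace HNF

open Finset Polynomial FGO FQQ

private theorem LD1_aux1 {p : ℕ} (hp : p.Prime) {x : ℤ} (hx : ¬ (p : ℤ) ∣ x) : Int.gcd x p = 1 := by
  have h : Nat.Coprime p x.natAbs :=
    (Nat.Prime.coprime_iff_not_dvd hp).2 fun h => hx (Int.natCast_dvd.2 h)
  rw [Int.gcd_comm]
  exact h

private theorem LD1_dvd {β n : ℤ} (hβ : Squarefree β) (h : ∀ p : ℕ, p.Prime → (p : ℤ) ∣ β → (p : ℤ) ∣ n) :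
    β ∣ n := by
  rw [← Int.natAbs_dvd_natAbs]
  have h1 : Squarefree β.natAbs := Int.squarefree_natAbs.2 hβ
  rw [← Nat.prod_primeFactors_of_squarefree h1]
  refine Finset.prod_primes_dvd _ (fun q hq => (Nat.prime_of_mem_primeFactors hq).prime) ?_
  intro q hq
  have h2 := h q (Nat.prime_of_mem_primeFactors hq)
    (Int.natCast_dvd.2 (Nat.dvd_of_mem_primeFactors hq))
  exact Int.natCast_dvd.1 h2

/-- the third and the fourth condition -/
private theorem LD1_jac {R β δ m a : ℤ} (hR : R = β * (δ * m ^ 2)) {p : ℕ} (hp : p.Prime) (hpR : ¬ (p : ℤ) ∣ R)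
    (h4 : jacobiSym R p = 1) (h3 : jacobiSym (β * a) p = 1) : jacobiSym (δ * a) p = 1 := by
  have hβ : ¬ (p : ℤ) ∣ β := fun h5 => hpR (by rw [hR]; exact h5.mul_right _)
  have hm : ¬ (p : ℤ) ∣ m := fun h5 => hpR (by
    rw [hR]
    exact ((dvd_pow h5 (by norm_num)).mul_left _).mul_left _)
  rw [hR, jacobiSym.mul_left, jacobiSym.mul_left, jacobiSym.sq_one' (LD1_aux1 hp hm), mul_one] at h4
  have h5 := jacobiSym.sq_one (LD1_aux1 hp hβ)
  rw [jacobiSym.mul_left] at h3 ⊢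
  have h6 : jacobiSym δ p = jacobiSym β p := by
    have e : jacobiSym δ p = jacobiSym β p ^ 2 * jacobiSym δ p := by rw [h5, one_mul]
    rw [e, pow_two, mul_assoc, h4, mul_one]
  rw [h6]
  exact h3

/-- Proof. (Model: `FGO.switch` in Sw.lean.) `β ∣ R` (squarefree, all its prime factors divide `R`). If `β² ≤ |R|` take `δ = β`. Otherwise `R = β β'`, `|β'| < |β|`, `β' = δ m²` with `δ` squarefree, `m ≠ 0`; `δ² ≤ β'² ≤ |β| |β'| = |R|`.
(1) for a prime `p ∣ δ`: `p ∣ β' ∣ R`; if `p ∣ β` the last two conditions are those of `β`; if `p ∤ β`: `padicValInt p R = padicValInt p β' = 1 + 2 padicValInt p m` is odd, so the symbols are not `-1` by `hv2`, `hw2`.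
(2) `p ∤ R`, so `p ∤ β, δ, m`: `1 = J(R) = J(β) J(δ) J(m)²` (`hv1`), so `J(δ) = J(β)` (values `± 1`) and `J(δ v.1) = J(β v.1) = 1`. (3) the same. -/
theorem switch1 {R : ℤ} (hR : R ≠ 0) (v w : V)
    (hv1 : ∀ p : ℕ, p.Prime → p ≠ 2 → ¬ (p : ℤ) ∣ R → (p : ℤ) ∣ ds v → ¬ (p : ℤ) ∣ v.1 → jacobiSym R p = 1)
    (hw1 : ∀ p : ℕ, p.Prime → p ≠ 2 → ¬ (p : ℤ) ∣ R → (p : ℤ) ∣ ds w → ¬ (p : ℤ) ∣ w.1 → jacobiSym R p = 1)
    (hv2 : ∀ p : ℕ, p.Prime → p ≠ 2 → ¬ (p : ℤ) ∣ v.1 → jacobiSym (ds v) p = -1 → Even (padicValInt p R))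
    (hw2 : ∀ p : ℕ, p.Prime → p ≠ 2 → ¬ (p : ℤ) ∣ w.1 → jacobiSym (ds w) p = -1 → Even (padicValInt p R))
    (β : ℤ) (hβ : Squarefree β) (h : Cn R v w β) : ∃ δ : ℤ, Squarefree δ ∧ δ ^ 2 ≤ |R| ∧ Cn R v w δ := by
  obtain ⟨h1, h2, h3⟩ := h
  have hd : β ∣ R := LD1_dvd hβ fun p hp hpβ => (h1 p hp hpβ).1
  by_cases hle : β ^ 2 ≤ |R|
  · exact ⟨β, hβ, hle, h1, h2, h3⟩
  rw [not_le] at hle
  obtain ⟨β', hβ'⟩ := hd
  have hβ'0 : β' ≠ 0 := by
    rintro rfl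
    exact hR (by rw [hβ', mul_zero])
  have hβ0 : β ≠ 0 := by
    rintro rfl
    exact hR (by rw [hβ', zero_mul])
  obtain ⟨s, m, hsm, hs⟩ := Nat.sq_mul_squarefree β'.natAbs
  obtain ⟨δ, hδ⟩ : ∃ δ : ℤ, δ = β'.sign * s := ⟨_, rfl⟩
  have hβδ : β' = δ * (m : ℤ) ^ 2 := by
    have h3 : β' = β'.sign * (β'.natAbs : ℤ) := (Int.sign_mul_natAbs β').symm
    rw [hδ]
    conv_lhs => rw [h3, ← hsm]
    push_cast
    ring
  have hδn : δ.natAbs = s := by
    rw [hδ, Int.natAbs_mul, Int.natAbs_sign_of_ne_zero hβ'0, one_mul, Int.natAbs_natCast]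
  have hsf : Squarefree δ := by
    rw [← Int.squarefree_natAbs, hδn]
    exact hs
  have hres : R = β * (δ * (m : ℤ) ^ 2) := by rw [hβ', hβδ]
  have hm0 : (m : ℤ) ≠ 0 := by
    intro h
    rw [h] at hβδ
    apply hβ'0
    rw [hβδ]
    ring
  have hodd : ∀ p : ℕ, p.Prime → (p : ℤ) ∣ δ → ¬ (p : ℤ) ∣ β → ¬ Even (padicValInt p R) := by
    intro p hp hpδ hpβ
    have : Fact p.Prime := ⟨hp⟩
    have hδp : padicValInt p δ = 1 := by
      obtain ⟨k, hk⟩ := hpδ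
      have hk' : ¬ (p : ℤ) ∣ k := by
        intro hk'
        have hu := hsf (p : ℤ) (by rw [hk]; exact mul_dvd_mul_left _ hk')
        exact (Nat.prime_iff_prime_int.1 hp).not_isUnit hu
      have hk0 : k ≠ 0 := by
        rintro rfl
        exact hk' (dvd_zero _)
      rw [hk, padicValInt.mul (by exact_mod_cast hp.ne_zero) hk0, padicValInt.eq_zero_of_not_dvd hk', add_zero]
      exact padicValInt.self hp.one_lt
    have hval : padicValInt p R = 1 + 2 * padicValInt p (m : ℤ) := by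
      rw [hres, padicValInt.mul hβ0 (mul_ne_zero hsf.ne_zero (pow_ne_zero 2 hm0)), padicValInt.eq_zero_of_not_dvd hpβ,
        padicValInt.mul hsf.ne_zero (pow_ne_zero 2 hm0), hδp, pow_two, padicValInt.mul hm0 hm0]
      ring
    rw [hval, Nat.even_iff]
    omega
  refine ⟨δ, hsf, ?_, ?_, ?_, ?_⟩
  · have h3 : |β'| < |β| := by
      rw [hβ', abs_mul, ← sq_abs, pow_two] at hle
      exact lt_of_mul_lt_mul_left hle (abs_nonneg β)
    have h4 : δ ^ 2 ≤ β' ^ 2 := by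
      have h5 : (1 : ℤ) ≤ (m : ℤ) ^ 2 := by
        have : 0 < (m : ℤ) ^ 2 := by positivity
        linarith
      rw [hβδ, mul_pow]
      exact le_mul_of_one_le_right (sq_nonneg _) (one_le_pow₀ h5)
    calc δ ^ 2 ≤ β' ^ 2 := h4
      _ = |β'| * |β'| := by rw [← sq_abs, pow_two]
      _ ≤ |β| * |β'| := mul_le_mul_of_nonneg_right h3.le (abs_nonneg _)
      _ = |R| := by rw [hβ', abs_mul]
  · intro p hp hpδ
    refine ⟨?_, ?_, ?_⟩
    · rw [hres]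
      exact (hpδ.mul_right _).mul_left _
    · intro hp2 hpv hj
      by_cases hpβ : (p : ℤ) ∣ β
      · exact (h1 p hp hpβ).2.1 hp2 hpv hj
      · exact hodd p hp hpδ hpβ (hv2 p hp hp2 hpv hj)
    · intro hp2 hpw hj
      by_cases hpβ : (p : ℤ) ∣ β
      · exact (h1 p hp hpβ).2.2 hp2 hpw hj
      · exact hodd p hp hpδ hpβ (hw2 p hp hp2 hpw hj)
  · intro p hp hp2 hpR hd hd2 ha
    exact LD1_jac hres hp hpR (hv1 p hp hp2 hpR hd ha) (h2 p hp hp2 hpR hd hd2 ha)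
  · intro p hp hp2 hpR hd hd2 ha
    exact LD1_jac hres hp hpR (hw1 p hp hp2 hpR hd ha) (h3 p hp hp2 hpR hd hd2 ha)

end HNF
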