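import Pool.Agent.Lib.MP_1ad228_ntH.LA2

/-! JOB LD2 -/

set_option autoImplicit false

open Classical

namespace HNF

open Finset Polynomial FGO FQQ

/-- Proof. Cast to `ℚ_p`: `(R : ℚ_p) = x² - d y²` has even valuation (`even_nonres`), and the valuation is `padicValInt p R` (`Padic.valuation_intCast`). -/
theorem even_of_rat {p : ℕ} (hp : p.Prime) (h2 : p ≠ 2) {R d : ℤ} (hR : R ≠ 0) (hn : jacobiSym d p = -1) {x y : ℚ}
    (h : (R : ℚ) = x ^ 2 - (d : ℚ) * y ^ 2) : Even (padicValInt p R) := by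
  have : Fact p.Prime := ⟨hp⟩
  have h1 : (R : ℚ_[p]) = (x : ℚ_[p]) ^ 2 - (d : ℚ_[p]) * (y : ℚ_[p]) ^ 2 := by
    exact_mod_cast congrArg (fun t : ℚ => (t : ℚ_[p])) h
  have h3 : (x : ℚ_[p]) ^ 2 - (d : ℚ_[p]) * (y : ℚ_[p]) ^ 2 ≠ 0 := by
    rw [← h1]
    exact_mod_cast hR
  have h4 := even_nonres h2 d hn (x : ℚ_[p]) (y : ℚ_[p]) h3
  rw [← h1, Padic.valuation_intCast] at h4
  exact_mod_cast h4

end HNF
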