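import Pool.Agent.Lib.MP_1ad228_ntH.HB1

/-! JOB HL0 -/

set_option autoImplicit false

open Classical

namespace HNF

open Finset Polynomial FGO FQQ

theorem HL0_field (d : ℤ) (hd : ¬ IsSquare d) :
    ∃ (K : Type) (_ : Field K) (_ : CharZero K) (t : K), t ^ 2 = (d : K) ∧
      ∀ e : ℤ, IsSquare (e : K) → IsSquare e ∨ IsSquare (d * e) := by
  have hfact : Fact (∀ r : ℚ, r ^ 2 ≠ (d : ℚ) + 0 * r) := by
    refine ⟨fun r hr => hd ?_⟩
    rw [← Rat.isSquare_intCast_iff]
    exact ⟨r, by rw [zero_mul, add_zero] at hr; rw [← hr, sq]⟩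
  refine ⟨QuadraticAlgebra ℚ (d : ℚ) 0, inferInstance, inferInstance, ⟨0, 1⟩, ?_, ?_⟩
  · rw [sq]
    ext
    · rw [QuadraticAlgebra.re_mul]
      simp
    · rw [QuadraticAlgebra.im_mul]
      simp
  · rintro e ⟨z, hz⟩
    have h1 := congrArg QuadraticAlgebra.re hz
    have h2 := congrArg QuadraticAlgebra.im hz
    rw [QuadraticAlgebra.re_mul] at h1
    rw [QuadraticAlgebra.im_mul] at h2
    simp only [QuadraticAlgebra.re_intCast, QuadraticAlgebra.im_intCast, zero_mul, add_zero] at h1 h2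
    have h3 : z.re * z.im = 0 := by linarith
    rcases mul_eq_zero.1 h3 with h | h
    · right
      rw [← Rat.isSquare_intCast_iff]
      refine ⟨(d : ℚ) * z.im, ?_⟩
      rw [h] at h1
      push_cast
      rw [h1]
      ring
    · left
      rw [← Rat.isSquare_intCast_iff]
      refine ⟨z.re, ?_⟩
      rw [h] at h1
      rw [h1]
      ring

/-- Proof. `v.1 ≠ 0` and `w.1 ≠ 0` (otherwise `ds v = v.2.1²`). Let `K = ℚ(√ds v)` (for instance `QuadraticAlgebra ℚ (ds v) 0`, a field of characteristic zero as `ds v` is not a square in `ℚ`: `Rat.isSquare_intCast_iff`; or `AdjoinRoot (X ^ 2 - C (ds v))`), `ω² = ds v`. Over `K`: `v = (a, -(a (r + s)), a r s)`,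
so if `Rg = 0` then `Rg_vsplit` (with `Rg_map`) gives `qv w (hv A r 1) (hv B r 1) = 0` for one of the two roots `r` of `v`. Put `X = hv A r 1`, `Y = hv B r 1`: by `NoCz` (for `K`, `x = r`, `z = 1`) not both vanish. `4 w.1 qv w X Y = (2 w.1 X + w.2.1 Y)² - ds w Y²`, so `Y ≠ 0` and
`ds w = ((2 w.1 X + w.2.1 Y)/Y)²` is a square `(x + y ω)² = x² + ds v y² + 2 x y ω` in `K`: `x y = 0`; `y = 0`: `ds w` is a square in `ℚ`, hence in `ℤ`; `x = 0`: `ds v ds w = (ds v y)²`. -/
theorem Rg_ne {g : ℕ} (A B : Vn g) (v w : V) (hc : NoCz A B) (hv : ¬ IsSquare (ds v)) (hw1 : ¬ IsSquare (ds w))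
    (hvw : ¬ IsSquare (ds v * ds w)) : Rg A B v w ≠ 0 := by
  intro h0
  obtain ⟨K, iF, iC, t, ht, hsq⟩ := HL0_field (ds v) hv
  have hv1 : v.1 ≠ 0 := by
    intro h
    refine hv ⟨v.2.1, ?_⟩
    unfold ds
    rw [h]
    ring
  have hw1' : w.1 ≠ 0 := by
    intro h
    refine hw1 ⟨w.2.1, ?_⟩
    unfold ds
    rw [h]
    ring
  have hv1K : (v.1 : K) ≠ 0 := Int.cast_ne_zero.2 hv1
  have hw1K : (w.1 : K) ≠ 0 := Int.cast_ne_zero.2 hw1'
  have h2K : (2 : K) ≠ 0 := two_ne_zero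
  have hds : (v.2.1 : K) ^ 2 - 4 * (v.1 : K) * (v.2.2 : K) = t ^ 2 := by
    rw [ht]
    unfold ds
    push_cast
    ring
  set r : K := (-(v.2.1 : K) + t) / (2 * (v.1 : K)) with hr
  set s : K := (-(v.2.1 : K) - t) / (2 * (v.1 : K)) with hs
  have e1 : (v.2.1 : K) = -((v.1 : K) * (r + s)) := by
    rw [hr, hs]
    field_simp
    ring
  have e2 : (v.2.2 : K) = (v.1 : K) * r * s := by
    rw [hr, hs]
    field_simp
    linear_combination (-1 : K) * hds
  have hmap := Rg_map (Int.castRingHom K) A B v w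
  have hvK : (((Int.castRingHom K) v.1, (Int.castRingHom K) v.2.1, (Int.castRingHom K) v.2.2) : K × K × K) =
      ((v.1 : K), -((v.1 : K) * (r + s)), (v.1 : K) * r * s) := by
    refine Prod.ext rfl (Prod.ext ?_ ?_)
    · exact e1
    · exact e2
  rw [hvK, Rg_vsplit, h0, map_zero] at hmap
  have key : ∀ x : K, qv ((Int.castRingHom K) w.1, (Int.castRingHom K) w.2.1, (Int.castRingHom K) w.2.2)
      (FQQ.hv (fun i => (Int.castRingHom K) (A i)) x 1) (FQQ.hv (fun i => (Int.castRingHom K) (B i)) x 1) = 0 → False := by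
    intro x hx
    have hnz := hc K x 1 (fun h => one_ne_zero h.2)
    rw [vG_eq, vG_eq] at hnz
    change qv ((w.1 : K), (w.2.1 : K), (w.2.2 : K)) (FQQ.hv (fun i => ((A i : ℤ) : K)) x 1)
      (FQQ.hv (fun i => ((B i : ℤ) : K)) x 1) = 0 at hx
    set X' := FQQ.hv (fun i => ((A i : ℤ) : K)) x 1 with hX
    set Y' := FQQ.hv (fun i => ((B i : ℤ) : K)) x 1 with hY
    unfold qv at hx
    simp only at hx
    have hid : (2 * (w.1 : K) * X' + (w.2.1 : K) * Y') ^ 2 = ((ds w : ℤ) : K) * Y' ^ 2 := by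
      unfold ds
      push_cast
      linear_combination 4 * (w.1 : K) * hx
    have hY0 : Y' ≠ 0 := by
      intro hy
      refine hnz ⟨?_, hy⟩
      rw [hy] at hid
      have h5 : (2 * (w.1 : K) * X') ^ 2 = 0 := by
        rw [mul_zero, add_zero] at hid
        rw [hid]
        ring
      have h6 := pow_eq_zero_iff (two_ne_zero) |>.1 h5
      rcases mul_eq_zero.1 h6 with h7 | h7
      · exact absurd h7 (mul_ne_zero h2K hw1K)
      · exact h7
    have hsqw : IsSquare ((ds w : ℤ) : K) := by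
      refine ⟨(2 * (w.1 : K) * X' + (w.2.1 : K) * Y') / Y', ?_⟩
      rw [← sq, div_pow, hid, mul_div_cancel_right₀ _ (pow_ne_zero 2 hY0)]
    rcases hsq _ hsqw with h | h
    · exact hw1 h
    · exact hvw h
  rcases mul_eq_zero.1 hmap.symm with h | h
  · rcases mul_eq_zero.1 h with h' | h'
    · exact absurd h' (pow_ne_zero _ hv1K)
    · exact key r h'
  · exact key s h

end HNF
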