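import Pool.Agent.Lib.MP_10e784_agF.LT
import Pool.Agent.Lib.MP_10e784_agF.D3

/-!
# MP_1ad228_nt, the curves `y² = v(x, z) w(G₁(x, z), G₂(x, z))`: definitions of the counting part

`v, w` are binary quadratic forms, `c` is the vector of coefficients of a polynomial `∑ c i * r ^ (e i).1 * q ^ (e i).2` in two variables
`r, q` whose monomials include `1, r, q, r q`.  `FQQ` is the library of MP_10e784_ag.FactoredFamily, `FGO` that of FactoredGenusOne.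
-/

set_option autoImplicit false

namespace HNF

/-- the labels of a prime -/
inductive Lb
  | O : Lb
  | A : Lb
  | B : Lb
  | C0 : Lb
  | C1 : Lb
  deriving DecidableEq, Fintype

open Classical

open Finset Polynomial FGO FQQ

/-- a linear functional -/
def evl {m : ℕ} (l f : Vn m) : ℤ := ∑ i : Fin (m + 1), f i * l i

/-- the coset of `c` modulo `q` in the lattice `evl l f ≡ 0 mod M` -/
def CosL {m : ℕ} (M q : ℕ) (l c f : Vn m) : Prop := CgN q f c ∧ (M : ℤ) ∣ evl l f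

/-- the dual of the lattice `evl l f ≡ 0 mod M` contains no short vectors -/
def GoodL (m H q0 M : ℕ) (l : Vn m) : Prop :=
  ∀ k : Vn m, k ≠ 0 → (∃ t : ℤ, ∀ i, (M : ℤ) ∣ k i - t * l i) → ∃ i, q0 * M ≤ 4 * H * (k i).natAbs

/-- the monomials include `1, r, q, r q` (at the places `0, 1, 2, 3`) -/
structure Mon (m : ℕ) (e : ℕ → ℕ × ℕ) : Prop where
  m3 : 3 ≤ m
  e0 : e 0 = (0, 0)
  e1 : e 1 = (1, 0)
  e2 : e 2 = (0, 1)
  e3 : e 3 = (1, 1)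

/-- the value of the polynomial with coefficients `c` at `(r, q)` -/
def hl {F : Type} [CommRing F] {m : ℕ} (e : ℕ → ℕ × ℕ) (c : Fin (m + 1) → F) (r q : F) : F :=
  ∑ i : Fin (m + 1), c i * (r ^ (e i).1 * q ^ (e i).2)

/-- the values of the monomials -/
def mo {F : Type} [CommRing F] (m : ℕ) (e : ℕ → ℕ × ℕ) (r q : F) : Fin (m + 1) → F :=
  fun i => r ^ (e i).1 * q ^ (e i).2

section field

variable {F : Type} [CommRing F] {m : ℕ}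

/-- the three polynomials vanish at `(r, q)` -/
def Zz (e : ℕ → ℕ × ℕ) (c : Fin (m + 1) → F) (v w : F × F × F) (r q : F) : Prop :=
  qv v r 1 = 0 ∧ qv w q 1 = 0 ∧ hl e c r q = 0

/-- there is a common zero -/
def Ez (e : ℕ → ℕ × ℕ) (c : Fin (m + 1) → F) (v w : F × F × F) : Prop := ∃ r q : F, Zz e c v w r q

/-- there is a common zero, or a discriminant vanishes -/
def Em1 (e : ℕ → ℕ × ℕ) (c : Fin (m + 1) → F) (v w : F × F × F) : Prop := Ez e c v w ∨ ds v = 0 ∨ ds w = 0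

end field

/-- the event described by a label -/
def Ev1 {F : Type} [CommRing F] {m : ℕ} (e : ℕ → ℕ × ℕ) (δ : F) (c : Fin (m + 1) → F) (v w : F × F × F) : Lb → Prop
  | Lb.O => ¬ Em1 e c v w
  | Lb.A => Ez e c v w
  | Lb.B => Ez e c v w
  | Lb.C0 => ds v = 0 ∧ Sq (δ * v.1)
  | Lb.C1 => ds w = 0 ∧ Sq (δ * w.1)

/-- the indicator function of the event of a label -/
noncomputable def gp1 {m : ℕ} (e : ℕ → ℕ × ℕ) (δ : ℤ) (l : Lb) (p : ℕ) (f : Vn m) (u : V × V) : ℝ :=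
  ind (Ev1 e (δ : ZMod p) (cN p f) (cV p u.1) (cV p u.2) l)

/-- the indicator function of `Em1` -/
noncomputable def xo1 {m : ℕ} (e : ℕ → ℕ × ℕ) (p : ℕ) (f : Vn m) (u : V × V) : ℝ :=
  ind (Em1 e (cN p f) (cV p u.1) (cV p u.2))

/-- the indicator function of `Ez` -/
noncomputable def ie1 {m : ℕ} (e : ℕ → ℕ × ℕ) (p : ℕ) (f : Vn m) (u : V × V) : ℝ :=
  ind (Ez e (cN p f) (cV p u.1) (cV p u.2))

/-- the upper bounds for the densities of the labels -/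
noncomputable def eb1 (l : Lb) (p : ℕ) : ℝ :=
  match l with
  | Lb.O => 1
  | Lb.A => 1 / (p : ℝ)
  | Lb.B => 1 / (p : ℝ)
  | Lb.C0 => 1 / (2 * (p : ℝ))
  | Lb.C1 => 1 / (2 * (p : ℝ))

/-- the lower bound for the density of `Em1` -/
noncomputable def dn3 (p : ℕ) : ℝ := 3 / (p : ℝ) - 5 / (p : ℝ) ^ 2

/-- the weights of the labels -/
noncomputable def yw1 (l : Lb) : ℝ :=
  match l with
  | Lb.O => 1
  | Lb.A => 1 / 2
  | Lb.B => 1 / 2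
  | Lb.C0 => 2
  | Lb.C1 => 2

/-- the product of the primes in `Q` with label `B` -/
def lpr1 (Q : Finset ℕ) (lam : ℕ → Lb) : ℕ := ∏ p ∈ Q.filter (fun p => lam p = Lb.B), p

/-- the integer `δ` of a structure -/
def dl1 (Q : Finset ℕ) (τ : ℤ) (κ : ℕ) (lam : ℕ → Lb) (D : ℕ) : ℤ := τ * ((κ * lpr1 Q lam * D : ℕ) : ℤ)

/-- the pairs of roots modulo `D` -/
def RS1 (D : ℕ) (u : V × V) : Finset (ℕ × ℕ) :=
  (range D ×ˢ range D).filter fun x => (D : ℤ) ∣ ev u.1 (x.1 : ℤ) ∧ (D : ℤ) ∣ ev u.2 (x.2 : ℤ)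

/-- the pair `(f, u)` has the structure given by the parameters -/
def Str1 {m : ℕ} (e : ℕ → ℕ × ℕ) (H q0 : ℕ) (Q : Finset ℕ) (τ : ℤ) (κ : ℕ) (lam : ℕ → Lb) (D : ℕ) (f : Vn m) (u : V × V) : Prop :=
  (∀ p : ℕ, p.Prime → p ∣ D → ¬ (p : ℤ) ∣ u.1.1 ∧ ¬ (p : ℤ) ∣ u.2.1) ∧
  (∃ x ∈ RS1 D u, (D : ℤ) ∣ evl (mo m e (x.1 : ℤ) (x.2 : ℤ)) f ∧ GoodL m H q0 D (mo m e (x.1 : ℤ) (x.2 : ℤ))) ∧
  (∀ p ∈ Q, Ev1 e ((dl1 Q τ κ lam D : ℤ) : ZMod p) (cN p f) (cV p u.1) (cV p u.2) (lam p))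

/-- the five quantities behave well at the prime `p` -/
def TypP1 {m : ℕ} (e : ℕ → ℕ × ℕ) (p : ℕ) (f : Vn m) (u : V × V) : Prop :=
  ¬ (Ez e (cN p f) (cV p u.1) (cV p u.2) ∧ ds (cV p u.1) = 0) ∧
  ¬ (Ez e (cN p f) (cV p u.1) (cV p u.2) ∧ ds (cV p u.2) = 0) ∧
  ¬ (ds (cV p u.1) = 0 ∧ ds (cV p u.2) = 0)

/-- the product of the primes of `Q` which have a label -/
noncomputable def Lpr1 {m : ℕ} (e : ℕ → ℕ × ℕ) (Q : Finset ℕ) (f : Vn m) (u : V × V) : ℕ :=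
  ∏ p ∈ Q.filter (fun p => Em1 e (cN p f) (cV p u.1) (cV p u.2)), p

/-- the number of primes of `Q` with `Ez` -/
noncomputable def nE1 {m : ℕ} (e : ℕ → ℕ × ℕ) (Q : Finset ℕ) (f : Vn m) (u : V × V) : ℕ :=
  (Q.filter (fun p => Ez e (cN p f) (cV p u.1) (cV p u.2))).card

/-- everything that holds for typical triples (`Q` is the set of the small primes) -/
def Typ1 {m : ℕ} (e : ℕ → ℕ × ℕ) (Q : Finset ℕ) (q1 : ℕ) (f : Vn m) (u : V × V) : Prop :=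
  (∀ p ∈ Q, TypP1 e p f u) ∧
  ((nE1 e Q f u : ℝ) ≤ 101 / 100 * ∑ p ∈ Q, 1 / (p : ℝ)) ∧
  (∀ j, 99 / 100 * ∑ p ∈ Q, 1 / (p : ℝ) ≤ (nD Q j u : ℝ)) ∧
  Lpr1 e Q f u ≤ q1 ∧ ¬ IsSquare (ds u.1) ∧ ¬ IsSquare (ds u.2) ∧ ¬ IsSquare (ds u.1 * ds u.2)

/-- the necessary conditions which follow from the local conditions -/
def Sel1 {m : ℕ} (e : ℕ → ℕ × ℕ) (P0 z0 P : ℕ) (f : Vn m) (u : V × V) : Prop :=
  ∃ δ : ℤ, Squarefree δ ∧ δ.natAbs ≤ P ∧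
    (∀ p : ℕ, p.Prime → P0 < p → (p : ℤ) ∣ δ →
      ¬ (p : ℤ) ∣ u.1.1 ∧ ¬ (p : ℤ) ∣ u.2.1 ∧ Ez e (cN p f) (cV p u.1) (cV p u.2)) ∧
    (∀ p ∈ PQ P0 z0, (p : ℤ) ∣ ds u.1 → Sq (((δ * u.1.1 : ℤ)) : ZMod p)) ∧
    (∀ p ∈ PQ P0 z0, (p : ℤ) ∣ ds u.2 → Sq (((δ * u.2.1 : ℤ)) : ZMod p))

end HNF
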