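import Pool.Agent.Lib.MP_1ad228_ntH.LA1

/-! JOB LA3 -/

set_option autoImplicit false

open Classical

namespace HNF

open Finset Polynomial FGO FQQ

/-- the valuation of an integer not divisible by `p` -/
private theorem LA3_val {p : ℕ} [Fact p.Prime] {m : ℤ} (hm : ¬ (p : ℤ) ∣ m) : ((m : ℤ) : ℚ_[p]).valuation = 0 := by
  rw [Padic.valuation_intCast, padicValInt.eq_zero_of_not_dvd hm]
  rfl

/-- the valuation of an integer exactly divisible by `p` -/
private theorem LA3_val1 {p : ℕ} [Fact p.Prime] {m : ℤ} (h1 : (p : ℤ) ∣ m) (h2 : ¬ (p : ℤ) ^ 2 ∣ m) :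
    ((m : ℤ) : ℚ_[p]).valuation = 1 := by
  have hm : m ≠ 0 := by
    rintro rfl
    exact h2 (dvd_zero _)
  obtain ⟨k, rfl⟩ := h1
  have hk : ¬ (p : ℤ) ∣ k := by
    intro hk
    apply h2
    rw [pow_two]
    exact mul_dvd_mul_left _ hk
  have hp0 : ((p : ℕ) : ℚ_[p]) ≠ 0 := by exact_mod_cast (Fact.out : p.Prime).ne_zero
  have hk0 : ((k : ℤ) : ℚ_[p]) ≠ 0 := by
    have : k ≠ 0 := right_ne_zero_of_mul hm
    exact_mod_cast this
  have e : (((p : ℤ) * k : ℤ) : ℚ_[p]) = ((p : ℕ) : ℚ_[p]) * ((k : ℤ) : ℚ_[p]) := by push_cast; ring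
  rw [e, Padic.valuation_mul hp0 hk0, Padic.valuation_p, LA3_val hk, add_zero]

/-- Proof. (Model: `FGO.pt_disc` in Al2c.lean.) `n = [K : ℚ_p]`. If `a ≠ 0`: `u = 4 c a = X² - d Y²`, `norm u = (4 c)^n * norm a` has even valuation (`p ∤ 4 c`), so it is a square (`FGO.norm_isSquare hp d h1 h2 X Y u`), and `4^n = (2^n)²`.
If `a = 0`: `P.val = b`, `X² = d Y²`, `Y ≠ 0`, `s = X / Y`, `s² = d`; `norm(s)² = d^n`, the valuation of `d` is `1`, so `n` is even and `c^n` is a square; `b = X'² - d Y'²` (`nf_trick`) and its norm has even valuation (`he`): it is a square by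
`FGO.norm_isSquare`. -/
theorem GP.sq_A {p : ℕ} [Fact p.Prime] (hp : p ≠ 2) (P : GP ℚ_[p]) (c d : ℤ) (hc : ¬ (p : ℤ) ∣ c)
    (h1 : (p : ℤ) ∣ d) (h2 : ¬ (p : ℤ) ^ 2 ∣ d) (h : P.NfA c d) (he : Even (Algebra.norm ℚ_[p] P.val).valuation) :
    IsSquare (Algebra.norm ℚ_[p] P.val * (c : ℚ_[p]) ^ Module.finrank ℚ_[p] P.K) := by
  have hch : CharZero P.K := charZero_of_injective_algebraMap (algebraMap ℚ_[p] P.K).injective
  have hpr : p.Prime := Fact.out
  have hpz : Prime (p : ℤ) := Nat.prime_iff_prime_int.1 hpr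
  have h2p : ¬ (p : ℤ) ∣ 2 := by
    intro h
    have h' : p ∣ 2 := by exact_mod_cast h
    exact hp ((Nat.prime_dvd_prime_iff_eq hpr Nat.prime_two).1 h')
  have h4p : ¬ (p : ℤ) ∣ 4 := by
    intro h
    have h' : (p : ℤ) ∣ 2 * 2 := by norm_num; exact h
    rcases hpz.dvd_or_dvd h' with h'' | h'' <;> exact h2p h''
  have hc0 : c ≠ 0 := fun h => hc (h ▸ dvd_zero _)
  have hcK : (c : P.K) ≠ 0 := by exact_mod_cast hc0
  have hcQ : (c : ℚ_[p]) ≠ 0 := by exact_mod_cast hc0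
  have hd0 : d ≠ 0 := fun h => h2 (h ▸ dvd_zero _)
  have hdK : (d : P.K) ≠ 0 := by exact_mod_cast hd0
  obtain ⟨X, Y, hXY, hne⟩ := h
  set n := Module.finrank ℚ_[p] P.K with hn
  by_cases ha : P.a = 0
  · have hval : P.val = P.b := by
      unfold GP.val
      rw [if_pos ha]
    have hb : P.b ≠ 0 := fun hb => P.ne ⟨ha, hb⟩
    have hX2 : X ^ 2 = (d : P.K) * Y ^ 2 := by
      rw [ha, mul_zero] at hXY
      linear_combination -hXY
    have hY : Y ≠ 0 := by
      intro hY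
      apply hne
      refine ⟨?_, hY⟩
      have h4 : X ^ 2 = 0 := by rw [hX2, hY]; ring
      exact pow_eq_zero_iff two_ne_zero |>.1 h4
    have hs2 : (X / Y) ^ 2 = (d : P.K) := by
      rw [div_pow, hX2]
      field_simp
    have hs0 : X / Y ≠ 0 := by
      intro h
      rw [h] at hs2
      apply hdK
      rw [← hs2]
      ring
    have hev : Even n := by
      have h3 : Algebra.norm ℚ_[p] (X / Y) ^ 2 = (d : ℚ_[p]) ^ n := by
        rw [← map_pow, hs2]
        have e : ((d : ℤ) : P.K) = algebraMap ℚ_[p] P.K ((d : ℤ) : ℚ_[p]) := by rw [map_intCast]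
        rw [e, Algebra.norm_algebraMap]
      have h4 := congrArg Padic.valuation h3
      rw [Padic.valuation_pow, Padic.valuation_pow, LA3_val1 h1 h2] at h4
      have h5 : Even ((n : ℕ) : ℤ) := ⟨(Algebra.norm ℚ_[p] (X / Y)).valuation, by
        push_cast at h4
        linarith⟩
      exact_mod_cast h5
    obtain ⟨X', Y', hb2⟩ := nf_trick (d : P.K) (X / Y) P.b hs0 hs2
    rw [hval] at he ⊢
    exact (norm_isSquare hp d h1 h2 X' Y' P.b hb hb2 he).mul (hev.isSquare_pow _)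
  · have hval : P.val = P.a := by
      unfold GP.val
      rw [if_neg ha]
    rw [hval] at he ⊢
    have e4 : (4 : P.K) * (c : P.K) = algebraMap ℚ_[p] P.K ((4 * c : ℤ) : ℚ_[p]) := by
      rw [map_intCast]
      push_cast
      ring
    have hu : 4 * (c : P.K) * P.a ≠ 0 := mul_ne_zero (mul_ne_zero (by norm_num) hcK) ha
    have hN : Algebra.norm ℚ_[p] (4 * (c : P.K) * P.a) =
        ((4 * c : ℤ) : ℚ_[p]) ^ n * Algebra.norm ℚ_[p] P.a := by
      rw [map_mul, e4, Algebra.norm_algebraMap]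
    have h4A : ¬ (p : ℤ) ∣ 4 * c := fun h => by
      rcases hpz.dvd_or_dvd h with h' | h'
      · exact h4p h'
      · exact hc h'
    have h40 : ((4 * c : ℤ) : ℚ_[p]) ≠ 0 := by
      have : (4 * c : ℤ) ≠ 0 := mul_ne_zero (by norm_num) hc0
      exact_mod_cast this
    have hNv : Algebra.norm ℚ_[p] P.a ≠ 0 := Algebra.norm_ne_zero_iff.2 ha
    have hev2 : Even (Algebra.norm ℚ_[p] (4 * (c : P.K) * P.a)).valuation := by
      rw [hN, Padic.valuation_mul (pow_ne_zero _ h40) hNv, Padic.valuation_pow, LA3_val h4A, mul_zero, zero_add]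
      exact he
    have hsq := norm_isSquare hp d h1 h2 X Y (4 * (c : P.K) * P.a) hu hXY hev2
    rw [hN] at hsq
    have e5 : ((4 * c : ℤ) : ℚ_[p]) ^ n * Algebra.norm ℚ_[p] P.a =
        (Algebra.norm ℚ_[p] P.a * (c : ℚ_[p]) ^ n) * ((2 : ℚ_[p]) ^ n * (2 : ℚ_[p]) ^ n) := by
      push_cast
      rw [mul_pow, ← mul_pow (2 : ℚ_[p])]
      norm_num
      ring
    rw [e5] at hsq
    exact ZG.isSquare_of_mul hsq ⟨_, rfl⟩ (mul_ne_zero (pow_ne_zero _ two_ne_zero) (pow_ne_zero _ two_ne_zero))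

/-- Proof. `GP.sq_A` for `P.swap`, `GP.norm_swap` (`ZG.isSquare_trans`), `GP.even_swap` (twice: `P.swap.swap.val = P.val`). -/
theorem GP.sq_B {p : ℕ} [Fact p.Prime] (hp : p ≠ 2) (P : GP ℚ_[p]) (c d : ℤ) (hc : ¬ (p : ℤ) ∣ c)
    (h1 : (p : ℤ) ∣ d) (h2 : ¬ (p : ℤ) ^ 2 ∣ d) (h : P.NfB c d) (he : Even (Algebra.norm ℚ_[p] P.val).valuation) :
    IsSquare (Algebra.norm ℚ_[p] P.val * (c : ℚ_[p]) ^ Module.finrank ℚ_[p] P.K) := by
  have h3 : Even (Algebra.norm ℚ_[p] P.swap.val).valuation := GP.even_swap P.swap he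
  have h4 : IsSquare (Algebra.norm ℚ_[p] P.swap.val * (c : ℚ_[p]) ^ Module.finrank ℚ_[p] P.K) :=
    GP.sq_A hp P.swap c d hc h1 h2 h h3
  exact ZG.isSquare_trans (GP.norm_swap P) h4 (Algebra.norm_ne_zero_iff.2 (GP.val_ne P.swap))

end HNF
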