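import Pool.Agent.Lib.MP_1ad228_ntH.LA1

/-! JOB LB1 -/

set_option autoImplicit false

open Classical

namespace HNF

open Finset Polynomial FGO FQQ

private theorem LB1_cons {F : Type} [Field F] (q : ℤ × GP F) (z : GC F) :
    GC.cls (q :: z : GC F) = (Algebra.norm F q.2.val) ^ q.1 * z.cls := by
  unfold GC.cls
  rw [List.map_cons, List.prod_cons]

private theorem LB1_nil {F : Type} [Field F] : GC.cls ([] : GC F) = 1 := by
  unfold GC.cls
  rw [List.map_nil, List.prod_nil]

theorem GC.cls_ne {F : Type} [Field F] (z : GC F) : z.cls ≠ 0 := by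
  induction z with
  | nil =>
    rw [LB1_nil]
    exact one_ne_zero
  | cons q z ih =>
    rw [LB1_cons]
    exact mul_ne_zero (zpow_ne_zero _ (Algebra.norm_ne_zero_iff.2 q.2.val_ne)) ih

/-- Proof. (Model: `FGO.cyc_even` in Al3.lean.) Induction over the list; `Padic.valuation_mul`, `Padic.valuation_zpow`. -/
theorem GC.even {p : ℕ} [Fact p.Prime] (z : GC ℚ_[p])
    (h : ∀ q ∈ z, Even (Algebra.norm ℚ_[p] q.2.val).valuation) : Even z.cls.valuation := by
  induction z with
  | nil =>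
    rw [LB1_nil, Padic.valuation_one]
    exact Even.zero
  | cons q z ih =>
    have h1 : Algebra.norm ℚ_[p] q.2.val ≠ 0 := Algebra.norm_ne_zero_iff.2 q.2.val_ne
    have h2 : GC.cls z ≠ 0 := GC.cls_ne z
    rw [LB1_cons, Padic.valuation_mul (zpow_ne_zero _ h1) h2, Padic.valuation_zpow]
    exact ((h q List.mem_cons_self).mul_left _).add (ih fun r hr => h r (List.mem_cons_of_mem _ hr))

/-- Proof. (Model: `FGO.cyc_disc` in Al3.lean.) By induction over the list: `IsSquare (z.cls * c ^ z.deg)`; then `deg = 1`. -/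
theorem GC.sq {p : ℕ} [Fact p.Prime] (z : GC ℚ_[p]) (c : ℤ) (hc : c ≠ 0)
    (h : ∀ q ∈ z, IsSquare (Algebra.norm ℚ_[p] q.2.val * (c : ℚ_[p]) ^ Module.finrank ℚ_[p] q.2.K)) (hz : z.deg = 1) :
    IsSquare (z.cls * (c : ℚ_[p])) := by
  have hc0 : (c : ℚ_[p]) ≠ 0 := by exact_mod_cast hc
  have key : ∀ z : GC ℚ_[p],
      (∀ q ∈ z, IsSquare (Algebra.norm ℚ_[p] q.2.val * (c : ℚ_[p]) ^ Module.finrank ℚ_[p] q.2.K)) →
      IsSquare (z.cls * (c : ℚ_[p]) ^ z.deg) := by
    intro z
    induction z with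
    | nil =>
      intro _
      have h3 : GC.deg ([] : GC ℚ_[p]) = 0 := by
        unfold GC.deg
        rw [List.map_nil, List.sum_nil]
      rw [LB1_nil, h3, zpow_zero, mul_one]
      exact IsSquare.one
    | cons q z ih =>
      intro hh
      have h3 : GC.deg (q :: z : GC ℚ_[p]) = q.1 * (Module.finrank ℚ_[p] q.2.K : ℤ) + GC.deg z := by
        unfold GC.deg
        rw [List.map_cons, List.sum_cons]
      have h4 := (hh q List.mem_cons_self).zpow q.1
      have h5 : GC.cls (q :: z : GC ℚ_[p]) * (c : ℚ_[p]) ^ GC.deg (q :: z : GC ℚ_[p]) =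
          (Algebra.norm ℚ_[p] q.2.val * (c : ℚ_[p]) ^ Module.finrank ℚ_[p] q.2.K) ^ q.1 *
            (GC.cls z * (c : ℚ_[p]) ^ GC.deg z) := by
        rw [LB1_cons, h3, zpow_add₀ hc0, mul_zpow, mul_comm q.1, zpow_mul, zpow_natCast]
        ring
      rw [h5]
      exact h4.mul (ih fun r hr => hh r (List.mem_cons_of_mem _ hr))
  have h6 := key z h
  rw [hz, zpow_one] at h6
  exact h6

end HNF
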