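import Pool.Agent.Lib.MP_1ad228_ntH.LA2
import Pool.Agent.Lib.MP_1ad228_ntH.LA3
import Pool.Agent.Lib.MP_1ad228_ntH.LB1

/-! JOB LC1 -/

set_option autoImplicit false

open Classical

namespace HNF

open Finset Polynomial FGO FQQ

private theorem LC1_sq_div {F : Type} [Field F] {c x : F} (hc : c ≠ 0) (h : IsSquare (c * c * x)) :
    IsSquare x := by
  obtain ⟨r, hr⟩ := h
  refine ⟨r / c, ?_⟩
  field_simp
  linear_combination hr

private theorem LC1_val {p : ℕ} [hp : Fact p.Prime] {n : ℤ} (hn : n ≠ 0) (h1 : (p : ℤ) ∣ n)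
    (h2 : ¬ (p : ℤ) ^ 2 ∣ n) : (n : ℚ_[p]).valuation = 1 := by
  obtain ⟨m, rfl⟩ := h1
  have hm : ¬ (p : ℤ) ∣ m := by
    intro hm
    exact h2 (by rw [sq]; exact mul_dvd_mul_left _ hm)
  have hm0 : m ≠ 0 := by
    rintro rfl
    exact hm (dvd_zero _)
  have hp0 : ((p : ℤ) : ℚ_[p]) ≠ 0 := by
    exact_mod_cast hp.out.ne_zero
  have hm1 : (m : ℚ_[p]) ≠ 0 := by exact_mod_cast hm0
  rw [Int.cast_mul, Padic.valuation_mul hp0 hm1, Int.cast_natCast, Padic.valuation_p,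
    Padic.valuation_intCast, padicValInt.eq_zero_of_not_dvd hm]
  rfl

/-- Proof. (Model: `FGO.adelic_arith` in Al3d.lean.) `ZC.dual (fun p _ => (z p).cls) z₀.cls` with `T` = the prime factors of `R` (for `p ∉ T`: `GP.even_of_Ev`, `GC.even`) gives a squarefree `β` such that `(z p).cls * β` is a square for all `p`.
If a prime `p` divides `β` then the valuation of `(z p).cls` is odd (the valuation of `β` is `1`). So (1) `p ∣ R` (otherwise even); if `p ≠ 2`, `p ∤ v.1` and `jacobiSym (ds v) p = -1` then it would be even by `GP.even_nonresA` (`hA`); the same with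
`hB`, `GP.even_nonresB` for `w`. (2) `p ≠ 2`, `p ∤ R`, `p ∥ ds v`, `p ∤ v.1`: `(z p).cls * v.1` is a square (`GC.sq`, `GP.sq_A`, `GP.even_of_Ev`), so `β * v.1` is a square in `ℚ_p` (`ZG.isSquare_trans`), prime to `p` (`p ∤ β` as `p ∤ R`):
`ZC.isSquare_int_iff`. (3) the same with `GP.sq_B`. -/
theorem arith_of {R : ℤ} (hR : R ≠ 0) (v w : V) (z : ∀ (p : ℕ) [Fact p.Prime], GC ℚ_[p]) (z₀ : GC ℝ)
    (hz : ∀ (p : ℕ) [Fact p.Prime], (z p).deg = 1)
    (hs : ∀ β : ℚ, β ≠ 0 → ZC.SumZero (fun p _ => (z p).cls) z₀.cls β)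
    (hE : ∀ (p : ℕ) [Fact p.Prime], ¬ (p : ℤ) ∣ R → ∀ q ∈ z p, q.2.Ev)
    (hA : ∀ (p : ℕ) [Fact p.Prime], ∀ q ∈ z p, q.2.NfA v.1 (ds v))
    (hB : ∀ (p : ℕ) [Fact p.Prime], ∀ q ∈ z p, q.2.NfB w.1 (ds w)) :
    ∃ β : ℤ, Squarefree β ∧ Cn R v w β := by
  have hc : ∀ (p : ℕ) [Fact p.Prime], (z p).cls ≠ 0 := fun p _ => GC.cls_ne (z p)
  have hev : ∀ (p : ℕ) [Fact p.Prime], ¬ (p : ℤ) ∣ R → ∀ q ∈ z p, Even (Algebra.norm ℚ_[p] q.2.val).valuation :=
    fun p _ hp q hq => GP.even_of_Ev q.2 (hE p hp q hq)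
  have hT : ∀ (p : ℕ) [Fact p.Prime], p ∉ R.natAbs.primeFactors → Even ((z p).cls).valuation := by
    intro p hp hpT
    refine GC.even (z p) (hev p ?_)
    intro hd
    exact hpT (Nat.mem_primeFactors.2 ⟨hp.out, Int.natCast_dvd.1 hd, Int.natAbs_ne_zero.2 hR⟩)
  obtain ⟨β, hβ, hsq⟩ := ZC.dual (fun p _ => (z p).cls) z₀.cls (fun p _ => hc p) (GC.cls_ne z₀) _ hT hs
  have hβ0 : β ≠ 0 := hβ.ne_zero
  -- the class has odd valuation at the prime factors of `β`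
  have hodd : ∀ p : ℕ, ∀ hp : p.Prime, (p : ℤ) ∣ β → ¬ (haveI : Fact p.Prime := ⟨hp⟩; Even ((z p).cls).valuation) := by
    intro p hp hpβ e2
    have : Fact p.Prime := ⟨hp⟩
    have hβp : (β : ℚ_[p]) ≠ 0 := by exact_mod_cast hβ0
    have e1 := even_of_sq (mul_ne_zero (hc p) hβp) (hsq p)
    have hnp : ¬ (p : ℤ) ^ 2 ∣ β := by
      intro hd
      rw [sq] at hd
      have hu := hβ _ hd
      exact (Nat.prime_iff_prime_int.1 hp).not_isUnit hu
    rw [Padic.valuation_mul (hc p) hβp, LC1_val hβ0 hpβ hnp] at e1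
    exact Int.not_even_iff_odd.2 (Even.add_one e2) e1
  refine ⟨β, hβ, ?_, ?_, ?_⟩
  · intro p hp hpβ
    have : Fact p.Prime := ⟨hp⟩
    refine ⟨?_, ?_, ?_⟩
    · by_contra hpr
      exact hodd p hp hpβ (GC.even (z p) (hev p hpr))
    · intro hp2 hpv hj
      exact hodd p hp hpβ (GC.even (z p) fun q hq => GP.even_nonresA hp2 q.2 v.1 (ds v) hpv hj (hA p q hq))
    · intro hp2 hpw hj
      exact hodd p hp hpβ (GC.even (z p) fun q hq => GP.even_nonresB hp2 q.2 w.1 (ds w) hpw hj (hB p q hq))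
  · intro p hp hp2 hpr h1 h2 hA1
    have : Fact p.Prime := ⟨hp⟩
    have hv0 : v.1 ≠ 0 := fun h => hA1 (by rw [h]; exact dvd_zero _)
    have k1 : IsSquare ((z p).cls * ((v.1 : ℤ) : ℚ_[p])) :=
      GC.sq (z p) v.1 hv0 (fun q hq => GP.sq_A hp2 q.2 v.1 (ds v) hA1 h1 h2 (hA p q hq) (hev p hpr q hq)) (hz p)
    have k2 : IsSquare ((z p).cls * (β : ℚ_[p])) := hsq p
    have k3 : IsSquare (((β * v.1 : ℤ)) : ℚ_[p]) := by
      refine LC1_sq_div (hc p) ?_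
      have e : (z p).cls * (z p).cls * ((β * v.1 : ℤ) : ℚ_[p])
          = ((z p).cls * ((v.1 : ℤ) : ℚ_[p])) * ((z p).cls * (β : ℚ_[p])) := by
        push_cast
        ring
      rw [e]
      exact k1.mul k2
    refine (ZC.isSquare_int_iff hp2 _ ?_).1 k3
    intro hd
    rcases (Nat.prime_iff_prime_int.1 hp).dvd_or_dvd hd with hd | hd
    · exact hodd p hp hd (GC.even (z p) (hev p hpr))
    · exact hA1 hd
  · intro p hp hp2 hpr h1 h2 hA1
    have : Fact p.Prime := ⟨hp⟩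
    have hw0 : w.1 ≠ 0 := fun h => hA1 (by rw [h]; exact dvd_zero _)
    have k1 : IsSquare ((z p).cls * ((w.1 : ℤ) : ℚ_[p])) :=
      GC.sq (z p) w.1 hw0 (fun q hq => GP.sq_B hp2 q.2 w.1 (ds w) hA1 h1 h2 (hB p q hq) (hev p hpr q hq)) (hz p)
    have k2 : IsSquare ((z p).cls * (β : ℚ_[p])) := hsq p
    have k3 : IsSquare (((β * w.1 : ℤ)) : ℚ_[p]) := by
      refine LC1_sq_div (hc p) ?_
      have e : (z p).cls * (z p).cls * ((β * w.1 : ℤ) : ℚ_[p])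
          = ((z p).cls * ((w.1 : ℤ) : ℚ_[p])) * ((z p).cls * (β : ℚ_[p])) := by
        push_cast
        ring
      rw [e]
      exact k1.mul k2
    refine (ZC.isSquare_int_iff hp2 _ ?_).1 k3
    intro hd
    rcases (Nat.prime_iff_prime_int.1 hp).dvd_or_dvd hd with hd | hd
    · exact hodd p hp hd (GC.even (z p) (hev p hpr))
    · exact hA1 hd

end HNF
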