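import Mathlib

/-!
# MP_1ad228_nt: zero-cycles on the curves `y² = v(x, z) w(G₁(x, z), G₂(x, z))`: the definitions of the statement

`v`, `w` are binary quadratic forms, `G₁`, `G₂` binary forms of degree `g`, all over `ℤ`; the curve is hyperelliptic of genus `g`.
-/

set_option autoImplicit false

namespace HNF

/-- the data of a curve: `((v, w), (G₁, G₂))`; `v = (a, b, c)` is the form `a x² + b x z + c z²`, and `G i` is the coefficient
of `x^i z^(g - i)` -/
abbrev Dt (g : ℕ) : Type :=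
  ((ℤ × ℤ × ℤ) × (ℤ × ℤ × ℤ)) × ((Fin (g + 1) → ℤ) × (Fin (g + 1) → ℤ))

section ring

variable {F : Type} [CommRing F]

/-- the value of the quadratic form `v` at `(x, z)` -/
def vV (v : ℤ × ℤ × ℤ) (x z : F) : F := (v.1 : F) * x ^ 2 + (v.2.1 : F) * x * z + (v.2.2 : F) * z ^ 2

/-- the value of the form `G` of degree `g` at `(x, z)` -/
def vG {g : ℕ} (G : Fin (g + 1) → ℤ) (x z : F) : F := ∑ i : Fin (g + 1), (G i : F) * x ^ (i : ℕ) * z ^ (g - (i : ℕ))

/-- the value of `w(G₁, G₂)` at `(x, z)` -/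
def vH {g : ℕ} (q : Dt g) (x z : F) : F := vV q.1.2 (vG q.2.1 x z) (vG q.2.2 x z)

end ring

/-- A point of the curve `y² = v(x, z) w(G₁(x, z), G₂(x, z))` with coordinates in a finite extension `K` of `F`. -/
structure Pt (F : Type) [Field F] {g : ℕ} (q : Dt g) where
  K : Type
  [field : Field K]
  [alg : Algebra F K]
  [fin : FiniteDimensional F K]
  x : K
  z : K
  y : K
  ne : ¬ (x = 0 ∧ z = 0)
  eq : y ^ 2 = vV q.1.1 x z * vH q x z

attribute [instance] Pt.field Pt.alg Pt.fin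

open Classical in
/-- The value at `P` of the function `v`, up to squares.  (If `v` vanishes at `P` we use `w(G₁, G₂)`, which is the same function
up to squares, since the product of the two is `y²`.) -/
noncomputable def Pt.val {F : Type} [Field F] {g : ℕ} {q : Dt g} (P : Pt F q) : P.K :=
  if vV q.1.1 P.x P.z = 0 then vH q P.x P.z else vV q.1.1 P.x P.z

/-- A zero-cycle on the curve over `F`: a formal integral combination of points over finite extensions. -/
abbrev Cyc (F : Type) [Field F] {g : ℕ} (q : Dt g) := List (ℤ × Pt F q)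

/-- The degree of a zero-cycle. -/
noncomputable def Cyc.deg {F : Type} [Field F] {g : ℕ} {q : Dt g} (z : Cyc F q) : ℤ :=
  (z.map fun r => r.1 * (Module.finrank F r.2.K : ℤ)).sum

/-- The value of the function `v` at a zero-cycle, an element of `F*` modulo squares: for every `β ∈ F*` the value
of the Brauer class `(v, β)` at the zero-cycle is the class of the quaternion algebra `(z.cls, β)`. -/
noncomputable def Cyc.cls {F : Type} [Field F] {g : ℕ} {q : Dt g} (z : Cyc F q) : F :=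
  (z.map fun r => (Algebra.norm F r.2.val) ^ r.1).prod

/-- The conic `u x² + β y² = t²` has a point over `F`, i.e. the quaternion algebra `(u, β)` over `F` is split
(for `u, β ≠ 0`). -/
def Split (F : Type) [Field F] (u β : F) : Prop :=
  ∃ x y t : F, ¬ (x = 0 ∧ y = 0 ∧ t = 0) ∧ u * x ^ 2 + β * y ^ 2 = t ^ 2

/-- The primes at which the quaternion algebra `(c_p, β)` is not split. -/
def badPrimes (c : ∀ (p : ℕ) [Fact p.Prime], ℚ_[p]) (β : ℚ) : Set ℕ :=
  {p | ∃ _ : Fact p.Prime, ¬ Split ℚ_[p] (c p) (β : ℚ_[p])}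

/-- The sum of the local invariants of `(c_v, β)` over all places is zero: only finitely many are nonzero, and the number
of the nonzero ones (real place included) is even. -/
def SumZero (c : ∀ (p : ℕ) [Fact p.Prime], ℚ_[p]) (c₀ : ℝ) (β : ℚ) : Prop :=
  (badPrimes c β).Finite ∧ (Even (badPrimes c β).ncard ↔ Split ℝ c₀ (β : ℝ))

/-- There is a family of zero-cycles of degree one, one for each place of `ℚ`, which is orthogonal to all the Brauer
classes `(v, β)`, `β ∈ ℚ*`. -/
def Adelic {g : ℕ} (q : Dt g) : Prop :=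
  ∃ (z : ∀ (p : ℕ) [Fact p.Prime], Cyc ℚ_[p] q) (z₀ : Cyc ℝ q),
    (∀ (p : ℕ) [Fact p.Prime], (z p).deg = 1) ∧ z₀.deg = 1 ∧
    ∀ β : ℚ, β ≠ 0 → SumZero (fun p _ => (z p).cls) z₀.cls β

/-- There is a zero-cycle of degree one over `ℚ`. -/
def Global {g : ℕ} (q : Dt g) : Prop :=
  ∃ z : Cyc ℚ q, z.deg = 1

/-- The coefficients of `v`, `w` are at most `N`, those of `G₁`, `G₂` at most `H` in absolute value. -/
def InBox {g : ℕ} (H N : ℕ) (q : Dt g) : Prop :=
  (|q.1.1.1| ≤ N ∧ |q.1.1.2.1| ≤ N ∧ |q.1.1.2.2| ≤ N) ∧ (|q.1.2.1| ≤ N ∧ |q.1.2.2.1| ≤ N ∧ |q.1.2.2.2| ≤ N) ∧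
    (∀ i, |q.2.1 i| ≤ H) ∧ (∀ i, |q.2.2 i| ≤ H)

/-- The curve has a point over the field `F`. -/
def HasPoint (F : Type) [Field F] {g : ℕ} (q : Dt g) : Prop :=
  ∃ x z y : F, ¬ (x = 0 ∧ z = 0) ∧ y ^ 2 = vV q.1.1 x z * vH q x z

open Polynomial in
/-- The form `v w(G₁, G₂)`, of degree `2 g + 2`, has no multiple factors over `ℚ` and its leading coefficient is not zero:
the curve is smooth of genus `g`. -/
def Smooth {g : ℕ} (q : Dt g) : Prop :=
  q.1.1.1 ≠ 0 ∧ vV q.1.2 (q.2.1 (Fin.last g)) (q.2.2 (Fin.last g)) ≠ 0 ∧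
    Squarefree ((vV q.1.1 X 1 : ℚ[X]) * vH q X 1)

end HNF
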