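import Pool.Agent.Lib.MP_1ad228_ntH.Defs
import Pool.Agent.Lib.MP_1ad228_ntH.HDefs

/-!
# MP_1ad228_nt, the curves `y² = v(x, z) w(G₁(x, z), G₂(x, z))`: the form `h = w(G₁, G₂)`, the resultant, the coordinates
-/

set_option autoImplicit false

open Classical

namespace HNF

open Finset Polynomial FGO FQQ

/-- the coefficients of the form `w(A, B)` of degree `2 g` -/
def hw {F : Type} [CommRing F] {g : ℕ} (w : F × F × F) (A B : Fin (g + 1) → F) : Fin (2 * g + 1) → F :=
  fun i => ∑ j : Fin (g + 1), ∑ k : Fin (g + 1),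
    if (j : ℕ) + (k : ℕ) = (i : ℕ) then w.1 * (A j * A k) + w.2.1 * (A j * B k) + w.2.2 * (B j * B k) else 0

/-- the monomials `r^a q^b`, `b ≤ 1`, in the order `1, r, q, r q, r², r² q, …` -/
def eH (j : ℕ) : ℕ × ℕ := if j = 1 then (1, 0) else if j = 2 then (0, 1) else (j / 2, j % 2)

/-- extension of a vector by zero -/
def ex {F : Type} [Zero F] {m : ℕ} (c : Fin (m + 1) → F) (n : ℕ) : F := if h : n < m + 1 then c ⟨n, h⟩ else 0

/-- the form `G₁` of the vector `c` -/
def gA {F : Type} [CommRing F] {g : ℕ} (c : Fin (2 * g + 1 + 1) → F) : Fin (g + 1) → F :=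
  fun i => ex c (if (i : ℕ) = 1 then 1 else 2 * (i : ℕ))

/-- the form `G₂` of the vector `c` -/
def gB {F : Type} [CommRing F] {g : ℕ} (c : Fin (2 * g + 1 + 1) → F) : Fin (g + 1) → F :=
  fun i => - ex c (if (i : ℕ) = 0 then 2 else 2 * (i : ℕ) + 1)

/-- the resultant of `h = w(A, B)` and `v` -/
noncomputable def Rg {F : Type} [CommRing F] {g : ℕ} (A B : Fin (g + 1) → F) (v w : F × F × F) : F := Rs (hw w A B) v

/-- `A`, `B` have no common zero in any field of characteristic zero -/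
def NoCz {g : ℕ} (A B : Vn g) : Prop :=
  ∀ (K : Type) [Field K] [CharZero K] (x z : K), ¬ (x = 0 ∧ z = 0) → ¬ (vG A x z = 0 ∧ vG B x z = 0)

/-- the resultant of the curve `q` -/
noncomputable def Rq {g : ℕ} (q : Dt g) : ℤ := Rg q.2.1 q.2.2 q.1.1 q.1.2

end HNF
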