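import Pool.Agent.Lib.MP_1ad228_ntH.HA1
import Pool.Agent.Lib.MP_10e784_agF.RE

/-! JOB HB3 -/

set_option autoImplicit false

open Classical

namespace HNF

open Finset Polynomial FGO FQQ

theorem HB3_box {N : ℕ} {v : V} (hv : v ∈ box N) :
    |v.1| ≤ (N : ℤ) ∧ |v.2.1| ≤ (N : ℤ) ∧ |v.2.2| ≤ (N : ℤ) := by
  unfold FGO.box at hv
  rw [Finset.mem_product, Finset.mem_product, Finset.mem_Icc, Finset.mem_Icc, Finset.mem_Icc] at hv
  exact ⟨abs_le.2 hv.1, abs_le.2 hv.2.1, abs_le.2 hv.2.2⟩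

theorem HB3_term (a x y H N : ℤ) (ha : |a| ≤ N) (hx : |x| ≤ H) (hy : |y| ≤ H) (hH : 0 ≤ H) (hN : 0 ≤ N) :
    |a * (x * y)| ≤ N * H ^ 2 := by
  rw [abs_mul, abs_mul, pow_two]
  exact mul_le_mul ha (mul_le_mul hx hy (abs_nonneg _) hH) (mul_nonneg (abs_nonneg _) (abs_nonneg _)) hN

theorem HB3_coeff {g : ℕ} (A B : Vn g) (w : V) (H N : ℕ) (hA : ∀ i, |A i| ≤ (H : ℤ)) (hB : ∀ i, |B i| ≤ (H : ℤ))
    (hw1 : w ∈ box N) (i : Fin (2 * g + 1)) :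
    |hw w A B i| ≤ ((3 * (g + 1) ^ 2 * N * H ^ 2 : ℕ) : ℤ) := by
  obtain ⟨h1, h2, h3⟩ := HB3_box hw1
  have hH : (0 : ℤ) ≤ H := Int.natCast_nonneg H
  have hN : (0 : ℤ) ≤ N := Int.natCast_nonneg N
  have ht : ∀ j k : Fin (g + 1),
      |if (j : ℕ) + (k : ℕ) = (i : ℕ) then w.1 * (A j * A k) + w.2.1 * (A j * B k) + w.2.2 * (B j * B k) else 0| ≤
        3 * ((N : ℤ) * (H : ℤ) ^ 2) := by
    intro j k
    split_ifs
    · have e1 := HB3_term w.1 (A j) (A k) H N h1 (hA j) (hA k) hH hN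
      have e2 := HB3_term w.2.1 (A j) (B k) H N h2 (hA j) (hB k) hH hN
      have e3 := HB3_term w.2.2 (B j) (B k) H N h3 (hB j) (hB k) hH hN
      have e4 := abs_add_le (w.1 * (A j * A k) + w.2.1 * (A j * B k)) (w.2.2 * (B j * B k))
      have e5 := abs_add_le (w.1 * (A j * A k)) (w.2.1 * (A j * B k))
      linarith
    · rw [abs_zero]
      positivity
  unfold hw
  calc |∑ j : Fin (g + 1), ∑ k : Fin (g + 1),
        if (j : ℕ) + (k : ℕ) = (i : ℕ) then w.1 * (A j * A k) + w.2.1 * (A j * B k) + w.2.2 * (B j * B k) else 0|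
      ≤ ∑ j : Fin (g + 1), |∑ k : Fin (g + 1),
        if (j : ℕ) + (k : ℕ) = (i : ℕ) then w.1 * (A j * A k) + w.2.1 * (A j * B k) + w.2.2 * (B j * B k) else 0| :=
        Finset.abs_sum_le_sum_abs _ _
    _ ≤ ∑ j : Fin (g + 1), ∑ k : Fin (g + 1),
        |if (j : ℕ) + (k : ℕ) = (i : ℕ) then w.1 * (A j * A k) + w.2.1 * (A j * B k) + w.2.2 * (B j * B k) else 0| :=
        Finset.sum_le_sum fun j _ => Finset.abs_sum_le_sum_abs _ _
    _ ≤ ∑ j : Fin (g + 1), ∑ k : Fin (g + 1), 3 * ((N : ℤ) * (H : ℤ) ^ 2) :=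
        Finset.sum_le_sum fun j _ => Finset.sum_le_sum fun k _ => ht j k
    _ = ((3 * (g + 1) ^ 2 * N * H ^ 2 : ℕ) : ℤ) := by
        rw [Finset.sum_const, Finset.sum_const, Finset.card_univ, Fintype.card_fin, nsmul_eq_mul, nsmul_eq_mul]
        push_cast
        ring

/-- Proof. Each coefficient of `hw w A B` is a sum of at most `(g + 1)²` terms of absolute value `≤ 3 N H²`; `FQQ.abs_Rs_le` (file RE) with `m = 2 g` and `H' = 3 (g + 1)² N H²`: `|R| ≤ (2 g + 2)! H'² N^(2 g)`. -/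
theorem abs_Rg_le {g : ℕ} (A B : Vn g) (v w : V) (H N : ℕ) (hA : ∀ i, |A i| ≤ (H : ℤ)) (hB : ∀ i, |B i| ≤ (H : ℤ))
    (hv : v ∈ box N) (hw1 : w ∈ box N) :
    |Rg A B v w| ≤ ((2 * g + 2).factorial * (3 * (g + 1) ^ 2) ^ 2 : ℕ) * (H : ℤ) ^ 4 * (N : ℤ) ^ (2 * g + 2) := by
  obtain ⟨h1, h2, h3⟩ := HB3_box hv
  have h4 := abs_Rs_le (m := 2 * g) (hw w A B) v (3 * (g + 1) ^ 2 * N * H ^ 2) N
    (fun i => HB3_coeff A B w H N hA hB hw1 i) h1 h2 h3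
  unfold Rg
  refine h4.trans (le_of_eq ?_)
  push_cast
  ring

end HNF
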