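import Pool.Agent.Lib.MP_1ad228_ntH.A5
import Pool.Agent.Lib.MP_10e784_agF.KT3
import Pool.Agent.Lib.MP_10e784_agF.LS

/-! JOB TA -/

set_option autoImplicit false

open Classical

namespace HNF

open Finset Polynomial FGO FQQ

theorem TA_sum {m H N : ℕ} (φ : Vn m → V × V → ℝ) :
    ∑ g ∈ Bx m H N, φ g.1 g.2 = ∑ u ∈ box2 N, ∑ f ∈ boxN m H, φ f u := by
  unfold Bx
  rw [Finset.sum_product]
  exact Finset.sum_comm

theorem TA_card {m H N : ℕ} (P : Vn m → V × V → Prop)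
    {_ : DecidablePred fun g : Vn m × (V × V) => P g.1 g.2} :
    (((Bx m H N).filter fun g => P g.1 g.2).card : ℝ) =
      ∑ u ∈ box2 N, ∑ f ∈ boxN m H, ind (P f u) := by
  rw [← TA_sum (fun f u => ind (P f u)), ← Finset.sum_boole]
  refine Finset.sum_congr rfl fun g _ => ?_
  unfold ind
  by_cases h : P g.1 g.2
  · rw [if_pos h, if_pos h]
  · rw [if_neg h, if_neg h]

theorem TA_union {m H N : ℕ} (Q : Finset ℕ) (P : ℕ → Vn m → V × V → Prop)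
    {_ : DecidablePred fun g : Vn m × (V × V) => ∃ p ∈ Q, P p g.1 g.2} :
    (((Bx m H N).filter fun g => ∃ p ∈ Q, P p g.1 g.2).card : ℝ) ≤
      ∑ p ∈ Q, ∑ u ∈ box2 N, ∑ f ∈ boxN m H, ind (P p f u) := by
  rw [TA_card (fun f u => ∃ p ∈ Q, P p f u), Finset.sum_comm (s := Q)]
  refine Finset.sum_le_sum fun u _ => ?_
  rw [Finset.sum_comm (s := Q)]
  refine Finset.sum_le_sum fun f _ => ?_
  by_cases h : ∃ p ∈ Q, P p f u
  · obtain ⟨p, hp, hP⟩ := h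
    refine (ind_le_one _).trans ?_
    have h1 : (1 : ℝ) = ind (P p f u) := by
      unfold ind
      rw [if_pos hP]
    rw [h1]
    exact Finset.single_le_sum (f := fun p => ind (P p f u)) (fun q _ => ind_nonneg _) hp
  · have h1 : ind (∃ p ∈ Q, P p f u) = 0 := by
      unfold ind
      rw [if_neg h]
    rw [h1]
    exact Finset.sum_nonneg fun q _ => ind_nonneg _

theorem TA_inv_sq (Q : Finset ℕ) (hQ : ∀ p ∈ Q, p.Prime) :
    ∑ p ∈ Q, 1 / (p : ℝ) ^ 2 ≤ 1 := by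
  have h1 : Q ⊆ Finset.Ioc 1 (Q.sup id + 1) := by
    intro p hp
    rw [Finset.mem_Ioc]
    have h2 : p ≤ Q.sup id := Finset.le_sup (f := id) hp
    exact ⟨(hQ p hp).one_lt, by omega⟩
  have h2 : ∑ p ∈ Q, 1 / (p : ℝ) ^ 2 ≤ ∑ p ∈ Finset.Ioc 1 (Q.sup id + 1), ((p : ℝ) ^ 2)⁻¹ := by
    refine (Finset.sum_le_sum_of_subset_of_nonneg h1 fun p _ _ => by positivity).trans (le_of_eq ?_)
    exact Finset.sum_congr rfl fun p _ => one_div _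
  have h3 := sum_Ioc_inv_sq_le_sub (α := ℝ) (k := 1) (n := Q.sup id + 1) one_ne_zero (by omega)
  have h4 : (0 : ℝ) ≤ ((Q.sup id + 1 : ℕ) : ℝ)⁻¹ := by positivity
  rw [Nat.cast_one, inv_one] at h3
  linarith

theorem TA_cast (Q : Finset ℕ) (P : ℕ → Prop) {_ : DecidablePred P} :
    ((Q.filter P).card : ℝ) = ∑ p ∈ Q, ind (P p) := by
  rw [← Finset.sum_boole]
  refine Finset.sum_congr rfl fun p _ => ?_
  unfold ind
  by_cases h : P p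
  · rw [if_pos h, if_pos h]
  · rw [if_neg h, if_neg h]

/-- Proof. `box3_mean` for each `p` (`p² ≤ 4N`), `E3_typ`, union bound. -/
theorem typ_card1 {m H N : ℕ} {e : ℕ → ℕ × ℕ} (he : Mon m e) (hN : 0 < N) (hH : N ≤ H) (Q : Finset ℕ)
    (hQ : ∀ p ∈ Q, p.Prime ∧ p ≠ 2 ∧ p ≤ 4 * N) :
    (((Bx m H N).filter fun g => ∃ p ∈ Q, ¬ TypP1 e p g.1 g.2).card : ℝ) ≤
      (8 * (H : ℝ)) ^ (m + 1) * (8 * (N : ℝ)) ^ 6 * (3 * ∑ p ∈ Q, 1 / (p : ℝ) ^ 2) := by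
  refine (TA_union Q (fun p f u => ¬ TypP1 e p f u)).trans ?_
  have h1 : (8 * (H : ℝ)) ^ (m + 1) * (8 * (N : ℝ)) ^ 6 * (3 * ∑ p ∈ Q, 1 / (p : ℝ) ^ 2) =
      ∑ p ∈ Q, (8 * (H : ℝ)) ^ (m + 1) * (8 * (N : ℝ)) ^ 6 * (3 / (p : ℝ) ^ 2) := by
    rw [Finset.mul_sum, Finset.mul_sum]
    refine Finset.sum_congr rfl fun p _ => ?_
    rw [mul_one_div]
  rw [h1]
  refine Finset.sum_le_sum fun p hp => ?_
  obtain ⟨hp1, hp2, hp3⟩ := hQ p hp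
  obtain ⟨hT1, hT2⟩ := E3_typ1 he p hp1 hp2
  refine (box3_mean hN hH hp1.pos hp3 (fun (f : Vn m) u => ind (¬ TypP1 e p f u))
    (fun f u => ind_nonneg _) hT1).trans ?_
  exact mul_le_mul_of_nonneg_left hT2 (by positivity)

/-- Proof. `S = ∑ 1/p`, `nE = ∑_p ie i p`, mean value `μ ≤ S + ∑ 1/p² ≤ S + 1`. If `nE > 101/100 S` then the deviation is `≥ S/100 - 1 ≥ S/200` (`S ≥ 200`). `cheb3` with `T = S/200`: `≤ .. (S + 1)/(S/200)² ≤ .. 80000/S`. -/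
theorem nE_card1 {m H N : ℕ} {e : ℕ → ℕ × ℕ} (he : Mon m e) (hN : 0 < N) (hH : N ≤ H) (Q : Finset ℕ) (hQ : ∀ p ∈ Q, p.Prime)
    (hQ2 : ∀ p ∈ Q, ∀ p' ∈ Q, p * p' ≤ 4 * N) (hS : 200 ≤ ∑ p ∈ Q, 1 / (p : ℝ)) :
    (((Bx m H N).filter fun g => 101 / 100 * ∑ p ∈ Q, 1 / (p : ℝ) < (nE1 e Q g.1 g.2 : ℝ)).card : ℝ) ≤
      (8 * (H : ℝ)) ^ (m + 1) * (8 * (N : ℝ)) ^ 6 * (80000 / ∑ p ∈ Q, 1 / (p : ℝ)) := by
  obtain ⟨S, hSdef⟩ : ∃ S : ℝ, S = ∑ p ∈ Q, 1 / (p : ℝ) := ⟨_, rfl⟩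
  rw [← hSdef] at hS ⊢
  have hS0 : 0 < S := by linarith
  have hμ : ∑ p ∈ Q, E3 m p (ie1 e p) ≤ S + 1 := by
    have h1 : ∑ p ∈ Q, E3 m p (ie1 e p) ≤ ∑ p ∈ Q, (1 / (p : ℝ)) :=
      Finset.sum_le_sum fun p hp => E3_ie1 he p (hQ p hp)
    rw [← hSdef] at h1
    linarith
  have h01 : ∀ p ∈ Q, ∀ (f : Vn m) u, ie1 e p f u = 0 ∨ ie1 e p f u = 1 := by
    intro p _ f u
    unfold ie1 ind
    split_ifs
    · exact Or.inr rfl
    · exact Or.inl rfl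
  have h1 := cheb3 (m := m) hN hH Q hQ hQ2 (fun p => ie1 e p) (fun p _ => Per3_ie1 e p) h01 (S / 200)
    (by positivity)
  have h2 : ((Bx m H N).filter fun g => 101 / 100 * S < (nE1 e Q g.1 g.2 : ℝ)).card ≤
      (((boxN m H) ×ˢ (box2 N)).filter fun g =>
      S / 200 ≤ |∑ p ∈ Q, ie1 e p g.1 g.2 - ∑ p ∈ Q, E3 m p (ie1 e p)|).card := by
    refine Finset.card_le_card ?_
    intro g hg
    obtain ⟨hg1, hg2⟩ := Finset.mem_filter.1 hg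
    refine Finset.mem_filter.2 ⟨hg1, ?_⟩
    have h3 : (nE1 e Q g.1 g.2 : ℝ) = ∑ p ∈ Q, ie1 e p g.1 g.2 := TA_cast Q _
    rw [h3] at hg2
    refine le_trans ?_ (le_abs_self _)
    linarith
  have h3 : (((Bx m H N).filter fun g => 101 / 100 * S < (nE1 e Q g.1 g.2 : ℝ)).card : ℝ) ≤
      ((((boxN m H) ×ˢ (box2 N)).filter fun g =>
      S / 200 ≤ |∑ p ∈ Q, ie1 e p g.1 g.2 - ∑ p ∈ Q, E3 m p (ie1 e p)|).card : ℝ) := by
    exact_mod_cast h2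
  refine (h3.trans h1).trans ?_
  rw [mul_div_assoc]
  refine mul_le_mul_of_nonneg_left ?_ (by positivity)
  have h4 : (∑ p ∈ Q, E3 m p (ie1 e p)) / (S / 200) ^ 2 ≤ (S + 1) / (S / 200) ^ 2 :=
    div_le_div_of_nonneg_right hμ (by positivity)
  refine h4.trans ?_
  rw [div_le_div_iff₀ (by positivity) hS0]
  nlinarith

theorem TA_markov {α : Type*} (s : Finset α) (p : α → Prop) {_ : DecidablePred p}
    (ψ : α → ℝ) (L : ℝ) (h0 : ∀ g ∈ s, 0 ≤ ψ g) (h1 : ∀ g ∈ s, p g → L ≤ ψ g) :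
    ((s.filter p).card : ℝ) * L ≤ ∑ g ∈ s, ψ g := by
  rw [← nsmul_eq_mul]
  have h2 := Finset.card_nsmul_le_sum (s.filter p) ψ L fun g hg =>
    h1 g (Finset.mem_filter.1 hg).1 (Finset.mem_filter.1 hg).2
  refine h2.trans (Finset.sum_le_sum_of_subset_of_nonneg (Finset.filter_subset _ _)
    fun g hg _ => h0 g hg)

/-- Proof. If `q1 < Lpr` then `log q1 ≤ ∑_{p ∈ Q} log p * xo1 e p f u` (`Real.log` of the product; `xo = ind Em`). Sum over the box, `box3_mean` for each `p` (`E3_xo ≤ 6/p`): `log q1 * # ≤ 8.. ∑ 6 log p / p ≤ 8.. 6 log z ∑ 1/p`. -/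
theorem Lpr_card1 {m H N q1 z : ℕ} {e : ℕ → ℕ × ℕ} (he : Mon m e) (hN : 0 < N) (hH : N ≤ H) (Q : Finset ℕ)
    (hQ : ∀ p ∈ Q, p.Prime ∧ p ≠ 2 ∧ p ≤ 4 * N ∧ p ≤ z) (hq1 : 1 < q1) (hz : 1 ≤ z) :
    (((Bx m H N).filter fun g => q1 < Lpr1 e Q g.1 g.2).card : ℝ) ≤
      (8 * (H : ℝ)) ^ (m + 1) * (8 * (N : ℝ)) ^ 6 *
        (3 * Real.log z * (∑ p ∈ Q, 1 / (p : ℝ)) / Real.log q1) := by
  have hlog : 0 < Real.log q1 := Real.log_pos (by exact_mod_cast hq1)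
  rw [← mul_div_assoc, le_div_iff₀ hlog]
  have h1 : ∀ (f : Vn m) (u : V × V), Real.log (Lpr1 e Q f u) = ∑ p ∈ Q, Real.log p * xo1 e p f u := by
    intro f u
    unfold Lpr1
    rw [Nat.cast_prod, Real.log_prod (fun p hp => by
      have := (hQ p (Finset.mem_filter.1 hp).1).1.pos
      positivity), Finset.sum_filter]
    refine Finset.sum_congr rfl fun p _ => ?_
    unfold xo1 ind
    by_cases h : Em1 e (cN p f) (cV p u.1) (cV p u.2)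
    · rw [if_pos h, if_pos h, mul_one]
    · rw [if_neg h, if_neg h, mul_zero]
  have h2 : (((Bx m H N).filter fun g => q1 < Lpr1 e Q g.1 g.2).card : ℝ) * Real.log q1 ≤
      ∑ g ∈ Bx m H N, ∑ p ∈ Q, Real.log p * xo1 e p g.1 g.2 := by
    refine TA_markov (Bx m H N) (fun g => q1 < Lpr1 e Q g.1 g.2)
      (fun g => ∑ p ∈ Q, Real.log p * xo1 e p g.1 g.2) (Real.log q1) (fun g _ => ?_) (fun g _ hg => ?_)
    · refine Finset.sum_nonneg fun p hp => mul_nonneg (Real.log_nonneg ?_) (xo1_nonneg e p _ _).1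
      exact_mod_cast (hQ p hp).1.one_lt.le
    · rw [← h1]
      have h4 : (0 : ℝ) < (q1 : ℝ) := by
        have : 0 < q1 := by omega
        exact_mod_cast this
      exact Real.log_le_log h4 (by exact_mod_cast hg.le)
  refine h2.trans ?_
  rw [TA_sum (fun f u => ∑ p ∈ Q, Real.log p * xo1 e p f u)]
  have h3 : ∑ u ∈ box2 N, ∑ f ∈ boxN m H, ∑ p ∈ Q, Real.log p * xo1 e p f u =
      ∑ p ∈ Q, Real.log p * ∑ u ∈ box2 N, ∑ f ∈ boxN m H, xo1 e p f u := by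
    have h4 : ∀ u ∈ box2 N, ∑ f ∈ boxN m H, ∑ p ∈ Q, Real.log p * xo1 e p f u =
        ∑ p ∈ Q, Real.log p * ∑ f ∈ boxN m H, xo1 e p f u := by
      intro u _
      rw [Finset.sum_comm]
      refine Finset.sum_congr rfl fun p _ => ?_
      rw [Finset.mul_sum]
    rw [Finset.sum_congr rfl h4, Finset.sum_comm]
    refine Finset.sum_congr rfl fun p _ => ?_
    rw [Finset.mul_sum]
  rw [h3]
  have h5 : (8 * (H : ℝ)) ^ (m + 1) * (8 * (N : ℝ)) ^ 6 *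
      (3 * Real.log z * (∑ p ∈ Q, 1 / (p : ℝ))) =
      ∑ p ∈ Q, Real.log z * ((8 * (H : ℝ)) ^ (m + 1) * (8 * (N : ℝ)) ^ 6 * (3 / (p : ℝ))) := by
    rw [Finset.mul_sum, Finset.mul_sum]
    refine Finset.sum_congr rfl fun p _ => ?_
    ring
  rw [h5]
  refine Finset.sum_le_sum fun p hp => ?_
  obtain ⟨hp1, hp2, hp3, hp4⟩ := hQ p hp
  have h6 : ∑ u ∈ box2 N, ∑ f ∈ boxN m H, xo1 e p f u ≤
      (8 * (H : ℝ)) ^ (m + 1) * (8 * (N : ℝ)) ^ 6 * (3 / (p : ℝ)) :=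
    (box3_mean hN hH hp1.pos hp3 (fun (f : Vn m) u => xo1 e p f u) (fun f u => (xo1_nonneg e p f u).1)
      (Per3_xo1 e p)).trans (mul_le_mul_of_nonneg_left (E3_xo1 he p hp1 hp2).2 (by positivity))
  have h7 : Real.log p ≤ Real.log z :=
    Real.log_le_log (by exact_mod_cast hp1.pos) (by exact_mod_cast hp4)
  have h8 : (0 : ℝ) ≤ Real.log p := Real.log_nonneg (by exact_mod_cast hp1.one_lt.le)
  exact (mul_le_mul_of_nonneg_left h6 h8).trans (mul_le_mul_of_nonneg_right h7 (by positivity))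

end HNF
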