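import Pool.Agent.Lib.MP_1ad228_ntH.HC2
import Pool.Agent.Lib.MP_1ad228_ntH.TA

/-! JOB HC3 -/

set_option autoImplicit false

open Classical

namespace HNF

open Finset Polynomial FGO FQQ

/-- the exceptional event of a pair of integral data -/
def XeP {g : ℕ} (p : ℕ) (c : Vn (2 * g + 1)) (u : V × V) : Prop := Xe (cN p c) (cV p u.1) (cV p u.2)

theorem HC3_inv_sq (P0 N : ℕ) (hP0 : 2 ≤ P0) :
    ∑ p ∈ PQ P0 N, 1 / (p : ℝ) ^ 2 ≤ 1 / (P0 : ℝ) := by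
  by_cases hN : P0 ≤ N
  · have h1 : PQ P0 N ⊆ Finset.Ioc P0 N := by
      unfold PQ
      exact Finset.filter_subset _ _
    have h2 : ∑ p ∈ PQ P0 N, 1 / (p : ℝ) ^ 2 ≤ ∑ p ∈ Finset.Ioc P0 N, ((p : ℝ) ^ 2)⁻¹ := by
      refine (Finset.sum_le_sum_of_subset_of_nonneg h1 fun p _ _ => by positivity).trans (le_of_eq ?_)
      exact Finset.sum_congr rfl fun p _ => one_div _
    have h3 := sum_Ioc_inv_sq_le_sub (α := ℝ) (k := P0) (n := N) (by omega) hN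
    have h4 : (0 : ℝ) ≤ ((N : ℕ) : ℝ)⁻¹ := by positivity
    rw [one_div]
    linarith
  · have h1 : PQ P0 N = ∅ := by
      unfold PQ
      rw [Finset.Ioc_eq_empty (by omega), Finset.filter_empty]
    rw [h1, Finset.sum_empty]
    positivity

/-- Proof. `TA_union` over the primes `P0 < p ≤ N` (file TA), `box3_mean` (`p ≤ 4 N`), `Per3_of`, `E3_eq_Av`, `Av_Xe`; `∑_{p > P0} 1/p² ≤ 1/P0` (`AE_sumsq`-like: `sum_Ioc_inv_sq_le_sub`). -/
theorem Xe_card {g H N P0 : ℕ} (hg : 1 ≤ g) (hN : 0 < N) (hH : N ≤ H) (hP0 : 2 ≤ P0) :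
    (((Bx (2 * g + 1) H N).filter fun s => ∃ p ∈ PQ P0 N, XeP p s.1 s.2).card : ℝ) ≤
      (8 * (H : ℝ)) ^ (2 * g + 2) * (8 * (N : ℝ)) ^ 6 * (28 / (P0 : ℝ)) := by
  refine (TA_union (PQ P0 N) (fun p f u => XeP p f u)).trans ?_
  have h1 : ∀ p ∈ PQ P0 N, ∑ u ∈ box2 N, ∑ f ∈ boxN (2 * g + 1) H, ind (XeP p f u) ≤
      (8 * (H : ℝ)) ^ (2 * g + 2) * (8 * (N : ℝ)) ^ 6 * (28 * (1 / (p : ℝ) ^ 2)) := by
    intro p hp
    unfold PQ at hp
    rw [Finset.mem_filter, Finset.mem_Ioc] at hp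
    obtain ⟨⟨hp1, hp2⟩, hp3⟩ := hp
    have : Fact p.Prime := ⟨hp3⟩
    have : NeZero p := ⟨hp3.ne_zero⟩
    have hper : Per3 p (fun (f : Vn (2 * g + 1)) u => ind (XeP p f u)) :=
      Per3_of (2 * g + 1) p (fun c v w => ind (Xe c v w))
    have hE : E3 (2 * g + 1) p (fun (f : Vn (2 * g + 1)) u => ind (XeP p f u)) =
        Av (2 * g + 1) p (fun c v w => ind (Xe c v w)) :=
      E3_eq_Av (2 * g + 1) p (fun c v w => ind (Xe c v w))
    refine (box3_mean hN hH hp3.pos (by omega) (fun (f : Vn (2 * g + 1)) u => ind (XeP p f u))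
      (fun f u => ind_nonneg _) hper).trans ?_
    rw [hE]
    have h2 := Av_Xe (g := g) hg p (by omega)
    rw [mul_one_div]
    exact mul_le_mul_of_nonneg_left h2 (by positivity)
  refine (Finset.sum_le_sum h1).trans ?_
  rw [← Finset.mul_sum, ← Finset.mul_sum]
  refine mul_le_mul_of_nonneg_left ?_ (by positivity)
  have h2 := HC3_inv_sq P0 N hP0
  rw [← mul_one_div (28 : ℝ)]
  linarith

end HNF
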