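import Pool.Agent.Lib.MP_1ad228_ntH.HI2
import Pool.Agent.Lib.MP_1ad228_ntH.LC1

/-! From an adelic zero-cycle to the conditions on an integer. -/

set_option autoImplicit false

open Classical

namespace HNF

open Finset Polynomial FGO FQQ

/-- the cycle of generic points -/
noncomputable def HI3_cyc {F : Type} [Field F] [CharZero F] {g : ℕ} (hg : 1 ≤ g) {q : Dt g} (hR : Rq q ≠ 0)
    (z : Cyc F q) : GC F := z.map fun s => (s.1, toGP hg hR s.2)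

theorem HI3_deg {F : Type} [Field F] [CharZero F] {g : ℕ} (hg : 1 ≤ g) {q : Dt g} (hR : Rq q ≠ 0)
    (z : Cyc F q) : (HI3_cyc hg hR z).deg = z.deg := by
  unfold HI3_cyc GC.deg Cyc.deg
  rw [List.map_map]
  rfl

theorem HI3_cls {F : Type} [Field F] [CharZero F] {g : ℕ} (hg : 1 ≤ g) {q : Dt g} (hR : Rq q ≠ 0)
    (z : Cyc F q) : (HI3_cyc hg hR z).cls = z.cls := by
  unfold HI3_cyc GC.cls Cyc.cls
  rw [List.map_map]
  rfl

theorem HI3_mem {F : Type} [Field F] [CharZero F] {g : ℕ} (hg : 1 ≤ g) {q : Dt g} (hR : Rq q ≠ 0)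
    (z : Cyc F q) {s : ℤ × GP F} (hs : s ∈ HI3_cyc hg hR z) : ∃ P : Pt F q, s.2 = toGP hg hR P := by
  obtain ⟨t, _, rfl⟩ := List.mem_map.1 hs
  exact ⟨t.2, rfl⟩

theorem arith_H {g : ℕ} (hg : 1 ≤ g) (q : Dt g) (hR : Rq q ≠ 0) (hv : q.1.1.1 ≠ 0) (hw1 : q.1.2.1 ≠ 0)
    (hc : NoCz q.2.1 q.2.2) (h : Adelic q) : ∃ β : ℤ, Squarefree β ∧ Cn (Rq q) q.1.1 q.1.2 β := by
  obtain ⟨z, z₀, hz, hz₀, hs⟩ := h
  refine arith_of hR q.1.1 q.1.2 (fun p _ => HI3_cyc hg hR (z p)) (HI3_cyc hg hR z₀) ?_ ?_ ?_ ?_ ?_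
  · intro p _
    rw [HI3_deg]
    exact hz p
  · intro β hβ
    have h1 := hs β hβ
    have e : (fun (p : ℕ) (_ : Fact p.Prime) => (HI3_cyc hg hR (z p)).cls) = fun (p : ℕ) (_ : Fact p.Prime) => (z p).cls := by
      funext p hp
      exact HI3_cls hg hR (z p)
    rw [e, HI3_cls]
    exact h1
  · intro p _ hp s hs
    obtain ⟨P, hP⟩ := HI3_mem hg hR (z p) hs
    rw [hP]
    exact toGP_Ev hg hR hp P
  · intro p _ s hs
    obtain ⟨P, hP⟩ := HI3_mem hg hR (z p) hs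
    rw [hP]
    exact toGP_NfA hg hR P hv
  · intro p _ s hs
    obtain ⟨P, hP⟩ := HI3_mem hg hR (z p) hs
    rw [hP]
    exact toGP_NfB hg hR P hw1 hc

end HNF
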