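import Pool.Agent.Lib.MP_1ad228_ntH.HI1
import Pool.Agent.Lib.MP_1ad228_nt.ZBase
import Pool.Agent.Lib.MP_1ad228_nt.ZRecip

/-! JOB HJ1 -/

set_option autoImplicit false

open Classical

namespace HNF

open Finset Polynomial FGO FQQ

theorem HJ1_vV_map {K L : Type} [Field K] [Field L] (φ : K →+* L) (v : ℤ × ℤ × ℤ) (x z : K) :
    vV v (φ x) (φ z) = φ (vV v x z) := by
  simp only [vV, map_add, map_mul, map_pow, map_intCast]

theorem HJ1_vG_map {K L : Type} [Field K] [Field L] (φ : K →+* L) {g : ℕ} (G : Fin (g + 1) → ℤ) (x z : K) :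
    vG G (φ x) (φ z) = φ (vG G x z) := by
  simp only [vG, map_sum, map_mul, map_pow, map_intCast]

theorem HJ1_vH_map {K L : Type} [Field K] [Field L] (φ : K →+* L) {g : ℕ} (q : Dt g) (x z : K) :
    vH q (φ x) (φ z) = φ (vH q x z) := by
  simp only [vH, HJ1_vG_map, HJ1_vV_map]

/-- the image of a point under a homomorphism of its field of definition -/
def HJ1_pt {F F' : Type} [Field F] [Field F'] {g : ℕ} {q : Dt g} (P : Pt F q) (E : ZC.FExt P.K F') : Pt F' q where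
  K := E.L
  x := E.φ P.x
  z := E.φ P.z
  y := E.φ P.y
  ne := by
    rintro ⟨hx, hz⟩
    exact P.ne ⟨(map_eq_zero E.φ).1 hx, (map_eq_zero E.φ).1 hz⟩
  eq := by
    have h := congrArg E.φ P.eq
    rw [HJ1_vV_map, HJ1_vH_map]
    simpa only [map_mul, map_pow] using h

theorem HJ1_pt_val {F F' : Type} [Field F] [Field F'] {g : ℕ} {q : Dt g} (P : Pt F q) (E : ZC.FExt P.K F') :
    (HJ1_pt P E).val = E.φ P.val := by
  change (if vV q.1.1 (E.φ P.x) (E.φ P.z) = 0 then vH q (E.φ P.x) (E.φ P.z) else vV q.1.1 (E.φ P.x) (E.φ P.z)) = _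
  rw [HJ1_vV_map, HJ1_vH_map]
  unfold Pt.val
  by_cases h : vV q.1.1 P.x P.z = 0
  · rw [if_pos ((map_eq_zero E.φ).2 h), if_pos h]
  · rw [if_neg (fun h' => h ((map_eq_zero E.φ).1 h')), if_neg h]

theorem HJ1_deg {F F' : Type} [Field F] [Field F'] {g : ℕ} {q : Dt g} (P : Pt F q) (m : ℤ)
    (l : List (ZC.FExt P.K F')) :
    (List.map (fun r : ℤ × Pt F' q => r.1 * (Module.finrank F' r.2.K : ℤ))
      (l.map fun E => (m, HJ1_pt P E))).sum = m * ((l.map fun E => Module.finrank F' E.L).sum : ℕ) := by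
  induction l with
  | nil => simp
  | cons E l ih =>
    simp only [List.map_cons, List.sum_cons, Nat.cast_add, mul_add]
    rw [ih]
    rfl

theorem HJ1_cls {F F' : Type} [Field F] [Field F'] {g : ℕ} {q : Dt g} (P : Pt F q) (m : ℤ)
    (l : List (ZC.FExt P.K F')) :
    (List.map (fun r : ℤ × Pt F' q => (Algebra.norm F' r.2.val) ^ r.1)
      (l.map fun E => (m, HJ1_pt P E))).prod = (l.map fun E => Algebra.norm F' (E.φ P.val)).prod ^ m := by
  induction l with
  | nil => simp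
  | cons E l ih =>
    simp only [List.map_cons, List.prod_cons, mul_zpow]
    rw [ih, HJ1_pt_val]
    rfl

theorem HJ1_base (F F' : Type) [Field F] [Field F'] [CharZero F] [Algebra F F'] {g : ℕ} {q : Dt g}
    (z : Cyc F q) :
    ∃ z' : Cyc F' q, z'.deg = z.deg ∧ z'.cls = algebraMap F F' z.cls := by
  induction z with
  | nil =>
    refine ⟨[], ?_, ?_⟩
    · simp [Cyc.deg]
    · simp [Cyc.cls]
  | cons r z ih =>
    obtain ⟨z', hd, hc⟩ := ih
    obtain ⟨m, P⟩ := r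
    obtain ⟨l, -, h2, h3⟩ := ZC.base_change F F' P.K
    refine ⟨(l.map fun E => (m, HJ1_pt P E)) ++ z', ?_, ?_⟩
    · unfold Cyc.deg at hd ⊢
      rw [List.map_append, List.sum_append, HJ1_deg, h2, hd, List.map_cons, List.sum_cons]
    · unfold Cyc.cls at hc ⊢
      rw [List.map_append, List.prod_append, HJ1_cls, h3, hc, List.map_cons, List.prod_cons, map_mul, map_zpow₀]

theorem HJ1_val_ne {F : Type} [Field F] [CharZero F] {g : ℕ} (hg : 1 ≤ g) {q : Dt g} (hR : Rq q ≠ 0) (P : Pt F q) :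
    P.val ≠ 0 := by
  have : CharZero P.K := charZero_of_injective_algebraMap (algebraMap F P.K).injective
  have h := noz_of_R hg q hR P.K P.x P.z P.ne
  unfold Pt.val
  by_cases h0 : vV q.1.1 P.x P.z = 0
  · rw [if_pos h0]
    exact fun h1 => h ⟨h0, h1⟩
  · rw [if_neg h0]
    exact h0

theorem HJ1_cls_ne {F : Type} [Field F] [CharZero F] {g : ℕ} (hg : 1 ≤ g) {q : Dt g} (hR : Rq q ≠ 0) (z : Cyc F q) :
    z.cls ≠ 0 := by
  induction z with
  | nil => simp [Cyc.cls]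
  | cons r z ih =>
    unfold Cyc.cls at ih ⊢
    rw [List.map_cons, List.prod_cons]
    exact mul_ne_zero (zpow_ne_zero _ (Algebra.norm_ne_zero_iff.2 (HJ1_val_ne hg hR r.2))) ih

/-- (a zero-cycle over `ℚ` gives an orthogonal family of local ones) Proof. Copy of `GTGlob.lean` of Lib/MP_1ad228_nt with the present `Pt`; `z.cls ≠ 0` by `noz_of_R` (`P.val ≠ 0`). -/
theorem glob_H {g : ℕ} (hg : 1 ≤ g) (q : Dt g) (hR : Rq q ≠ 0) (h : Global q) : Adelic q := by
  obtain ⟨z, hz⟩ := h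
  refine ⟨fun p _ => (HJ1_base ℚ ℚ_[p] z).choose, (HJ1_base ℚ ℝ z).choose, ?_, ?_, ?_⟩
  · intro p _
    exact (HJ1_base ℚ ℚ_[p] z).choose_spec.1.trans hz
  · exact (HJ1_base ℚ ℝ z).choose_spec.1.trans hz
  · intro β hβ
    have h0 : z.cls ≠ 0 := HJ1_cls_ne hg hR z
    have h1 : ∀ (p : ℕ) [Fact p.Prime], (HJ1_base ℚ ℚ_[p] z).choose.cls = ((z.cls : ℚ) : ℚ_[p]) := by
      intro p _
      rw [(HJ1_base ℚ ℚ_[p] z).choose_spec.2, eq_ratCast]
    have h2 : (HJ1_base ℚ ℝ z).choose.cls = ((z.cls : ℚ) : ℝ) := by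
      rw [(HJ1_base ℚ ℝ z).choose_spec.2, eq_ratCast]
    have h3 := ZC.recip z.cls β h0 hβ
    simp only [h1, h2]
    exact h3

end HNF
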