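import Pool.Agent.Lib.MP_1ad228_ntH.HB2
import Pool.Agent.Lib.MP_1ad228_ntH.LD1
import Pool.Agent.Lib.MP_1ad228_ntH.LD2

/-! JOB HL1 -/

set_option autoImplicit false

open Classical

namespace HNF

open Finset Polynomial FGO FQQ

/-- Proof. `switch1` with `jac_Rg_v`, `jac_Rg_w` and `even_of_rat` for `rat_Rg_v`, `rat_Rg_w`. -/
theorem switch_H {g : ℕ} (A B : Vn g) (v w : V) (hR : Rg A B v w ≠ 0) (hv : v.1 ≠ 0) (hw1 : w.1 ≠ 0) (β : ℤ)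
    (hβ : Squarefree β) (h : Cn (Rg A B v w) v w β) :
    ∃ δ : ℤ, Squarefree δ ∧ δ ^ 2 ≤ |Rg A B v w| ∧ Cn (Rg A B v w) v w δ := by
  refine switch1 hR v w (fun p hp h2 hpR hd h1 => jac_Rg_v A B v w p hp h2 hpR hd h1)
    (fun p hp h2 hpR hd h1 => jac_Rg_w A B v w p hp h2 hpR hd h1) ?_ ?_ β hβ h
  · intro p hp h2 _ hj
    obtain ⟨x, y, hxy⟩ := rat_Rg_v A B v w hv
    exact even_of_rat hp h2 hR hj hxy
  · intro p hp h2 _ hj
    obtain ⟨x, y, hxy⟩ := rat_Rg_w A B v w hw1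
    exact even_of_rat hp h2 hR hj hxy

end HNF
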