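import Pool.Agent.Lib.MP_1ad228_ntH.GN1

/-! JOB GN2 -/

set_option autoImplicit false

open Classical

namespace HNF

open Finset Polynomial FGO FQQ

/-- (no short dual vectors) Proof. Suppose `k ≠ 0`, `D ∣ k i - t λ_i`, `λ_i = r^a q^b`, and `4 H |k i| < q0 D` for all `i`. Let `κ` be the four coordinates `0, 1, 2, 3` (`he`; `λ = 1, r, q, r q`), `K` the maximum of their absolute values.
If `κ = 0`: `D ∣ t` (coordinate `0`), so `D ∣ k i` for all `i`; `4 H |k i| < q0 D ≤ 4 H D`, so `|k i| < D` and `k i = 0`: contradiction. Otherwise `Ph v w κ ≠ 0` (`Ph_ne`), `D³ ∣ Ph` (`cube_dvd_Ph`), so `D³ ≤ |Ph| ≤ 288 N⁴ K⁴` (`abs_Ph_le`), and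
`256 H⁴ D³ ≤ 288 N⁴ (4 H K)⁴ < 288 N⁴ (q0 D)⁴`, so `256 H⁴ < 288 N⁴ q0⁴ D`: contradiction to `hD`. -/
theorem goodL_of {m H N q0 D : ℕ} {e : ℕ → ℕ × ℕ} (he : Mon m e) (hH : 0 < H) (hN : 0 < N) (hD0 : 0 < D) (hq : q0 ≤ 4 * H) {u : V × V}
    (hu : u ∈ box2 N) (hv : ¬ IsSquare (ds u.1)) (hw : ¬ IsSquare (ds u.2)) (hvw : ¬ IsSquare (ds u.1 * ds u.2)) {r q : ℤ}
    (h1 : (D : ℤ) ∣ ev u.1 r) (h2 : (D : ℤ) ∣ ev u.2 q) (hD : 288 * N ^ 4 * q0 ^ 4 * D ≤ 256 * H ^ 4) :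
    GoodL m H q0 D (mo m e r q) := by
  intro k hk ⟨t, ht⟩
  by_contra hcon
  push Not at hcon
  have hm3 := he.m3
  -- the four coordinates
  have i0 : 0 < m + 1 := by omega
  have i1 : 1 < m + 1 := by omega
  have i2 : 2 < m + 1 := by omega
  have i3 : 3 < m + 1 := by omega
  have g0 : (D : ℤ) ∣ k ⟨0, i0⟩ - t := by
    have h := ht ⟨0, i0⟩
    have e : mo m e r q ⟨0, i0⟩ = 1 := by
      show r ^ (e 0).1 * q ^ (e 0).2 = 1
      rw [he.e0, pow_zero, pow_zero, mul_one]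
    rw [e, mul_one] at h
    exact h
  have g1 : (D : ℤ) ∣ k ⟨1, i1⟩ - t * r := by
    have h := ht ⟨1, i1⟩
    have e : mo m e r q ⟨1, i1⟩ = r := by
      show r ^ (e 1).1 * q ^ (e 1).2 = r
      rw [he.e1, pow_zero, pow_one, mul_one]
    rw [e] at h
    exact h
  have g2 : (D : ℤ) ∣ k ⟨2, i2⟩ - t * q := by
    have h := ht ⟨2, i2⟩
    have e : mo m e r q ⟨2, i2⟩ = q := by
      show r ^ (e 2).1 * q ^ (e 2).2 = q
      rw [he.e2, pow_zero, pow_one, one_mul]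
    rw [e] at h
    exact h
  have g3 : (D : ℤ) ∣ k ⟨3, i3⟩ - t * (r * q) := by
    have h := ht ⟨3, i3⟩
    have e : mo m e r q ⟨3, i3⟩ = r * q := by
      show r ^ (e 3).1 * q ^ (e 3).2 = r * q
      rw [he.e3, pow_one, pow_one]
    rw [e] at h
    exact h
  by_cases hz : k ⟨0, i0⟩ = 0 ∧ k ⟨1, i1⟩ = 0 ∧ k ⟨2, i2⟩ = 0 ∧ k ⟨3, i3⟩ = 0
  · -- all coordinates are divisible by `D`
    have hDt : (D : ℤ) ∣ t := by
      rw [hz.1, zero_sub] at g0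
      exact (dvd_neg).1 g0
    apply hk
    funext i
    show k i = 0
    have h3 : (D : ℤ) ∣ k i := by
      have h := ht i
      have h4 := dvd_add h (hDt.mul_right (mo m e r q i))
      rwa [sub_add_cancel] at h4
    by_contra hki
    have h4 : D ≤ (k i).natAbs := Nat.le_of_dvd (Int.natAbs_pos.2 hki) (Int.natCast_dvd.1 h3)
    have h5 := hcon i
    have h6 : q0 * D ≤ 4 * H * (k i).natAbs := Nat.mul_le_mul hq h4
    omega
  · -- the norm form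
    set K : ℕ := max (max (k ⟨0, i0⟩).natAbs (k ⟨1, i1⟩).natAbs)
      (max (k ⟨2, i2⟩).natAbs (k ⟨3, i3⟩).natAbs) with hK
    have hKi : 4 * H * K < q0 * D := by
      have c0 := hcon ⟨0, i0⟩
      have c1 := hcon ⟨1, i1⟩
      have c2 := hcon ⟨2, i2⟩
      have c3 := hcon ⟨3, i3⟩
      rcases max_choice (max (k ⟨0, i0⟩).natAbs (k ⟨1, i1⟩).natAbs)
        (max (k ⟨2, i2⟩).natAbs (k ⟨3, i3⟩).natAbs) with h | h
      · rcases max_choice (k ⟨0, i0⟩).natAbs (k ⟨1, i1⟩).natAbs with h' | h'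
        · rw [hK, h, h']
          exact c0
        · rw [hK, h, h']
          exact c1
      · rcases max_choice (k ⟨2, i2⟩).natAbs (k ⟨3, i3⟩).natAbs with h' | h'
        · rw [hK, h, h']
          exact c2
        · rw [hK, h, h']
          exact c3
    have a0 : |k ⟨0, i0⟩| ≤ (K : ℤ) := by
      rw [Int.abs_eq_natAbs]
      exact_mod_cast (le_max_left _ _).trans (le_max_left _ _)
    have a1 : |k ⟨1, i1⟩| ≤ (K : ℤ) := by
      rw [Int.abs_eq_natAbs]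
      exact_mod_cast (le_max_right _ _).trans (le_max_left _ _)
    have a2 : |k ⟨2, i2⟩| ≤ (K : ℤ) := by
      rw [Int.abs_eq_natAbs]
      exact_mod_cast (le_max_left _ _).trans (le_max_right _ _)
    have a3 : |k ⟨3, i3⟩| ≤ (K : ℤ) := by
      rw [Int.abs_eq_natAbs]
      exact_mod_cast (le_max_right _ _).trans (le_max_right _ _)
    have h1' := cube_dvd_Ph h1 h2 g0 g1 g2 g3
    have h2' := Ph_ne hv hw hvw hz
    have h3' := abs_Ph_le (mem_box2.1 hu).1 (mem_box2.1 hu).2 a0 a1 a2 a3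
    have h4 : (D : ℤ) ^ 3 ≤ 288 * (N : ℤ) ^ 4 * (K : ℤ) ^ 4 :=
      (Int.le_of_dvd (abs_pos.2 h2') ((dvd_abs _ _).2 h1')).trans h3'
    have h5 : D ^ 3 ≤ 288 * N ^ 4 * K ^ 4 := by exact_mod_cast h4
    have h6 : (4 * H * K) ^ 4 < (q0 * D) ^ 4 := Nat.pow_lt_pow_left hKi (by norm_num)
    have h7 : 256 * H ^ 4 * D ^ 3 < 288 * N ^ 4 * q0 ^ 4 * D * D ^ 3 := by
      calc 256 * H ^ 4 * D ^ 3 ≤ 256 * H ^ 4 * (288 * N ^ 4 * K ^ 4) := Nat.mul_le_mul_left _ h5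
        _ = 288 * N ^ 4 * (4 * H * K) ^ 4 := by ring
        _ < 288 * N ^ 4 * (q0 * D) ^ 4 :=
          Nat.mul_lt_mul_of_pos_left h6 (by positivity)
        _ = 288 * N ^ 4 * q0 ^ 4 * D * D ^ 3 := by ring
    have h8 := Nat.mul_le_mul_right (D ^ 3) hD
    omega

end HNF
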