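import Pool.Agent.Lib.MP_1ad228_ntH.SB
import Pool.Agent.Lib.MP_1ad228_ntH.GN2
import Pool.Agent.Lib.MP_10e784_agF.DB
import Pool.Agent.Lib.MP_10e784_agF.RB

/-! JOB SC -/

set_option autoImplicit false

open Classical

namespace HNF

open Finset Polynomial FGO FQQ

/-- the label function of a pair and an integer `δ` -/
noncomputable def lam1 {m : ℕ} (e : ℕ → ℕ × ℕ) (δ : ℤ) (f : Vn m) (u : V × V) (p : ℕ) : Lb :=
  if Ez e (cN p f) (cV p u.1) (cV p u.2) then (if (p : ℤ) ∣ δ then Lb.B else Lb.A)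
  else if ds (cV p u.1) = 0 then Lb.C0
  else if ds (cV p u.2) = 0 then Lb.C1
  else Lb.O

theorem lam1_O {m : ℕ} {e : ℕ → ℕ × ℕ} {δ : ℤ} {f : Vn m} {u : V × V} {p : ℕ} :
    lam1 e δ f u p = Lb.O ↔ ¬ Em1 e (cN p f) (cV p u.1) (cV p u.2) := by
  unfold lam1 Em1
  by_cases h1 : Ez e (cN p f) (cV p u.1) (cV p u.2)
  · rw [if_pos h1]
    constructor
    · intro h
      split_ifs at h
    · intro h
      exact absurd (Or.inl h1) h
  · rw [if_neg h1]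
    by_cases h2 : ds (cV p u.1) = 0
    · rw [if_pos h2]
      exact ⟨fun h => absurd h (by decide), fun h => absurd (Or.inr (Or.inl h2)) h⟩
    · rw [if_neg h2]
      by_cases h3 : ds (cV p u.2) = 0
      · rw [if_pos h3]
        exact ⟨fun h => absurd h (by decide), fun h => absurd (Or.inr (Or.inr h3)) h⟩
      · rw [if_neg h3]
        refine ⟨fun _ h => ?_, fun _ => rfl⟩
        rcases h with h | h | h
        · exact h1 h
        · exact h2 h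
        · exact h3 h

theorem SC_log {m : ℕ} {e : ℕ → ℕ × ℕ} {δ : ℤ} {f : Vn m} {u : V × V} {p : ℕ} (hT : TypP1 e p f u) :
    Real.log (yw1 (lam1 e δ f u p)) =
      -((if Ez e (cN p f) (cV p u.1) (cV p u.2) then Real.log 2 else 0)) +
      ((if Dc (cV p u.1) (cV p u.2) 0 = 0 then Real.log 2 else 0) +
      (if Dc (cV p u.1) (cV p u.2) 1 = 0 then Real.log 2 else 0)) := by
  have e0 : Dc (cV p u.1) (cV p u.2) 0 = ds (cV p u.1) := rfl
  have e1 : Dc (cV p u.1) (cV p u.2) 1 = ds (cV p u.2) := rfl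
  have hhalf : Real.log (1 / 2) = - Real.log 2 := by
    rw [← Real.log_inv]
    norm_num
  rw [e0, e1]
  obtain ⟨t1, t2, t3⟩ := hT
  unfold lam1
  by_cases h1 : Ez e (cN p f) (cV p u.1) (cV p u.2)
  · have h2 : ¬ ds (cV p u.1) = 0 := fun h => t1 ⟨h1, h⟩
    have h3 : ¬ ds (cV p u.2) = 0 := fun h => t2 ⟨h1, h⟩
    rw [if_pos h1, if_pos h1, if_neg h2, if_neg h3]
    split_ifs <;> simp only [yw1] <;> rw [hhalf] <;> ring
  · rw [if_neg h1, if_neg h1]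
    by_cases h2 : ds (cV p u.1) = 0
    · have h3 : ¬ ds (cV p u.2) = 0 := fun h => t3 ⟨h2, h⟩
      rw [if_pos h2, if_pos h2, if_neg h3]
      simp only [yw1]
      ring
    · rw [if_neg h2, if_neg h2]
      by_cases h3 : ds (cV p u.2) = 0
      · rw [if_pos h3, if_pos h3]
        simp only [yw1]
        ring
      · rw [if_neg h3, if_neg h3]
        simp only [yw1]
        rw [Real.log_one]
        ring

theorem yw1_pos (l : Lb) : 0 < yw1 l := by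
  cases l <;> norm_num [yw1]

theorem weight_le1 {m P0 z0 : ℕ} {e : ℕ → ℕ × ℕ} {δ : ℤ} {f : Vn m} {u : V × V} (hT : ∀ p ∈ PQ P0 z0, TypP1 e p f u)
    (h1 : (nE1 e (PQ P0 z0) f u : ℝ) ≤ 101 / 100 * ∑ p ∈ PQ P0 z0, 1 / (p : ℝ))
    (h2 : ∀ j, 99 / 100 * ∑ p ∈ PQ P0 z0, 1 / (p : ℝ) ≤ (nD (PQ P0 z0) j u : ℝ)) :
    Real.exp (67 / 100 * ∑ p ∈ PQ P0 z0, 1 / (p : ℝ)) ≤ ∏ p ∈ PQ P0 z0, yw1 (lam1 e δ f u p) := by
  have hpos : 0 < ∏ p ∈ PQ P0 z0, yw1 (lam1 e δ f u p) := Finset.prod_pos fun p _ => yw1_pos _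
  rw [← Real.exp_log hpos, Real.exp_le_exp, Real.log_prod (fun p _ => (yw1_pos _).ne')]
  have hS : 0 ≤ ∑ p ∈ PQ P0 z0, 1 / (p : ℝ) := Finset.sum_nonneg fun p _ => by positivity
  have h3 : ∑ p ∈ PQ P0 z0, Real.log (yw1 (lam1 e δ f u p)) =
      -((nE1 e (PQ P0 z0) f u : ℝ) * Real.log 2) +
      ((nD (PQ P0 z0) 0 u : ℝ) * Real.log 2 + (nD (PQ P0 z0) 1 u : ℝ) * Real.log 2) := by
    rw [Finset.sum_congr rfl fun p hp => SC_log (hT p hp), Finset.sum_add_distrib, Finset.sum_add_distrib,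
      Finset.sum_neg_distrib]
    unfold nE1 nD
    rw [← Finset.sum_filter, ← Finset.sum_filter, ← Finset.sum_filter, Finset.sum_const, Finset.sum_const, Finset.sum_const,
      nsmul_eq_mul, nsmul_eq_mul, nsmul_eq_mul]
  rw [h3]
  have h7 := Real.log_two_gt_d9
  have a3 : 0 ≤ Real.log 2 := by linarith
  have a0 := mul_le_mul_of_nonneg_right h1 a3
  have b0 := mul_le_mul_of_nonneg_right (h2 0) a3
  have b1 := mul_le_mul_of_nonneg_right (h2 1) a3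
  have c2 : (∑ p ∈ PQ P0 z0, 1 / (p : ℝ)) * 0.6931471803 ≤
      (∑ p ∈ PQ P0 z0, 1 / (p : ℝ)) * Real.log 2 := mul_le_mul_of_nonneg_left h7.le hS
  nlinarith [a0, b0, b1, c2, hS]

/-- (structure theorem) Proof. `τ` the sign of `δ`, `κ = spart P0 |δ|`, `lam = lam1`, `D = rpart z0 |δ|`. -/
theorem structure1 {m H N P0 z0 q0 q1 P : ℕ} {e : ℕ → ℕ × ℕ} (he : Mon m e) (hH : 0 < H) (hN : 0 < N) (hPz : P0 ≤ z0)
    (hq0 : q0 ≤ 4 * H) (hP : 288 * N ^ 4 * q0 ^ 4 * P ≤ 256 * H ^ 4) (f : Vn m) (u : V × V)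
    (hu : u ∈ box2 N) (hT : Typ1 e (PQ P0 z0) q1 f u) (h : Sel1 e P0 z0 P f u) :
    ∃ (τ : ℤ) (κ : ℕ) (lam : ℕ → Lb) (D : ℕ),
      (τ = 1 ∨ τ = -1) ∧ κ ∣ primorial P0 ∧ D ∈ DR z0 P ∧
      ∏ p ∈ (PQ P0 z0).filter (fun p => lam p ≠ Lb.O), p ≤ q1 ∧
      Real.exp (67 / 100 * ∑ p ∈ PQ P0 z0, 1 / (p : ℝ)) ≤ ∏ p ∈ PQ P0 z0, yw1 (lam p) ∧
      Str1 e H q0 (PQ P0 z0) τ κ lam D f u := by
  obtain ⟨hTP, hnE, hnD, hL, hs1, hs2, hs3⟩ := hT
  obtain ⟨δ, hδ, hδP, hδ1, hδ2, hδ3⟩ := h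
  have hδ0 : δ ≠ 0 := hδ.ne_zero
  obtain ⟨s, hs⟩ : ∃ s : ℕ, s = δ.natAbs := ⟨_, rfl⟩
  have hsq : Squarefree s := by
    rw [hs]
    exact Int.squarefree_natAbs.2 hδ
  have hs0 : 0 < s := Nat.pos_of_ne_zero hsq.ne_zero
  have hdvd : ∀ p : ℕ, (p : ℤ) ∣ δ ↔ p ∣ s := by
    intro p
    rw [hs, Int.natCast_dvd]
  obtain ⟨D, hD⟩ : ∃ D, D = rpart z0 s := ⟨_, rfl⟩
  obtain ⟨r1, r2, r3, r4⟩ := rpart_spec z0 s
  rw [← hD] at r1 r2 r3 r4
  have hDp : ∀ p : ℕ, p.Prime → p ∣ D → z0 < p ∧ (p : ℤ) ∣ δ := by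
    intro p hp hpd
    have h1 := (r3 p hp).1 hpd
    exact ⟨h1.2, (hdvd p).2 (Nat.dvd_of_mem_primeFactors h1.1)⟩
  have hDE : ∀ p : ℕ, p.Prime → p ∣ D → ¬ (p : ℤ) ∣ u.1.1 ∧ ¬ (p : ℤ) ∣ u.2.1 ∧ Ez e (cN p f) (cV p u.1) (cV p u.2) := by
    intro p hp hpd
    obtain ⟨h1, h2⟩ := hDp p hp hpd
    exact hδ1 p hp (by omega) h2
  have hDP : D ≤ P := (Nat.le_of_dvd hs0 (r4 hsq)).trans (by rw [hs]; exact hδP)
  obtain ⟨τ, hτ, hτδ⟩ : ∃ τ : ℤ, (τ = 1 ∨ τ = -1) ∧ δ = τ * (s : ℤ) := by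
    rcases Int.natAbs_eq δ with h | h
    · exact ⟨1, Or.inl rfl, by rw [hs, one_mul]; exact h⟩
    · exact ⟨-1, Or.inr rfl, by rw [hs, neg_one_mul]; exact h⟩
  have hmid : s.primeFactors.filter (fun p => P0 < p ∧ p ≤ z0) =
      (PQ P0 z0).filter (fun p => lam1 e δ f u p = Lb.B) := by
    ext p
    simp only [PQ, Finset.mem_filter, Nat.mem_primeFactors, Finset.mem_Ioc]
    constructor
    · rintro ⟨⟨hp, hd, _⟩, hl, hu⟩
      refine ⟨⟨⟨hl, hu⟩, hp⟩, ?_⟩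
      have h1 := (hδ1 p hp hl ((hdvd p).2 hd)).2.2
      unfold lam1
      rw [if_pos h1, if_pos ((hdvd p).2 hd)]
    · rintro ⟨⟨⟨hl, hu⟩, hp⟩, h⟩
      refine ⟨⟨hp, ?_, hsq.ne_zero⟩, hl, hu⟩
      by_contra hc
      rw [← hdvd] at hc
      unfold lam1 at h
      rw [if_neg hc] at h
      split_ifs at h
  have hdl : dl1 (PQ P0 z0) τ (spart P0 s) (lam1 e δ f u) D = δ := by
    unfold dl1 lpr1
    rw [← hmid, hD, ← split3 s P0 z0 hsq hPz]
    exact hτδ.symm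
  refine ⟨τ, spart P0 s, lam1 e δ f u, D, hτ, spart_dvd P0 s, ?_, ?_, weight_le1 hTP hnE hnD, ?_, ?_, ?_⟩
  · unfold DR
    rw [Finset.mem_filter, Finset.mem_Icc]
    exact ⟨⟨r2, hDP⟩, r1, fun p hp hpd => (hDp p hp hpd).1⟩
  · refine le_trans (le_of_eq ?_) hL
    unfold Lpr1
    refine Finset.prod_congr (Finset.filter_congr fun p _ => ?_) fun _ _ => rfl
    rw [Ne, lam1_O, not_not]
  · intro p hp hpd
    exact ⟨(hDE p hp hpd).1, (hDE p hp hpd).2.1⟩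
  · obtain ⟨x, hx, hx2⟩ := common_root1 r1 f u fun p hp hpd => (hDE p hp hpd).2.2
    refine ⟨x, hx, hx2, ?_⟩
    unfold RS1 at hx
    rw [mem_filter] at hx
    refine goodL_of he hH hN r2 hq0 hu hs1 hs2 hs3 hx.2.1 hx.2.2 ?_
    exact (Nat.mul_le_mul_left _ hDP).trans hP
  · intro p hp
    rw [hdl]
    have hpp : p.Prime := by
      unfold PQ at hp
      rw [Finset.mem_filter] at hp
      exact hp.2
    have hd : ∀ v : V, ds (cV p v) = 0 → (p : ℤ) ∣ ds v := by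
      intro v h0
      rw [← ds_cast] at h0
      exact (ZMod.intCast_zmod_eq_zero_iff_dvd _ _).1 h0
    unfold lam1
    by_cases h1 : Ez e (cN p f) (cV p u.1) (cV p u.2)
    · rw [if_pos h1]
      split_ifs
      · exact h1
      · exact h1
    · rw [if_neg h1]
      by_cases h2 : ds (cV p u.1) = 0
      · rw [if_pos h2]
        have h3 := hδ2 p hp (hd _ h2)
        rw [Int.cast_mul] at h3
        exact ⟨h2, h3⟩
      · rw [if_neg h2]
        by_cases h3 : ds (cV p u.2) = 0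
        · rw [if_pos h3]
          have h4 := hδ3 p hp (hd _ h3)
          rw [Int.cast_mul] at h4
          exact ⟨h3, h4⟩
        · rw [if_neg h3]
          intro h
          rcases h with h | h | h
          · exact h1 h
          · exact h2 h
          · exact h3 h

end HNF
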