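import Pool.Agent.Lib.MP_1ad228_ntH.TB
import Pool.Agent.Lib.MP_1ad228_ntH.SC
import Pool.Agent.Lib.MP_10e784_agF.AE

/-! JOB TC -/

set_option autoImplicit false

open Classical

namespace HNF

open Finset Polynomial FGO FQQ

/-- typical pairs at which the discriminants are visibly not squares -/
def Ty {m : ℕ} (e : ℕ → ℕ × ℕ) (P0 z0 : ℕ) (f : Vn m) (u : V × V) : Prop :=
  (∀ p ∈ PQ P0 z0, TypP1 e p f u ∧ ¬ (p : ℤ) ^ 2 ∣ ds u.1 ∧ ¬ (p : ℤ) ^ 2 ∣ ds u.2) ∧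
  (∃ p ∈ PQ P0 z0, (p : ℤ) ∣ ds u.1) ∧ (∃ p ∈ PQ P0 z0, (p : ℤ) ∣ ds u.2)

theorem TC_prime {P0 z0 p : ℕ} (hp : p ∈ PQ P0 z0) : p.Prime ∧ P0 < p ∧ p ≤ z0 := by
  unfold PQ at hp
  obtain ⟨h1, h2⟩ := mem_filter.1 hp
  obtain ⟨h3, h4⟩ := mem_Ioc.1 h1
  exact ⟨h2, h3, h4⟩

theorem TC_sq {p : ℕ} (hp : p.Prime) {n : ℤ} (h1 : (p : ℤ) ∣ n) (h2 : ¬ (p : ℤ) ^ 2 ∣ n) :
    ¬ IsSquare n := by
  rintro ⟨r, hr⟩
  have hp' : Prime (p : ℤ) := Nat.prime_iff_prime_int.1 hp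
  have h3 : (p : ℤ) ∣ r := by
    rw [hr] at h1
    rcases hp'.dvd_or_dvd h1 with h | h <;> exact h
  apply h2
  rw [hr, ← pow_two]
  exact pow_dvd_pow_of_dvd h3 2

theorem TC_sumsq {P0 z0 : ℕ} (hP0 : 4 ≤ P0) (h : P0 ≤ z0) :
    ∑ p ∈ PQ P0 z0, 1 / (p : ℝ) ^ 2 ≤ 1 / (P0 : ℝ) := by
  have h1 := sum_Ioc_inv_sq_le_sub (α := ℝ) (k := P0) (n := z0) (by omega) h
  calc ∑ p ∈ PQ P0 z0, 1 / (p : ℝ) ^ 2 ≤ ∑ p ∈ Ioc P0 z0, 1 / (p : ℝ) ^ 2 := by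
        apply sum_le_sum_of_subset_of_nonneg
        · unfold PQ
          exact filter_subset _ _
        · intro i _ _
          positivity
    _ = ∑ p ∈ Ioc P0 z0, ((p : ℝ) ^ 2)⁻¹ := sum_congr rfl fun p _ => one_div _
    _ ≤ (P0 : ℝ)⁻¹ - (z0 : ℝ)⁻¹ := h1
    _ ≤ 1 / (P0 : ℝ) := by
        rw [one_div]
        have : (0 : ℝ) ≤ (z0 : ℝ)⁻¹ := by positivity
        linarith

theorem TC_dvd {p : ℕ} {v : V} : (p : ℤ) ∣ ds v ↔ ds (cV p v) = 0 := by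
  rw [← ds_cast, ZMod.intCast_zmod_eq_zero_iff_dvd]

/-- Proof. A prime which divides an integer exactly once shows that it is not a square (`AE_sq` in AE.lean). Take `p ∣ ds u.1`: `p² ∤ ds u.1`, and `p ∤ ds u.2` by the third clause of `TypP1`, so `p` divides `ds u.1 * ds u.2` exactly once. -/
theorem Ty_ns {m : ℕ} {e : ℕ → ℕ × ℕ} {P0 z0 : ℕ} {f : Vn m} {u : V × V} (h : Ty e P0 z0 f u) :
    ¬ IsSquare (ds u.1) ∧ ¬ IsSquare (ds u.2) ∧ ¬ IsSquare (ds u.1 * ds u.2) := by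
  obtain ⟨h0, ⟨p, hp, hp1⟩, ⟨r, hr, hr1⟩⟩ := h
  refine ⟨TC_sq (TC_prime hp).1 hp1 (h0 p hp).2.1, TC_sq (TC_prime hr).1 hr1 (h0 r hr).2.2, ?_⟩
  have hpp := (TC_prime hp).1
  have hp' : Prime (p : ℤ) := Nat.prime_iff_prime_int.1 hpp
  have h2 : ¬ (p : ℤ) ∣ ds u.2 := by
    intro hd
    exact (h0 p hp).1.2.2 ⟨TC_dvd.1 hp1, TC_dvd.1 hd⟩
  refine TC_sq hpp (dvd_mul_of_dvd_left hp1 _) ?_
  intro hd
  have hc : IsCoprime ((p : ℤ) ^ 2) (ds u.2) := by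
    apply IsCoprime.pow_left
    exact (hp'.irreducible.coprime_iff_not_dvd).2 h2
  exact (h0 p hp).2.1 (hc.dvd_of_dvd_mul_right hd)

theorem TC_ex {P0 z0 : ℕ} {u : V × V} (hS : 200 ≤ ∑ p ∈ PQ P0 z0, 1 / (p : ℝ)) (j : Fin 2)
    (h1 : 99 / 100 * ∑ p ∈ PQ P0 z0, 1 / (p : ℝ) ≤ (nD (PQ P0 z0) j u : ℝ)) :
    ∃ p ∈ PQ P0 z0, Dc (cV p u.1) (cV p u.2) j = 0 := by
  have h2 : (0 : ℝ) < nD (PQ P0 z0) j u := by linarith
  have h3 : 0 < nD (PQ P0 z0) j u := by exact_mod_cast h2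
  unfold nD at h3
  obtain ⟨p, hp⟩ := card_pos.1 h3
  obtain ⟨h4, h5⟩ := mem_filter.1 hp
  exact ⟨p, h4, h5⟩

/-- Proof. Not `Ty`: some `p` has not `TypP1` (`typ_card1`), or `p² ∣ ds` for some `p` (`dsq_card`), or `nD Q j = 0 < 99/100 S` for `j = 0` or `j = 1` (`FQQ.nD_card`). `3 ∑ 1/p² + 4 ∑ 1/p² ≤ 7/P0` (`AE_sumsq` in AE.lean, copy it). -/
theorem notTy_card {m : ℕ} {e : ℕ → ℕ × ℕ} (he : Mon m e) {H N P0 z0 : ℕ} (hN : 0 < N) (hH : N ≤ H) (hP0 : 4 ≤ P0) (hPz : P0 ≤ z0)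
    (hz0 : z0 ^ 2 ≤ 4 * N) (hS : 200 ≤ ∑ p ∈ PQ P0 z0, 1 / (p : ℝ)) :
    (((Bx m H N).filter fun g => ¬ Ty e P0 z0 g.1 g.2).card : ℝ) ≤
      1000000 * ((8 * (H : ℝ)) ^ (m + 1) * (8 * (N : ℝ)) ^ 6) * (1 / (P0 : ℝ) + 1 / (∑ p ∈ PQ P0 z0, 1 / (p : ℝ))) := by
  have hQ2 : ∀ p ∈ PQ P0 z0, p.Prime ∧ p ≠ 2 := by
    intro p hp
    obtain ⟨a, b, c⟩ := TC_prime hp
    exact ⟨a, by omega⟩
  have hQ3 : ∀ p ∈ PQ P0 z0, ∀ p' ∈ PQ P0 z0, p * p' ≤ 4 * N := by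
    intro p hp p' hp'
    have a := (TC_prime hp).2.2
    have a' := (TC_prime hp').2.2
    calc p * p' ≤ z0 * z0 := Nat.mul_le_mul a a'
      _ = z0 ^ 2 := by ring
      _ ≤ 4 * N := hz0
  have hQ4 : ∀ p ∈ PQ P0 z0, p.Prime ∧ p ≠ 2 ∧ p ^ 2 ≤ 4 * N := by
    intro p hp
    refine ⟨(hQ2 p hp).1, (hQ2 p hp).2, ?_⟩
    rw [pow_two]
    exact hQ3 p hp p hp
  have hQ5 : ∀ p ∈ PQ P0 z0, p.Prime ∧ p ≠ 2 ∧ p ≤ 4 * N := by
    intro p hp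
    have a := (TC_prime hp).2.2
    have b : z0 ≤ z0 ^ 2 := Nat.le_self_pow (by norm_num) z0
    exact ⟨(hQ2 p hp).1, (hQ2 p hp).2, by omega⟩
  have k1 := typ_card1 (m := m) he hN hH (PQ P0 z0) hQ5
  have k2 := dsq_card (m := m) hN hH (PQ P0 z0) hQ4
  have k3 := fun j => nD_card (m := m) hN hH (PQ P0 z0) hQ2 hQ3 hS j
  have ksq := TC_sumsq hP0 hPz
  have kex := fun (u : V × V) (j : Fin 2) => TC_ex (u := u) hS j
  obtain ⟨S, hSd⟩ : ∃ S : ℝ, S = ∑ p ∈ PQ P0 z0, 1 / (p : ℝ) := ⟨_, rfl⟩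
  obtain ⟨T, hTd⟩ : ∃ T : ℝ, T = ∑ p ∈ PQ P0 z0, 1 / (p : ℝ) ^ 2 := ⟨_, rfl⟩
  rw [← hTd] at k1 k2 ksq
  rw [← hSd] at hS ⊢
  simp only [← hSd] at k3 kex
  obtain ⟨W, hW⟩ : ∃ W : ℝ, W = (8 * (H : ℝ)) ^ (m + 1) * (8 * (N : ℝ)) ^ 6 := ⟨_, rfl⟩
  have hW0 : 0 ≤ W := by
    rw [hW]
    positivity
  rw [← hW] at k1 k2 ⊢
  simp only [← hW] at k3
  let F1 := (Bx m H N).filter fun g => ∃ p ∈ PQ P0 z0, ¬ TypP1 e p g.1 g.2
  let F2 := (Bx m H N).filter fun g => ∃ p ∈ PQ P0 z0, (p : ℤ) ^ 2 ∣ ds g.2.1 ∨ (p : ℤ) ^ 2 ∣ ds g.2.2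
  let F3 : Fin 2 → Finset (Vn m × (V × V)) := fun j =>
    (Bx m H N).filter fun g => (nD (PQ P0 z0) j g.2 : ℝ) < 99 / 100 * S
  have hsub : ((Bx m H N).filter fun g => ¬ Ty e P0 z0 g.1 g.2) ⊆ F1 ∪ (F2 ∪ (F3 0 ∪ F3 1)) := by
    intro g hg
    obtain ⟨hg1, hg2⟩ := mem_filter.1 hg
    simp only [mem_union]
    by_contra hcon
    push Not at hcon
    obtain ⟨n1, n2, n3, n4⟩ := hcon
    apply hg2
    refine ⟨?_, ?_, ?_⟩
    · intro p hp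
      refine ⟨?_, ?_, ?_⟩
      · by_contra h
        exact n1 (mem_filter.2 ⟨hg1, p, hp, h⟩)
      · intro h
        exact n2 (mem_filter.2 ⟨hg1, p, hp, Or.inl h⟩)
      · intro h
        exact n2 (mem_filter.2 ⟨hg1, p, hp, Or.inr h⟩)
    · have h1 : 99 / 100 * S ≤ (nD (PQ P0 z0) 0 g.2 : ℝ) := by
        by_contra h
        exact n3 (mem_filter.2 ⟨hg1, not_le.1 h⟩)
      obtain ⟨p, hp, hD⟩ := kex g.2 0 h1
      exact ⟨p, hp, TC_dvd.2 hD⟩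
    · have h1 : 99 / 100 * S ≤ (nD (PQ P0 z0) 1 g.2 : ℝ) := by
        by_contra h
        exact n4 (mem_filter.2 ⟨hg1, not_le.1 h⟩)
      obtain ⟨p, hp, hD⟩ := kex g.2 1 h1
      exact ⟨p, hp, TC_dvd.2 hD⟩
  have hcard : (((Bx m H N).filter fun g => ¬ Ty e P0 z0 g.1 g.2).card : ℝ) ≤
      F1.card + F2.card + (F3 0).card + (F3 1).card := by
    have a0 := card_le_card hsub
    have a1 := card_union_le F1 (F2 ∪ (F3 0 ∪ F3 1))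
    have a2 := card_union_le F2 (F3 0 ∪ F3 1)
    have a3 := card_union_le (F3 0) (F3 1)
    have : ((Bx m H N).filter fun g => ¬ Ty e P0 z0 g.1 g.2).card ≤
      F1.card + F2.card + (F3 0).card + (F3 1).card := by omega
    exact_mod_cast this
  have m1 : (F1.card : ℝ) ≤ W * (3 * T) := k1
  have m2 : (F2.card : ℝ) ≤ W * (4 * T) := k2
  have m3 : ((F3 0).card : ℝ) ≤ W * (80000 * (1 / S)) := by
    have := k3 0
    rw [div_eq_mul_one_div (80000 : ℝ)] at this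
    exact this
  have m4 : ((F3 1).card : ℝ) ≤ W * (80000 * (1 / S)) := by
    have := k3 1
    rw [div_eq_mul_one_div (80000 : ℝ)] at this
    exact this
  have hS0 : 0 < S := by linarith
  have e2 : 0 ≤ 1 / S := by positivity
  have e1 : 0 ≤ 1 / (P0 : ℝ) := by positivity
  have m5 : W * T ≤ W * (1 / (P0 : ℝ)) := mul_le_mul_of_nonneg_left ksq hW0
  have m6 : 0 ≤ W * (1 / (P0 : ℝ)) := mul_nonneg hW0 e1
  have m7 : 0 ≤ W * (1 / S) := mul_nonneg hW0 e2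
  have m8 : 1000000 * W * (1 / (P0 : ℝ) + 1 / S) = 1000000 * (W * (1 / (P0 : ℝ))) + 1000000 * (W * (1 / S)) := by ring
  rw [m8]
  have n1 : W * (3 * T) = 3 * (W * T) := by ring
  have n2 : W * (4 * T) = 4 * (W * T) := by ring
  have n3 : W * (80000 * (1 / S)) = 80000 * (W * (1 / S)) := by ring
  rw [n1] at m1
  rw [n2] at m2
  rw [n3] at m3 m4
  linarith

/-- Proof. Not `Typ1`: not `Ty` (`notTy_card`, `Ty_ns`), or `nE1 > 101/100 S` (`nE_card1`), or `nD Q j < 99/100 S` (`FQQ.nD_card`), or `Lpr1 > q1` (`Lpr_card1`). -/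
theorem notTyp1_card {m : ℕ} {e : ℕ → ℕ × ℕ} (he : Mon m e) {H N P0 z0 q1 : ℕ} (hN : 0 < N) (hH : N ≤ H) (hP0 : 4 ≤ P0) (hPz : P0 ≤ z0)
    (hz0 : z0 ^ 2 ≤ 4 * N) (hq1 : 1 < q1) (hS : 200 ≤ ∑ p ∈ PQ P0 z0, 1 / (p : ℝ)) :
    (((Bx m H N).filter fun g => ¬ Typ1 e (PQ P0 z0) q1 g.1 g.2).card : ℝ) ≤
      2000000 * ((8 * (H : ℝ)) ^ (m + 1) * (8 * (N : ℝ)) ^ 6) * (1 / (P0 : ℝ) + 1 / (∑ p ∈ PQ P0 z0, 1 / (p : ℝ)) +
        Real.log z0 * (∑ p ∈ PQ P0 z0, 1 / (p : ℝ)) / Real.log q1) := by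
  have hz01 : 1 ≤ z0 := by omega
  have hz0r : (1 : ℝ) ≤ z0 := by exact_mod_cast hz01
  have hq1r : (1 : ℝ) < q1 := by exact_mod_cast hq1
  have hlq1 : 0 < Real.log q1 := Real.log_pos hq1r
  have hQ1 : ∀ p ∈ PQ P0 z0, p.Prime := fun p hp => (TC_prime hp).1
  have hQ2 : ∀ p ∈ PQ P0 z0, p.Prime ∧ p ≠ 2 := by
    intro p hp
    obtain ⟨a, b, c⟩ := TC_prime hp
    exact ⟨a, by omega⟩
  have hQ3 : ∀ p ∈ PQ P0 z0, ∀ p' ∈ PQ P0 z0, p * p' ≤ 4 * N := by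
    intro p hp p' hp'
    have a := (TC_prime hp).2.2
    have a' := (TC_prime hp').2.2
    calc p * p' ≤ z0 * z0 := Nat.mul_le_mul a a'
      _ = z0 ^ 2 := by ring
      _ ≤ 4 * N := hz0
  have hQ5 : ∀ p ∈ PQ P0 z0, p.Prime ∧ p ≠ 2 ∧ p ≤ 4 * N ∧ p ≤ z0 := by
    intro p hp
    have a := (TC_prime hp).2.2
    have b : z0 ≤ z0 ^ 2 := Nat.le_self_pow (by norm_num) z0
    exact ⟨(hQ2 p hp).1, (hQ2 p hp).2, by omega, a⟩
  have k0 := notTy_card (m := m) he hN hH hP0 hPz hz0 hS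
  have k1 := nE_card1 (m := m) he hN hH (PQ P0 z0) hQ1 hQ3 hS
  have k3 := fun j => nD_card (m := m) hN hH (PQ P0 z0) hQ2 hQ3 hS j
  have k4 := Lpr_card1 (m := m) he hN hH (PQ P0 z0) hQ5 hq1 hz01
  obtain ⟨S, hSd⟩ : ∃ S : ℝ, S = ∑ p ∈ PQ P0 z0, 1 / (p : ℝ) := ⟨_, rfl⟩
  rw [← hSd] at hS k0 k1 k4 ⊢
  simp only [← hSd] at k3
  obtain ⟨W, hW⟩ : ∃ W : ℝ, W = (8 * (H : ℝ)) ^ (m + 1) * (8 * (N : ℝ)) ^ 6 := ⟨_, rfl⟩
  have hW0 : 0 ≤ W := by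
    rw [hW]
    positivity
  rw [← hW] at k0 k1 k4 ⊢
  simp only [← hW] at k3
  let F0 := (Bx m H N).filter fun g => ¬ Ty e P0 z0 g.1 g.2
  let F1 := (Bx m H N).filter fun g => 101 / 100 * S < (nE1 e (PQ P0 z0) g.1 g.2 : ℝ)
  let F3 : Fin 2 → Finset (Vn m × (V × V)) := fun j =>
    (Bx m H N).filter fun g => (nD (PQ P0 z0) j g.2 : ℝ) < 99 / 100 * S
  let F4 := (Bx m H N).filter fun g => q1 < Lpr1 e (PQ P0 z0) g.1 g.2
  have hsub : ((Bx m H N).filter fun g => ¬ Typ1 e (PQ P0 z0) q1 g.1 g.2) ⊆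
      F0 ∪ (F1 ∪ (F3 0 ∪ (F3 1 ∪ F4))) := by
    intro g hg
    obtain ⟨hg1, hg2⟩ := mem_filter.1 hg
    simp only [mem_union]
    by_contra hcon
    push Not at hcon
    obtain ⟨n0, n1, n2, n3, n4⟩ := hcon
    have t0 : Ty e P0 z0 g.1 g.2 := by
      by_contra h
      exact n0 (mem_filter.2 ⟨hg1, h⟩)
    have t1 : (nE1 e (PQ P0 z0) g.1 g.2 : ℝ) ≤ 101 / 100 * ∑ p ∈ PQ P0 z0, 1 / (p : ℝ) := by
      rw [← hSd]
      by_contra h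
      exact n1 (mem_filter.2 ⟨hg1, not_le.1 h⟩)
    have t2 : ∀ j, 99 / 100 * ∑ p ∈ PQ P0 z0, 1 / (p : ℝ) ≤ (nD (PQ P0 z0) j g.2 : ℝ) := by
      intro j
      rw [← hSd]
      by_contra h
      have h' : g ∈ F3 j := mem_filter.2 ⟨hg1, not_le.1 h⟩
      have hj : j = 0 ∨ j = 1 := by
        have := j.2
        rcases Nat.lt_or_ge j.1 1 with a | a
        · left
          ext
          simp only [Fin.val_zero]
          omega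
        · right
          ext
          simp only [Fin.val_one]
          omega
      rcases hj with rfl | rfl
      · exact n2 h'
      · exact n3 h'
    have t4 : Lpr1 e (PQ P0 z0) g.1 g.2 ≤ q1 := by
      by_contra h
      exact n4 (mem_filter.2 ⟨hg1, not_le.1 h⟩)
    exact hg2 ⟨fun p hp => (t0.1 p hp).1, t1, t2, t4, Ty_ns t0⟩
  have hcard : (((Bx m H N).filter fun g => ¬ Typ1 e (PQ P0 z0) q1 g.1 g.2).card : ℝ) ≤
      F0.card + F1.card + (F3 0).card + (F3 1).card + F4.card := by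
    have a0 := card_le_card hsub
    have a1 := card_union_le F0 (F1 ∪ (F3 0 ∪ (F3 1 ∪ F4)))
    have a2 := card_union_le F1 (F3 0 ∪ (F3 1 ∪ F4))
    have a3 := card_union_le (F3 0) (F3 1 ∪ F4)
    have a4 := card_union_le (F3 1) F4
    have : ((Bx m H N).filter fun g => ¬ Typ1 e (PQ P0 z0) q1 g.1 g.2).card ≤
      F0.card + F1.card + (F3 0).card + (F3 1).card + F4.card := by omega
    exact_mod_cast this
  have hS0 : 0 < S := by linarith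
  have e1 : 0 ≤ 1 / (P0 : ℝ) := by positivity
  have e2 : 0 ≤ 1 / S := by positivity
  have e3 : 0 ≤ Real.log z0 * S / Real.log q1 := by
    have := Real.log_nonneg hz0r
    positivity
  have m0 : (F0.card : ℝ) ≤ 1000000 * (W * (1 / (P0 : ℝ))) + 1000000 * (W * (1 / S)) := by
    refine k0.trans (le_of_eq ?_)
    ring
  have m1 : (F1.card : ℝ) ≤ 80000 * (W * (1 / S)) := by
    refine k1.trans (le_of_eq ?_)
    ring
  have m2 : ((F3 0).card : ℝ) ≤ 80000 * (W * (1 / S)) := by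
    refine (k3 0).trans (le_of_eq ?_)
    ring
  have m3 : ((F3 1).card : ℝ) ≤ 80000 * (W * (1 / S)) := by
    refine (k3 1).trans (le_of_eq ?_)
    ring
  have m4 : (F4.card : ℝ) ≤ 3 * (W * (Real.log z0 * S / Real.log q1)) := by
    refine k4.trans (le_of_eq ?_)
    ring
  have m6 : 0 ≤ W * (1 / (P0 : ℝ)) := mul_nonneg hW0 e1
  have m7 : 0 ≤ W * (1 / S) := mul_nonneg hW0 e2
  have m8 : 0 ≤ W * (Real.log z0 * S / Real.log q1) := mul_nonneg hW0 e3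
  have m9 : 2000000 * W * (1 / (P0 : ℝ) + 1 / S + Real.log z0 * S / Real.log q1) =
      2000000 * (W * (1 / (P0 : ℝ))) + 2000000 * (W * (1 / S)) + 2000000 * (W * (Real.log z0 * S / Real.log q1)) := by ring
  rw [m9]
  linarith

end HNF
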