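import Pool.Agent.Lib.MP_1ad228_ntH.HL0
import Pool.Agent.Lib.MP_1ad228_ntH.HL1
import Pool.Agent.Lib.MP_1ad228_ntH.HI3
import Pool.Agent.Lib.MP_1ad228_ntH.HJ1
import Pool.Agent.Lib.MP_1ad228_ntH.HB3
import Pool.Agent.Lib.MP_1ad228_ntH.HC3
import Pool.Agent.Lib.MP_1ad228_ntH.TC

/-! A zero-cycle of degree one gives the conditions `Sel1`. -/

set_option autoImplicit false

open Classical

namespace HNF

open Finset Polynomial FGO FQQ

/-- the curve of a vector and a pair of quadratic forms -/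
def qOf {g : ℕ} (s : Vn (2 * g + 1) × (V × V)) : Dt g := (s.2, (gA s.1, gB s.1))

theorem HL2_ex {m : ℕ} {c : Vn m} {H : ℕ} (hc : ∀ i, |c i| ≤ (H : ℤ)) (k : ℕ) : |ex c k| ≤ (H : ℤ) := by
  unfold ex
  by_cases h : k < m + 1
  · rw [dif_pos h]
    exact hc _
  · rw [dif_neg h, abs_zero]
    exact Int.natCast_nonneg H

theorem HL2_first {v : V} (hv : ¬ IsSquare (ds v)) : v.1 ≠ 0 := by
  intro h
  apply hv
  refine ⟨v.2.1, ?_⟩
  unfold ds
  rw [h]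
  ring

theorem HL2_small {p N : ℕ} {a : ℤ} (ha : a ≠ 0) (h : |a| ≤ (N : ℤ)) (hp : N < p) : ¬ (p : ℤ) ∣ a := by
  intro hd
  have h1 : |a| < (p : ℤ) := lt_of_le_of_lt h (by exact_mod_cast hp)
  exact ha (Int.eq_zero_of_abs_lt_dvd hd h1)

theorem HL2_zero {p : ℕ} {a : ℤ} (h : (p : ℤ) ∣ a) : ((a : ℤ) : ZMod p) = 0 :=
  (ZMod.intCast_zmod_eq_zero_iff_dvd _ _).2 h

theorem HL2_isSq {p : ℕ} [Fact p.Prime] {a : ℤ} (h : jacobiSym a p ≠ -1) : IsSquare ((a : ℤ) : ZMod p) := by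
  by_contra hn
  apply h
  rw [← jacobiSym.legendreSym.to_jacobiSym]
  exact (legendreSym.eq_neg_one_iff p).2 hn

theorem HL2_Sq {p : ℕ} [Fact p.Prime] {a : ℤ} (h : jacobiSym a p = 1) : Sq ((a : ℤ) : ZMod p) := by
  rw [← jacobiSym.legendreSym.to_jacobiSym] at h
  have h0 : ((a : ℤ) : ZMod p) ≠ 0 := by
    intro h1
    rw [(legendreSym.eq_zero_iff p a).2 h1] at h
    exact zero_ne_one h
  exact ⟨h0, (legendreSym.eq_one_iff p h0).1 h⟩

/-- Proof. Put `v = s.2.1`, `w = s.2.2`, `R = Rg (gA s.1) (gB s.1) v w`, not zero. The cycle gives `δ` with `δ² ≤ |R|` and `Cn R v w δ`; the large primes which divide `δ` divide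
neither leading coefficient and the discriminants are squares, so there is a common zero; the small primes which divide a discriminant do not divide `R`. -/
theorem sel_of {g : ℕ} (hg : 1 ≤ g) {H N P0 z0 P : ℕ} (s : Vn (2 * g + 1) × (V × V)) (hs : s ∈ Bx (2 * g + 1) H N) (hP0 : 4 ≤ P0)
    (hz : z0 ≤ N) (hT : Ty eH P0 z0 s.1 s.2) (hX : ∀ p ∈ PQ P0 N, ¬ XeP p s.1 s.2) (hc : NoCz (gA s.1) (gB s.1))
    (hP : ((2 * g + 2).factorial * (3 * (g + 1) ^ 2) ^ 2) * H ^ 2 * N ^ (g + 1) ≤ P)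
    (h : Adelic (qOf s) ∨ Global (qOf s)) : Sel1 eH P0 z0 P s.1 s.2 := by
  obtain ⟨c, v, w⟩ := s
  change Ty eH P0 z0 c (v, w) at hT
  change ∀ p ∈ PQ P0 N, ¬ XeP p c (v, w) at hX
  change NoCz (gA c) (gB c) at hc
  change Sel1 eH P0 z0 P c (v, w)
  -- the box
  unfold Bx at hs
  rw [Finset.mem_product] at hs
  obtain ⟨hs1, hs2⟩ := hs
  change c ∈ boxN (2 * g + 1) H at hs1
  change (v, w) ∈ box2 N at hs2
  obtain ⟨hvb, hwb⟩ := mem_box2.1 hs2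
  change v ∈ box N at hvb
  change w ∈ box N at hwb
  have hcb : ∀ i, |c i| ≤ (H : ℤ) := by
    intro i
    have h1 := Fintype.mem_piFinset.1 hs1 i
    rw [Finset.mem_Icc] at h1
    exact abs_le.2 h1
  have hAb : ∀ i, |gA c i| ≤ (H : ℤ) := fun i => HL2_ex hcb _
  have hBb : ∀ i, |gB c i| ≤ (H : ℤ) := fun i => by
    unfold gB
    rw [abs_neg]
    exact HL2_ex hcb _
  -- the resultant
  obtain ⟨n1, n2, n3⟩ := Ty_ns hT
  change ¬ IsSquare (ds v) at n1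
  change ¬ IsSquare (ds w) at n2
  change ¬ IsSquare (ds v * ds w) at n3
  have hv1 : v.1 ≠ 0 := HL2_first n1
  have hw1 : w.1 ≠ 0 := HL2_first n2
  have hR : Rg (gA c) (gB c) v w ≠ 0 := Rg_ne (gA c) (gB c) v w hc n1 n2 n3
  have hR' : Rq (qOf (c, (v, w))) ≠ 0 := hR
  have hA : Adelic (qOf (c, (v, w))) := by
    rcases h with h | h
    · exact h
    · exact glob_H hg _ hR' h
  obtain ⟨β, hβ, hCn⟩ := arith_H hg (qOf (c, (v, w))) hR' hv1 hw1 hc hA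
  obtain ⟨δ, hδ, hδR, k1, k2, k3⟩ := switch_H (gA c) (gB c) v w hR hv1 hw1 β hβ hCn
  have hRabs := abs_Rg_le (gA c) (gB c) v w H N hAb hBb hvb hwb
  have hRp : ∀ p : ℕ, ((Rg (gA c) (gB c) v w : ℤ) : ZMod p) = Rg (gA (cN p c)) (gB (cN p c)) (cV p v) (cV p w) := by
    intro p
    rw [Rg_cast, gA_cN, gB_cN]
  refine ⟨δ, hδ, ?_, ?_, ?_, ?_⟩
  · -- the bound for `δ`
    set B0 : ℕ := (2 * g + 2).factorial * (3 * (g + 1) ^ 2) ^ 2 with hB0
    have h1 : δ ^ 2 ≤ (B0 : ℤ) * (H : ℤ) ^ 4 * (N : ℤ) ^ (2 * g + 2) := hδR.trans hRabs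
    have h2 : ((δ.natAbs : ℕ) : ℤ) ^ 2 = δ ^ 2 := Int.natAbs_sq δ
    rw [← h2] at h1
    have h3 : δ.natAbs ^ 2 ≤ B0 * H ^ 4 * N ^ (2 * g + 2) := by exact_mod_cast h1
    have h4 : B0 * H ^ 4 * N ^ (2 * g + 2) ≤ (B0 * H ^ 2 * N ^ (g + 1)) ^ 2 := by
      have h5 : B0 ≤ B0 ^ 2 := Nat.le_self_pow two_ne_zero B0
      calc B0 * H ^ 4 * N ^ (2 * g + 2) ≤ B0 ^ 2 * H ^ 4 * N ^ (2 * g + 2) :=
            Nat.mul_le_mul_right _ (Nat.mul_le_mul_right _ h5)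
        _ = (B0 * H ^ 2 * N ^ (g + 1)) ^ 2 := by ring
    have h6 : δ.natAbs ^ 2 ≤ (B0 * H ^ 2 * N ^ (g + 1)) ^ 2 := h3.trans h4
    exact ((Nat.pow_le_pow_iff_left two_ne_zero).1 h6).trans hP
  · -- the primes which divide `δ`
    intro p hp hpP hpδ
    change ¬ (p : ℤ) ∣ v.1 ∧ ¬ (p : ℤ) ∣ w.1 ∧ Ez eH (cN p c) (cV p v) (cV p w)
    have : Fact p.Prime := ⟨hp⟩
    have hp2 : p ≠ 2 := by omega
    obtain ⟨j1, j2, j3⟩ := k1 p hp hpδ
    have hRg0 : Rg (gA (cN p c)) (gB (cN p c)) (cV p v) (cV p w) = 0 := by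
      rw [← hRp]
      exact HL2_zero j1
    have hpv : ¬ (p : ℤ) ∣ v.1 ∧ ¬ (p : ℤ) ∣ w.1 := by
      by_cases hpN : p ≤ N
      · have hmem : p ∈ PQ P0 N := by
          unfold PQ
          rw [Finset.mem_filter, Finset.mem_Ioc]
          exact ⟨⟨hpP, hpN⟩, hp⟩
        have hx := hX p hmem
        constructor
        · intro hd
          exact hx (Or.inl ⟨hRg0, Or.inl (HL2_zero hd)⟩)
        · intro hd
          exact hx (Or.inl ⟨hRg0, Or.inr (Or.inl (HL2_zero hd))⟩)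
      · push Not at hpN
        exact ⟨HL2_small hv1 (mem_box.1 hvb).1 hpN, HL2_small hw1 (mem_box.1 hwb).1 hpN⟩
    refine ⟨hpv.1, hpv.2, ?_⟩
    have h2F : (2 : ZMod p) ≠ 0 := by
      intro h0
      have h1 : ((2 : ℕ) : ZMod p) = 0 := by exact_mod_cast h0
      rw [ZMod.natCast_eq_zero_iff] at h1
      exact hp2 ((Nat.prime_dvd_prime_iff_eq hp Nat.prime_two).1 h1)
    refine Ez_of_Rg h2F hg (cN p c) (cV p v) (cV p w) ?_ ?_ ?_ ?_ hRg0
    · intro h0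
      exact hpv.1 ((ZMod.intCast_zmod_eq_zero_iff_dvd _ _).1 h0)
    · intro h0
      exact hpv.2 ((ZMod.intCast_zmod_eq_zero_iff_dvd _ _).1 h0)
    · rw [← ds_cast]
      exact HL2_isSq (j2 hp2 hpv.1)
    · rw [← ds_cast]
      exact HL2_isSq (j3 hp2 hpv.2)
  · intro p hp hd
    change (p : ℤ) ∣ ds v at hd
    have hmem := hp
    unfold PQ at hmem
    rw [Finset.mem_filter, Finset.mem_Ioc] at hmem
    obtain ⟨⟨hpP, hpz⟩, hpp⟩ := hmem
    have : Fact p.Prime := ⟨hpp⟩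
    have hx : ¬ XeP p c (v, w) := by
      refine hX p ?_
      unfold PQ
      rw [Finset.mem_filter, Finset.mem_Ioc]
      exact ⟨⟨hpP, hpz.trans hz⟩, hpp⟩
    have hdv : ds (cV p v) = 0 := by
      rw [← ds_cast]
      exact HL2_zero hd
    have hnR : ¬ (p : ℤ) ∣ Rg (gA c) (gB c) v w := by
      intro h0
      exact hx (Or.inl ⟨by rw [← hRp]; exact HL2_zero h0, Or.inr (Or.inr (Or.inl hdv))⟩)
    have hnv : ¬ (p : ℤ) ∣ v.1 := by
      intro h0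
      exact hx (Or.inr (Or.inl ⟨hdv, HL2_zero h0⟩))
    exact HL2_Sq (k2 p hpp (by omega) hnR hd (hT.1 p hp).2.1 hnv)
  · intro p hp hd
    change (p : ℤ) ∣ ds w at hd
    have hmem := hp
    unfold PQ at hmem
    rw [Finset.mem_filter, Finset.mem_Ioc] at hmem
    obtain ⟨⟨hpP, hpz⟩, hpp⟩ := hmem
    have : Fact p.Prime := ⟨hpp⟩
    have hx : ¬ XeP p c (v, w) := by
      refine hX p ?_
      unfold PQ
      rw [Finset.mem_filter, Finset.mem_Ioc]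
      exact ⟨⟨hpP, hpz.trans hz⟩, hpp⟩
    have hdw : ds (cV p w) = 0 := by
      rw [← ds_cast]
      exact HL2_zero hd
    have hnR : ¬ (p : ℤ) ∣ Rg (gA c) (gB c) v w := by
      intro h0
      exact hx (Or.inl ⟨by rw [← hRp]; exact HL2_zero h0, Or.inr (Or.inr (Or.inr hdw))⟩)
    have hnw : ¬ (p : ℤ) ∣ w.1 := by
      intro h0
      exact hx (Or.inr (Or.inr ⟨hdw, HL2_zero h0⟩))
    exact HL2_Sq (k3 p hpp (by omega) hnR hd (hT.1 p hp).2.2 hnw)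

end HNF
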