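import Pool.Agent.Lib.MP_1ad228_ntH.PB1
import Pool.Agent.Lib.MP_1ad228_ntH.HL2
import Pool.Agent.Lib.MP_10e784_agF.VD

/-! JOB PB2 -/

set_option autoImplicit false

open Classical

namespace HNF

open Finset Polynomial FGO FQQ

theorem PB2_vV {K : Type} [CommRing K] (v : V) (a : ℤ) :
    ((vV v a 1 : ℤ) : K) = vV v (a : K) 1 := by
  unfold vV
  push_cast
  ring

theorem PB2_vG {K : Type} [CommRing K] {g : ℕ} (G : Vn g) (a : ℤ) :
    ((vG G a 1 : ℤ) : K) = vG G (a : K) 1 := by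
  unfold vG
  push_cast
  rfl

theorem PB2_vH {K : Type} [CommRing K] {g : ℕ} (q : Dt g) (a : ℤ) :
    ((vH q a 1 : ℤ) : K) = vH q (a : K) 1 := by
  unfold vH
  rw [← PB2_vG, ← PB2_vG]
  unfold vV
  push_cast
  ring

theorem PB2_hH {g : ℕ} (p : ℕ) (c : Vn (2 * g + 1)) (u : V × V) (x : ZMod p) :
    vH (qOf (c, u)) x 1 = hv (hw (cV p u.2) (gA (cN p c)) (gB (cN p c))) x 1 := by
  rw [vH_eq]
  congr 1
  funext i
  have h := map_hw (Int.castRingHom (ZMod p)) u.2 (gA c) (gB c) i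
  rw [← gA_cN, ← gB_cN]
  exact h

/-- Proof. `pt_mod`; lift `x = (a : ZMod p)`; `I = vV u.1 a 1 * vH (qOf (c, u)) a 1` (an integer) is not divisible by `p` and a square modulo `p`, so a square in `ℚ_[p]` (as in `locP_of_not_bad`, VC.lean; casts: `map_hw`, `gA_cN`, `gB_cN`, `vH_eq`). -/
theorem loc_H {g : ℕ} (hg : 1 ≤ g) : ∃ w1 : ℕ, 3 ≤ w1 ∧ ∀ (p : ℕ) [Fact p.Prime], w1 ≤ p → ∀ (c : Vn (2 * g + 1)) (u : V × V),
    ¬ BdP p c u → HasPoint ℚ_[p] (qOf (c, u)) := by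
  obtain ⟨w1, hw3, hpm⟩ := pt_mod (g := g) hg
  refine ⟨w1, hw3, ?_⟩
  intro p hpf hp c u hb
  have hp2 : p ≠ 2 := by
    rintro rfl
    omega
  obtain ⟨x, hx0, hxsq⟩ := hpm p hp c u hb
  obtain ⟨a, ha⟩ := ZMod.intCast_surjective x
  have hI : ((vV u.1 a 1 * vH (qOf (c, u)) a 1 : ℤ) : ZMod p) =
      qv (cV p u.1) x 1 * hv (hw (cV p u.2) (gA (cN p c)) (gB (cN p c))) x 1 := by
    rw [Int.cast_mul, PB2_vV, PB2_vH, ha, PB2_hH, vV_eq]
    rfl
  have hnd : ¬ (p : ℤ) ∣ vV u.1 a 1 * vH (qOf (c, u)) a 1 := by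
    intro h
    apply hx0
    rw [← hI]
    exact (ZMod.intCast_zmod_eq_zero_iff_dvd _ _).2 h
  obtain ⟨z, hz⟩ := EL.hens_sq_odd p hp2 (vV u.1 a 1 * vH (qOf (c, u)) a 1) hnd (by rw [hI]; exact hxsq)
  refine ⟨(a : ℚ_[p]), 1, (z : ℚ_[p]), fun h => one_ne_zero h.2, ?_⟩
  have h1 : ((z : ℚ_[p])) ^ 2 = ((vV u.1 a 1 * vH (qOf (c, u)) a 1 : ℤ) : ℚ_[p]) := by
    have h2 := congrArg (fun t : ℤ_[p] => (t : ℚ_[p])) hz
    simp only [PadicInt.coe_pow, PadicInt.coe_intCast] at h2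
    exact h2
  rw [h1, Int.cast_mul, PB2_vV, PB2_vH]
  rfl

/-- signs -/
def PosH {g : ℕ} (c : Vn (2 * g + 1)) (u : V × V) : Prop :=
  (0 < gA c (Fin.last g) ∧ gB c (Fin.last g) < 0) ∧ 0 < u.1.1 ∧ 0 < u.2.1 ∧ u.2.2.1 < 0 ∧ 0 < u.2.2.2

/-- the vector of the pair of forms `(x^g, z^g)` -/
def c1 (g : ℕ) : Vn (2 * g + 1) := fun n => if (n : ℕ) = (if g = 1 then 1 else 2 * g) then 1 else if (n : ℕ) = 2 then -1 else 0

/-- the residue class modulo `M` of `v = x² - z²`, `w = x² + z²`, `G₁ = x^g`, `G₂ = z^g` -/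
def ClH {g : ℕ} (M : ℕ) (c : Vn (2 * g + 1)) (u : V × V) : Prop :=
  CgN M c (c1 g) ∧ Cg M u.1 (1, 0, -1) ∧ Cg M u.2 (1, 0, 1)

theorem clH_gA {g : ℕ} (hg : 1 ≤ g) {M : ℕ} {c : Vn (2 * g + 1)} {u : V × V} (h : ClH M c u) (i : Fin (g + 1)) :
    (M : ℤ) ∣ gA c i - (if i = Fin.last g then 1 else 0) := by
  have h1 := h.1
  have hi := i.isLt
  by_cases h2 : (i : ℕ) = 1
  · have h3 := h1 ⟨1, by omega⟩
    have e1 : gA c i = c ⟨1, by omega⟩ := by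
      unfold gA ex
      rw [if_pos h2, dif_pos (by omega)]
    have e2 : c1 g ⟨1, by omega⟩ = if i = Fin.last g then 1 else 0 := by
      unfold c1
      by_cases h4 : g = 1
      · have h5 : i = Fin.last g := Fin.ext (by rw [Fin.val_last]; omega)
        simp [h4, h5]
      · have h5 : i ≠ Fin.last g := by
          intro h6
          have := congrArg Fin.val h6
          rw [Fin.val_last] at this
          omega
        rw [if_neg h5]
        simp only [if_neg h4]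
        rw [if_neg (by omega), if_neg (by omega)]
    rw [e1, ← e2]
    exact h3
  · have h3 := h1 ⟨2 * (i : ℕ), by omega⟩
    have e1 : gA c i = c ⟨2 * (i : ℕ), by omega⟩ := by
      unfold gA ex
      rw [if_neg h2, dif_pos (by omega)]
    have e2 : c1 g ⟨2 * (i : ℕ), by omega⟩ = if i = Fin.last g then 1 else 0 := by
      unfold c1
      show (if 2 * (i : ℕ) = (if g = 1 then 1 else 2 * g) then (1 : ℤ) else if 2 * (i : ℕ) = 2 then -1 else 0) = _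
      by_cases h5 : i = Fin.last g
      · have h6 : (i : ℕ) = g := by
          rw [h5, Fin.val_last]
        rw [if_pos h5, if_neg (by omega : ¬ g = 1), if_pos (by omega)]
      · have h6 : (i : ℕ) ≠ g := by
          intro h7
          exact h5 (Fin.ext (by rw [Fin.val_last]; exact h7))
        rw [if_neg h5]
        rw [if_neg (by split_ifs <;> omega), if_neg (by omega)]
    rw [e1, ← e2]
    exact h3

theorem clH_gB {g : ℕ} (hg : 1 ≤ g) {M : ℕ} {c : Vn (2 * g + 1)} {u : V × V} (h : ClH M c u) (i : Fin (g + 1)) :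
    (M : ℤ) ∣ gB c i - (if i = 0 then 1 else 0) := by
  have h1 := h.1
  have hi := i.isLt
  by_cases h2 : (i : ℕ) = 0
  · have h3 := h1 ⟨2, by omega⟩
    have e1 : gB c i = - c ⟨2, by omega⟩ := by
      unfold gB ex
      rw [if_pos h2, dif_pos (by omega)]
    have e2 : c1 g ⟨2, by omega⟩ = -1 := by
      unfold c1
      show (if 2 = (if g = 1 then 1 else 2 * g) then (1 : ℤ) else if 2 = 2 then -1 else 0) = _
      rw [if_neg (by split_ifs <;> omega), if_pos rfl]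
    have h5 : i = 0 := Fin.ext h2
    rw [if_pos h5, e1]
    rw [e2] at h3
    obtain ⟨s, hs⟩ := h3
    exact ⟨-s, by linear_combination -hs⟩
  · have h3 := h1 ⟨2 * (i : ℕ) + 1, by omega⟩
    have e1 : gB c i = - c ⟨2 * (i : ℕ) + 1, by omega⟩ := by
      unfold gB ex
      rw [if_neg h2, dif_pos (by omega)]
    have e2 : c1 g ⟨2 * (i : ℕ) + 1, by omega⟩ = 0 := by
      unfold c1
      show (if 2 * (i : ℕ) + 1 = (if g = 1 then 1 else 2 * g) then (1 : ℤ) else if 2 * (i : ℕ) + 1 = 2 then -1 else 0) = _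
      rw [if_neg (by split_ifs <;> omega), if_neg (by omega)]
    have h5 : i ≠ 0 := by
      intro h6
      apply h2
      rw [h6]
      rfl
    rw [if_neg h5, e1]
    rw [e2] at h3
    obtain ⟨s, hs⟩ := h3
    exact ⟨-s, by linear_combination -hs⟩

theorem PB2_inf {F : Type} [CommRing F] {g : ℕ} (G : Vn g) : vG G (1 : F) 0 = ((G (Fin.last g) : ℤ) : F) := by
  rw [vG_eq, hv_inf]

theorem PB2_sq (p : ℕ) [Fact p.Prime] (w : ℕ) (hp : p ≤ w) (I : ℤ) (h0 : 0 < I)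
    (hI : ((8 * primorial w : ℕ) : ℤ) ∣ I - 1) : ∃ z : ℤ_[p], z ^ 2 = (I : ℤ_[p]) := by
  have hpp : p.Prime := Fact.out
  obtain ⟨m, rfl⟩ : ∃ m : ℕ, I = (m : ℤ) := ⟨I.toNat, by omega⟩
  have hp' : p ∣ 8 * primorial w := by
    refine Dvd.dvd.mul_left ?_ 8
    unfold primorial
    exact Finset.dvd_prod_of_mem _ (by simp only [Finset.mem_filter, Finset.mem_range]; exact ⟨by omega, hpp⟩)
  obtain ⟨k, hk⟩ := hI
  have hc : m.Coprime (8 * primorial w) := by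
    rw [← Nat.isCoprime_iff_coprime]
    exact ⟨1, -k, by linear_combination hk⟩
  have hsq : IsSquare (m : ZMod (8 * primorial w)) := by
    have h1 : (((m : ℤ) - 1 : ℤ) : ZMod (8 * primorial w)) = 0 := by
      rw [hk]
      rw [Int.cast_mul, Int.cast_natCast, ZMod.natCast_self, zero_mul]
    have h2 : (m : ZMod (8 * primorial w)) = 1 := by
      push_cast at h1
      exact sub_eq_zero.1 h1
    rw [h2]
    exact ⟨1, by ring⟩
  obtain ⟨z, hz⟩ := EL.hens_sq p (8 * primorial w) m (Dvd.intro _ rfl) hp' hc hsq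
  exact ⟨z, by rw [hz, Int.cast_natCast]⟩

/-- Proof. At `(1, 0)`: `v(1, 0) h(1, 0) = v.1 w(A, B) =: I` with `A = gA c g`, `B = gB c g`: `I > 0` (signs) and `I ≡ 1 · (1 · 1 + 0 + 0) = 1 mod 8 primorial w2` (`clH_gA`, `clH_gB`, `g ≠ 0`). Real: `√I`. `p ≤ w2`: `VD_sq` (file VD). `p > w2 ≥ w1`: `loc_H`. -/
theorem els_H {g : ℕ} (hg : 1 ≤ g) : ∃ w1 : ℕ, 3 ≤ w1 ∧ ∀ w2 : ℕ, w1 ≤ w2 → ∀ (c : Vn (2 * g + 1)) (u : V × V),
    ClH (8 * primorial w2) c u → PosH c u → (∀ p : ℕ, p.Prime → w2 < p → ¬ BdP p c u) →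
    HasPoint ℝ (qOf (c, u)) ∧ ∀ (p : ℕ) [Fact p.Prime], HasPoint ℚ_[p] (qOf (c, u)) := by
  obtain ⟨w1, hw3, h1⟩ := loc_H (g := g) hg
  refine ⟨w1, hw3, fun w2 hw2 c u hcl hpos hbad => ?_⟩
  obtain ⟨⟨pA, pB⟩, pv, pw1, pw2, pw3⟩ := hpos
  set A : ℤ := gA c (Fin.last g) with hA
  set B : ℤ := gB c (Fin.last g) with hB
  have hAd : ((8 * primorial w2 : ℕ) : ℤ) ∣ A - 1 := by
    have := clH_gA hg hcl (Fin.last g)
    rwa [if_pos rfl] at this
  have hBd : ((8 * primorial w2 : ℕ) : ℤ) ∣ B := by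
    have := clH_gB hg hcl (Fin.last g)
    rw [if_neg (by
      intro h0
      have := congrArg Fin.val h0
      rw [Fin.val_last, Fin.val_zero] at this
      omega), sub_zero] at this
    exact this
  obtain ⟨hv1, hv2, hv3⟩ := hcl.2.1
  obtain ⟨hx1, hx2, hx3⟩ := hcl.2.2
  simp only at hv1 hx1 hx2 hx3
  have hIpos : 0 < u.1.1 * (u.2.1 * A ^ 2 + u.2.2.1 * A * B + u.2.2.2 * B ^ 2) := by
    have e1 : 0 < u.2.1 * A ^ 2 := mul_pos pw1 (pow_pos pA 2)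
    have e2 : 0 < u.2.2.1 * A * B := mul_pos_of_neg_of_neg (mul_neg_of_neg_of_pos pw2 pA) pB
    have e3 : 0 < u.2.2.2 * B ^ 2 := mul_pos pw3 (by nlinarith [mul_pos_of_neg_of_neg pB pB])
    exact mul_pos pv (by linarith)
  have hImod : ((8 * primorial w2 : ℕ) : ℤ) ∣ u.1.1 * (u.2.1 * A ^ 2 + u.2.2.1 * A * B + u.2.2.2 * B ^ 2) - 1 := by
    obtain ⟨k1, hk1⟩ := hAd
    obtain ⟨k2, hk2⟩ := hBd
    obtain ⟨k3, hk3⟩ := hv1
    obtain ⟨k4, hk4⟩ := hx1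
    have e1 : A = 1 + ((8 * primorial w2 : ℕ) : ℤ) * k1 := by linear_combination hk1
    have e3 : u.1.1 = 1 + ((8 * primorial w2 : ℕ) : ℤ) * k3 := by linear_combination hk3
    have e4 : u.2.1 = 1 + ((8 * primorial w2 : ℕ) : ℤ) * k4 := by linear_combination hk4
    rw [e1, hk2, e3, e4]
    generalize ((8 * primorial w2 : ℕ) : ℤ) = M
    refine ⟨k3 * ((1 + M * k4) * (1 + M * k1) ^ 2 + u.2.2.1 * (1 + M * k1) * (M * k2) + u.2.2.2 * (M * k2) ^ 2) +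
      k4 * (1 + M * k1) ^ 2 + k1 * (2 + M * k1) + u.2.2.1 * (1 + M * k1) * k2 + u.2.2.2 * k2 * (M * k2), ?_⟩
    ring
  have hval : ∀ (F : Type) [Field F], vV u.1 (1 : F) 0 * vH (qOf (c, u)) (1 : F) 0 =
      ((u.1.1 * (u.2.1 * A ^ 2 + u.2.2.1 * A * B + u.2.2.2 * B ^ 2) : ℤ) : F) := by
    intro F _
    have e1 : vH (qOf (c, u)) (1 : F) 0 = vV u.2 (vG (gA c) (1 : F) 0) (vG (gB c) (1 : F) 0) := rfl
    rw [e1, PB2_inf, PB2_inf, ← hA, ← hB]
    unfold vV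
    push_cast
    ring
  constructor
  · have h0 : (0 : ℝ) ≤ ((u.1.1 * (u.2.1 * A ^ 2 + u.2.2.1 * A * B + u.2.2.2 * B ^ 2) : ℤ) : ℝ) := by
      exact_mod_cast hIpos.le
    refine ⟨1, 0, Real.sqrt ((u.1.1 * (u.2.1 * A ^ 2 + u.2.2.1 * A * B + u.2.2.2 * B ^ 2) : ℤ) : ℝ),
      fun h => one_ne_zero h.1, ?_⟩
    rw [Real.sq_sqrt h0]
    exact (hval ℝ).symm
  · intro p _
    rcases Nat.lt_or_ge w2 p with hlt | hge
    · exact h1 p (by omega) c u (hbad p Fact.out hlt)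
    · obtain ⟨z, hz⟩ := PB2_sq p w2 hge (u.1.1 * (u.2.1 * A ^ 2 + u.2.2.1 * A * B + u.2.2.2 * B ^ 2))
        hIpos hImod
      refine ⟨1, 0, (z : ℚ_[p]), fun h => one_ne_zero h.1, ?_⟩
      have h2 : ((z ^ 2 : ℤ_[p]) : ℚ_[p]) =
        (((u.1.1 * (u.2.1 * A ^ 2 + u.2.2.1 * A * B + u.2.2.2 * B ^ 2) : ℤ) : ℤ_[p]) : ℚ_[p]) := by rw [hz]
      rw [PadicInt.coe_pow, PadicInt.coe_intCast] at h2
      rw [h2]
      exact (hval ℚ_[p]).symm

end HNF
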