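import Pool.Agent.Lib.MP_1ad228_ntH.PC3
import Pool.Agent.Lib.MP_1ad228_ntH.PB2
import Pool.Agent.Lib.MP_1ad228_ntH.TA

/-! JOB PE1 -/

set_option autoImplicit false

open Classical

namespace HNF

open Finset Polynomial FGO FQQ

theorem PE1_ind_and (P Q : Prop) : ind (P ∧ Q) = ind P * ind Q := by
  unfold ind
  by_cases hP : P
  · by_cases hQ : Q
    · rw [if_pos ⟨hP, hQ⟩, if_pos hP, if_pos hQ, one_mul]
    · rw [if_neg (fun h => hQ h.2), if_neg hQ, mul_zero]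
  · rw [if_neg (fun h => hP h.1), if_neg hP, zero_mul]

theorem PE1_sum_le {α : Type} (s : Finset α) (P : α → Prop)
    (h : ∀ x ∈ s, ∀ y ∈ s, P x → P y → x = y) : ∑ x ∈ s, ind (P x) ≤ 1 := by
  by_cases h0 : ∃ x ∈ s, P x
  · obtain ⟨x, hx, hP⟩ := h0
    rw [Finset.sum_eq_single x]
    · exact ind_le_one _
    · intro y hy hne
      exact if_neg fun hy' => hne (h y hy x hx hy' hP)
    · intro h1
      exact absurd hx h1
  · have h1 : ∑ x ∈ s, ind (P x) = 0 :=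
      Finset.sum_eq_zero fun x hx => if_neg fun hP => h0 ⟨x, hx, hP⟩
    rw [h1]
    exact zero_le_one

theorem PE1_uniq {M : ℕ} {x y a : ℤ} (hx : 0 ≤ x ∧ x < M) (hy : 0 ≤ y ∧ y < M) (h1 : (M : ℤ) ∣ x - a)
    (h2 : (M : ℤ) ∣ y - a) : x = y := by
  have h3 : (M : ℤ) ∣ x - y := by
    have := dvd_sub h1 h2
    rwa [sub_sub_sub_cancel_right] at this
  have h4 : x % M = y % M := Int.emod_eq_emod_iff_emod_sub_eq_zero.2 (Int.emod_eq_zero_of_dvd h3)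
  rwa [Int.emod_eq_of_lt hx.1 hx.2, Int.emod_eq_of_lt hy.1 hy.2] at h4

theorem PE1_cubeN {m M : ℕ} (a : Vn m) : ∑ f ∈ cubeN m M, ind (CgN M f a) ≤ 1 := by
  refine PE1_sum_le _ _ fun f hf g hg h1 h2 => ?_
  rw [cubeN, Fintype.mem_piFinset] at hf hg
  funext i
  exact PE1_uniq (Finset.mem_Ico.1 (hf i)) (Finset.mem_Ico.1 (hg i)) (h1 i) (h2 i)

theorem PE1_cube {M : ℕ} (a : V) : ∑ v ∈ cube M, ind (Cg M v a) ≤ 1 := by
  refine PE1_sum_le _ _ fun f hf g hg h1 h2 => ?_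
  rw [cube, Finset.mem_product, Finset.mem_product, Finset.mem_Ico, Finset.mem_Ico, Finset.mem_Ico] at hf hg
  exact Prod.ext (PE1_uniq hf.1 hg.1 h1.1 h2.1)
    (Prod.ext (PE1_uniq hf.2.1 hg.2.1 h1.2.1 h2.2.1) (PE1_uniq hf.2.2 hg.2.2 h1.2.2 h2.2.2))

theorem PE1_ind_clH {g M : ℕ} (c : Vn (2 * g + 1)) (u : V × V) : ind (ClH M c u) =
    ind (CgN M c (c1 g)) * (ind (Cg M u.1 (1, 0, -1)) * ind (Cg M u.2 (1, 0, 1))) := by
  unfold ClH
  rw [PE1_ind_and, PE1_ind_and]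

/-- Proof. `E3` of the indicator function of one class: `1/M^(2g+2)` and `1/M^6`. (`Per3`: clear.) Model `E3_cl` in VF.lean. -/
theorem E3_clH {g M : ℕ} (hM : 0 < M) :
    E3 (2 * g + 1) M (fun c u => ind (ClH M c u)) ≤ 1 / (M : ℝ) ^ (2 * g + 8) := by
  have hM' : (0 : ℝ) < M := by exact_mod_cast hM
  obtain ⟨S, hS⟩ : ∃ S : ℝ, S = ∑ f ∈ cubeN (2 * g + 1) M, ind (CgN M f (c1 g)) := ⟨_, rfl⟩
  have hS1 : S ≤ 1 := hS ▸ PE1_cubeN (c1 g)
  have hS0 : 0 ≤ S := hS ▸ Finset.sum_nonneg fun f _ => ind_nonneg _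
  have h1 : ∀ u : V × V, ExN (2 * g + 1) M (fun c => ind (ClH M c u)) =
      S / (M : ℝ) ^ (2 * g + 2) * (ind (Cg M u.1 (1, 0, -1)) * ind (Cg M u.2 (1, 0, 1))) := by
    intro u
    unfold ExN
    simp only [PE1_ind_clH]
    rw [← Finset.sum_mul, ← hS]
    ring
  unfold E3
  simp only [h1]
  unfold Ex cube2
  have h0 : ∑ u ∈ cube M ×ˢ cube M, ind (Cg M u.1 (1, 0, -1)) * ind (Cg M u.2 (1, 0, 1)) =
      (∑ v ∈ cube M, ind (Cg M v (1, 0, -1))) * ∑ w ∈ cube M, ind (Cg M w (1, 0, 1)) := by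
    rw [Finset.sum_product, Finset.sum_mul_sum]
  rw [← Finset.mul_sum, h0]
  have h2 : (∑ v ∈ cube M, ind (Cg M v (1, 0, -1))) * ∑ w ∈ cube M, ind (Cg M w (1, 0, 1)) ≤ 1 :=
    mul_le_one₀ (PE1_cube _) (Finset.sum_nonneg fun f _ => ind_nonneg _) (PE1_cube _)
  have h3 : S / (M : ℝ) ^ (2 * g + 2) *
      ((∑ v ∈ cube M, ind (Cg M v (1, 0, -1))) * ∑ w ∈ cube M, ind (Cg M w (1, 0, 1))) ≤
      1 / (M : ℝ) ^ (2 * g + 2) := by
    refine (mul_le_mul_of_nonneg_left h2 (by positivity)).trans ?_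
    rw [mul_one]
    exact div_le_div_of_nonneg_right hS1 (by positivity)
  refine (div_le_div_of_nonneg_right h3 (by positivity)).trans (le_of_eq ?_)
  rw [div_div, ← pow_add]

theorem PE1_dvd {M x y a : ℤ} (h : M ∣ x - y) : M ∣ x - a ↔ M ∣ y - a := by
  constructor
  · intro h'
    have := dvd_sub h' h
    rwa [sub_sub_sub_cancel_left] at this
  · intro h'
    have := dvd_add h h'
    rwa [sub_add_sub_cancel] at this

theorem PE1_per {g M : ℕ} : Per3 M (fun (c : Vn (2 * g + 1)) u => ind (ClH M c u)) := by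
  intro f f' u u' h1 h2 h3
  have e1 : CgN M f (c1 g) ↔ CgN M f' (c1 g) := forall_congr' fun i => PE1_dvd (h1 i)
  have e2 : Cg M u.1 (1, 0, -1) ↔ Cg M u'.1 (1, 0, -1) := by
    unfold Cg
    rw [PE1_dvd h2.1, PE1_dvd h2.2.1, PE1_dvd h2.2.2]
  have e3 : Cg M u.2 (1, 0, 1) ↔ Cg M u'.2 (1, 0, 1) := by
    unfold Cg
    rw [PE1_dvd h3.1, PE1_dvd h3.2.1, PE1_dvd h3.2.2]
  have e : ClH M f u ↔ ClH M f' u' := by
    unfold ClH
    rw [e1, e2, e3]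
  show ind (ClH M f u) = ind (ClH M f' u')
  rw [propext e]

theorem PE1_perB {g p : ℕ} : Per3 p (fun (c : Vn (2 * g + 1)) u => ind (BdP p c u)) :=
  Per3_of (2 * g + 1) p fun c v w => ind (BdF c v w)

theorem PE1_E3B {g p : ℕ} (hg : 1 ≤ g) (hp : p.Prime) (h5 : 5 ≤ p) :
    E3 (2 * g + 1) p (fun c u => ind (BdP p c u)) ≤ 60 / (p : ℝ) ^ 2 := by
  have : Fact p.Prime := ⟨hp⟩
  have : NeZero p := ⟨hp.ne_zero⟩
  have h1 := E3_eq_Av (2 * g + 1) p fun c v w => ind (BdF c v w)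
  have h2 : E3 (2 * g + 1) p (fun c u => ind (BdP p c u)) = Av (2 * g + 1) p (fun c v w => ind (BdF c v w)) := h1
  rw [h2]
  exact Av_Bd hg p h5

/-- Proof. Model `cl_bad_card` in VF.lean: `box3_mean` with `q = M p`, `Per3_of`, `E3_mul`, `E3_clH`, `E3_eq_Av`, `Av_Bd`. -/
theorem clH_bad_card {g H N M p : ℕ} (hg : 1 ≤ g) (hN : 0 < N) (hH : N ≤ H) (hM : 0 < M) (hp : p.Prime) (h5 : 5 ≤ p)
    (hc : M.Coprime p) (hq : M * p ≤ 4 * N) :
    (((Bx (2 * g + 1) H N).filter fun s => ClH M s.1 s.2 ∧ BdP p s.1 s.2).card : ℝ) ≤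
      (8 * (H : ℝ)) ^ (2 * g + 2) * (8 * (N : ℝ)) ^ 6 * (60 / ((M : ℝ) ^ (2 * g + 8) * (p : ℝ) ^ 2)) := by
  rw [TA_card (fun c u => ClH M c u ∧ BdP p c u)]
  simp only [PE1_ind_and]
  have h1 := box3_mean (m := 2 * g + 1) (H := H) (N := N) (q := M * p) hN hH
    (Nat.mul_pos hM hp.pos) hq (fun c u => ind (ClH M c u) * ind (BdP p c u))
    (fun c u => mul_nonneg (ind_nonneg _) (ind_nonneg _)) (PE1_per.mul PE1_perB)
  refine h1.trans ?_
  refine mul_le_mul_of_nonneg_left ?_ (by positivity)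
  rw [E3_mul hM hp.pos hc PE1_per PE1_perB]
  have h2 := PE1_E3B hg hp h5
  have h3 := E3_clH (g := g) hM
  have h4 : (0 : ℝ) ≤ E3 (2 * g + 1) p (fun c u => ind (BdP p c u)) := by
    have h5 := E3_mono (2 * g + 1) p (fun _ _ => (0 : ℝ)) (fun c u => ind (BdP p c u)) fun c u => ind_nonneg _
    rwa [E3_const hp.pos] at h5
  calc E3 (2 * g + 1) M (fun c u => ind (ClH M c u)) * E3 (2 * g + 1) p (fun c u => ind (BdP p c u))
      ≤ 1 / (M : ℝ) ^ (2 * g + 8) * (60 / (p : ℝ) ^ 2) := mul_le_mul h3 h2 h4 (by positivity)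
    _ = 60 / ((M : ℝ) ^ (2 * g + 8) * (p : ℝ) ^ 2) := by
        rw [div_mul_div_comm, one_mul]

theorem bdP_card {g H N p : ℕ} (hg : 1 ≤ g) (hN : 0 < N) (hH : N ≤ H) (hp : p.Prime) (h5 : 5 ≤ p) (hq : p ≤ 4 * N) :
    (((Bx (2 * g + 1) H N).filter fun s => BdP p s.1 s.2).card : ℝ) ≤
      (8 * (H : ℝ)) ^ (2 * g + 2) * (8 * (N : ℝ)) ^ 6 * (60 / (p : ℝ) ^ 2) := by
  rw [TA_card (fun c u => BdP p c u)]
  have h1 := box3_mean (m := 2 * g + 1) (H := H) (N := N) (q := p) hN hH hp.pos hq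
    (fun c u => ind (BdP p c u)) (fun c u => ind_nonneg _) PE1_perB
  refine h1.trans ?_
  exact mul_le_mul_of_nonneg_left (PE1_E3B hg hp h5) (by positivity)

theorem PE1_AP (H M : ℕ) (hM : 0 < M) (hMH : M ≤ H) (a : ℤ) :
    (H : ℝ) / (2 * M) ≤ (((Icc (1 : ℤ) (H : ℤ)).filter fun x => (M : ℤ) ∣ x - a).card : ℝ) := by
  have hM' : (0 : ℤ) < M := by exact_mod_cast hM
  obtain ⟨r, hr⟩ : ∃ r : ℤ, r = (a - 1) % M + 1 := ⟨_, rfl⟩
  have hr1 : 1 ≤ r := by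
    have := Int.emod_nonneg (a - 1) hM'.ne'
    rw [hr]; linarith
  have hr2 : r ≤ M := by
    have := Int.emod_lt_of_pos (a - 1) hM'
    rw [hr]; linarith
  have hra : (M : ℤ) ∣ r - a := by
    have h := Int.emod_add_mul_ediv (a - 1) (M : ℤ)
    exact ⟨-((a - 1) / (M : ℤ)), by rw [hr]; linarith⟩
  have h1 : H / M ≤ ((Icc (1 : ℤ) (H : ℤ)).filter fun x => (M : ℤ) ∣ x - a).card := by
    have h2 : (Finset.range (H / M)).card ≤
        ((Icc (1 : ℤ) (H : ℤ)).filter fun x => (M : ℤ) ∣ x - a).card := by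
      refine Finset.card_le_card_of_injOn (fun k : ℕ => r + M * k) ?_ ?_
      · intro k hk
        rw [Finset.mem_coe, Finset.mem_range] at hk
        rw [Finset.mem_coe, Finset.mem_filter, Finset.mem_Icc]
        have h4 : (k + 1) * M ≤ H := (Nat.le_div_iff_mul_le hM).1 hk
        have h6 : ((k : ℤ) + 1) * M ≤ H := by exact_mod_cast h4
        have h7 : (0 : ℤ) ≤ (M : ℤ) * k := by positivity
        refine ⟨⟨by linarith, by linarith⟩, ?_⟩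
        have h8 : r + (M : ℤ) * k - a = (r - a) + M * k := by ring
        rw [h8]
        exact dvd_add hra (Dvd.intro _ rfl)
      · intro x _ y _ hab
        have h3 : (M : ℤ) * x = M * y := by
          have : r + (M : ℤ) * x = r + M * y := hab
          linarith
        exact_mod_cast mul_left_cancel₀ hM'.ne' h3
    rwa [Finset.card_range] at h2
  have hMR : (0 : ℝ) < M := by exact_mod_cast hM
  have h2 : H ≤ 2 * M * (H / M) := by
    have h3 := Nat.lt_div_mul_add (a := H) hM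
    have h4 : 1 ≤ H / M := (Nat.one_le_div_iff hM).2 hMH
    have h5 : M ≤ M * (H / M) := Nat.le_mul_of_pos_right M h4
    have h6 : H / M * M = M * (H / M) := mul_comm _ _
    have h7 : 2 * M * (H / M) = M * (H / M) + M * (H / M) := by ring
    omega
  have h3 : (H : ℝ) ≤ 2 * M * ((H / M : ℕ) : ℝ) := by exact_mod_cast h2
  refine le_trans ?_ (Nat.cast_le.2 h1)
  rw [div_le_iff₀ (by positivity)]
  linarith

theorem PE1_AP' (N M : ℕ) (hM : 0 < M) (hMN : M ≤ N) (a : ℤ) :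
    (N : ℝ) / (2 * M) ≤ (((Icc (-(N : ℤ)) (-1)).filter fun x => (M : ℤ) ∣ x - a).card : ℝ) := by
  refine (PE1_AP N M hM hMN (-a)).trans ?_
  have h1 : ((Icc (1 : ℤ) (N : ℤ)).filter fun x => (M : ℤ) ∣ x - -a).card ≤
      ((Icc (-(N : ℤ)) (-1)).filter fun x => (M : ℤ) ∣ x - a).card := by
    refine Finset.card_le_card_of_injOn (fun x : ℤ => -x) ?_ ?_
    · intro x hx
      rw [Finset.mem_coe, Finset.mem_filter, Finset.mem_Icc] at hx ⊢
      refine ⟨⟨by linarith [hx.1.2], by linarith [hx.1.1]⟩, ?_⟩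
      have h2 : -x - a = -(x - -a) := by ring
      rw [h2]
      exact (dvd_neg).2 hx.2
    · intro x _ y _ h
      exact neg_injective h
  exact_mod_cast h1

/-- Proof. A product set: every coordinate of `c` in `[1, H]` in its class modulo `M` (at least `H/M - 1/1 ..`: the number of `x ∈ [1, H]` in a class modulo `M` is at least the floor of `H/M`, which is `≥ H/(2M)`; `gB c g = - c (2g+1) < 0`), `u.2.2.1` in `[-N, -1]`, the other coordinates of `u` in `[1, N]`. Model `cl_lower` in VF.lean. -/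
theorem clH_lower {g H N M : ℕ} (hg : 1 ≤ g) (hM : 0 < M) (hMN : M ≤ N) (hH : N ≤ H) :
    (H : ℝ) ^ (2 * g + 2) * (N : ℝ) ^ 6 / (2 * (M : ℝ)) ^ (2 * g + 8) ≤
      (((Bx (2 * g + 1) H N).filter fun s => ClH M s.1 s.2 ∧ PosH s.1 s.2).card : ℝ) := by
  have hN0 : 0 < N := lt_of_lt_of_le hM hMN
  have hH0 : 0 < H := lt_of_lt_of_le hN0 hH
  have hM' : (0 : ℝ) < M := by exact_mod_cast hM
  obtain ⟨AH, hAH⟩ : ∃ AH : ℤ → Finset ℤ, AH = fun a => (Icc (1 : ℤ) (H : ℤ)).filter fun x => (M : ℤ) ∣ x - a := ⟨_, rfl⟩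
  obtain ⟨AN, hAN⟩ : ∃ AN : ℤ → Finset ℤ, AN = fun a => (Icc (1 : ℤ) (N : ℤ)).filter fun x => (M : ℤ) ∣ x - a := ⟨_, rfl⟩
  obtain ⟨AM, hAM⟩ : ∃ AM : ℤ → Finset ℤ, AM = fun a => (Icc (-(N : ℤ)) (-1)).filter fun x => (M : ℤ) ∣ x - a := ⟨_, rfl⟩
  have mAH : ∀ a x, x ∈ AH a ↔ (1 ≤ x ∧ x ≤ (H : ℤ)) ∧ (M : ℤ) ∣ x - a := by
    intro a x
    rw [hAH]
    show x ∈ (Icc (1 : ℤ) (H : ℤ)).filter (fun x => (M : ℤ) ∣ x - a) ↔ _
    rw [Finset.mem_filter, Finset.mem_Icc]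
  have mAN : ∀ a x, x ∈ AN a ↔ (1 ≤ x ∧ x ≤ (N : ℤ)) ∧ (M : ℤ) ∣ x - a := by
    intro a x
    rw [hAN]
    show x ∈ (Icc (1 : ℤ) (N : ℤ)).filter (fun x => (M : ℤ) ∣ x - a) ↔ _
    rw [Finset.mem_filter, Finset.mem_Icc]
  have mAM : ∀ a x, x ∈ AM a ↔ (-(N : ℤ) ≤ x ∧ x ≤ -1) ∧ (M : ℤ) ∣ x - a := by
    intro a x
    rw [hAM]
    show x ∈ (Icc (-(N : ℤ)) (-1)).filter (fun x => (M : ℤ) ∣ x - a) ↔ _
    rw [Finset.mem_filter, Finset.mem_Icc]
  obtain ⟨SF, hSF⟩ : ∃ SF : Finset (Vn (2 * g + 1)), SF = Fintype.piFinset fun i : Fin (2 * g + 1 + 1) => AH (c1 g i) :=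
    ⟨_, rfl⟩
  obtain ⟨SV, hSV⟩ : ∃ SV : Finset V, SV = AN 1 ×ˢ (AN 0 ×ˢ AN (-1)) := ⟨_, rfl⟩
  obtain ⟨SW, hSW⟩ : ∃ SW : Finset V, SW = AN 1 ×ˢ (AM 0 ×ˢ AN 1) := ⟨_, rfl⟩
  have hsub : SF ×ˢ (SV ×ˢ SW) ⊆
      (Bx (2 * g + 1) H N).filter fun s => ClH M s.1 s.2 ∧ PosH s.1 s.2 := by
    rintro ⟨c, v, w⟩ hs
    rw [Finset.mem_product, Finset.mem_product] at hs
    obtain ⟨h1, h2, h3⟩ := hs
    have hf : ∀ i : Fin (2 * g + 1 + 1), (1 ≤ c i ∧ c i ≤ (H : ℤ)) ∧ (M : ℤ) ∣ c i - c1 g i := by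
      intro i
      have h4 : c ∈ SF := h1
      rw [hSF, Fintype.mem_piFinset] at h4
      exact (mAH _ _).1 (h4 i)
    have hv : v ∈ SV := h2
    have hw : w ∈ SW := h3
    rw [hSV, Finset.mem_product, Finset.mem_product, mAN, mAN, mAN] at hv
    rw [hSW, Finset.mem_product, Finset.mem_product, mAN, mAM, mAN] at hw
    rw [Finset.mem_filter, Bx, Finset.mem_product]
    refine ⟨⟨?_, ?_⟩, ⟨fun i => (hf i).2, ⟨hv.1.2, hv.2.1.2, hv.2.2.2⟩, ⟨hw.1.2, hw.2.1.2, hw.2.2.2⟩⟩, ?_⟩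
    · rw [boxN, Fintype.mem_piFinset]
      intro i
      rw [Finset.mem_Icc]
      exact ⟨by linarith [(hf i).1.1], (hf i).1.2⟩
    · rw [box2, Finset.mem_product]
      constructor
      · rw [FGO.box, Finset.mem_product, Finset.mem_product, Finset.mem_Icc, Finset.mem_Icc, Finset.mem_Icc]
        exact ⟨⟨by linarith [hv.1.1.1], hv.1.1.2⟩, ⟨by linarith [hv.2.1.1.1], hv.2.1.1.2⟩,
          ⟨by linarith [hv.2.2.1.1], hv.2.2.1.2⟩⟩
      · rw [FGO.box, Finset.mem_product, Finset.mem_product, Finset.mem_Icc, Finset.mem_Icc, Finset.mem_Icc]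
        exact ⟨⟨by linarith [hw.1.1.1], hw.1.1.2⟩, ⟨hw.2.1.1.1, by linarith [hw.2.1.1.2]⟩,
          ⟨by linarith [hw.2.2.1.1], hw.2.2.1.2⟩⟩
    · have hex : ∀ n : ℕ, n < 2 * g + 1 + 1 → 0 < ex c n := by
        intro n hn
        unfold ex
        rw [dif_pos hn]
        linarith [(hf ⟨n, hn⟩).1.1]
      refine ⟨⟨?_, ?_⟩, by linarith [hv.1.1.1], by linarith [hw.1.1.1], by linarith [hw.2.1.1.2],
        by linarith [hw.2.2.1.1]⟩
      · unfold gA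
        rw [Fin.val_last]
        apply hex
        split_ifs <;> omega
      · unfold gB
        rw [Fin.val_last, if_neg (by omega)]
        exact neg_lt_zero.2 (hex _ (by omega))
  have hcard := Finset.card_le_card hsub
  have hSFc : ((H : ℝ) / (2 * M)) ^ (2 * g + 2) ≤ (SF.card : ℝ) := by
    rw [hSF, Fintype.card_piFinset, Nat.cast_prod]
    have h3 : ((H : ℝ) / (2 * M)) ^ (2 * g + 2) = ∏ _i : Fin (2 * g + 1 + 1), ((H : ℝ) / (2 * M)) := by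
      rw [Finset.prod_const, Finset.card_univ, Fintype.card_fin]
    rw [h3]
    refine Finset.prod_le_prod (fun i _ => by positivity) fun i _ => ?_
    rw [hAH]
    exact PE1_AP H M hM (hMN.trans hH) _
  have a1 : ∀ a, (N : ℝ) / (2 * M) ≤ ((AN a).card : ℝ) := fun a => by
    rw [hAN]
    exact PE1_AP N M hM hMN a
  have a2 : ∀ a, (N : ℝ) / (2 * M) ≤ ((AM a).card : ℝ) := fun a => by
    rw [hAM]
    exact PE1_AP' N M hM hMN a
  have b2 : (0 : ℝ) ≤ (N : ℝ) / (2 * M) := by positivity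
  have hSVc : ((N : ℝ) / (2 * M)) * (((N : ℝ) / (2 * M)) * ((N : ℝ) / (2 * M))) ≤ (SV.card : ℝ) := by
    rw [hSV, Finset.card_product, Finset.card_product]
    push_cast
    exact mul_le_mul (a1 _) (mul_le_mul (a1 _) (a1 _) b2 (Nat.cast_nonneg _)) (mul_nonneg b2 b2) (Nat.cast_nonneg _)
  have hSWc : ((N : ℝ) / (2 * M)) * (((N : ℝ) / (2 * M)) * ((N : ℝ) / (2 * M))) ≤ (SW.card : ℝ) := by
    rw [hSW, Finset.card_product, Finset.card_product]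
    push_cast
    exact mul_le_mul (a1 _) (mul_le_mul (a2 _) (a1 _) b2 (Nat.cast_nonneg _)) (mul_nonneg b2 b2) (Nat.cast_nonneg _)
  rw [Finset.card_product, Finset.card_product] at hcard
  have hcR : ((SF.card * (SV.card * SW.card) : ℕ) : ℝ) ≤ _ := Nat.cast_le.2 hcard
  refine le_trans ?_ hcR
  push_cast
  calc (H : ℝ) ^ (2 * g + 2) * (N : ℝ) ^ 6 / (2 * (M : ℝ)) ^ (2 * g + 8)
      = ((H : ℝ) / (2 * M)) ^ (2 * g + 2) * ((((N : ℝ) / (2 * M)) * (((N : ℝ) / (2 * M)) * ((N : ℝ) / (2 * M)))) *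
          (((N : ℝ) / (2 * M)) * (((N : ℝ) / (2 * M)) * ((N : ℝ) / (2 * M))))) := by
        have e1 : (2 * (M : ℝ)) ^ (2 * g + 8) = (2 * (M : ℝ)) ^ (2 * g + 2) * (2 * (M : ℝ)) ^ 6 := by
          rw [← pow_add]
        have e2 : ((N : ℝ) / (2 * M)) * (((N : ℝ) / (2 * M)) * ((N : ℝ) / (2 * M))) *
            (((N : ℝ) / (2 * M)) * (((N : ℝ) / (2 * M)) * ((N : ℝ) / (2 * M)))) = (N : ℝ) ^ 6 / (2 * (M : ℝ)) ^ 6 := by
          rw [← div_pow]
          ring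
        rw [e2, div_pow, e1]
        rw [div_mul_div_comm]
    _ ≤ _ := mul_le_mul hSFc (mul_le_mul hSVc hSWc (by positivity) (Nat.cast_nonneg _)) (by positivity)
        (Nat.cast_nonneg _)

end HNF
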