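import Pool.Agent.Lib.MP_10e784_agF.D2

/-! JOB UF -/

set_option autoImplicit false

open Classical

namespace HNF

open Finset Polynomial FGO FQQ

private theorem UF_aux (z P : ℕ) (Q2 : Finset ℕ) (hcov : ∀ p : ℕ, p.Prime → z < p → p ≤ P → p ∈ Q2) (c : ℝ) (hc : 0 ≤ c) :
    ∑ d ∈ DR z P, ∏ p ∈ d.primeFactors, (c / (p : ℝ)) ≤ Real.exp (∑ p ∈ Q2, c / (p : ℝ)) := by
  have h1 : ∑ d ∈ DR z P, ∏ p ∈ d.primeFactors, (c / (p : ℝ)) =
      ∑ D ∈ (DR z P).image Nat.primeFactors, ∏ p ∈ D, (c / (p : ℝ)) := by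
    rw [sum_image]
    intro a ha b hb hab
    have ha' := (mem_filter.mp ha).2.1
    have hb' := (mem_filter.mp hb).2.1
    rw [← Nat.prod_primeFactors_of_squarefree ha', ← Nat.prod_primeFactors_of_squarefree hb']
    rw [hab]
  have h2 : (DR z P).image Nat.primeFactors ⊆ Q2.powerset := by
    intro D hD
    obtain ⟨d, hd, rfl⟩ := mem_image.mp hD
    obtain ⟨hd1, hd2, hd3⟩ := mem_filter.mp hd
    rw [mem_powerset]
    intro p hp
    have hpp := Nat.prime_of_mem_primeFactors hp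
    have hpd := Nat.dvd_of_mem_primeFactors hp
    obtain ⟨hd4, hd5⟩ := mem_Icc.mp hd1
    exact hcov p hpp (hd3 p hpp hpd) ((Nat.le_of_dvd hd4 hpd).trans hd5)
  have h0 : ∀ p : ℕ, 0 ≤ c / (p : ℝ) := fun p => div_nonneg hc (Nat.cast_nonneg p)
  rw [h1, Real.exp_sum]
  calc ∑ D ∈ (DR z P).image Nat.primeFactors, ∏ p ∈ D, (c / (p : ℝ))
      ≤ ∑ D ∈ Q2.powerset, ∏ p ∈ D, (c / (p : ℝ)) :=
        sum_le_sum_of_subset_of_nonneg h2 fun D _ _ => prod_nonneg fun p _ => h0 p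
    _ = ∏ p ∈ Q2, (1 + c / (p : ℝ)) := (prod_one_add _).symm
    _ ≤ ∏ p ∈ Q2, Real.exp (c / (p : ℝ)) := prod_le_prod (fun p _ => add_nonneg zero_le_one (h0 p)) fun p _ => by
        have := Real.add_one_le_exp (c / (p : ℝ))
        linarith

/-- Proof. `d = ∏ p ∈ d.primeFactors, p`, the prime factors are in `Q2`; `∏ (1 + 4/p) ≤ exp(4 ∑ 1/p)`. -/
theorem DR_sum4 (z P : ℕ) (Q2 : Finset ℕ) (hcov : ∀ p : ℕ, p.Prime → z < p → p ≤ P → p ∈ Q2) :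
    ∑ d ∈ DR z P, (4 : ℝ) ^ d.primeFactors.card / (d : ℝ) ≤ Real.exp (4 * ∑ p ∈ Q2, 1 / (p : ℝ)) := by
  have h : 4 * ∑ p ∈ Q2, 1 / (p : ℝ) = ∑ p ∈ Q2, 4 / (p : ℝ) := by
    rw [mul_sum]
    exact sum_congr rfl fun p _ => by ring
  rw [h]
  refine le_trans (le_of_eq ?_) (UF_aux z P Q2 hcov 4 zero_le_four)
  refine sum_congr rfl fun d hd => ?_
  have hd' := Nat.prod_primeFactors_of_squarefree (mem_filter.mp hd).2.1
  rw [prod_div_distrib, prod_const]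
  congr 1
  rw [← Nat.cast_prod, hd']

end HNF
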