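import Pool.Agent.Lib.MP_1ad228_ntH.UE
import Pool.Agent.Lib.MP_1ad228_ntH.UF
import Pool.Agent.Lib.MP_1ad228_ntH.SC
import Pool.Agent.Lib.MP_1ad228_ntG.UB

/-! JOB UG -/

set_option autoImplicit false

open Classical

namespace HNF

open Finset Polynomial FGO FQQ

private theorem UG_lpr {Q : Finset ℕ} {lam lam' : ℕ → Lb} (h : ∀ p ∈ Q, lam p = lam' p) :
    lpr1 Q lam = lpr1 Q lam' := by
  unfold lpr1
  rw [Finset.filter_congr fun p hp => by rw [h p hp]]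

private theorem UG_dl {Q : Finset ℕ} {lam lam' : ℕ → Lb} (h : ∀ p ∈ Q, lam p = lam' p) (τ : ℤ)
    (κ : ℕ) (D : ℕ) : dl1 Q τ κ lam D = dl1 Q τ κ lam' D := by
  unfold dl1
  rw [UG_lpr h]

private theorem UG_Str {m H q0 : ℕ} {e : ℕ → ℕ × ℕ} {Q : Finset ℕ} {lam lam' : ℕ → Lb} (h : ∀ p ∈ Q, lam p = lam' p)
    {τ : ℤ} {κ : ℕ} {D : ℕ} {f : Vn m} {u : V × V}
    (hs : Str1 e H q0 Q τ κ lam D f u) : Str1 e H q0 Q τ κ lam' D f u := by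
  refine ⟨hs.1, hs.2.1, fun p hp => ?_⟩
  have := hs.2.2 p hp
  rw [UG_dl h] at this
  rwa [h p hp] at this

private theorem UG_sum {ι0 ι1 ι2 : Type} (s0 : Finset ι0) (s1 : Finset ι1) (s2 : Finset ι2)
    (c : ℝ) (w : ι1 → ℝ) (a : ι2 → ℝ) :
    ∑ x ∈ s0 ×ˢ (s1 ×ˢ s2), c * (w x.2.1 * a x.2.2) =
      (s0.card : ℝ) * (c * ((∑ i ∈ s1, w i) * (∑ i ∈ s2, a i))) := by
  simp only [Finset.sum_product, ← Finset.mul_sum, ← Finset.sum_mul, Finset.sum_const, nsmul_eq_mul]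
  ring

/-- the sign of a truth value -/
private def UG_sg (b : Bool) : ℤ := if b then 1 else -1

/-- (union bound) Proof. A pair of the box with `Sel1` is not `Typ1`, or it has a structure (`structure1`); `str_card1`, `lab_sum1`, `DR_sum4`. -/
theorem main_union1 {m H N P0 z0 q0 q1 k P : ℕ} {e : ℕ → ℕ × ℕ} (he : Mon m e) (hH : 0 < H) (hN : 0 < N) (hP0 : 4 ≤ P0)
    (hPz : P0 ≤ z0) (hk : ∀ D ⊆ PQ P0 z0, D.card ≤ 2 * k → q1 * ∏ p ∈ D, p ≤ q0) (hq0 : q0 ≤ 4 * N) (hNH : N ≤ H)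
    (hP : 288 * N ^ 4 * q0 ^ 4 * P ≤ 256 * H ^ 4) (Q2 : Finset ℕ)
    (hcov : ∀ p : ℕ, p.Prime → z0 < p → p ≤ P → p ∈ Q2) :
    (((Bx m H N).filter fun g => Sel1 e P0 z0 P g.1 g.2).card : ℝ) ≤
      (((Bx m H N).filter fun g => ¬ Typ1 e (PQ P0 z0) q1 g.1 g.2).card : ℝ) +
      Real.exp (-(67 / 100 * ∑ p ∈ PQ P0 z0, 1 / (p : ℝ))) * (2 * 2 ^ P0) *
        ((8 * (H : ℝ)) ^ (m + 1) * (8 * (N : ℝ)) ^ 6) * Real.exp (4 * ∑ p ∈ Q2, 1 / (p : ℝ)) *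
        (Real.exp 2 + 2 * TT (PQ P0 z0) k * Real.exp (3 * ∑ p ∈ PQ P0 z0, 1 / (p : ℝ))) := by
  have hQ5 : ∀ p ∈ PQ P0 z0, p.Prime ∧ 5 ≤ p := by
    intro p hp
    rw [PQ, Finset.mem_filter, Finset.mem_Ioc] at hp
    exact ⟨hp.2, by omega⟩
  have hd1 : ∑ d ∈ DR z0 P, (4 : ℝ) ^ d.primeFactors.card / (d : ℝ) ≤ Real.exp (4 * ∑ p ∈ Q2, 1 / (p : ℝ)) :=
    DR_sum4 _ _ _ hcov
  have hlab := lab_sum1 (PQ P0 z0) hQ5 k
  have hdiv := FGO.card_divisors_primorial P0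
  have hLB : ∀ lam : ℕ → Lb, 0 ≤ LB1 (PQ P0 z0) k lam := fun lam =>
    LB1_nonneg _ (fun p hp => ⟨(hQ5 p hp).1, by have := (hQ5 p hp).2; omega⟩) k lam
  -- the parameters
  let s0 : Finset (Bool × ℕ) := univ ×ˢ (primorial P0).divisors
  let I := s0 ×ˢ ((univ : Finset (↥(PQ P0 z0) → Lb)) ×ˢ DR z0 P)
  let C : (Bool × ℕ) × ((↥(PQ P0 z0) → Lb) × ℕ) → Prop :=
    fun x => ∏ p ∈ (PQ P0 z0).filter (fun p => eL1 (PQ P0 z0) x.2.1 p ≠ Lb.O), p ≤ q1 ∧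
      Real.exp (67 / 100 * ∑ p ∈ PQ P0 z0, 1 / (p : ℝ)) ≤ ∏ p ∈ PQ P0 z0, yw1 (eL1 (PQ P0 z0) x.2.1 p)
  let St : (Bool × ℕ) × ((↥(PQ P0 z0) → Lb) × ℕ) → (Vn m × (V × V)) → Prop :=
    fun x g => Str1 e H q0 (PQ P0 z0) (UG_sg x.1.1) x.1.2 (eL1 (PQ P0 z0) x.2.1) x.2.2 g.1 g.2
  -- the covering
  have hsub : (Bx m H N).filter (fun g => Sel1 e P0 z0 P g.1 g.2) ⊆
      (Bx m H N).filter (fun g => ¬ Typ1 e (PQ P0 z0) q1 g.1 g.2) ∪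
        I.biUnion fun x => (Bx m H N).filter fun g => C x ∧ St x g := by
    intro g hg
    rw [Finset.mem_filter] at hg
    obtain ⟨hg, hpt⟩ := hg
    by_cases hT : Typ1 e (PQ P0 z0) q1 g.1 g.2
    · refine Finset.mem_union_right _ ?_
      have hg' := hg
      rw [Bx, Finset.mem_product] at hg'
      obtain ⟨τ, κ, lam, D, hτ, hκ, hD, hq1, hw, hs⟩ :=
        structure1 he hH hN hPz (hq0.trans (Nat.mul_le_mul_left _ hNH)) hP g.1 g.2 hg'.2 hT hpt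
      have hl : ∀ p ∈ PQ P0 z0, lam p = eL1 (PQ P0 z0) (fun q => lam q.1) p := by
        intro p hp
        rw [eL1, dif_pos hp]
      have hτ' : UG_sg (decide (τ = 1)) = τ := by
        rcases hτ with h | h <;> rw [h, UG_sg] <;> simp
      rw [Finset.mem_biUnion]
      refine ⟨((decide (τ = 1), κ), (fun q => lam q.1, D)), ?_, ?_⟩
      · simp only [I, s0, Finset.mem_product, Finset.mem_univ, true_and, Nat.mem_divisors]
        exact ⟨⟨hκ, (primorial_pos P0).ne'⟩, hD⟩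
      · rw [Finset.mem_filter]
        refine ⟨hg, ⟨?_, ?_⟩, ?_⟩
        · show ∏ p ∈ (PQ P0 z0).filter (fun p => eL1 (PQ P0 z0) (fun q => lam q.1) p ≠ Lb.O), p ≤ q1
          have e : (PQ P0 z0).filter (fun p => lam p ≠ Lb.O) =
              (PQ P0 z0).filter (fun p => eL1 (PQ P0 z0) (fun q => lam q.1) p ≠ Lb.O) :=
            Finset.filter_congr fun p hp => by rw [hl p hp]
          rw [← e]
          exact hq1
        · show Real.exp (67 / 100 * ∑ p ∈ PQ P0 z0, 1 / (p : ℝ)) ≤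
            ∏ p ∈ PQ P0 z0, yw1 (eL1 (PQ P0 z0) (fun q => lam q.1) p)
          have e : ∏ p ∈ PQ P0 z0, yw1 (lam p) = ∏ p ∈ PQ P0 z0, yw1 (eL1 (PQ P0 z0) (fun q => lam q.1) p) :=
            Finset.prod_congr rfl fun p hp => by rw [← hl p hp]
          rw [← e]
          exact hw
        · show Str1 e H q0 (PQ P0 z0) (UG_sg (decide (τ = 1))) κ (eL1 (PQ P0 z0) (fun q => lam q.1)) D g.1 g.2
          rw [hτ']
          exact UG_Str hl hs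
    · exact Finset.mem_union_left _ (Finset.mem_filter.2 ⟨hg, hT⟩)
  have hcard : (((Bx m H N).filter fun g => Sel1 e P0 z0 P g.1 g.2).card : ℝ) ≤
      (((Bx m H N).filter fun g => ¬ Typ1 e (PQ P0 z0) q1 g.1 g.2).card : ℝ) +
      ∑ x ∈ I, (((Bx m H N).filter fun g => C x ∧ St x g).card : ℝ) := by
    have h1 := (Finset.card_le_card hsub).trans
      ((Finset.card_union_le _ _).trans (Nat.add_le_add_left Finset.card_biUnion_le _))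
    exact_mod_cast h1
  refine hcard.trans (add_le_add le_rfl ?_)
  -- one structure
  have hE : Real.exp (-(67 / 100 * ∑ p ∈ PQ P0 z0, 1 / (p : ℝ))) *
      Real.exp (67 / 100 * ∑ p ∈ PQ P0 z0, 1 / (p : ℝ)) = 1 := by
    rw [← Real.exp_add, neg_add_cancel, Real.exp_zero]
  have hone : ∀ x ∈ I, (((Bx m H N).filter fun g => C x ∧ St x g).card : ℝ) ≤
      (Real.exp (-(67 / 100 * ∑ p ∈ PQ P0 z0, 1 / (p : ℝ))) * ((8 * (H : ℝ)) ^ (m + 1) * (8 * (N : ℝ)) ^ 6)) *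
        (((∏ p ∈ PQ P0 z0, yw1 (eL1 (PQ P0 z0) x.2.1 p)) * LB1 (PQ P0 z0) k (eL1 (PQ P0 z0) x.2.1)) *
          ((4 : ℝ) ^ x.2.2.primeFactors.card / (x.2.2 : ℝ))) := by
    intro x hx
    have hy : 0 ≤ ∏ p ∈ PQ P0 z0, yw1 (eL1 (PQ P0 z0) x.2.1 p) := Finset.prod_nonneg fun p _ => (yw1_pos _).le
    have hL := hLB (eL1 (PQ P0 z0) x.2.1)
    by_cases hC : C x
    · simp only [I, Finset.mem_product] at hx
      obtain ⟨-, -, hx0⟩ := hx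
      have h1 := str_card1 (k := k) (q1 := q1) he hH hN (by omega : 2 ≤ P0) hk hq0 (UG_sg x.1.1) x.1.2
        (eL1 (PQ P0 z0) x.2.1) x.2.2 hx0 hC.1
      have h2 : ((Bx m H N).filter fun g => C x ∧ St x g) = (Bx m H N).filter fun g => St x g :=
        Finset.filter_congr fun g _ => and_iff_right hC
      rw [h2]
      refine h1.trans ?_
      have h3 : 1 ≤ Real.exp (-(67 / 100 * ∑ p ∈ PQ P0 z0, 1 / (p : ℝ))) *
          ∏ p ∈ PQ P0 z0, yw1 (eL1 (PQ P0 z0) x.2.1 p) := by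
        exact hE.symm.le.trans (mul_le_mul_of_nonneg_left hC.2 (Real.exp_pos _).le)
      have h4 : 0 ≤ (8 * (H : ℝ)) ^ (m + 1) * (8 * (N : ℝ)) ^ 6 *
          ((4 : ℝ) ^ x.2.2.primeFactors.card / (x.2.2 : ℝ)) * LB1 (PQ P0 z0) k (eL1 (PQ P0 z0) x.2.1) := by
        positivity
      calc _ = (8 * (H : ℝ)) ^ (m + 1) * (8 * (N : ℝ)) ^ 6 *
          ((4 : ℝ) ^ x.2.2.primeFactors.card / (x.2.2 : ℝ)) * LB1 (PQ P0 z0) k (eL1 (PQ P0 z0) x.2.1) := rfl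
        _ ≤ (Real.exp (-(67 / 100 * ∑ p ∈ PQ P0 z0, 1 / (p : ℝ))) *
          ∏ p ∈ PQ P0 z0, yw1 (eL1 (PQ P0 z0) x.2.1 p)) * ((8 * (H : ℝ)) ^ (m + 1) * (8 * (N : ℝ)) ^ 6 *
          ((4 : ℝ) ^ x.2.2.primeFactors.card / (x.2.2 : ℝ)) * LB1 (PQ P0 z0) k (eL1 (PQ P0 z0) x.2.1)) :=
          le_mul_of_one_le_left h4 h3
        _ = _ := by ring
    · have h2 : ((Bx m H N).filter fun g => C x ∧ St x g) = ∅ :=
        Finset.filter_eq_empty_iff.2 fun g _ h => hC h.1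
      rw [h2, Finset.card_empty, Nat.cast_zero]
      positivity
  refine (Finset.sum_le_sum hone).trans ?_
  rw [UG_sum s0 univ (DR z0 P)
    (Real.exp (-(67 / 100 * ∑ p ∈ PQ P0 z0, 1 / (p : ℝ))) * ((8 * (H : ℝ)) ^ (m + 1) * (8 * (N : ℝ)) ^ 6))
    (fun φ => (∏ p ∈ PQ P0 z0, yw1 (eL1 (PQ P0 z0) φ p)) * LB1 (PQ P0 z0) k (eL1 (PQ P0 z0) φ))
    (fun d => (4 : ℝ) ^ d.primeFactors.card / (d : ℝ))]
  have hs0 : (s0.card : ℝ) ≤ 2 * 2 ^ P0 := by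
    have h1 : s0.card ≤ 2 * 2 ^ P0 := by
      simp only [s0, Finset.card_product, Finset.card_univ, Fintype.card_bool]
      exact Nat.mul_le_mul_left _ hdiv
    exact_mod_cast h1
  have ha1 : 0 ≤ ∑ d ∈ DR z0 P, (4 : ℝ) ^ d.primeFactors.card / (d : ℝ) :=
    Finset.sum_nonneg fun d _ => by positivity
  have hw0 : 0 ≤ ∑ φ : ↥(PQ P0 z0) → Lb, (∏ p ∈ PQ P0 z0, yw1 (eL1 (PQ P0 z0) φ p)) * LB1 (PQ P0 z0) k (eL1 (PQ P0 z0) φ) :=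
    Finset.sum_nonneg fun φ _ => mul_nonneg (Finset.prod_nonneg fun p _ => (yw1_pos _).le) (hLB _)
  have hc0 : 0 ≤ Real.exp (-(67 / 100 * ∑ p ∈ PQ P0 z0, 1 / (p : ℝ))) * ((8 * (H : ℝ)) ^ (m + 1) * (8 * (N : ℝ)) ^ 6) := by
    positivity
  calc (s0.card : ℝ) * ((Real.exp (-(67 / 100 * ∑ p ∈ PQ P0 z0, 1 / (p : ℝ))) * ((8 * (H : ℝ)) ^ (m + 1) * (8 * (N : ℝ)) ^ 6)) *
        ((∑ φ : ↥(PQ P0 z0) → Lb, (∏ p ∈ PQ P0 z0, yw1 (eL1 (PQ P0 z0) φ p)) * LB1 (PQ P0 z0) k (eL1 (PQ P0 z0) φ)) *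
          ∑ d ∈ DR z0 P, (4 : ℝ) ^ d.primeFactors.card / (d : ℝ)))
      ≤ (2 * 2 ^ P0) * ((Real.exp (-(67 / 100 * ∑ p ∈ PQ P0 z0, 1 / (p : ℝ))) * ((8 * (H : ℝ)) ^ (m + 1) * (8 * (N : ℝ)) ^ 6)) *
        ((Real.exp 2 + 2 * TT (PQ P0 z0) k * Real.exp (3 * ∑ p ∈ PQ P0 z0, 1 / (p : ℝ))) *
          Real.exp (4 * ∑ p ∈ Q2, 1 / (p : ℝ)))) := by
        refine mul_le_mul hs0 (mul_le_mul_of_nonneg_left (mul_le_mul hlab hd1 ha1 (hw0.trans hlab)) hc0) ?_ (by positivity)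
        exact mul_nonneg hc0 (mul_nonneg hw0 ha1)
    _ = _ := by ring

end HNF
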