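import Pool.Agent.Lib.MP_1ad228_ntH.TC
import Pool.Agent.Lib.MP_1ad228_ntH.UG
import Pool.Agent.Lib.MP_10e784_agF.AN1

/-! JOB AN -/

set_option autoImplicit false

open Classical

namespace HNF

open Finset Polynomial FGO FQQ

private theorem AN_inv {c L : ℝ} (hc : 0 < c) (hL : 0 < L) : Real.exp (-(c * L)) ≤ 1 / (c * L) := by
  have hcL : 0 < c * L := mul_pos hc hL
  rw [Real.exp_neg, ← one_div]
  exact one_div_le_one_div_of_le hcL (by linarith [Real.add_one_le_exp (c * L)])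

/-- the main term -/
private theorem AN_main {L S S2 T P W : ℝ} (hL : 0 < L) (h1 : 98 / 100 * L ≤ S) (h2 : S ≤ L)
    (h3 : S2 ≤ 6 / 1000 * L) (hT0 : 0 ≤ T) (hT : T ≤ Real.exp (-(100 * L))) (hP0 : 0 ≤ P)
    (hP : P ≤ 4096 * Real.exp (11 / 1000 * L)) (hW : 0 ≤ W) :
    Real.exp (-(67 / 100 * S)) * (2 * P) * W * Real.exp (4 * S2) * (Real.exp 2 + 2 * T * Real.exp (3 * S)) ≤
      2 * 4096 * (3 * Real.exp 2) * 2 * W / L := by
  have e1 : 2 * T * Real.exp (3 * S) ≤ 2 * Real.exp 2 := by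
    have f1 : 2 * T * Real.exp (3 * S) ≤ 2 * Real.exp (-(100 * L)) * Real.exp (3 * L) := by
      have g1 : Real.exp (3 * S) ≤ Real.exp (3 * L) := Real.exp_le_exp.2 (by linarith)
      gcongr
    refine f1.trans ?_
    rw [mul_assoc, ← Real.exp_add]
    refine mul_le_mul_of_nonneg_left (Real.exp_le_exp.2 (by linarith)) (by norm_num)
  have e2 : Real.exp 2 + 2 * T * Real.exp (3 * S) ≤ 3 * Real.exp 2 := by linarith
  have e3 : Real.exp (-(67 / 100 * S)) ≤ Real.exp (-(6566 / 10000 * L)) := Real.exp_le_exp.2 (by linarith)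
  have e4 : Real.exp (4 * S2) ≤ Real.exp (24 / 1000 * L) := Real.exp_le_exp.2 (by linarith)
  have e5 : Real.exp (-(67 / 100 * S)) * (2 * P) * W * Real.exp (4 * S2) * (Real.exp 2 + 2 * T * Real.exp (3 * S)) ≤
      Real.exp (-(6566 / 10000 * L)) * (2 * (4096 * Real.exp (11 / 1000 * L))) * W * Real.exp (24 / 1000 * L) *
        (3 * Real.exp 2) := by
    have h0 : 0 ≤ Real.exp 2 + 2 * T * Real.exp (3 * S) := by positivity
    gcongr
  refine e5.trans ?_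
  have e6 : Real.exp (-(6566 / 10000 * L)) * (2 * (4096 * Real.exp (11 / 1000 * L))) * W * Real.exp (24 / 1000 * L) *
        (3 * Real.exp 2) = 2 * 4096 * (3 * Real.exp 2) * W * Real.exp (-(6216 / 10000 * L)) := by
    have f1 : -(6216 / 10000 * L) = -(6566 / 10000 * L) + 11 / 1000 * L + 24 / 1000 * L := by ring
    rw [f1, Real.exp_add, Real.exp_add]
    ring
  rw [e6]
  have e7 : Real.exp (-(6216 / 10000 * L)) ≤ 2 / L := by
    refine (AN_inv (by norm_num) hL).trans ?_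
    rw [div_le_div_iff₀ (by positivity) hL]
    linarith
  have e8 : 0 ≤ 2 * 4096 * (3 * Real.exp 2) * W := by positivity
  refine (mul_le_mul_of_nonneg_left e7 e8).trans (le_of_eq ?_)
  ring

private theorem AN_log {N : ℕ} (hN : 16 ≤ N) : 1 < Real.log N ∧ 0 < Real.log (Real.log N) := by
  have h2 : (16 : ℝ) ≤ N := by exact_mod_cast hN
  have h3 : Real.log 16 ≤ Real.log N := Real.log_le_log (by norm_num) h2
  have h4 : Real.log 16 = 4 * Real.log 2 := by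
    rw [show (16 : ℝ) = 2 ^ 4 by norm_num, Real.log_pow]
    norm_num
  have h5 := Real.log_two_gt_d9
  have h6 : 1 < Real.log N := by
    rw [h4] at h3
    linarith
  exact ⟨h6, Real.log_pos h6⟩

/-- (the end of the counting) Proof. Model `bad_of_exc` of AN2.lean in FQQ (much simpler here). `params3 A` (AN1.lean) gives the parameters `P0 z0 q0 q1 k Q2`; `N0 = max` of its `N0` and `N1`. `q0 ≤ N^(1/20)` gives `q0⁴ ≤ N` (as in `bad_card4` of AN2.lean), so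
`288 N⁴ q0⁴ P ≤ 288 N⁵ P ≤ 256 (N^K)⁴` and `q0 ≤ 4 N`. First count: `notTy_card` and `1/P0 ≤ 200/LL`, `1/S ≤ 2/LL`. Second count: `main_union1` and `notTyp1_card`; the main term with `2^P0 ≤ 8^P0 ≤ 4096 exp(11/1000 LL)`, `S ≥ 98/100 LL`, `S2 ≤ 6/1000 LL`, `TT ≤ exp(-100 LL)`:
`exp(-67/100 S) (2 · 2^P0) exp(4 S2) (exp 2 + 2 TT exp(3 S)) ≤ C exp((-0.6566 + 0.011 + 0.024) LL) ≤ C/LL`. `(8 N^K)^(m+1) (8 N)^6 = 8^(m+7) ..`. -/
theorem core_card {m : ℕ} {e : ℕ → ℕ × ℕ} (he : Mon m e) (K A : ℕ) (hK : 1 ≤ K) (P : ℕ → ℕ) (N1 : ℕ)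
    (hP : ∀ N, N1 ≤ N → P N ≤ N ^ A) (hP2 : ∀ N, N1 ≤ N → 288 * N ^ 5 * P N ≤ 256 * (N ^ K) ^ 4) :
    ∃ C : ℝ, 0 < C ∧ ∃ N0 : ℕ, 16 ≤ N0 ∧ ∀ N : ℕ, N0 ≤ N → ∃ P0 z0 : ℕ, 4 ≤ P0 ∧ P0 ≤ z0 ∧ z0 ^ 2 ≤ 4 * N ∧
      1 / (P0 : ℝ) ≤ 200 / Real.log (Real.log N) ∧
      (((Bx m (N ^ K) N).filter fun g => ¬ Ty e P0 z0 g.1 g.2).card : ℝ) ≤
        C * (((N : ℝ) ^ K) ^ (m + 1) * (N : ℝ) ^ 6) / Real.log (Real.log N) ∧
      (((Bx m (N ^ K) N).filter fun g => Sel1 e P0 z0 (P N) g.1 g.2).card : ℝ) ≤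
        C * (((N : ℝ) ^ K) ^ (m + 1) * (N : ℝ) ^ 6) / Real.log (Real.log N) := by
  obtain ⟨N0, hN0, HP⟩ := params3 A
  refine ⟨8 ^ (m + 7) * (2000000 * 203 + 2 * 4096 * (3 * Real.exp 2) * 2), by positivity, max N0 N1,
    hN0.trans (le_max_left _ _), ?_⟩
  intro N hN
  have hNa : N0 ≤ N := (le_max_left _ _).trans hN
  have hNb : N1 ≤ N := (le_max_right _ _).trans hN
  have hN16 : 16 ≤ N := hN0.trans hNa
  obtain ⟨hlog, hLL⟩ := AN_log hN16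
  have hNR : (16 : ℝ) ≤ N := by exact_mod_cast hN16
  have hN1 : 0 < N := by omega
  obtain ⟨W, hW⟩ : ∃ W : ℝ, W = ((N : ℝ) ^ K) ^ (m + 1) * (N : ℝ) ^ 6 := ⟨_, rfl⟩
  have hW0 : 0 < W := by rw [hW]; positivity
  rw [← hW]
  obtain ⟨P0, z0, q0, q1, k, Q2, p1, p2, p3, p4, p5, p6, p7, p8, p9, p10, p11, p12, p13, p14, p15, p16, p17, p18⟩ :=
    HP N hNa
  have hHpos : 0 < N ^ K := pow_pos hN1 K
  have hNH : N ≤ N ^ K := by
    calc N = N ^ 1 := (pow_one N).symm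
      _ ≤ N ^ K := Nat.pow_le_pow_right hN1 hK
  have hq4 : q0 ^ 4 ≤ N := by
    have hNr : (1 : ℝ) ≤ N := by linarith
    have h1 : (q0 : ℝ) ^ 4 ≤ ((N : ℝ) ^ (1 / 20 : ℝ)) ^ 4 := pow_le_pow_left₀ (by positivity) p8 4
    have h2 : ((N : ℝ) ^ (1 / 20 : ℝ)) ^ 4 = (N : ℝ) ^ (1 / 5 : ℝ) := by
      rw [← Real.rpow_natCast, ← Real.rpow_mul (by positivity)]
      norm_num
    have h3 : (N : ℝ) ^ (1 / 5 : ℝ) ≤ (N : ℝ) ^ (1 : ℝ) := Real.rpow_le_rpow_of_exponent_le hNr (by norm_num)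
    rw [Real.rpow_one] at h3
    have h4 : (q0 : ℝ) ^ 4 ≤ (N : ℝ) := by
      rw [h2] at h1
      exact h1.trans h3
    exact_mod_cast h4
  have hq0N : q0 ≤ 4 * N := by
    have h1 : q0 ≤ q0 ^ 4 := Nat.le_self_pow (by norm_num) q0
    omega
  have hPP : 288 * N ^ 4 * q0 ^ 4 * P N ≤ 256 * (N ^ K) ^ 4 := by
    refine le_trans ?_ (hP2 N hNb)
    calc 288 * N ^ 4 * q0 ^ 4 * P N ≤ 288 * N ^ 4 * N * P N :=
          Nat.mul_le_mul_right _ (Nat.mul_le_mul_left _ hq4)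
      _ = 288 * N ^ 5 * P N := by ring
  have hTy := notTy_card (P0 := P0) (z0 := z0) he hN1 hNH p1 p2 p5 p12
  have hTy1 := notTyp1_card (P0 := P0) (z0 := z0) (q1 := q1) he hN1 hNH p1 p2 p5 p6 p12
  have hU := main_union1 (m := m) (H := N ^ K) (N := N) (P0 := P0) (z0 := z0) (q0 := q0) (q1 := q1) (k := k) (P := P N)
    he hHpos hN1 p1 p2 p10 hq0N hNH hPP Q2 (fun p hp hz hle => p11 p hp hz (hle.trans (hP N hNb)))
  have hcast : (((N ^ K : ℕ) : ℝ)) = (N : ℝ) ^ K := by push_cast; rfl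
  rw [hcast] at hTy hTy1 hU
  have hW8 : (8 * (N : ℝ) ^ K) ^ (m + 1) * (8 * (N : ℝ)) ^ 6 = 8 ^ (m + 7) * W := by
    rw [hW, mul_pow, mul_pow]
    ring
  rw [hW8] at hTy hTy1 hU
  obtain ⟨LL, hLLd⟩ : ∃ LL, LL = Real.log (Real.log N) := ⟨_, rfl⟩
  obtain ⟨S, hS⟩ : ∃ S, S = ∑ p ∈ PQ P0 z0, 1 / (p : ℝ) := ⟨_, rfl⟩
  obtain ⟨S2, hS2⟩ : ∃ S2, S2 = ∑ p ∈ Q2, 1 / (p : ℝ) := ⟨_, rfl⟩
  rw [← hS] at hTy hTy1 hU p12 p13 p14 p17
  rw [← hS2] at hU p15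
  rw [← hLLd] at hLL p3 p4 p13 p14 p15 p16 p17 p18 ⊢
  have hP0R : (0 : ℝ) < P0 := by
    have : 0 < P0 := by omega
    exact_mod_cast this
  have a1 : 1 / (P0 : ℝ) ≤ 200 / LL := by
    rw [div_le_div_iff₀ hP0R hLL]
    linarith
  have a2 : 1 / S ≤ 2 / LL := by
    rw [div_le_div_iff₀ (by linarith) hLL]
    linarith
  have h2P : (2 : ℝ) ^ P0 ≤ 4096 * Real.exp (11 / 1000 * LL) :=
    (pow_le_pow_left₀ (by norm_num) (by norm_num) P0).trans p4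
  have hW80 : 0 < 8 ^ (m + 7) * W := by positivity
  have hmain := AN_main (T := TT (PQ P0 z0) k) (P := (2 : ℝ) ^ P0) (W := 8 ^ (m + 7) * W) hLL p13 p14 p15
    (TT_nonneg _ _) p16 (by positivity) h2P hW80.le
  refine ⟨P0, z0, p1, p2, p5, a1, ?_, ?_⟩
  · refine hTy.trans ?_
    have b1 : 1 / (P0 : ℝ) + 1 / S ≤ 202 / LL := by
      have e : 202 / LL = 200 / LL + 2 / LL := by ring
      rw [e]
      linarith
    have b2 : 1000000 * (8 ^ (m + 7) * W) * (1 / (P0 : ℝ) + 1 / S) ≤ 1000000 * (8 ^ (m + 7) * W) * (202 / LL) :=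
      mul_le_mul_of_nonneg_left b1 (by positivity)
    refine b2.trans ?_
    have b3 : 1000000 * (8 ^ (m + 7) * W) * (202 / LL) = 8 ^ (m + 7) * (1000000 * 202) * W / LL := by ring
    rw [b3]
    have b4 : (8 : ℝ) ^ (m + 7) * (1000000 * 202) ≤
        8 ^ (m + 7) * (2000000 * 203 + 2 * 4096 * (3 * Real.exp 2) * 2) := by
      refine mul_le_mul_of_nonneg_left ?_ (by positivity)
      have := Real.exp_pos 2
      linarith
    gcongr
  · refine hU.trans ?_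
    have b1 : 1 / (P0 : ℝ) + 1 / S + Real.log z0 * S / Real.log q1 ≤ 203 / LL := by
      have e : 203 / LL = 200 / LL + 2 / LL + 1 / LL := by ring
      rw [e]
      linarith
    have b2 : 2000000 * (8 ^ (m + 7) * W) * (1 / (P0 : ℝ) + 1 / S + Real.log z0 * S / Real.log q1) ≤
        2000000 * (8 ^ (m + 7) * W) * (203 / LL) :=
      mul_le_mul_of_nonneg_left b1 (by positivity)
    have b3 : 8 ^ (m + 7) * (2000000 * 203 + 2 * 4096 * (3 * Real.exp 2) * 2) * W / LL =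
        2000000 * (8 ^ (m + 7) * W) * (203 / LL) + 2 * 4096 * (3 * Real.exp 2) * 2 * (8 ^ (m + 7) * W) / LL := by
      ring
    rw [b3]
    linarith

end HNF
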