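import Pool.Agent.Lib.MP_1ad228_ntH.HC2
import Pool.Agent.Lib.MP_10e784_agF.VC

/-! JOB PB1 -/

set_option autoImplicit false

open Classical

namespace HNF

open Finset Polynomial FGO FQQ

/-- the bad event at a prime -/
def BdF {F : Type} [CommRing F] {g : ℕ} (c : Fin (2 * g + 1 + 1) → F) (v w : F × F × F) : Prop :=
  (ds v = 0 ∧ ds w = 0) ∨ (ds v = 0 ∧ v.1 = 0) ∨ (ds v ≠ 0 ∧ v.1 ≠ 0 ∧ Pq v ∣ Pf (hw w (gA c) (gB c))) ∨
  (v.1 = 0 ∧ Rg (gA c) (gB c) v w = 0) ∨
  (ds v = 0 ∧ v.1 ≠ 0 ∧ ds w ≠ 0 ∧ ∀ x : F, qv v x 1 ≠ 0 → ¬ Sq (v.1 * hv (hw w (gA c) (gB c)) x 1))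

/-- the bad event at `p` -/
def BdP {g : ℕ} (p : ℕ) (c : Vn (2 * g + 1)) (u : V × V) : Prop := BdF (cN p c) (cV p u.1) (cV p u.2)

/-- Proof. Exactly as `exists_nonzero_sq` (file VC): `P = s G²`, `s` squarefree (`sq_decomp`; `P ≠ 0` by the hypothesis with `c = 0`), `natDegree s ≥ 1` (otherwise `P = C c G²`), `stepanov_many (natDegree s) n` with `T` = the roots of `G`. -/
theorem gen_sq (n : ℕ) : ∃ w1 : ℕ, 3 ≤ w1 ∧ ∀ (p : ℕ) [Fact p.Prime], w1 ≤ p → ∀ P : (ZMod p)[X], P.natDegree ≤ n →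
    (∀ (c : ZMod p) (G : (ZMod p)[X]), P ≠ C c * G ^ 2) → ∃ x : ZMod p, Sq (P.eval x) := by
  have hst : ∀ k : ℕ, ∃ P0 : ℕ, 1 ≤ k → ∀ (p : ℕ) [Fact p.Prime], P0 ≤ p → ∀ f : (ZMod p)[X],
      Squarefree f → f.natDegree = k → ∀ u : ZMod p, u ≠ 0 → ∀ T : Finset (ZMod p), T.card ≤ n →
      ∃ x : ZMod p, x ∉ T ∧ f.eval x ≠ 0 ∧ IsSquare (u * f.eval x) := by
    intro k
    by_cases hk : 1 ≤ k
    · obtain ⟨P0, h⟩ := stepanov_many k n hk
      exact ⟨P0, fun _ => h⟩
    · exact ⟨0, fun h => absurd h hk⟩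
  choose P0 hP0 using hst
  refine ⟨3 + ∑ k ∈ Finset.range (n + 1), P0 k, by omega, ?_⟩
  intro p hpf hp P hdP hns
  have hPne : P ≠ 0 := by
    intro h
    apply hns 0 0
    rw [h, Polynomial.C_0, zero_mul]
  obtain ⟨s, G, hs, hPG⟩ := sq_decomp P hPne
  have hs0 : s ≠ 0 := hs.ne_zero
  have hG0 : G ≠ 0 := by
    rintro rfl
    apply hPne
    rw [hPG]
    ring
  have hdeg : P.natDegree = s.natDegree + 2 * G.natDegree := by
    rw [hPG, Polynomial.natDegree_mul hs0 (pow_ne_zero 2 hG0), Polynomial.natDegree_pow]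
  have hs1 : 1 ≤ s.natDegree := by
    rcases Nat.eq_zero_or_pos s.natDegree with h0 | h0
    · exfalso
      apply hns (s.coeff 0) G
      rw [hPG]
      congr 1
      exact Polynomial.eq_C_of_natDegree_eq_zero h0
    · exact h0
  have hPp : P0 s.natDegree ≤ p := by
    have h1 : P0 s.natDegree ≤ ∑ k ∈ Finset.range (n + 1), P0 k := by
      apply Finset.single_le_sum (f := P0) (fun i _ => Nat.zero_le _)
      rw [Finset.mem_range]
      omega
    omega
  have hT : G.roots.toFinset.card ≤ n := by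
    have h1 : G.roots.toFinset.card ≤ Multiset.card G.roots := Multiset.toFinset_card_le _
    have h2 : Multiset.card G.roots ≤ G.natDegree := Polynomial.card_roots' G
    omega
  obtain ⟨x, hxT, hx0, hxsq⟩ := hP0 s.natDegree hs1 p hPp s hs rfl 1 one_ne_zero G.roots.toFinset hT
  have hGx : G.eval x ≠ 0 := by
    intro h
    apply hxT
    rw [Multiset.mem_toFinset, Polynomial.mem_roots hG0]
    exact h
  have hev : P.eval x = s.eval x * (G.eval x) ^ 2 := by
    rw [hPG, Polynomial.eval_mul, Polynomial.eval_pow]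
  refine ⟨x, ?_, ?_⟩
  · rw [hev]
    exact mul_ne_zero hx0 (pow_ne_zero 2 hGx)
  · rw [hev]
    rw [one_mul] at hxsq
    exact hxsq.mul ⟨G.eval x, sq (G.eval x)⟩

theorem PB1_prime {F : Type} [Field F] {B L G q : F[X]} {c : F} (hq : Prime q) (hc : c ≠ 0)
    (h : (q * L) * B = C c * G ^ 2) : q ∣ L * B := by
  have h1 : q ∣ C c * G ^ 2 := by
    rw [← h]
    exact ⟨L * B, by ring⟩
  have h2 : q ∣ G := by
    rcases hq.dvd_or_dvd h1 with h3 | h3
    · exfalso
      exact hq.not_isUnit (isUnit_of_dvd_unit h3 (isUnit_C.mpr (isUnit_iff_ne_zero.mpr hc)))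
    · exact hq.dvd_of_dvd_pow h3
  obtain ⟨G', rfl⟩ := h2
  have h3 : q * (L * B) = q * (q * (C c * G' ^ 2)) := by
    linear_combination h
  have h4 := mul_left_cancel₀ hq.ne_zero h3
  exact ⟨_, h4⟩

theorem PB1_root {F : Type} [Field F] {B L G : F[X]} {c r : F} (hc : c ≠ 0)
    (h : ((X - C r) * L) * B = C c * G ^ 2) (hL : L.eval r ≠ 0) : B.eval r = 0 := by
  have h1 := PB1_prime (prime_X_sub_C r) hc h
  have h2 : (L * B).eval r = 0 := (dvd_iff_isRoot.mp h1)
  rw [eval_mul] at h2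
  rcases mul_eq_zero.mp h2 with h3 | h3
  · exact absurd h3 hL
  · exact h3

theorem PB1_split {F : Type} [Field F] (v : F × F × F) (hv1 : v.1 ≠ 0) {r : F} (hr : (Pq v).eval r = 0) :
    ∃ s : F, Pq v = C v.1 * ((X - C r) * (X - C s)) ∧ ds v = v.1 ^ 2 * (r - s) ^ 2 := by
  have hr' : v.1 * r ^ 2 + v.2.1 * r + v.2.2 = 0 := by
    rw [eval_Pq] at hr
    unfold qv at hr
    linear_combination hr
  obtain ⟨s, hs⟩ : ∃ s, s = -v.2.1 / v.1 - r := ⟨_, rfl⟩
  have hs' : v.1 * (r + s) = -v.2.1 := by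
    rw [hs]
    field_simp
    ring
  have hs2 : v.1 * r * s = v.2.2 := by linear_combination r * hs' - hr'
  refine ⟨s, ?_, ?_⟩
  · unfold Pq
    have e1 : C v.2.1 = -(C v.1 * (C r + C s)) := by
      rw [← C_add, ← C_mul, hs', C_neg, neg_neg]
    have e2 : C v.2.2 = C v.1 * C r * C s := by
      rw [← C_mul, ← C_mul, hs2]
    rw [e1, e2]
    ring
  · unfold ds
    have e1 : v.2.1 = -(v.1 * (r + s)) := by rw [hs', neg_neg]
    rw [e1, ← hs2]
    ring

theorem PB1_dvd {F : Type} [Field F] {a r s : F} (ha : a ≠ 0) (hrs : r ≠ s) {Q : F[X]} (h1 : Q.eval r = 0)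
    (h2 : Q.eval s = 0) : C a * ((X - C r) * (X - C s)) ∣ Q := by
  have h3 : (X - C r) * (X - C s) ∣ Q := by
    refine IsCoprime.mul_dvd ?_ (dvd_iff_isRoot.mpr h1) (dvd_iff_isRoot.mpr h2)
    exact isCoprime_X_sub_C_of_isUnit_sub (isUnit_iff_ne_zero.mpr (sub_ne_zero.mpr hrs))
  obtain ⟨Q', rfl⟩ := h3
  refine ⟨C a⁻¹ * Q', ?_⟩
  have e : C a * C a⁻¹ = (1 : F[X]) := by rw [← C_mul, mul_inv_cancel₀ ha, C_1]
  linear_combination (-(X - C r) * (X - C s) * Q') * e

/-- Proof. `v.1 ≠ 0`: `Pq v` is squarefree of degree 2. If it is irreducible it divides `P = C c G²`, so `(Pq v)² ∣ P` and `Pq v ∣ f`. If `Pq v = C a (X - r)(X - s)`, `r ≠ s`: the multiplicity of `r` in `P` is even, so `r` is a root of `f`, the same for `s` (if `f = 0` everything is clear). `v.1 = 0`: `Pq v = C b (X - r)`, `b ≠ 0`; `f = 0`, or `r` is a root of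
`f` and `natDegree P = 1 + natDegree f` is even, so `natDegree f < 2 g` is odd and the coefficient number `2 g` of `f = Pf h` vanishes: `(1, 0)` is a common zero of `h` and `v`: `Rs h v = 0` (`Rs_zero_of_root`, file RC). Model `half_sq` in VB.lean. -/
theorem half_H {F : Type} [Field F] {g : ℕ} (hg : 1 ≤ g) (h : Fin (2 * g + 1) → F) (v : F × F × F)
    (hd : ds v ≠ 0) (h2 : (2 : F) ≠ 0) (c : F) (G : F[X]) (hP : Pq v * Pf h = C c * G ^ 2) :
    (v.1 ≠ 0 ∧ Pq v ∣ Pf h) ∨ (v.1 = 0 ∧ Rs h v = 0) := by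
  by_cases hv1 : v.1 = 0
  · right
    refine ⟨hv1, ?_⟩
    have hb : v.2.1 ≠ 0 := by
      intro hb
      apply hd
      unfold ds
      rw [hv1, hb]
      ring
    have hlast : h (Fin.last (2 * g)) = 0 := by
      by_contra hne
      have hcf : (Pf h).coeff (2 * g) = h (Fin.last (2 * g)) := coeff_Pf h (Fin.last (2 * g))
      have hf0 : Pf h ≠ 0 := by
        intro h0
        rw [h0, coeff_zero] at hcf
        exact hne hcf.symm
      have d1 : (Pf h).natDegree = 2 * g := by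
        apply le_antisymm (natDegree_Pf h)
        apply le_natDegree_of_ne_zero
        rw [hcf]
        exact hne
      have hP1 : Pq v = C v.2.1 * X + C v.2.2 := by
        unfold Pq
        rw [hv1, C_0, zero_mul, zero_add]
      have d3 : (Pq v).natDegree = 1 := by
        rw [hP1]
        exact natDegree_linear hb
      have hv0 : Pq v ≠ 0 := by
        intro h0
        rw [h0, natDegree_zero] at d3
        omega
      have hc : c ≠ 0 := by
        intro hc
        rw [hc, C_0, zero_mul] at hP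
        exact (mul_ne_zero hv0 hf0) hP
      have hG : G ≠ 0 := by
        intro hG
        rw [hG, zero_pow two_ne_zero, mul_zero] at hP
        exact (mul_ne_zero hv0 hf0) hP
      have e1 : (Pq v * Pf h).natDegree = 1 + 2 * g := by
        rw [natDegree_mul hv0 hf0, d1, d3]
      have e2 : (C c * G ^ 2).natDegree = 2 * G.natDegree := by
        rw [natDegree_mul (C_ne_zero.mpr hc) (pow_ne_zero 2 hG), natDegree_C, natDegree_pow, zero_add]
      rw [hP, e2] at e1
      omega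
    refine Rs_zero_of_root (by omega) h v 1 0 (fun h6 => one_ne_zero h6.1) ?_ ?_
    · rw [hv_inf, hlast]
    · unfold qv
      rw [hv1]
      ring
  · left
    refine ⟨hv1, ?_⟩
    by_cases hf0 : Pf h = 0
    · rw [hf0]
      exact dvd_zero _
    have hv0 : Pq v ≠ 0 := by
      intro h0
      have := RD_Pq_degree v hv1
      rw [h0, natDegree_zero] at this
      omega
    have hc : c ≠ 0 := by
      intro hc
      rw [hc, C_0, zero_mul] at hP
      exact (mul_ne_zero hv0 hf0) hP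
    by_cases hr : ∃ r, (Pq v).eval r = 0
    · obtain ⟨r, hr⟩ := hr
      obtain ⟨s, hPv, hds⟩ := PB1_split v hv1 hr
      have hrs : r ≠ s := by
        intro hrs
        apply hd
        rw [hds, hrs]
        ring
      have h1 : (X - C r) * (C v.1 * (X - C s)) * Pf h = C c * G ^ 2 := by
        rw [← hP, hPv]
        ring
      have h2' : (X - C s) * (C v.1 * (X - C r)) * Pf h = C c * G ^ 2 := by
        rw [← hP, hPv]
        ring
      have a1 := PB1_root hc h1 (by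
        rw [eval_mul, eval_C, eval_sub, eval_X, eval_C]
        exact mul_ne_zero hv1 (sub_ne_zero.mpr hrs))
      have a2 := PB1_root hc h2' (by
        rw [eval_mul, eval_C, eval_sub, eval_X, eval_C]
        exact mul_ne_zero hv1 (sub_ne_zero.mpr hrs.symm))
      rw [hPv]
      exact PB1_dvd hv1 hrs a1 a2
    · have hirr : Irreducible (Pq v) := by
        refine irreducible_of_degree_le_three_of_not_isRoot ?_ fun x hx => hr ⟨x, hx⟩
        rw [RD_Pq_degree v hv1]
        decide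
      have hpr : Prime (Pq v) := hirr.prime
      have h1 : Pq v * 1 * Pf h = C c * G ^ 2 := by rw [mul_one]; exact hP
      have h3 := PB1_prime hpr hc h1
      rwa [one_mul] at h3

/-- Proof. `gen_sq (2 g + 2)`. If `ds v ≠ 0` (modulo `p`): `P = Pq v * Pf h` is not of the form `C c G²` by `half_H` and `¬ BdP` (third and fourth clause), so there is `x` with `P(x) = qv v x 1 * hv h x 1` a nonzero square. If `ds v = 0`: by the second clause `v.1 ≠ 0`, by the first `ds w ≠ 0`, so by the last one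
there is `x` with `qv v x 1 ≠ 0`, `v.1 h(x)` a nonzero square; `4 v.1 qv v x 1 = (2 v.1 x + v.2.1)²`, so `qv v x 1 * h(x) = (v.1 h(x)) ((2 v.1 x + v.2.1)/(2 v.1))²` is a nonzero square. -/
theorem pt_mod {g : ℕ} (hg : 1 ≤ g) : ∃ w1 : ℕ, 3 ≤ w1 ∧ ∀ (p : ℕ) [Fact p.Prime], w1 ≤ p → ∀ (c : Vn (2 * g + 1)) (u : V × V),
    ¬ BdP p c u → ∃ x : ZMod p, Sq (qv (cV p u.1) x 1 * hv (hw (cV p u.2) (gA (cN p c)) (gB (cN p c))) x 1) := by
  obtain ⟨w1, hw3, hgs⟩ := gen_sq (2 * g + 2)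
  refine ⟨w1, hw3, ?_⟩
  intro p hpf hp c u hb
  have hp2 : p ≠ 2 := by
    rintro rfl
    omega
  have h2 : (2 : ZMod p) ≠ 0 := by
    intro h0
    have h1 : ((2 : ℕ) : ZMod p) = 0 := by exact_mod_cast h0
    rw [ZMod.natCast_eq_zero_iff] at h1
    exact hp2 ((Nat.prime_dvd_prime_iff_eq (Fact.out : p.Prime) Nat.prime_two).mp h1)
  unfold BdP BdF at hb
  push Not at hb
  obtain ⟨b1, b2, b3, b4, b5⟩ := hb
  by_cases hd : ds (cV p u.1) = 0
  · have hdw := b1 hd
    have hv1 := b2 hd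
    obtain ⟨x, hx0, hxs⟩ := b5 hd hv1 hdw
    obtain ⟨hne, t, ht⟩ := hxs
    refine ⟨x, ?_, ?_⟩
    · exact mul_ne_zero hx0 (right_ne_zero_of_mul hne)
    · have e1 : 4 * (cV p u.1).1 * qv (cV p u.1) x 1 = (2 * (cV p u.1).1 * x + (cV p u.1).2.1) ^ 2 := by
        unfold ds at hd
        unfold qv
        linear_combination -hd
      refine ⟨t * (2 * (cV p u.1).1 * x + (cV p u.1).2.1) / (2 * (cV p u.1).1), ?_⟩
      have h4 : (4 : ZMod p) ≠ 0 := by
        intro h0
        apply h2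
        have : (2 : ZMod p) * 2 = 0 := by
          rw [← h0]
          norm_num
        exact mul_self_eq_zero.mp this
      rw [div_mul_div_comm, eq_div_iff (mul_ne_zero (mul_ne_zero h2 hv1) (mul_ne_zero h2 hv1))]
      linear_combination (4 * (cV p u.1).1 * qv (cV p u.1) x 1) * ht + (t * t) * e1
  · have hns : ∀ (k : ZMod p) (G : (ZMod p)[X]),
        Pq (cV p u.1) * Pf (hw (cV p u.2) (gA (cN p c)) (gB (cN p c))) ≠ C k * G ^ 2 := by
      intro k G hk
      rcases half_H hg _ _ hd h2 k G hk with ⟨h3, h4⟩ | ⟨h3, h4⟩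
      · exact b3 hd h3 h4
      · exact b4 h3 h4
    have hdg : (Pq (cV p u.1) * Pf (hw (cV p u.2) (gA (cN p c)) (gB (cN p c)))).natDegree ≤ 2 * g + 2 := by
      have h3 : (Pq (cV p u.1) * Pf (hw (cV p u.2) (gA (cN p c)) (gB (cN p c)))).natDegree ≤
        (Pq (cV p u.1)).natDegree + (Pf (hw (cV p u.2) (gA (cN p c)) (gB (cN p c)))).natDegree :=
        Polynomial.natDegree_mul_le
      have h4 := natDegree_Pf (hw (cV p u.2) (gA (cN p c)) (gB (cN p c)))
      have h5 := natDegree_Pq (cV p u.1)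
      omega
    obtain ⟨x, hx⟩ := hgs p hp _ hdg hns
    refine ⟨x, ?_⟩
    rw [eval_mul, eval_Pq, eval_Pf] at hx
    exact hx

end HNF
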