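import Pool.Agent.Lib.MP_1ad228_ntH.PC2
import Pool.Agent.Lib.MP_1ad228_ntH.PB1

/-! JOB PC3 -/

set_option autoImplicit false

open Classical

namespace HNF

open Finset Polynomial FGO FQQ

/-- Proof. The five clauses of `BdF`: `Av_DD` (`1/p²`); `ds v = 0`, `v.1 = 0` gives `v.2.1 = 0`: `1/p²`; third: `w = 0`: `1/p³`, otherwise `mF_div`: `9/p²`; fourth: `v = 0`: `1/p³`; `w = 0` and `v.1 = 0`: `≤ 1/p³`; otherwise `mF_Rg`: `6/p` times `1/p` for `v.1 = 0`; fifth: `ds v = 0`: `1/p` (`mQ_disc`), times `22/p` (`mF_nosq`). -/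
theorem Av_Bd {g : ℕ} (hg : 1 ≤ g) (p : ℕ) [Fact p.Prime] (h5 : 5 ≤ p) :
    Av (2 * g + 1) p (fun c v w => ind (BdF c v w)) ≤ 60 / (p : ℝ) ^ 2 := by
  have h2 : p ≠ 2 := by omega
  have hp0 := BA_pos p
  have hp1 : (1 : ℝ) ≤ p := by exact_mod_cast (Fact.out : p.Prime).one_le
  have h60 : 0 ≤ 6 / (p : ℝ) := by positivity
  have h220 : 0 ≤ 22 / (p : ℝ) := by positivity
  have h90 : 0 ≤ 9 / (p : ℝ) ^ 2 := by positivity
  have hmain : ∀ v w : ZMod p × ZMod p × ZMod p, mF (2 * g + 1) p (fun c => ind (BdF c v w)) ≤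
      ind (v = 0) + ind (w = 0) + ind (ds v = 0) * ind (ds w = 0) + ind (ds v = 0 ∧ v.1 = 0) + 9 / (p : ℝ) ^ 2 +
        (6 / (p : ℝ)) * ind (v.1 = 0) + (22 / (p : ℝ)) * ind (ds v = 0) := by
    intro v w
    have n1 := ind_nonneg (v = 0)
    have n2 := ind_nonneg (w = 0)
    have n3 := ind_nonneg (v.1 = 0)
    have n5 := ind_nonneg (ds v = 0)
    have n6 := ind_nonneg (ds w = 0)
    have n7 := ind_nonneg (ds v = 0 ∧ v.1 = 0)
    have n8 : 0 ≤ ind (ds v = 0) * ind (ds w = 0) := mul_nonneg n5 n6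
    have n9 : 0 ≤ (6 / (p : ℝ)) * ind (v.1 = 0) := mul_nonneg h60 n3
    have n10 : 0 ≤ (22 / (p : ℝ)) * ind (ds v = 0) := mul_nonneg h220 n5
    have hone : mF (2 * g + 1) p (fun c => ind (BdF c v w)) ≤ 1 := by
      refine (mF_mono _ p _ (fun _ => 1) fun c => ind_le_one _).trans (le_of_eq (mF_const _ p 1))
    by_cases hv : v = 0
    · have h1 : ind (v = 0) = 1 := by unfold ind; rw [if_pos hv]
      linarith
    by_cases hw : w = 0
    · have h1 : ind (w = 0) = 1 := by unfold ind; rw [if_pos hw]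
      linarith
    have hle : ∀ c : Fin (2 * g + 1 + 1) → ZMod p, ind (BdF c v w) ≤
        ind (ds v = 0) * ind (ds w = 0) + (ind (ds v = 0 ∧ v.1 = 0) +
          (ind (ds v ≠ 0 ∧ v.1 ≠ 0) * ind (Pq v ∣ Pf (HNF.hw w (gA c) (gB c))) +
          (ind (v.1 = 0) * ind (Rg (gA c) (gB c) v w = 0) +
            ind (ds v = 0 ∧ v.1 ≠ 0 ∧ ds w ≠ 0) *
              ind (∀ x : ZMod p, qv v x 1 ≠ 0 → ¬ Sq (v.1 * FQQ.hv (HNF.hw w (gA c) (gB c)) x 1))))) := by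
      intro c
      unfold BdF
      refine (HC2_ind_or _ _).trans (add_le_add (le_of_eq (HC2_ind_and _ _)) ?_)
      refine (HC2_ind_or _ _).trans (add_le_add le_rfl ?_)
      refine (HC2_ind_or _ _).trans (add_le_add ?_ ?_)
      · rw [← HC2_ind_and, and_assoc]
      refine (HC2_ind_or _ _).trans (add_le_add (le_of_eq (HC2_ind_and _ _)) ?_)
      rw [← HC2_ind_and]
      refine ind_mono fun h => ⟨⟨h.1, h.2.1, h.2.2.1⟩, h.2.2.2⟩
    have h3 := mF_mono (2 * g + 1) p _ _ hle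
    rw [mF_add, mF_const, mF_add, mF_const, mF_add, mF_smul, mF_add, mF_smul, mF_smul] at h3
    have t1 : ind (ds v ≠ 0 ∧ v.1 ≠ 0) * mF (2 * g + 1) p (fun c => ind (Pq v ∣ Pf (HNF.hw w (gA c) (gB c)))) ≤
        9 / (p : ℝ) ^ 2 := by
      by_cases hc : ds v ≠ 0 ∧ v.1 ≠ 0
      · have e : ind (ds v ≠ 0 ∧ v.1 ≠ 0) = 1 := by unfold ind; rw [if_pos hc]
        rw [e, one_mul]
        exact mF_div hg p h2 v w hc.2 hc.1 hw
      · have e : ind (ds v ≠ 0 ∧ v.1 ≠ 0) = 0 := by unfold ind; rw [if_neg hc]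
        rw [e, zero_mul]
        exact h90
    have t2 : ind (v.1 = 0) * mF (2 * g + 1) p (fun c => ind (Rg (gA c) (gB c) v w = 0)) ≤
        (6 / (p : ℝ)) * ind (v.1 = 0) := by
      rw [mul_comm (6 / (p : ℝ))]
      exact mul_le_mul_of_nonneg_left (mF_Rg hg p v w hv hw) n3
    have t3 : ind (ds v = 0 ∧ v.1 ≠ 0 ∧ ds w ≠ 0) * mF (2 * g + 1) p (fun c =>
        ind (∀ x : ZMod p, qv v x 1 ≠ 0 → ¬ Sq (v.1 * FQQ.hv (HNF.hw w (gA c) (gB c)) x 1))) ≤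
        (22 / (p : ℝ)) * ind (ds v = 0) := by
      by_cases hc : ds v = 0 ∧ v.1 ≠ 0 ∧ ds w ≠ 0
      · have e : ind (ds v = 0 ∧ v.1 ≠ 0 ∧ ds w ≠ 0) = 1 := by unfold ind; rw [if_pos hc]
        have e' : ind (ds v = 0) = 1 := by unfold ind; rw [if_pos hc.1]
        rw [e, one_mul, e', mul_one]
        exact mF_nosq hg p h5 v w hc.1 hc.2.1 hc.2.2
      · have e : ind (ds v = 0 ∧ v.1 ≠ 0 ∧ ds w ≠ 0) = 0 := by unfold ind; rw [if_neg hc]
        rw [e, zero_mul]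
        exact n10
    linarith
  have e0 : mQ p (fun v => ind (v = 0)) = 1 / (p : ℝ) ^ 3 := mQ_zero p
  have e1 : mQ p (fun v => ind (v.1 = 0)) = 1 / (p : ℝ) := by
    have h := mQ_lead_root p none
    rw [if_pos rfl] at h
    rw [← h]
    refine congrArg (mQ p) (funext fun v => ?_)
    have hn : qv v (pt (none : Option (ZMod p))).1 (pt (none : Option (ZMod p))).2 = v.1 := by
      unfold qv
      simp [pt]
    rw [hn, and_self_iff]
  have e2 : mQ p (fun v => ind (ds v = 0)) = 1 / (p : ℝ) := mQ_disc p h2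
  have e3 : mQ p (fun v => ind (ds v = 0 ∧ v.1 = 0)) = 1 / (p : ℝ) ^ 2 := by
    rw [← mQ_disc_root p h2 none]
    refine congrArg (mQ p) (funext fun v => ?_)
    have hn : qv v (pt (none : Option (ZMod p))).1 (pt (none : Option (ZMod p))).2 = v.1 := by
      unfold qv
      simp [pt]
    rw [hn]
  have e4 : mQ p (fun v => ind (ds v = 0) * (1 / (p : ℝ))) = (1 / (p : ℝ)) * (1 / (p : ℝ)) := by
    have e : (fun v : ZMod p × ZMod p × ZMod p => ind (ds v = 0) * (1 / (p : ℝ))) =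
        fun v => (1 / (p : ℝ)) * ind (ds v = 0) := funext fun v => mul_comm _ _
    rw [e, mQ_smul, e2]
  have hA : Av (2 * g + 1) p (fun c v w => ind (BdF c v w)) ≤
      mQ p (fun v => mQ p (fun w => ind (v = 0) + ind (w = 0) + ind (ds v = 0) * ind (ds w = 0) +
        ind (ds v = 0 ∧ v.1 = 0) + 9 / (p : ℝ) ^ 2 +
        (6 / (p : ℝ)) * ind (v.1 = 0) + (22 / (p : ℝ)) * ind (ds v = 0))) := by
    unfold Av
    exact mQ_mono p _ _ fun v => mQ_mono p _ _ fun w => hmain v w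
  refine hA.trans ?_
  simp only [mQ_add, mQ_smul, mQ_const, e0, e1, e2, e3, e4]
  have h3 : 1 / (p : ℝ) ^ 3 ≤ 1 / (p : ℝ) ^ 2 :=
    one_div_le_one_div_of_le (by positivity) (pow_le_pow_right₀ hp1 (by norm_num))
  have h4 : 6 / (p : ℝ) * (1 / (p : ℝ)) = 6 * (1 / (p : ℝ) ^ 2) := by
    field_simp
  have h4' : 22 / (p : ℝ) * (1 / (p : ℝ)) = 22 * (1 / (p : ℝ) ^ 2) := by
    field_simp
  have h4'' : 1 / (p : ℝ) * (1 / (p : ℝ)) = 1 / (p : ℝ) ^ 2 := by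
    field_simp
  have h5' : 60 / (p : ℝ) ^ 2 = 60 * (1 / (p : ℝ) ^ 2) := by ring
  have h6 : 9 / (p : ℝ) ^ 2 = 9 * (1 / (p : ℝ) ^ 2) := by ring
  have h7 : 0 ≤ 1 / (p : ℝ) ^ 2 := by positivity
  rw [h4, h4', h4'', h5', h6]
  linarith

end HNF
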