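import Pool.Agent.Lib.MP_1ad228_nt.GTVal
import Pool.Agent.Lib.MP_1ad228_nt.ZDual
import Pool.Agent.Lib.MP_1ad228_nt.ZHodd
import Pool.Agent.Lib.MP_1ad228_ntG.Al1
import Pool.Agent.Lib.MP_10e784_agF.Defs

/-!
# MP_1ad228_nt: zero-cycles on curves `y² = a b`, local theory (definitions)

Only the values of the two factors `a`, `b` at the points matter here.
-/

set_option autoImplicit false

namespace HNF

open Finset ZC ZG FGO FQQ

/-- a point: a finite extension of the ground field and two elements whose product is a square, not both zero -/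
structure GP (F : Type) [Field F] where
  K : Type
  [field : Field K]
  [alg : Algebra F K]
  [fin : FiniteDimensional F K]
  a : K
  b : K
  y : K
  eq : y ^ 2 = a * b
  ne : ¬ (a = 0 ∧ b = 0)

attribute [instance] GP.field GP.alg GP.fin

open Classical in
/-- the value of the function `a`, up to squares -/
noncomputable def GP.val {F : Type} [Field F] (P : GP F) : P.K := if P.a = 0 then P.b else P.a

/-- the same point with the two factors exchanged -/
def GP.swap {F : Type} [Field F] (P : GP F) : GP F where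
  K := P.K
  a := P.b
  b := P.a
  y := P.y
  eq := by rw [P.eq, mul_comm]
  ne := fun h => P.ne ⟨h.2, h.1⟩

/-- zero-cycles -/
abbrev GC (F : Type) [Field F] := List (ℤ × GP F)

/-- the degree -/
noncomputable def GC.deg {F : Type} [Field F] (z : GC F) : ℤ :=
  (z.map fun q => q.1 * (Module.finrank F q.2.K : ℤ)).sum

/-- the class -/
noncomputable def GC.cls {F : Type} [Field F] (z : GC F) : F :=
  (z.map fun q => (Algebra.norm F q.2.val) ^ q.1).prod

/-- `4 c a` is a value of the form `X² - d Y²` -/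
def GP.NfA {F : Type} [Field F] (P : GP F) (c d : ℤ) : Prop :=
  ∃ X Y : P.K, 4 * (c : P.K) * P.a = X ^ 2 - (d : P.K) * Y ^ 2 ∧ ¬ (X = 0 ∧ Y = 0)

/-- `4 c b` is a value of the form `X² - d Y²` -/
def GP.NfB {F : Type} [Field F] (P : GP F) (c d : ℤ) : Prop :=
  ∃ X Y : P.K, 4 * (c : P.K) * P.b = X ^ 2 - (d : P.K) * Y ^ 2 ∧ ¬ (X = 0 ∧ Y = 0)

/-- one of the two elements has the absolute value of a square -/
def GP.Ev {p : ℕ} [Fact p.Prime] (P : GP ℚ_[p]) : Prop :=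
  ∃ (L : LVal p P.K) (s : P.K), s ≠ 0 ∧ (L.v P.a = L.v s ^ 2 ∨ L.v P.b = L.v s ^ 2)

/-- the conditions on the number `δ` attached to an adelic zero-cycle -/
def Cn (R : ℤ) (v w : V) (δ : ℤ) : Prop :=
  (∀ p : ℕ, p.Prime → (p : ℤ) ∣ δ → (p : ℤ) ∣ R ∧
    (p ≠ 2 → ¬ (p : ℤ) ∣ v.1 → jacobiSym (ds v) p ≠ -1) ∧ (p ≠ 2 → ¬ (p : ℤ) ∣ w.1 → jacobiSym (ds w) p ≠ -1)) ∧
  (∀ p : ℕ, p.Prime → p ≠ 2 → ¬ (p : ℤ) ∣ R → (p : ℤ) ∣ ds v → ¬ (p : ℤ) ^ 2 ∣ ds v → ¬ (p : ℤ) ∣ v.1 →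
    jacobiSym (δ * v.1) p = 1) ∧
  (∀ p : ℕ, p.Prime → p ≠ 2 → ¬ (p : ℤ) ∣ R → (p : ℤ) ∣ ds w → ¬ (p : ℤ) ^ 2 ∣ ds w → ¬ (p : ℤ) ∣ w.1 →
    jacobiSym (δ * w.1) p = 1)

end HNF
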