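import Pool.Agent.Lib.MP_1ad228_ntH.HA1
import Pool.Agent.Lib.MP_1ad228_ntH.HDefs
import Pool.Agent.Lib.MP_1ad228_ntH.LDefs
import Pool.Agent.Lib.MP_10e784_agF.RC

/-! The generic point attached to a point of the curve. -/

set_option autoImplicit false

open Classical

namespace HNF

open Finset Polynomial FGO FQQ

/-- The two factors have no common zero if the resultant is not zero. -/
theorem noz_of_R {g : ℕ} (hg : 1 ≤ g) (q : Dt g) (hR : Rq q ≠ 0) (K : Type) [Field K] [CharZero K] (x z : K)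
    (hxz : ¬ (x = 0 ∧ z = 0)) : ¬ (vV q.1.1 x z = 0 ∧ vH q x z = 0) := by
  rintro ⟨h1, h2⟩
  rw [vH_eq] at h2
  rw [vV_eq] at h1
  have h3 := Rs_zero_of_root (by omega : 1 ≤ 2 * g) _ _ x z hxz h2 h1
  have h4 : ((Rq q : ℤ) : K) = 0 := by
    rw [← h3]
    exact Rs_map (Int.castRingHom K) (hw q.1.2 q.2.1 q.2.2) q.1.1
  exact hR (by exact_mod_cast h4)

/-- the generic point attached to a point of the curve -/
def toGP {F : Type} [Field F] [CharZero F] {g : ℕ} (hg : 1 ≤ g) {q : Dt g} (hR : Rq q ≠ 0) (P : Pt F q) : GP F where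
  K := P.K
  a := vV q.1.1 P.x P.z
  b := vH q P.x P.z
  y := P.y
  eq := P.eq
  ne := by
    have : CharZero P.K := charZero_of_injective_algebraMap (algebraMap F P.K).injective
    exact noz_of_R hg q hR P.K P.x P.z P.ne

theorem toGP_val {F : Type} [Field F] [CharZero F] {g : ℕ} (hg : 1 ≤ g) {q : Dt g} (hR : Rq q ≠ 0) (P : Pt F q) :
    (toGP hg hR P).val = P.val := rfl

theorem HI1_form {K : Type} [Field K] [CharZero K] (v : V) (hv : v.1 ≠ 0) (x z : K) (hxz : ¬ (x = 0 ∧ z = 0)) :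
    ∃ X Y : K, 4 * ((v.1 : ℤ) : K) * vV v x z = X ^ 2 - ((ds v : ℤ) : K) * Y ^ 2 ∧ ¬ (X = 0 ∧ Y = 0) := by
  refine ⟨2 * ((v.1 : ℤ) : K) * x + ((v.2.1 : ℤ) : K) * z, z, ?_, ?_⟩
  · unfold vV ds
    push_cast
    ring
  · rintro ⟨h1, h2⟩
    rw [h2, mul_zero, add_zero] at h1
    have hvK : ((v.1 : ℤ) : K) ≠ 0 := by exact_mod_cast hv
    exact hxz ⟨(mul_eq_zero.1 h1).resolve_left (mul_ne_zero two_ne_zero hvK), h2⟩

theorem toGP_NfA {F : Type} [Field F] [CharZero F] {g : ℕ} (hg : 1 ≤ g) {q : Dt g} (hR : Rq q ≠ 0) (P : Pt F q)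
    (hv : q.1.1.1 ≠ 0) : (toGP hg hR P).NfA q.1.1.1 (ds (q.1.1 : V)) := by
  have : CharZero P.K := charZero_of_injective_algebraMap (algebraMap F P.K).injective
  exact HI1_form q.1.1 hv P.x P.z P.ne

theorem toGP_NfB {F : Type} [Field F] [CharZero F] {g : ℕ} (hg : 1 ≤ g) {q : Dt g} (hR : Rq q ≠ 0) (P : Pt F q)
    (hw1 : q.1.2.1 ≠ 0) (hc : NoCz q.2.1 q.2.2) : (toGP hg hR P).NfB q.1.2.1 (ds (q.1.2 : V)) := by
  have : CharZero P.K := charZero_of_injective_algebraMap (algebraMap F P.K).injective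
  exact HI1_form q.1.2 hw1 (vG q.2.1 P.x P.z) (vG q.2.2 P.x P.z) (hc P.K P.x P.z P.ne)

end HNF
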