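import Pool.Agent.Lib.MP_10e784_agF.RC
import Pool.Agent.Lib.MP_1ad228_nt.GTVal

/-! Two forms `f` (degree `m`) and `v` (degree two) with resultant prime to `p`: at a primitive point of a finite extension of `ℚ_p` one of the values is a unit. -/

set_option autoImplicit false

namespace HNF

open Finset FGO FQQ ZC ZG Polynomial

section

variable {p : ℕ} [Fact p.Prime] {K : Type} [Field K] [Algebra ℚ_[p] K]

theorem LV_sum_le (L : LVal p K) {ι : Type} (s : Finset ι) (f : ι → K) (B : ℝ) (hB : 0 ≤ B) (h : ∀ i ∈ s, L.v (f i) ≤ B) :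
    L.v (∑ i ∈ s, f i) ≤ B := by
  classical
  induction s using Finset.induction_on with
  | empty =>
    rw [Finset.sum_empty, (L.zero_iff 0).2 rfl]
    exact hB
  | insert i s hi ih =>
    rw [Finset.sum_insert hi]
    exact (L.add _ _).trans (max_le (h i (Finset.mem_insert_self i s)) (ih fun j hj => h j (Finset.mem_insert_of_mem hj)))

theorem LV_mul_le (L : LVal p K) {x y : K} (hx : L.v x ≤ 1) (hy : L.v y ≤ 1) : L.v (x * y) ≤ 1 := by
  rw [L.mul]
  exact mul_le_one₀ hx (L.nonneg y) hy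

theorem LV_pow_le (L : LVal p K) {x : K} (hx : L.v x ≤ 1) (n : ℕ) : L.v (x ^ n) ≤ 1 := by
  rw [v_pow]
  exact pow_le_one₀ (L.nonneg x) hx

/-- integer polynomials have integral values at integral arguments -/
theorem LV_eval_le (L : LVal p K) (P : ℤ[X]) {x : K} (hx : L.v x ≤ 1) : L.v (P.eval₂ (Int.castRingHom K) x) ≤ 1 := by
  rw [Polynomial.eval₂_eq_sum_range]
  refine LV_sum_le L _ _ 1 zero_le_one fun i _ => LV_mul_le L ?_ (LV_pow_le L hx i)
  exact v_int_le L _

/-- the values of integral forms at integral arguments -/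
theorem LV_hv_le (L : LVal p K) {m : ℕ} (f : Vn m) {x z : K} (hx : L.v x ≤ 1) (hz : L.v z ≤ 1) :
    L.v (hv (fun i => (f i : K)) x z) ≤ 1 := by
  unfold hv
  exact LV_sum_le L _ _ 1 zero_le_one fun i _ => LV_mul_le L (LV_mul_le L (v_int_le L _) (LV_pow_le L hx _)) (LV_pow_le L hz _)

theorem LV_qv_le (L : LVal p K) (v : V) {x z : K} (hx : L.v x ≤ 1) (hz : L.v z ≤ 1) :
    L.v (qv ((v.1 : K), (v.2.1 : K), (v.2.2 : K)) x z) ≤ 1 := by
  unfold qv
  refine (L.add _ _).trans (max_le ((L.add _ _).trans (max_le ?_ ?_)) ?_)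
  · exact LV_mul_le L (v_int_le L _) (LV_pow_le L hx _)
  · exact LV_mul_le L (LV_mul_le L (v_int_le L _) hx) hz
  · exact LV_mul_le L (v_int_le L _) (LV_pow_le L hz _)

theorem LV_add_lt (L : LVal p K) {x y : K} (hx : L.v x < 1) (hy : L.v y < 1) : L.v (x + y) < 1 :=
  (L.add x y).trans_lt (max_lt hx hy)

theorem LV_mul_lt (L : LVal p K) {x y : K} (hx : L.v x < 1) (hy : L.v y ≤ 1) : L.v (x * y) < 1 := by
  rw [L.mul]
  exact mul_lt_one_of_nonneg_of_lt_one_left (L.nonneg x) hx hy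

/-- the affine case -/
theorem LV_aff (L : LVal p K) {m : ℕ} (f : Vn m) (v : V) (hR : ¬ (p : ℤ) ∣ Rs f v) {x : K} (hx : L.v x ≤ 1) :
    L.v (hv (fun i => (f i : K)) x 1) = 1 ∨ L.v (qv ((v.1 : K), (v.2.1 : K), (v.2.2 : K)) x 1) = 1 := by
  obtain ⟨a, b, _, _, h⟩ := exists_mul_add_mul_eq_C_resultant (Pf f) (Pq v) (natDegree_Pf f)
    (natDegree_Pq v) (Or.inr two_ne_zero)
  change Pf f * a + Pq v * b = C (Rs f v) at h
  have h3 := congrArg (Polynomial.eval₂ (Int.castRingHom K) x) h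
  have hf : (Pf f).eval₂ (Int.castRingHom K) x = hv (fun i => (f i : K)) x 1 := by
    unfold Pf hv
    rw [Polynomial.eval₂_finsetSum]
    refine Finset.sum_congr rfl (fun i _ => ?_)
    rw [eval₂_mul, eval₂_pow, eval₂_C, eval₂_X, one_pow, mul_one, eq_intCast]
  have hq : (Pq v).eval₂ (Int.castRingHom K) x = qv ((v.1 : K), (v.2.1 : K), (v.2.2 : K)) x 1 := by
    unfold Pq qv
    rw [eval₂_add, eval₂_add, eval₂_mul, eval₂_mul, eval₂_pow, eval₂_C, eval₂_C, eval₂_C, eval₂_X, eq_intCast, eq_intCast, eq_intCast,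
      one_pow, mul_one, mul_one]
  rw [eval₂_add, eval₂_mul, eval₂_mul, eval₂_C, hf, hq] at h3
  have hR1 : L.v ((Rs f v : ℤ) : K) = 1 := v_int L hR
  have hone : L.v (1 : K) ≤ 1 := (v_one L).le
  by_contra hcon
  push Not at hcon
  have l1 : L.v (hv (fun i => (f i : K)) x 1) < 1 := lt_of_le_of_ne (LV_hv_le L f hx hone) hcon.1
  have l2 : L.v (qv ((v.1 : K), (v.2.1 : K), (v.2.2 : K)) x 1) < 1 := lt_of_le_of_ne (LV_qv_le L v hx hone) hcon.2
  have l3 := LV_add_lt L (LV_mul_lt L l1 (LV_eval_le L a hx)) (LV_mul_lt L l2 (LV_eval_le L b hx))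
  rw [h3] at l3
  change L.v ((Rs f v : ℤ) : K) < 1 at l3
  rw [hR1] at l3
  exact lt_irrefl _ l3

/-- the case of the residue disc of the point at infinity -/
theorem LV_inf (L : LVal p K) {m : ℕ} (hm : 1 ≤ m) (f : Vn m) (v : V) (hR : ¬ (p : ℤ) ∣ Rs f v) {z : K} (hz : L.v z < 1) :
    L.v (hv (fun i => (f i : K)) 1 z) = 1 ∨ L.v (qv ((v.1 : K), (v.2.1 : K), (v.2.2 : K)) 1 z) = 1 := by
  have hone : L.v (1 : K) ≤ 1 := (v_one L).le
  -- one of the leading coefficients is prime to `p`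
  have hlead : ¬ (p : ℤ) ∣ f (Fin.last m) ∨ ¬ (p : ℤ) ∣ v.1 := by
    by_contra hcon
    push Not at hcon
    apply hR
    have h0 : Rs (cN p f) (cV p v) = 0 := by
      refine Rs_zero_of_root hm _ _ 1 0 (fun h => one_ne_zero h.1) ?_ ?_
      · rw [hv_inf]
        exact (ZMod.intCast_zmod_eq_zero_iff_dvd _ _).2 hcon.1
      · unfold qv cV
        have := (ZMod.intCast_zmod_eq_zero_iff_dvd v.1 p).2 hcon.2
        simp [this]
    rw [← Rs_cast] at h0
    exact (ZMod.intCast_zmod_eq_zero_iff_dvd _ _).1 h0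
  rcases hlead with h | h
  · left
    have e : hv (fun i => (f i : K)) 1 z = (f (Fin.last m) : K) +
        z * ∑ i ∈ (univ : Finset (Fin (m + 1))).erase (Fin.last m), (f i : K) * z ^ (m - (i : ℕ) - 1) := by
      unfold hv
      rw [← Finset.add_sum_erase _ _ (Finset.mem_univ (Fin.last m)), Finset.mul_sum]
      congr 1
      · simp
      · refine Finset.sum_congr rfl fun i hi => ?_
        have hi' : (i : ℕ) < m := by
          have h1 : (i : ℕ) ≠ m := fun h => (Finset.mem_erase.1 hi).1 (Fin.ext (by simpa using h))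
          omega
        obtain ⟨k, hk⟩ : ∃ k, m - (i : ℕ) = k + 1 := ⟨m - (i : ℕ) - 1, by omega⟩
        rw [hk, Nat.add_sub_cancel, one_pow, mul_one, pow_succ]
        ring
    have h1 := v_int L h
    rw [e]
    rw [v_eq_of_close L (y := (f (Fin.last m) : K)), h1]
    rw [add_sub_cancel_left, h1]
    refine LV_mul_lt L hz (LV_sum_le L _ _ 1 zero_le_one fun i _ => LV_mul_le L (v_int_le L _) (LV_pow_le L hz.le _))
  · right
    have h1 := v_int L h
    rw [v_eq_of_close L (y := (v.1 : K)), h1]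
    rw [h1]
    have e : qv ((v.1 : K), (v.2.1 : K), (v.2.2 : K)) 1 z - (v.1 : K) = z * ((v.2.1 : K) + (v.2.2 : K) * z) := by
      unfold qv
      ring
    rw [e]
    exact LV_mul_lt L hz ((L.add _ _).trans (max_le (v_int_le L _) (LV_mul_le L (v_int_le L _) hz.le)))

/-- One of the two values is a unit (up to the scaling). -/
theorem LV_unit (L : LVal p K) {m : ℕ} (hm : 1 ≤ m) (f : Vn m) (v : V) (hR : ¬ (p : ℤ) ∣ Rs f v) {x z : K}
    (hne : ¬ (x = 0 ∧ z = 0)) : ∃ lam : K, lam ≠ 0 ∧ L.v x ≤ L.v lam ∧ L.v z ≤ L.v lam ∧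
      (L.v (hv (fun i => (f i : K)) x z) = L.v lam ^ m ∨ L.v (qv ((v.1 : K), (v.2.1 : K), (v.2.2 : K)) x z) = L.v lam ^ 2) := by
  rcases le_or_gt (L.v x) (L.v z) with h | h
  · have hz : z ≠ 0 := by
      intro h0
      rw [h0, (L.zero_iff 0).2 rfl] at h
      exact hne ⟨(L.zero_iff _).1 (le_antisymm h (L.nonneg _)), h0⟩
    have hz0 : 0 < L.v z := lt_of_le_of_ne (L.nonneg z) fun h => hz ((L.zero_iff z).1 h.symm)
    refine ⟨z, hz, h, le_rfl, ?_⟩
    have hx : L.v (x / z) ≤ 1 := by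
      rw [v_div]
      exact (div_le_one hz0).2 h
    have e1 : x = z * (x / z) := by field_simp
    have e2 : z = z * 1 := (mul_one z).symm
    have k1 : hv (fun i => (f i : K)) x z = z ^ m * hv (fun i => (f i : K)) (x / z) 1 := by
      rw [← hv_smul, ← e1, ← e2]
    have k2 : qv ((v.1 : K), (v.2.1 : K), (v.2.2 : K)) x z = z ^ 2 * qv ((v.1 : K), (v.2.1 : K), (v.2.2 : K)) (x / z) 1 := by
      rw [← qv_smul, ← e1, ← e2]
    rcases LV_aff L f v hR hx with h1 | h1
    · left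
      rw [k1, L.mul, h1, mul_one, v_pow]
    · right
      rw [k2, L.mul, h1, mul_one, v_pow]
  · have hx : x ≠ 0 := by
      intro h0
      rw [h0, (L.zero_iff 0).2 rfl] at h
      exact absurd h (not_lt.2 (L.nonneg z))
    have hx0 : 0 < L.v x := lt_of_le_of_ne (L.nonneg x) fun h => hx ((L.zero_iff x).1 h.symm)
    refine ⟨x, hx, le_rfl, h.le, ?_⟩
    have hz : L.v (z / x) < 1 := by
      rw [v_div]
      exact (div_lt_one hx0).2 h
    have e1 : z = x * (z / x) := by field_simp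
    have e2 : x = x * 1 := (mul_one x).symm
    have k1 : hv (fun i => (f i : K)) x z = x ^ m * hv (fun i => (f i : K)) 1 (z / x) := by
      rw [← hv_smul, ← e1, ← e2]
    have k2 : qv ((v.1 : K), (v.2.1 : K), (v.2.2 : K)) x z = x ^ 2 * qv ((v.1 : K), (v.2.1 : K), (v.2.2 : K)) 1 (z / x) := by
      rw [← qv_smul, ← e1, ← e2]
    rcases LV_inf L hm f v hR hz with h1 | h1
    · left
      rw [k1, L.mul, h1, mul_one, v_pow]
    · right
      rw [k2, L.mul, h1, mul_one, v_pow]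

end

end HNF
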