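import Pool.Agent.Lib.MP_1ad228_ntH.FDefs
import Pool.Agent.Lib.MP_10e784_agF.LM

/-! JOB PD -/

set_option autoImplicit false

open Classical

namespace HNF

open Finset Polynomial FGO FQQ

theorem PD_one {H p : ℕ} (hp0 : 0 < p) (hH : 0 < H) (hp : p ≤ 4 * H) (a : ZMod p) :
    (((Icc (-(H : ℤ)) (H : ℤ)).filter fun x : ℤ => (x : ZMod p) = a).card : ℝ) ≤ 8 * (H : ℝ) / (p : ℝ) := by
  obtain ⟨v, rfl⟩ := ZMod.intCast_surjective a
  have hp1 : (0 : ℤ) < (p : ℤ) := by exact_mod_cast hp0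
  have h2 := Int.Ico_filter_modEq_card (-(H : ℤ)) ((H : ℤ) + 1) hp1 v
  have h3 : (Icc (-(H : ℤ)) (H : ℤ)).filter (fun x : ℤ => (x : ZMod p) = (v : ZMod p)) =
      (Ico (-(H : ℤ)) ((H : ℤ) + 1)).filter fun x => x ≡ v [ZMOD p] := by
    ext x
    rw [mem_filter, mem_filter, mem_Icc, mem_Ico, Int.lt_add_one_iff, ZMod.intCast_eq_intCast_iff]
  rw [h3]
  have hpR : (0 : ℝ) < (p : ℝ) := by exact_mod_cast hp0
  have hpQ : (0 : ℚ) < (p : ℚ) := by exact_mod_cast hp0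
  have hHQ : (1 : ℚ) ≤ (H : ℚ) := by exact_mod_cast hH
  have hpH : (p : ℚ) ≤ 4 * (H : ℚ) := by exact_mod_cast hp
  obtain ⟨n, hn⟩ : ∃ n : ℕ, n = ((Ico (-(H : ℤ)) ((H : ℤ) + 1)).filter fun x => x ≡ v [ZMOD p]).card := ⟨_, rfl⟩
  rw [← hn] at h2 ⊢
  have h4 : (n : ℚ) ≤ 8 * (H : ℚ) / (p : ℚ) := by
    have h5 : ((n : ℤ) : ℚ) ≤ 8 * (H : ℚ) / (p : ℚ) := by
      rw [h2]
      push_cast
      refine max_le ?_ (by positivity)
      have c1 := Int.ceil_lt_add_one ((((H : ℤ) + 1 : ℤ) - (v : ℤ) : ℚ) / ((p : ℤ) : ℚ))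
      have c2 := Int.le_ceil (((-(H : ℤ) : ℤ) - (v : ℤ) : ℚ) / ((p : ℤ) : ℚ))
      push_cast at c1 c2 ⊢
      have e1 : ((H : ℚ) + 1 - v) / p - (-(H : ℚ) - v) / p + 1 = (2 * H + 1 + p) / p := by
        field_simp
        ring
      have e2 : (2 * (H : ℚ) + 1 + p) / p ≤ 8 * (H : ℚ) / (p : ℚ) :=
        div_le_div_of_nonneg_right (by linarith) hpQ.le
      linarith
    exact_mod_cast h5
  have h6 : ((n : ℚ) : ℝ) ≤ ((8 * (H : ℚ) / (p : ℚ) : ℚ) : ℝ) := by exact_mod_cast h4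
  push_cast at h6
  exact h6

/-- (mean value over the vector only) Proof. Each class of vectors modulo `p` has at most `(2 H / p + 1)^(m+1)` elements in `boxN m H` (real division; one coordinate: at most `2 H / p + 1` integers of `[-H, H]` in a residue class), and `(2 H / p + 1) p = 2 H + p ≤ 6 H ≤ 8 H`. -/
theorem boxc_mean {m H p : ℕ} [NeZero p] (hH : 0 < H) (hp : p ≤ 4 * H) (φ : (Fin (m + 1) → ZMod p) → ℝ) (h0 : ∀ c, 0 ≤ φ c) :
    ∑ c ∈ boxN m H, φ (cN p c) ≤ (8 * (H : ℝ)) ^ (m + 1) * mF m p φ := by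
  have hp0 : 0 < p := Nat.pos_of_ne_zero (NeZero.ne p)
  have hpR : (0 : ℝ) < (p : ℝ) := by exact_mod_cast hp0
  have h1 : ∀ f : Fin (m + 1) → ZMod p, ((boxN m H).filter fun c => cN p c = f) =
      Fintype.piFinset fun i => (Icc (-(H : ℤ)) (H : ℤ)).filter fun x : ℤ => (x : ZMod p) = f i := by
    intro f
    ext c
    rw [mem_filter, boxN, Fintype.mem_piFinset, Fintype.mem_piFinset]
    constructor
    · rintro ⟨h2, h3⟩ i
      rw [mem_filter]
      exact ⟨h2 i, congrFun h3 i⟩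
    · intro h2
      refine ⟨fun i => (mem_filter.1 (h2 i)).1, ?_⟩
      funext i
      exact (mem_filter.1 (h2 i)).2
  have h2 : ∀ f : Fin (m + 1) → ZMod p, (((boxN m H).filter fun c => cN p c = f).card : ℝ) ≤
      (8 * (H : ℝ) / (p : ℝ)) ^ (m + 1) := by
    intro f
    rw [h1 f, Fintype.card_piFinset, Nat.cast_prod]
    have h3 : (8 * (H : ℝ) / (p : ℝ)) ^ (m + 1) = ∏ _i : Fin (m + 1), (8 * (H : ℝ) / (p : ℝ)) := by
      rw [prod_const, card_univ, Fintype.card_fin]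
    rw [h3]
    exact Finset.prod_le_prod (fun i _ => Nat.cast_nonneg _) fun i _ => PD_one hp0 hH hp (f i)
  rw [← Finset.sum_fiberwise (boxN m H) (fun c => cN p c) (fun c => φ (cN p c))]
  have h3 : ∀ f : Fin (m + 1) → ZMod p, ∑ c ∈ (boxN m H).filter (fun c => cN p c = f), φ (cN p c) ≤
      (8 * (H : ℝ) / (p : ℝ)) ^ (m + 1) * φ f := by
    intro f
    have h4 : ∑ c ∈ (boxN m H).filter (fun c => cN p c = f), φ (cN p c) =
        ∑ c ∈ (boxN m H).filter (fun c => cN p c = f), φ f :=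
      Finset.sum_congr rfl fun c hc => by rw [(mem_filter.1 hc).2]
    rw [h4, sum_const, nsmul_eq_mul]
    exact mul_le_mul_of_nonneg_right (h2 f) (h0 f)
  refine (Finset.sum_le_sum fun f _ => h3 f).trans (le_of_eq ?_)
  rw [← Finset.mul_sum]
  unfold mF
  rw [div_pow]
  ring

end HNF
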