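import Pool.Agent.Lib.MP_1ad228_ntH.HC1
import Pool.Agent.Lib.MP_10e784_agF.LF
import Pool.Agent.Lib.MP_10e784_agF.LE

/-! JOB HC2 -/

set_option autoImplicit false

open Classical

namespace HNF

open Finset Polynomial FGO FQQ

theorem HC2_zeros (p : ℕ) [Fact p.Prime] (v : ZMod p × ZMod p × ZMod p) (hv0 : v ≠ 0) :
    ((univ : Finset (Option (ZMod p))).filter fun P => qv v (pt P).1 (pt P).2 = 0).card ≤ 2 := by
  have hP0 : Pq v ≠ 0 := by
    intro h
    apply hv0
    have h0 : (Pq v).coeff 0 = v.2.2 := by unfold Pq; simp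
    have h1 : (Pq v).coeff 1 = v.2.1 := by unfold Pq; simp
    have h2 : (Pq v).coeff 2 = v.1 := by unfold Pq; simp
    rw [h, coeff_zero] at h0 h1 h2
    exact Prod.ext h2.symm (Prod.ext h1.symm h0.symm)
  have hsome : ∀ x : ZMod p, qv v (pt (some x)).1 (pt (some x)).2 = 0 → x ∈ (Pq v).roots.toFinset := by
    intro x hx
    rw [Multiset.mem_toFinset, mem_roots hP0, IsRoot.def, eval_Pq]
    exact hx
  have hnone : qv v (pt (none : Option (ZMod p))).1 (pt (none : Option (ZMod p))).2 = v.1 := by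
    unfold qv
    simp [pt]
  have hc1 : (Pq v).roots.toFinset.card ≤ (Pq v).natDegree :=
    (Multiset.toFinset_card_le _).trans (card_roots' _)
  by_cases hv : v.1 = 0
  · have hsub : ((univ : Finset (Option (ZMod p))).filter fun P => qv v (pt P).1 (pt P).2 = 0) ⊆
        insert none ((Pq v).roots.toFinset.image some) := by
      intro P hP
      rw [mem_filter] at hP
      cases P with
      | none => exact mem_insert_self _ _
      | some x => exact mem_insert_of_mem (mem_image_of_mem _ (hsome x hP.2))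
    have hd : (Pq v).natDegree ≤ 1 := by
      unfold Pq
      rw [hv, C_0, zero_mul, zero_add]
      exact natDegree_linear_le
    refine (card_le_card hsub).trans ((card_insert_le _ _).trans ?_)
    have h3 : ((Pq v).roots.toFinset.image some).card ≤ (Pq v).roots.toFinset.card := card_image_le
    omega
  · have hsub : ((univ : Finset (Option (ZMod p))).filter fun P => qv v (pt P).1 (pt P).2 = 0) ⊆
        (Pq v).roots.toFinset.image some := by
      intro P hP
      rw [mem_filter] at hP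
      cases P with
      | none =>
        exfalso
        apply hv
        rw [← hnone]
        exact hP.2
      | some x => exact mem_image_of_mem _ (hsome x hP.2)
    have hd : (Pq v).natDegree ≤ 2 := by
      unfold Pq
      exact natDegree_quadratic_le
    refine (card_le_card hsub).trans ?_
    have h3 : ((Pq v).roots.toFinset.image some).card ≤ (Pq v).roots.toFinset.card := card_image_le
    omega

theorem HC2_ind_le_sum {ι : Type} (s : Finset ι) (A : Prop) (B : ι → Prop) (h : A → ∃ i ∈ s, B i) :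
    ind A ≤ ∑ i ∈ s, ind (B i) := by
  by_cases hA : A
  · obtain ⟨i, hi, hB⟩ := h hA
    have h1 : ind (B i) ≤ ∑ i ∈ s, ind (B i) := Finset.single_le_sum (fun i _ => ind_nonneg (B i)) hi
    exact (ind_mono fun _ => hB).trans h1
  · have h1 : ind A = 0 := by
      unfold ind
      rw [if_neg hA]
    rw [h1]
    exact Finset.sum_nonneg fun i _ => ind_nonneg (B i)

theorem HC2_ind_or (P Q : Prop) : ind (P ∨ Q) ≤ ind P + ind Q := BA_ind_or fun h => h

theorem HC2_ind_and (P Q : Prop) : ind (P ∧ Q) = ind P * ind Q := BA_ind_mul P Q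

/-- Proof. `Rs_zero` (file RD, `m = 2 g ≥ 1`): `R = 0` gives a common zero `(x, z)` of `h` and `v`, or `v = 0` (excluded), or `Pq v ∣ Pf h`. If `v` has no zero in `P¹(F_p)` the first case does not occur: `mF_irr`. Otherwise: if `R = 0` then `h` vanishes at one of the at most two
zeros of `v` in `P¹(F_p)` (in the third case: if `v` has a zero `(x, 1)` then `Pf h` vanishes there; `v.1 ≠ 0` in the third case, so all zeros have `z ≠ 0`): at most `2 · 3/p` (representatives `pt` of the projective line, `zeros of v ≤ 2`: see the files LE, LP of FQQ). `3/p² ≤ 6/p`. -/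
theorem mF_Rg {g : ℕ} (hg : 1 ≤ g) (p : ℕ) [Fact p.Prime] (v w : ZMod p × ZMod p × ZMod p) (hv0 : v ≠ 0) (hw0 : w ≠ 0) :
    mF (2 * g + 1) p (fun c => ind (Rg (gA c) (gB c) v w = 0)) ≤ 6 / (p : ℝ) := by
  have hp0 := BA_pos p
  have hp1 : (1 : ℝ) ≤ p := by exact_mod_cast (Fact.out : p.Prime).one_le
  by_cases hz : ∃ x z : ZMod p, ¬ (x = 0 ∧ z = 0) ∧ qv v x z = 0
  · obtain ⟨S, hS⟩ : ∃ S : Finset (Option (ZMod p)), S =
        (univ : Finset (Option (ZMod p))).filter fun P => qv v (pt P).1 (pt P).2 = 0 := ⟨_, rfl⟩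
    have hSm : ∀ P : Option (ZMod p), qv v (pt P).1 (pt P).2 = 0 → P ∈ S := by
      intro P hP
      rw [hS, mem_filter]
      exact ⟨mem_univ _, hP⟩
    have hSc : (S.card : ℝ) ≤ 2 := by
      rw [hS]
      exact_mod_cast HC2_zeros p v hv0
    have hpt : ∃ P : Option (ZMod p), qv v (pt P).1 (pt P).2 = 0 := by
      obtain ⟨x, z, hxz, hq⟩ := hz
      obtain ⟨P, c, hc, hx, hz⟩ := pt_cover x z hxz
      refine ⟨P, ?_⟩
      rw [hx, hz, qv_smul] at hq
      exact (mul_eq_zero.mp hq).resolve_left (pow_ne_zero _ hc)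
    have hle : ∀ c : Fin (2 * g + 1 + 1) → ZMod p, ind (Rg (gA c) (gB c) v w = 0) ≤
        ∑ P ∈ S, ind (hv (hw w (gA c) (gB c)) (pt P).1 (pt P).2 = 0) := by
      intro c
      refine HC2_ind_le_sum _ _ _ fun h => ?_
      rcases Rs_zero (by omega : 1 ≤ 2 * g) (hw w (gA c) (gB c)) v h with ⟨x, z, hxz, hh, hq⟩ | h5 | ⟨h5, h6⟩
      · obtain ⟨P, d, hd, hx, hz⟩ := pt_cover x z hxz
        refine ⟨P, hSm P ?_, ?_⟩
        · rw [hx, hz, qv_smul] at hq
          exact (mul_eq_zero.mp hq).resolve_left (pow_ne_zero _ hd)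
        · rw [hx, hz, hv_smul] at hh
          exact (mul_eq_zero.mp hh).resolve_left (pow_ne_zero _ hd)
      · exact absurd h5 hv0
      · obtain ⟨P, hP⟩ := hpt
        refine ⟨P, hSm P hP, ?_⟩
        cases P with
        | none =>
          exfalso
          apply h5
          have hn : qv v (pt (none : Option (ZMod p))).1 (pt (none : Option (ZMod p))).2 = v.1 := by
            unfold qv
            simp [pt]
          rw [← hn]
          exact hP
        | some x =>
          have h7 : (Pq v).eval x = 0 := by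
            rw [eval_Pq]
            exact hP
          have h8 : (Pf (hw w (gA c) (gB c))).eval x = 0 := by
            obtain ⟨k, hk⟩ := h6
            rw [hk, eval_mul, h7, zero_mul]
          rw [eval_Pf] at h8
          exact h8
    refine (mF_mono _ p _ _ hle).trans ?_
    rw [mF_sum]
    have h3 : ∀ P ∈ S, mF (2 * g + 1) p (fun c => ind (hv (hw w (gA c) (gB c)) (pt P).1 (pt P).2 = 0)) ≤ 3 / (p : ℝ) :=
      fun P _ => mF_hz hg p w hw0 _ _ (pt_ne P)
    refine (sum_le_sum h3).trans ?_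
    rw [sum_const, nsmul_eq_mul]
    have h4 : 0 ≤ 3 / (p : ℝ) := by positivity
    calc (S.card : ℝ) * (3 / (p : ℝ)) ≤ 2 * (3 / (p : ℝ)) := mul_le_mul_of_nonneg_right hSc h4
      _ = 6 / (p : ℝ) := by ring
  · have hz' : ∀ x z : ZMod p, ¬ (x = 0 ∧ z = 0) → qv v x z ≠ 0 := fun x z h1 h2 => hz ⟨x, z, h1, h2⟩
    have hle : ∀ c : Fin (2 * g + 1 + 1) → ZMod p, ind (Rg (gA c) (gB c) v w = 0) ≤
        ind (Pq v ∣ Pf (hw w (gA c) (gB c))) := by
      intro c
      apply ind_mono
      intro h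
      rcases Rs_zero (by omega : 1 ≤ 2 * g) (hw w (gA c) (gB c)) v h with ⟨x, z, hxz, _, hq⟩ | h5 | h5
      · exact absurd hq (hz' x z hxz)
      · exact absurd h5 hv0
      · exact h5.2
    refine (mF_mono _ p _ _ hle).trans ((mF_irr hg p v w hw0 hz').trans ?_)
    rw [div_le_div_iff₀ (by positivity) (by positivity)]
    nlinarith

/-- the exceptional event at `p` -/
def Xe {F : Type} [CommRing F] {g : ℕ} (c : Fin (2 * g + 1 + 1) → F) (v w : F × F × F) : Prop :=
  (Rg (gA c) (gB c) v w = 0 ∧ (v.1 = 0 ∨ w.1 = 0 ∨ ds v = 0 ∨ ds w = 0)) ∨ (ds v = 0 ∧ v.1 = 0) ∨ (ds w = 0 ∧ w.1 = 0)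

/-- Proof. `ind (Xe) ≤ ind (v = 0) + ind (w = 0) + ∑ ind (v ≠ 0, w ≠ 0, Rg = 0, E_i) + ind (ds v = 0 ∧ v.1 = 0) + ..` for the four events `E_i` (`v.1 = 0`, `w.1 = 0`, `ds v = 0`, `ds w = 0`), each of mean value `1/p` (`mQ` of `v.1 = 0`; `mQ_disc`), and for fixed `(v, w)`
the mean value over `c` is `≤ 6/p` (`mF_Rg`): `≤ 2/p³ + 4 · 6/p² + 2/p²` (`ds v = 0`, `v.1 = 0` forces `v.2.1 = 0`: mean value `1/p²`). Total `≤ 28/p²`. -/
theorem Av_Xe {g : ℕ} (hg : 1 ≤ g) (p : ℕ) [Fact p.Prime] (h2 : p ≠ 2) :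
    Av (2 * g + 1) p (fun c v w => ind (Xe c v w)) ≤ 28 / (p : ℝ) ^ 2 := by
  have hp0 := BA_pos p
  have hp1 : (1 : ℝ) ≤ p := by exact_mod_cast (Fact.out : p.Prime).one_le
  have h60 : 0 ≤ 6 / (p : ℝ) := by positivity
  have hmain : ∀ v w : ZMod p × ZMod p × ZMod p, mF (2 * g + 1) p (fun c => ind (Xe c v w)) ≤
      ind (v = 0) + ind (w = 0) + (6 / (p : ℝ)) * (ind (v.1 = 0) + ind (w.1 = 0) + ind (ds v = 0) + ind (ds w = 0)) +
        (ind (ds v = 0 ∧ v.1 = 0) + ind (ds w = 0 ∧ w.1 = 0)) := by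
    intro v w
    have n1 := ind_nonneg (v = 0)
    have n2 := ind_nonneg (w = 0)
    have n3 := ind_nonneg (v.1 = 0)
    have n4 := ind_nonneg (w.1 = 0)
    have n5 := ind_nonneg (ds v = 0)
    have n6 := ind_nonneg (ds w = 0)
    have n7 := ind_nonneg (ds v = 0 ∧ v.1 = 0)
    have n8 := ind_nonneg (ds w = 0 ∧ w.1 = 0)
    have n9 : 0 ≤ (6 / (p : ℝ)) * (ind (v.1 = 0) + ind (w.1 = 0) + ind (ds v = 0) + ind (ds w = 0)) :=
      mul_nonneg h60 (by linarith)
    have hone : mF (2 * g + 1) p (fun c => ind (Xe c v w)) ≤ 1 := by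
      refine (mF_mono _ p _ (fun _ => 1) fun c => ind_le_one _).trans (le_of_eq (mF_const _ p 1))
    by_cases hv : v = 0
    · have h1 : ind (v = 0) = 1 := by unfold ind; rw [if_pos hv]
      linarith
    by_cases hw : w = 0
    · have h1 : ind (w = 0) = 1 := by unfold ind; rw [if_pos hw]
      linarith
    have hle : ∀ c : Fin (2 * g + 1 + 1) → ZMod p, ind (Xe c v w) ≤
        (ind (v.1 = 0) + ind (w.1 = 0) + ind (ds v = 0) + ind (ds w = 0)) * ind (Rg (gA c) (gB c) v w = 0) +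
          (ind (ds v = 0 ∧ v.1 = 0) + ind (ds w = 0 ∧ w.1 = 0)) := by
      intro c
      unfold Xe
      refine (HC2_ind_or _ _).trans ?_
      refine add_le_add ?_ (HC2_ind_or _ _)
      rw [HC2_ind_and, mul_comm]
      refine mul_le_mul_of_nonneg_right ?_ (ind_nonneg _)
      refine (HC2_ind_or _ _).trans ?_
      have h1 := HC2_ind_or (w.1 = 0) (ds v = 0 ∨ ds w = 0)
      have h2 := HC2_ind_or (ds v = 0) (ds w = 0)
      linarith
    have h2 := mF_mono (2 * g + 1) p _ _ hle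
    rw [mF_add, mF_const, mF_smul] at h2
    have h3 := mF_Rg hg p v w hv hw
    have h4 : (ind (v.1 = 0) + ind (w.1 = 0) + ind (ds v = 0) + ind (ds w = 0)) *
        mF (2 * g + 1) p (fun c => ind (Rg (gA c) (gB c) v w = 0)) ≤
        (ind (v.1 = 0) + ind (w.1 = 0) + ind (ds v = 0) + ind (ds w = 0)) * (6 / (p : ℝ)) :=
      mul_le_mul_of_nonneg_left h3 (by linarith)
    rw [mul_comm _ (6 / (p : ℝ))] at h4
    linarith
  have e0 : mQ p (fun v => ind (v = 0)) = 1 / (p : ℝ) ^ 3 := mQ_zero p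
  have e1 : mQ p (fun v => ind (v.1 = 0)) = 1 / (p : ℝ) := by
    have h := mQ_lead_root p none
    rw [if_pos rfl] at h
    rw [← h]
    refine congrArg (mQ p) (funext fun v => ?_)
    have hn : qv v (pt (none : Option (ZMod p))).1 (pt (none : Option (ZMod p))).2 = v.1 := by
      unfold qv
      simp [pt]
    rw [hn, and_self_iff]
  have e2 : mQ p (fun v => ind (ds v = 0)) = 1 / (p : ℝ) := mQ_disc p h2
  have e3 : mQ p (fun v => ind (ds v = 0 ∧ v.1 = 0)) = 1 / (p : ℝ) ^ 2 := by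
    rw [← mQ_disc_root p h2 none]
    refine congrArg (mQ p) (funext fun v => ?_)
    have hn : qv v (pt (none : Option (ZMod p))).1 (pt (none : Option (ZMod p))).2 = v.1 := by
      unfold qv
      simp [pt]
    rw [hn]
  have hA : Av (2 * g + 1) p (fun c v w => ind (Xe c v w)) ≤
      mQ p (fun v => mQ p (fun w => ind (v = 0) + ind (w = 0) +
        (6 / (p : ℝ)) * (ind (v.1 = 0) + ind (w.1 = 0) + ind (ds v = 0) + ind (ds w = 0)) +
        (ind (ds v = 0 ∧ v.1 = 0) + ind (ds w = 0 ∧ w.1 = 0)))) := by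
    unfold Av
    exact mQ_mono p _ _ fun v => mQ_mono p _ _ fun w => hmain v w
  refine hA.trans ?_
  simp only [mQ_add, mQ_smul, mQ_const, e0, e1, e2, e3]
  have h3 : 1 / (p : ℝ) ^ 3 ≤ 1 / (p : ℝ) ^ 2 :=
    one_div_le_one_div_of_le (by positivity) (pow_le_pow_right₀ hp1 (by norm_num))
  have h4 : 6 / (p : ℝ) * (1 / (p : ℝ) + 1 / (p : ℝ) + 1 / (p : ℝ) + 1 / (p : ℝ)) = 24 * (1 / (p : ℝ) ^ 2) := by
    field_simp
    ring
  have h5 : 28 / (p : ℝ) ^ 2 = 28 * (1 / (p : ℝ) ^ 2) := by ring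
  rw [h4, h5]
  linarith

end HNF
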