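import Pool.Agent.Lib.MP_1ad228_ntH.FDefs
import Pool.Agent.Lib.MP_10e784_agF.KN1

/-! JOB HK1 -/

set_option autoImplicit false

open Classical

namespace HNF

open Finset Polynomial FGO FQQ

/-- a set of vectors in the box which are determined by all their coordinates but one -/
private theorem HK1_det {g H : ℕ} (i0 : Fin (g + 1)) (S : Finset (Vn g)) (hS : S ⊆ boxN g H)
    (h : ∀ B ∈ S, ∀ B' ∈ S, (∀ i, i ≠ i0 → B i = B' i) → B = B') : S.card ≤ (2 * H + 1) ^ g := by
  have hcard : (Fintype.piFinset fun _ : Fin g => Icc (-(H : ℤ)) (H : ℤ)).card = (2 * H + 1) ^ g := by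
    rw [Fintype.card_piFinset_const, Int.card_Icc]
    refine congrArg₂ _ ?_ rfl
    omega
  rw [← hcard]
  refine Finset.card_le_card_of_injOn (fun B j => B (i0.succAbove j)) ?_ ?_
  · intro B hB
    have h1 := mem_boxN.1 (hS hB)
    rw [Finset.mem_coe, Fintype.mem_piFinset]
    intro j
    rw [Finset.mem_Icc, ← abs_le]
    exact h1 _
  · intro B hB B' hB' he
    refine h B hB B' hB' fun i hi => ?_
    obtain ⟨j, rfl⟩ := Fin.exists_succAbove_eq hi
    exact congrFun he j

/-- the value in terms of a polynomial over the rational numbers -/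
private theorem HK1_eval {K : Type} [Field K] [CharZero K] {g : ℕ} (A : Vn g) (t : K) :
    Polynomial.aeval t (∑ i : Fin (g + 1), Polynomial.C (A i : ℚ) * Polynomial.X ^ (i : ℕ)) = ∑ i : Fin (g + 1), (A i : K) * t ^ (i : ℕ) := by
  rw [map_sum]
  refine Finset.sum_congr rfl fun i _ => ?_
  rw [map_mul, map_pow, Polynomial.aeval_X, Polynomial.aeval_C]
  simp

private theorem HK1_vG {K : Type} [Field K] {g : ℕ} (A : Vn g) (x z : K) (hz : z ≠ 0) :
    vG A x z = z ^ g * ∑ i : Fin (g + 1), (A i : K) * (x / z) ^ (i : ℕ) := by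
  rw [vG, Finset.mul_sum]
  refine Finset.sum_congr rfl fun i _ => ?_
  have hi : (i : ℕ) ≤ g := Nat.lt_succ_iff.1 i.2
  have h1 : z ^ g = z ^ (i : ℕ) * z ^ (g - (i : ℕ)) := by
    rw [← pow_add]
    congr 1
    omega
  rw [h1, div_pow]
  field_simp

private theorem HK1_inf {K : Type} [Field K] [CharZero K] {g : ℕ} (A : Vn g) (x : K) (hx : x ≠ 0) (h : vG A x 0 = 0) :
    A (Fin.last g) = 0 := by
  rw [vG, Finset.sum_eq_single (Fin.last g)] at h
  · rw [Fin.val_last, Nat.sub_self, pow_zero, mul_one] at h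
    rcases mul_eq_zero.1 h with h | h
    · exact_mod_cast h
    · exact absurd h (pow_ne_zero _ hx)
  · intro i _ hi
    have hi' : (i : ℕ) < g := by
      rcases Nat.lt_or_ge (i : ℕ) g with h1 | h1
      · exact h1
      · exact absurd (Fin.ext (by rw [Fin.val_last]; omega)) hi
    rw [zero_pow (by omega), mul_zero]
  · intro h1
    exact absurd (Finset.mem_univ _) h1

/-- the pairs with a common zero -/
private theorem HK1_pair {g : ℕ} (A B : Vn g) (hA : A ≠ 0) (h : ¬ NoCz A B) :
    (∃ r : AlgebraicClosure ℚ, r ∈ ((∑ i : Fin (g + 1), Polynomial.C (A i : ℚ) * Polynomial.X ^ (i : ℕ) : ℚ[X]).aroots (AlgebraicClosure ℚ)).toFinset ∧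
      ∑ i : Fin (g + 1), (B i : AlgebraicClosure ℚ) * r ^ (i : ℕ) = 0) ∨ B (Fin.last g) = 0 := by
  set PA : ℚ[X] := ∑ i : Fin (g + 1), Polynomial.C (A i : ℚ) * Polynomial.X ^ (i : ℕ) with hPA
  set PB : ℚ[X] := ∑ i : Fin (g + 1), Polynomial.C (B i : ℚ) * Polynomial.X ^ (i : ℕ) with hPB
  have hPA0 : PA ≠ 0 := by
    intro h0
    apply hA
    funext i
    have h1 := congrArg (fun P : ℚ[X] => P.coeff (i : ℕ)) h0
    rw [hPA] at h1
    simp only [Polynomial.finsetSum_coeff, Polynomial.coeff_C_mul, Polynomial.coeff_X_pow, Polynomial.coeff_zero] at h1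
    rw [Finset.sum_eq_single i] at h1
    · rw [if_pos rfl, mul_one] at h1
      exact_mod_cast h1
    · intro j _ hj
      rw [if_neg fun h2 => hj (Fin.ext h2.symm), mul_zero]
    · intro h2
      exact absurd (Finset.mem_univ _) h2
  simp only [NoCz, not_forall, not_not] at h
  obtain ⟨K, hK1, hK2, x, z, hne, hxA, hxB⟩ := h
  rcases eq_or_ne z 0 with rfl | hz
  · right
    exact HK1_inf B x (fun hx => hne ⟨hx, rfl⟩) hxB
  · left
    rw [HK1_vG A x z hz, mul_eq_zero, or_iff_right (pow_ne_zero _ hz), ← HK1_eval A (x / z), ← hPA] at hxA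
    rw [HK1_vG B x z hz, mul_eq_zero, or_iff_right (pow_ne_zero _ hz), ← HK1_eval B (x / z), ← hPB] at hxB
    have hG : (Polynomial.aeval (x / z)) (EuclideanDomain.gcd PA PB) = 0 := by
      rw [EuclideanDomain.gcd_eq_gcd_ab, map_add, map_mul, map_mul, hxA, hxB, zero_mul, zero_mul, add_zero]
    have hG0 : EuclideanDomain.gcd PA PB ≠ 0 := by
      intro h0
      exact hPA0 (EuclideanDomain.gcd_eq_zero_iff.1 h0).1
    have hdeg : (EuclideanDomain.gcd PA PB).degree ≠ 0 := by
      intro hd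
      rw [Polynomial.eq_C_of_degree_eq_zero hd, Polynomial.aeval_C] at hG
      have h1 : (EuclideanDomain.gcd PA PB).coeff 0 = 0 := by
        have h2 := (algebraMap ℚ K).injective
        exact (map_eq_zero_iff _ h2).1 hG
      apply hG0
      rw [Polynomial.eq_C_of_degree_eq_zero hd, h1, Polynomial.C_0]
    obtain ⟨r, hr⟩ := IsAlgClosed.exists_aeval_eq_zero (AlgebraicClosure ℚ) _ hdeg
    refine ⟨r, ?_, ?_⟩
    · rw [Multiset.mem_toFinset, Polynomial.mem_aroots]
      refine ⟨hPA0, ?_⟩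
      obtain ⟨Q, hQ⟩ := EuclideanDomain.gcd_dvd_left PA PB
      rw [hQ, map_mul, hr, zero_mul]
    · rw [← HK1_eval B r, ← hPB]
      obtain ⟨Q, hQ⟩ := EuclideanDomain.gcd_dvd_right PA PB
      rw [hQ, map_mul, hr, zero_mul]

/-- the number of `B` for a given `A` -/
private theorem HK1_fib {g H : ℕ} (A : Vn g) (hA : A ≠ 0) : ((boxN g H).filter fun B => ¬ NoCz A B).card ≤ (g + 1) * (2 * H + 1) ^ g := by
  set R := ((∑ i : Fin (g + 1), Polynomial.C (A i : ℚ) * Polynomial.X ^ (i : ℕ) : ℚ[X]).aroots (AlgebraicClosure ℚ)).toFinset with hR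
  have hRc : R.card ≤ g := by
    refine (Multiset.toFinset_card_le _).trans ?_
    refine (Polynomial.card_roots' _).trans ?_
    refine Polynomial.natDegree_map_le.trans ?_
    refine Polynomial.natDegree_sum_le_of_forall_le _ _ fun i _ => ?_
    exact (Polynomial.natDegree_C_mul_X_pow_le _ _).trans (Nat.lt_succ_iff.1 i.2)
  have hsub : ((boxN g H).filter fun B => ¬ NoCz A B) ⊆
      (R.biUnion fun r => (boxN g H).filter fun B => ∑ i : Fin (g + 1), (B i : AlgebraicClosure ℚ) * r ^ (i : ℕ) = 0) ∪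
        (boxN g H).filter fun B => B (Fin.last g) = 0 := by
    intro B hB
    rw [Finset.mem_filter] at hB
    rw [Finset.mem_union, Finset.mem_biUnion]
    rcases HK1_pair A B hA hB.2 with ⟨r, hr, h1⟩ | h1
    · left
      exact ⟨r, hr, Finset.mem_filter.2 ⟨hB.1, h1⟩⟩
    · right
      exact Finset.mem_filter.2 ⟨hB.1, h1⟩
  refine (Finset.card_le_card hsub).trans ((Finset.card_union_le _ _).trans ?_)
  have h1 : (R.biUnion fun r => (boxN g H).filter fun B => ∑ i : Fin (g + 1), (B i : AlgebraicClosure ℚ) * r ^ (i : ℕ) = 0).card ≤ R.card * (2 * H + 1) ^ g := by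
    refine Finset.card_biUnion_le_card_mul _ _ _ fun r _ => ?_
    refine HK1_det 0 _ (Finset.filter_subset _ _) fun B hB B' hB' he => ?_
    have e1 := (Finset.mem_filter.1 hB).2
    have e2 := (Finset.mem_filter.1 hB').2
    rw [Fin.sum_univ_succ] at e1 e2
    have e3 : ∑ i : Fin g, (B i.succ : AlgebraicClosure ℚ) * r ^ ((i.succ : Fin (g + 1)) : ℕ) = ∑ i : Fin g, (B' i.succ : AlgebraicClosure ℚ) * r ^ ((i.succ : Fin (g + 1)) : ℕ) :=
      Finset.sum_congr rfl fun i _ => by rw [he i.succ (Fin.succ_ne_zero i)]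
    rw [e3] at e1
    have e4 : (B 0 : AlgebraicClosure ℚ) = B' 0 := by
      have e5 := e1.trans e2.symm
      simpa using e5
    funext i
    rcases eq_or_ne i 0 with rfl | hi
    · exact_mod_cast e4
    · exact he i hi
  have h2 : ((boxN g H).filter fun B => B (Fin.last g) = 0).card ≤ (2 * H + 1) ^ g := by
    refine HK1_det (Fin.last g) _ (Finset.filter_subset _ _) fun B hB B' hB' he => ?_
    funext i
    rcases eq_or_ne i (Fin.last g) with rfl | hi
    · rw [(Finset.mem_filter.1 hB).2, (Finset.mem_filter.1 hB').2]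
    · exact he i hi
  calc _ ≤ R.card * (2 * H + 1) ^ g + (2 * H + 1) ^ g := Nat.add_le_add h1 h2
    _ = (R.card + 1) * (2 * H + 1) ^ g := by ring
    _ ≤ (g + 1) * (2 * H + 1) ^ g := Nat.mul_le_mul_right _ (Nat.succ_le_succ hRc)

/-- Proof. `A` has at most `g` zeros in the projective line over an algebraic closure `E` of `ℚ` unless `A = 0`. If `A`, `B` have a common zero `(x : z)` in some field `K ⊇ ℚ` then (Euclid) they have a common zero over `E`: if `z ≠ 0` the polynomials `Pf A`, `Pf B` (over `ℚ`)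
have the common root `x / z` in `K`, so they are not coprime (or both zero) and have a common root in `E`; if `z = 0` the leading coefficients `A g`, `B g` vanish and `(1 : 0)` is a common zero over `ℚ`. For a given zero `(x : z)` of `A` over `E` the number of `B` in the
box with `B(x, z) = 0` is at most `(2 H + 1)^g`: if `z ≠ 0` the coefficient `B 0` is determined by the others, if `z = 0` then `B g = 0`. So for each `A ≠ 0` at most `(g + 1) (2 H + 1)^g` forms `B`, and for `A = 0` at most `(2 H + 1)^(g+1)`: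
total `≤ (g + 2) (2 H + 1)^(2 g + 1)`. -/
theorem cz_card (g H : ℕ) (hg : 1 ≤ g) :
    (((boxN g H) ×ˢ (boxN g H)).filter fun s => ¬ NoCz s.1 s.2).card ≤ (g + 2) * (2 * H + 1) ^ (2 * g + 1) := by
  rw [Finset.card_filter, Finset.sum_product]
  have h1 : ∀ A ∈ boxN g H, (∑ B ∈ boxN g H, if ¬ NoCz A B then 1 else 0) ≤ (if A = 0 then (2 * H + 1) ^ (g + 1) else 0) + (g + 1) * (2 * H + 1) ^ g := by
    intro A _
    rw [← Finset.card_filter]
    split_ifs with hA
    · refine (Finset.card_filter_le _ _).trans ?_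
      rw [card_boxN]
      exact Nat.le_add_right _ _
    · rw [zero_add]
      exact HK1_fib A hA
  refine (Finset.sum_le_sum h1).trans ?_
  rw [Finset.sum_add_distrib, Finset.sum_const, card_boxN, smul_eq_mul]
  have h2 : (∑ A ∈ boxN g H, if A = 0 then (2 * H + 1) ^ (g + 1) else 0) ≤ (2 * H + 1) ^ (2 * g + 1) := by
    rw [Finset.sum_ite_eq']
    split_ifs
    · exact Nat.pow_le_pow_right (by omega) (by omega)
    · exact Nat.zero_le _
  calc _ ≤ (2 * H + 1) ^ (2 * g + 1) + (2 * H + 1) ^ (g + 1) * ((g + 1) * (2 * H + 1) ^ g) := Nat.add_le_add_right h2 _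
    _ = (g + 2) * (2 * H + 1) ^ (2 * g + 1) := by
        have e : (2 * H + 1) ^ (2 * g + 1) = (2 * H + 1) ^ (g + 1) * (2 * H + 1) ^ g := by
          rw [← pow_add]
          congr 1
          omega
        rw [e]
        ring

end HNF
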