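import Pool.Agent.Lib.MP_1ad228_ntH.HL2
import Pool.Agent.Lib.MP_1ad228_ntH.HK1

/-! JOB HN -/

set_option autoImplicit false

open Classical

namespace HNF

open Finset Polynomial FGO FQQ

/-- the vector of a curve -/
def cOf {g : ℕ} (q : Dt g) : Vn (2 * g + 1) :=
  fun n => if (eH (n : ℕ)).2 = 0 then ex q.2.1 (eH (n : ℕ)).1 else - ex q.2.2 (eH (n : ℕ)).1

private theorem HN_ex {F : Type} [Zero F] {m n : ℕ} (c : Fin (m + 1) → F) (h : n < m + 1) : ex c n = c ⟨n, h⟩ := by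
  unfold ex
  rw [dif_pos h]

private theorem HN_ex' {F : Type} [Zero F] {m : ℕ} (c : Fin (m + 1) → F) (i : Fin (m + 1)) (n : ℕ) (h : n = (i : ℕ)) : ex c n = c i := by
  subst h
  rw [HN_ex c i.2]

private theorem HN_eH_even {i : ℕ} (h : i ≠ 1) : eH (2 * i) = (i, 0) := by
  unfold eH
  rw [if_neg (by omega), if_neg (by omega)]
  refine Prod.ext ?_ ?_
  · show 2 * i / 2 = i
    omega
  · show 2 * i % 2 = 0
    omega

private theorem HN_eH_odd {i : ℕ} (h : i ≠ 0) : eH (2 * i + 1) = (i, 1) := by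
  unfold eH
  rw [if_neg (by omega), if_neg (by omega)]
  refine Prod.ext ?_ ?_
  · show (2 * i + 1) / 2 = i
    omega
  · show (2 * i + 1) % 2 = 1
    omega

private theorem HN_eH_1 : eH 1 = (1, 0) := by
  unfold eH
  rw [if_pos rfl]

private theorem HN_eH_2 : eH 2 = (0, 1) := by
  unfold eH
  rw [if_neg (by omega), if_pos rfl]

private theorem HN_cOf_0 {g : ℕ} (q : Dt g) (n : ℕ) (hn : n < 2 * g + 1 + 1) (i : Fin (g + 1)) (h : eH n = ((i : ℕ), 0)) :
    ex (cOf q) n = q.2.1 i := by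
  rw [HN_ex _ hn]
  unfold cOf
  show (if (eH n).2 = 0 then ex q.2.1 (eH n).1 else - ex q.2.2 (eH n).1) = q.2.1 i
  rw [h, if_pos rfl]
  exact HN_ex' _ _ _ rfl

private theorem HN_cOf_1 {g : ℕ} (q : Dt g) (n : ℕ) (hn : n < 2 * g + 1 + 1) (i : Fin (g + 1)) (h : eH n = ((i : ℕ), 1)) :
    ex (cOf q) n = - q.2.2 i := by
  rw [HN_ex _ hn]
  unfold cOf
  show (if (eH n).2 = 0 then ex q.2.1 (eH n).1 else - ex q.2.2 (eH n).1) = - q.2.2 i
  rw [h, if_neg one_ne_zero]
  exact congrArg Neg.neg (HN_ex' _ _ _ rfl)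

/-- Proof. `eH 0 = (0,0)`, `eH 1 = (1,0)`, `eH 2 = (0,1)`, `eH n = (n/2, n%2)` for `n ≥ 3`; check both orders. -/
theorem qOf_cOf {g : ℕ} (hg : 1 ≤ g) (q : Dt g) : qOf (cOf q, q.1) = q := by
  unfold qOf
  refine Prod.ext rfl (Prod.ext ?_ ?_)
  · funext i
    have hi : (i : ℕ) ≤ g := Nat.lt_succ_iff.1 i.2
    show ex (cOf q) (if (i : ℕ) = 1 then 1 else 2 * (i : ℕ)) = q.2.1 i
    by_cases h : (i : ℕ) = 1
    · rw [if_pos h]
      refine HN_cOf_0 q 1 (by omega) i ?_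
      rw [HN_eH_1, h]
    · rw [if_neg h]
      exact HN_cOf_0 q _ (by omega) i (HN_eH_even h)
  · funext i
    have hi : (i : ℕ) ≤ g := Nat.lt_succ_iff.1 i.2
    show - ex (cOf q) (if (i : ℕ) = 0 then 2 else 2 * (i : ℕ) + 1) = q.2.2 i
    by_cases h : (i : ℕ) = 0
    · rw [if_pos h, HN_cOf_1 q 2 (by omega) i (by rw [HN_eH_2, h]), neg_neg]
    · rw [if_neg h, HN_cOf_1 q _ (by omega) i (HN_eH_odd h), neg_neg]

theorem cOf_qOf {g : ℕ} (hg : 1 ≤ g) (s : Vn (2 * g + 1) × (V × V)) : cOf (qOf s) = s.1 := by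
  funext n
  have hn : (n : ℕ) < 2 * g + 1 + 1 := n.2
  show (if (eH (n : ℕ)).2 = 0 then ex (gA s.1) (eH (n : ℕ)).1 else - ex (gB s.1) (eH (n : ℕ)).1) = s.1 n
  by_cases h1 : (n : ℕ) = 1
  · rw [h1, HN_eH_1, if_pos rfl, HN_ex _ (show 1 < g + 1 by omega)]
    show ex s.1 (if (1 : ℕ) = 1 then 1 else 2 * 1) = s.1 n
    rw [if_pos rfl]
    exact HN_ex' _ _ _ h1.symm
  · by_cases h2 : (n : ℕ) = 2
    · rw [h2, HN_eH_2, if_neg one_ne_zero, HN_ex _ (show 0 < g + 1 by omega)]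
      show - - ex s.1 (if (0 : ℕ) = 0 then 2 else 2 * 0 + 1) = s.1 n
      rw [if_pos rfl, neg_neg]
      exact HN_ex' _ _ _ h2.symm
    · rcases Nat.even_or_odd' (n : ℕ) with ⟨k, hk | hk⟩
      · have hk1 : k ≠ 1 := by omega
        rw [hk, HN_eH_even hk1, if_pos rfl, HN_ex _ (show k < g + 1 by omega)]
        show ex s.1 (if k = 1 then 1 else 2 * k) = s.1 n
        rw [if_neg hk1]
        exact HN_ex' _ _ _ hk.symm
      · have hk0 : k ≠ 0 := by omega
        rw [hk, HN_eH_odd hk0, if_neg one_ne_zero, HN_ex _ (show k < g + 1 by omega)]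
        show - - ex s.1 (if k = 0 then 2 else 2 * k + 1) = s.1 n
        rw [if_neg hk0, neg_neg]
        exact HN_ex' _ _ _ hk.symm

private theorem HN_exle {m H : ℕ} (c : Fin (m + 1) → ℤ) (hc : ∀ i, |c i| ≤ (H : ℤ)) (n : ℕ) : |ex c n| ≤ (H : ℤ) := by
  unfold ex
  split_ifs
  · exact hc _
  · rw [abs_zero]
    exact Int.natCast_nonneg H

private theorem HN_mem {g : ℕ} (hg : 1 ≤ g) (H N : ℕ) (s : Vn (2 * g + 1) × (V × V)) :
    s ∈ Bx (2 * g + 1) H N ↔ InBox H N (qOf s) := by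
  unfold Bx
  rw [Finset.mem_product, mem_boxN, mem_box2, mem_box, mem_box]
  constructor
  · rintro ⟨h1, h2, h3⟩
    exact ⟨h2, h3, fun i => HN_exle _ h1 _, fun i => by
      show |- ex s.1 _| ≤ (H : ℤ)
      rw [abs_neg]
      exact HN_exle _ h1 _⟩
  · rintro ⟨h2, h3, h4, h5⟩
    refine ⟨fun n => ?_, h2, h3⟩
    rw [← cOf_qOf hg s]
    show |if (eH (n : ℕ)).2 = 0 then ex (qOf s).2.1 (eH (n : ℕ)).1 else - ex (qOf s).2.2 (eH (n : ℕ)).1| ≤ (H : ℤ)
    split_ifs
    · exact HN_exle _ h4 _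
    · rw [abs_neg]
      exact HN_exle _ h5 _

/-- Proof. `q ↦ (cOf q, q.1)` and `qOf` are inverse bijections between the two sets (`Nat.card_congr` to the subtype of the finset, `Nat.card_eq_fintype_card`, `Fintype.card_coe`); the bounds for the coefficients are the same up to order and sign. -/
theorem card_Dt {g : ℕ} (hg : 1 ≤ g) (H N : ℕ) (P : Dt g → Prop) :
    Nat.card {q : Dt g // InBox H N q ∧ P q} = ((Bx (2 * g + 1) H N).filter fun s => P (qOf s)).card := by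
  have h1 : ∀ s : Vn (2 * g + 1) × (V × V), (cOf (qOf s), (qOf s).1) = s := fun s => Prod.ext (cOf_qOf hg s) rfl
  let e : {q : Dt g // InBox H N q ∧ P q} ≃ {s // s ∈ (Bx (2 * g + 1) H N).filter fun s => P (qOf s)} :=
    { toFun := fun q => ⟨(cOf q.1, q.1.1), by
        rw [Finset.mem_filter, HN_mem hg, qOf_cOf hg]
        exact q.2⟩
      invFun := fun s => ⟨qOf s.1, by
        have h2 := Finset.mem_filter.1 s.2
        exact ⟨(HN_mem hg H N s.1).1 h2.1, h2.2⟩⟩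
      left_inv := fun q => Subtype.ext (qOf_cOf hg q.1)
      right_inv := fun s => Subtype.ext (h1 s.1) }
  rw [Nat.card_congr e, Nat.card_eq_fintype_card, Fintype.card_coe]

/-- Proof. The map `s ↦ ((gA s.1, gB s.1), s.2)` is injective (`cOf_qOf`) into `(boxN g H ×ˢ boxN g H) ×ˢ box2 N`; `cz_card`; `box2 N` has `(2 N + 1)^6` elements. -/
theorem cz_card3 {g : ℕ} (hg : 1 ≤ g) (H N : ℕ) :
    ((Bx (2 * g + 1) H N).filter fun s => ¬ NoCz (gA s.1) (gB s.1)).card ≤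
      (g + 2) * (2 * H + 1) ^ (2 * g + 1) * (2 * N + 1) ^ 6 := by
  have hb : (box2 N).card = (2 * N + 1) ^ 6 := by
    unfold box2 FGO.box
    rw [Finset.card_product, Finset.card_product, Finset.card_product, Int.card_Icc]
    have h2 : ((N : ℤ) + 1 - -(N : ℤ)).toNat = 2 * N + 1 := by omega
    rw [h2]
    ring
  calc ((Bx (2 * g + 1) H N).filter fun s => ¬ NoCz (gA s.1) (gB s.1)).card
      ≤ ((((boxN g H) ×ˢ (boxN g H)).filter fun s => ¬ NoCz s.1 s.2) ×ˢ box2 N).card := by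
        refine Finset.card_le_card_of_injOn (fun s => ((gA s.1, gB s.1), s.2)) ?_ ?_
        · intro s hs
          rw [Finset.mem_coe, Finset.mem_filter] at hs
          have h3 := hs.1
          unfold Bx at h3
          rw [Finset.mem_product, mem_boxN] at h3
          rw [Finset.mem_coe, Finset.mem_product, Finset.mem_filter, Finset.mem_product, mem_boxN, mem_boxN]
          refine ⟨⟨⟨fun i => HN_exle _ h3.1 _, fun i => ?_⟩, hs.2⟩, h3.2⟩
          show |- ex s.1 _| ≤ (H : ℤ)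
          rw [abs_neg]
          exact HN_exle _ h3.1 _
        · intro s _ s' _ he
          have h4 : qOf s = qOf s' := by
            have h5 := (Prod.ext_iff.1 he).1
            have h6 := (Prod.ext_iff.1 he).2
            exact Prod.ext h6 h5
          refine Prod.ext ?_ (Prod.ext_iff.1 he).2
          rw [← cOf_qOf hg s, ← cOf_qOf hg s', h4]
    _ = (((boxN g H) ×ˢ (boxN g H)).filter fun s => ¬ NoCz s.1 s.2).card * (2 * N + 1) ^ 6 := by
        rw [Finset.card_product, hb]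
    _ ≤ (g + 2) * (2 * H + 1) ^ (2 * g + 1) * (2 * N + 1) ^ 6 := Nat.mul_le_mul_right _ (cz_card g H hg)

end HNF
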