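import Pool.Agent.Lib.MP_1ad228_ntH.FDefs
import Pool.Agent.Lib.MP_1ad228_ntH.PB2

/-! JOB PS -/

set_option autoImplicit false

open Classical

namespace HNF

open Finset Polynomial FGO FQQ

namespace PS

/-- Gauss lemma: squarefreeness over `ℚ` from squarefreeness modulo `l` -/
theorem sqf_of_mod {l : ℕ} [Fact l.Prime] (P : ℤ[X]) (h1 : Squarefree (P.map (Int.castRingHom (ZMod l))))
    (h2 : ((P.leadingCoeff : ℤ) : ZMod l) ≠ 0) : Squarefree (P.map (Int.castRingHom ℚ)) := by
  have hP0 : P ≠ 0 := by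
    rintro rfl
    simp at h2
  intro a ha
  by_contra hau
  have hPQ : P.map (Int.castRingHom ℚ) ≠ 0 := by
    rw [Ne, Polynomial.map_eq_zero_iff (Int.cast_injective)]
    exact hP0
  have ha0 : a ≠ 0 := by
    rintro rfl
    rw [mul_zero, zero_dvd_iff] at ha
    exact hPQ ha
  have hdeg : 0 < a.natDegree := by
    rcases Nat.eq_zero_or_pos a.natDegree with h | h
    · exfalso
      apply hau
      rw [Polynomial.natDegree_eq_zero] at h
      obtain ⟨x, rfl⟩ := h
      apply Polynomial.isUnit_C.mpr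
      apply IsUnit.mk0
      rintro rfl
      simp at ha0
    · exact h
  obtain ⟨b, hbm, hb⟩ := IsLocalization.integerNormalization_spec (nonZeroDivisors ℤ) a
  have hb0 : b ≠ 0 := nonZeroDivisors.ne_zero hbm
  set a1 : ℤ[X] := IsLocalization.integerNormalization (nonZeroDivisors ℤ) a with ha1
  have hmap : ∀ p : ℤ[X], p.map (algebraMap ℤ ℚ) = p.map (Int.castRingHom ℚ) := fun p => by
    rw [show algebraMap ℤ ℚ = Int.castRingHom ℚ from RingHom.ext_int _ _]
  have ha10 : a1 ≠ 0 := by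
    intro h0
    rw [h0, Polynomial.map_zero] at hb
    have := hb.symm
    rw [smul_eq_zero] at this
    rcases this with h | h
    · exact hb0 h
    · exact ha0 h
  set a2 : ℤ[X] := a1.primPart with ha2
  have hpr : a2.IsPrimitive := Polynomial.isPrimitive_primPart a1
  have hc0 : a1.content ≠ 0 := by rwa [Ne, Polynomial.content_eq_zero_iff]
  have e1 : a1 = C a1.content * a2 := Polynomial.eq_C_content_mul_primPart a1
  have e2 : (b : ℚ) • a = C ((a1.content : ℤ) : ℚ) * a2.map (Int.castRingHom ℚ) := by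
    have : a1.map (Int.castRingHom ℚ) = C ((a1.content : ℤ) : ℚ) * a2.map (Int.castRingHom ℚ) := by
      conv_lhs => rw [e1]
      rw [Polynomial.map_mul, Polynomial.map_C]
      rfl
    rw [← this, ← hmap, hb]
    rw [zsmul_eq_mul]
    rw [Polynomial.smul_eq_C_mul]
    simp
  have hbQ : (b : ℚ) ≠ 0 := by exact_mod_cast hb0
  have hcQ : ((a1.content : ℤ) : ℚ) ≠ 0 := by exact_mod_cast hc0
  -- `a2` divides `a` up to units
  have e3 : a2.map (Int.castRingHom ℚ) ∣ a := by
    refine ⟨C (((a1.content : ℤ) : ℚ) / (b : ℚ)), ?_⟩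
    have : a = C ((b : ℚ)⁻¹) * ((b : ℚ) • a) := by
      rw [Polynomial.smul_eq_C_mul, ← mul_assoc, ← Polynomial.C_mul, inv_mul_cancel₀ hbQ, Polynomial.C_1, one_mul]
    rw [this, e2, div_eq_mul_inv, Polynomial.C_mul]
    ring
  have hd2 : a2.natDegree = a.natDegree := by
    have h3 : ((b : ℚ) • a).natDegree = a.natDegree := Polynomial.natDegree_smul _ hbQ
    rw [← h3, e2, Polynomial.natDegree_C_mul hcQ, Polynomial.natDegree_map_eq_of_injective Int.cast_injective]
  have e4 : (a2 * a2).map (Int.castRingHom ℚ) ∣ P.map (Int.castRingHom ℚ) := by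
    rw [Polynomial.map_mul]
    exact (mul_dvd_mul e3 e3).trans ha
  have e6 : a2 * a2 ∣ P :=
    (Polynomial.IsPrimitive.Int.dvd_iff_map_cast_dvd_map_cast _ _ (hpr.mul hpr)).mpr e4
  have e7 : a2.map (Int.castRingHom (ZMod l)) * a2.map (Int.castRingHom (ZMod l)) ∣ P.map (Int.castRingHom (ZMod l)) := by
    rw [← Polynomial.map_mul]
    exact Polynomial.map_dvd _ e6
  have e8 : IsUnit (a2.map (Int.castRingHom (ZMod l))) := h1 _ e7
  have e9 : (a2.map (Int.castRingHom (ZMod l))).natDegree = 0 := Polynomial.natDegree_eq_zero_of_isUnit e8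
  have e10 : ((a2.leadingCoeff : ℤ) : ZMod l) ≠ 0 := by
    intro h0
    apply h2
    obtain ⟨r, hr⟩ := e6
    rw [hr, Polynomial.leadingCoeff_mul, Polynomial.leadingCoeff_mul]
    push_cast
    rw [h0]
    ring
  have e11 : (a2.map (Int.castRingHom (ZMod l))).natDegree = a2.natDegree := by
    apply Polynomial.natDegree_map_of_leadingCoeff_ne_zero
    exact e10
  omega

/-- `(X² - 1)(X^(2g) + 1)` is squarefree modulo `l` -/
theorem sqf_mod {g l : ℕ} [Fact l.Prime] (hg : 1 ≤ g) (h2 : 2 < l) (hlg : g < l) :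
    Squarefree ((X ^ 2 - 1 : (ZMod l)[X]) * ((X ^ g) ^ 2 + 1)) := by
  have hl : l.Prime := Fact.out
  have h2l : ((2 : ℕ) : ZMod l) ≠ 0 := by
    rw [Ne, ZMod.natCast_eq_zero_iff]
    intro h
    exact absurd (Nat.le_of_dvd (by norm_num) h) (by omega)
  have hgl : ((2 * g : ℕ) : ZMod l) ≠ 0 := by
    rw [Ne, ZMod.natCast_eq_zero_iff, hl.dvd_mul]
    rintro (h | h)
    · exact absurd (Nat.le_of_dvd (by norm_num) h) (by omega)
    · exact absurd (Nat.le_of_dvd (by omega) h) (by omega)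
  have s1 : (X ^ 2 - 1 : (ZMod l)[X]).Separable := by
    have := Polynomial.separable_X_pow_sub_C (1 : ZMod l) h2l one_ne_zero
    rwa [Polynomial.C_1] at this
  have s2 : ((X ^ g) ^ 2 + 1 : (ZMod l)[X]).Separable := by
    have h := Polynomial.separable_X_pow_sub_C (-1 : ZMod l) hgl (neg_ne_zero.mpr one_ne_zero)
    have e : ((X ^ g) ^ 2 + 1 : (ZMod l)[X]) = X ^ (2 * g) - C (-1) := by
      rw [← pow_mul, mul_comm g 2, Polynomial.C_neg, Polynomial.C_1]
      ring
    rw [e]
    exact h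
  have s3 : IsCoprime (X ^ 2 - 1 : (ZMod l)[X]) ((X ^ g) ^ 2 + 1) := by
    have hd : (X ^ 2 - 1 : (ZMod l)[X]) ∣ (X ^ 2) ^ g - 1 ^ g := sub_dvd_pow_sub_pow _ _ _
    obtain ⟨k, hk⟩ := hd
    rw [one_pow] at hk
    have e : ((X ^ g) ^ 2 + 1 : (ZMod l)[X]) = (X ^ 2 - 1) * k + C 2 := by
      rw [← hk, show (C (2 : ZMod l)) = 2 from map_ofNat C 2]
      ring
    refine ⟨- k * C ((2 : ZMod l)⁻¹), C ((2 : ZMod l)⁻¹), ?_⟩
    rw [e]
    have h22 : C ((2 : ZMod l)⁻¹) * C 2 = 1 := by
      rw [← Polynomial.C_mul, inv_mul_cancel₀ (by exact_mod_cast h2l), Polynomial.C_1]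
    linear_combination h22
  exact (s1.mul s2 s3).squarefree

theorem map_vV {A B : Type} [CommRing A] [CommRing B] (φ : A →+* B) (v : ℤ × ℤ × ℤ) (x z : A) :
    φ (vV v x z) = vV v (φ x) (φ z) := by
  simp only [vV, map_add, map_mul, map_pow, map_intCast]

theorem map_vG {A B : Type} [CommRing A] [CommRing B] (φ : A →+* B) {g : ℕ} (G : Fin (g + 1) → ℤ) (x z : A) :
    φ (vG G x z) = vG G (φ x) (φ z) := by
  simp only [vG, map_sum, map_mul, map_pow, map_intCast]

theorem map_vH {A B : Type} [CommRing A] [CommRing B] (φ : A →+* B) {g : ℕ} (q : Dt g) (x z : A) :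
    φ (vH q x z) = vH q (φ x) (φ z) := by
  simp only [vH, map_vV, map_vG]

theorem deg_vG {g : ℕ} (G : Fin (g + 1) → ℤ) : (vG G (X : ℤ[X]) 1).natDegree ≤ g := by
  unfold vG
  apply Polynomial.natDegree_sum_le_of_forall_le
  intro i _
  rw [one_pow, mul_one]
  refine (Polynomial.natDegree_mul_le).trans ?_
  rw [Polynomial.natDegree_intCast, zero_add, Polynomial.natDegree_X_pow]
  omega

theorem deg_vV (v : ℤ × ℤ × ℤ) (A B : ℤ[X]) (n : ℕ) (hA : A.natDegree ≤ n) (hB : B.natDegree ≤ n) :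
    (vV v A B).natDegree ≤ 2 * n := by
  have key : ∀ (a : ℤ) (P Q : ℤ[X]), P.natDegree ≤ n → Q.natDegree ≤ n → ((a : ℤ[X]) * P * Q).natDegree ≤ 2 * n := by
    intro a P Q hP hQ
    refine (Polynomial.natDegree_mul_le).trans ?_
    have : ((a : ℤ[X]) * P).natDegree ≤ P.natDegree := by
      refine (Polynomial.natDegree_mul_le).trans ?_
      rw [Polynomial.natDegree_intCast, zero_add]
    omega
  unfold vV
  refine Polynomial.natDegree_add_le_of_degree_le (Polynomial.natDegree_add_le_of_degree_le ?_ ?_) ?_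
  · rw [sq, ← mul_assoc]
    exact key _ _ _ hA hA
  · exact key _ _ _ hA hB
  · rw [sq, ← mul_assoc]
    exact key _ _ _ hB hB

end PS

/-- the curves of the class are smooth -/
theorem smooth_H {g l : ℕ} (hg : 1 ≤ g) (hl : l.Prime) (h2 : 2 < l) (hlg : g < l) (c : Vn (2 * g + 1)) (u : V × V)
    (h : ClH l c u) : Smooth (qOf (c, u)) := by
  have : Fact l.Prime := ⟨hl⟩
  obtain ⟨hc, hv, hw⟩ := id h
  have hA := clH_gA hg h
  have hB := clH_gB hg h
  -- the integers modulo `l`
  have cst : ∀ {a b : ℤ}, (l : ℤ) ∣ a - b → ((a : ℤ) : ZMod l) = ((b : ℤ) : ZMod l) := by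
    intro a b hab
    have := (ZMod.intCast_zmod_eq_zero_iff_dvd (a - b) l).mpr hab
    push_cast at this
    exact sub_eq_zero.mp this
  have v1 : ((u.1.1 : ℤ) : ZMod l) = 1 := by have := cst hv.1; simpa using this
  have v2 : ((u.1.2.1 : ℤ) : ZMod l) = 0 := by have := cst hv.2.1; simpa using this
  have v3 : ((u.1.2.2 : ℤ) : ZMod l) = -1 := by have := cst hv.2.2; simpa using this
  have w1 : ((u.2.1 : ℤ) : ZMod l) = 1 := by have := cst hw.1; simpa using this
  have w2 : ((u.2.2.1 : ℤ) : ZMod l) = 0 := by have := cst hw.2.1; simpa using this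
  have w3 : ((u.2.2.2 : ℤ) : ZMod l) = 1 := by have := cst hw.2.2; simpa using this
  have gA' : ∀ i, ((gA c i : ℤ) : ZMod l) = if i = Fin.last g then 1 else 0 := by
    intro i
    have := cst (hA i)
    rw [this]
    split_ifs <;> simp
  have gB' : ∀ i, ((gB c i : ℤ) : ZMod l) = if i = 0 then 1 else 0 := by
    intro i
    have := cst (hB i)
    rw [this]
    split_ifs <;> simp
  -- casts into a `ZMod l`-algebra
  have hcast : ∀ a : ℤ, ((a : ℤ) : (ZMod l)[X]) = C ((a : ℤ) : ZMod l) := fun a => by simp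
  set P : ℤ[X] := vV u.1 X 1 * vH (qOf (c, u)) X 1 with hP
  have mP : ∀ {R : Type} [CommRing R] (φ : ℤ →+* R), P.map φ = vV u.1 (X : R[X]) 1 * vH (qOf (c, u)) X 1 := by
    intro R _ φ
    have := map_mul (Polynomial.mapRingHom φ) (vV u.1 X 1) (vH (qOf (c, u)) X 1)
    rw [← hP, PS.map_vV, PS.map_vH] at this
    simpa using this
  have eV : vV u.1 (X : (ZMod l)[X]) 1 = X ^ 2 - 1 := by
    unfold vV
    rw [hcast, hcast, hcast, v1, v2, v3]
    simp only [map_one, map_zero, map_neg]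
    ring
  have eA : vG (gA c) (X : (ZMod l)[X]) 1 = X ^ g := by
    unfold vG
    rw [Finset.sum_eq_single (Fin.last g)]
    · rw [hcast, gA', if_pos rfl]
      simp
    · intro i _ hi
      rw [hcast, gA', if_neg hi]
      simp
    · intro h; exact absurd (Finset.mem_univ _) h
  have eB : vG (gB c) (X : (ZMod l)[X]) 1 = 1 := by
    unfold vG
    rw [Finset.sum_eq_single 0]
    · rw [hcast, gB', if_pos rfl]
      simp
    · intro i _ hi
      rw [hcast, gB', if_neg hi]
      simp
    · intro h; exact absurd (Finset.mem_univ _) h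
  have eH : vH (qOf (c, u)) (X : (ZMod l)[X]) 1 = (X ^ g) ^ 2 + 1 := by
    change vV u.2 (vG (gA c) X 1) (vG (gB c) X 1) = _
    rw [eA, eB]
    unfold vV
    rw [hcast, hcast, hcast, w1, w2, w3]
    simp only [map_one, map_zero, map_neg]
    ring
  have eP : P.map (Int.castRingHom (ZMod l)) = (X ^ 2 - 1) * ((X ^ g) ^ 2 + 1) := by
    rw [mP, eV, eH]
  have m1 : (X ^ 2 - 1 : (ZMod l)[X]).Monic := by
    have := Polynomial.monic_X_pow_sub_C (1 : ZMod l) (n := 2) (by norm_num)
    rwa [Polynomial.C_1] at this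
  have d1 : (X ^ 2 - 1 : (ZMod l)[X]).natDegree = 2 := by
    have := Polynomial.natDegree_X_pow_sub_C (n := 2) (r := (1 : ZMod l))
    rwa [Polynomial.C_1] at this
  have m2 : ((X ^ g) ^ 2 + 1 : (ZMod l)[X]).Monic := by
    have := Polynomial.monic_X_pow_add_C (1 : ZMod l) (n := g * 2) (by omega)
    rwa [Polynomial.C_1, pow_mul] at this
  have d2 : ((X ^ g) ^ 2 + 1 : (ZMod l)[X]).natDegree = g * 2 := by
    have := Polynomial.natDegree_X_pow_add_C (n := g * 2) (r := (1 : ZMod l))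
    rwa [Polynomial.C_1, pow_mul] at this
  have mm : (P.map (Int.castRingHom (ZMod l))).Monic := by
    rw [eP]; exact m1.mul m2
  have dd : (P.map (Int.castRingHom (ZMod l))).natDegree = 2 + g * 2 := by
    rw [eP, m1.natDegree_mul m2, d1, d2]
  have dP : P.natDegree ≤ 2 + g * 2 := by
    refine (Polynomial.natDegree_mul_le).trans ?_
    have h1 := PS.deg_vV u.1 X 1 1 (by simp) (by simp)
    have h3 := PS.deg_vV u.2 (vG (gA c) X 1) (vG (gB c) X 1) g (PS.deg_vG _) (PS.deg_vG _)
    change _ + (vV u.2 (vG (gA c) X 1) (vG (gB c) X 1)).natDegree ≤ _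
    omega
  have dP2 : P.natDegree = 2 + g * 2 := by
    apply le_antisymm dP
    rw [← dd]
    exact Polynomial.natDegree_map_le
  have lcP : ((P.leadingCoeff : ℤ) : ZMod l) ≠ 0 := by
    have h1 : (P.map (Int.castRingHom (ZMod l))).coeff (2 + g * 2) = 1 := by
      rw [← dd]; exact mm
    rw [Polynomial.coeff_map] at h1
    unfold Polynomial.leadingCoeff
    rw [dP2]
    intro h0
    have : (Int.castRingHom (ZMod l)) (P.coeff (2 + g * 2)) = 0 := h0
    rw [this] at h1
    exact zero_ne_one h1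
  refine ⟨?_, ?_, ?_⟩
  · intro h0
    change u.1.1 = 0 at h0
    rw [h0] at v1
    simp at v1
  · intro h0
    change vV u.2 (gA c (Fin.last g)) (gB c (Fin.last g)) = 0 at h0
    have h1 := congrArg (Int.castRingHom (ZMod l)) h0
    rw [PS.map_vV, map_zero] at h1
    unfold vV at h1
    simp only [eq_intCast] at h1
    rw [w1, w2, w3, gA', gB', if_pos rfl, if_neg] at h1
    · simp at h1
    · intro h3
      have := congrArg Fin.val h3
      simp at this
      omega
  · have := PS.sqf_of_mod P (by rw [eP]; exact PS.sqf_mod hg h2 hlg) lcP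
    rw [mP] at this
    exact this

end HNF
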