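import Pool.Agent.Lib.MP_1ad228_ntH.PF3
import Pool.Agent.Lib.MP_1ad228_ntH.PE1
import Pool.Agent.Lib.MP_1ad228_ntH.PS
import Pool.Agent.Lib.MP_1ad228_ntH.HN
import Pool.Agent.Lib.MP_1ad228_ntH.HM
import Pool.Agent.Lib.MP_1ad228_ntG.Po3
import Pool.Agent.Lib.MP_1ad228_ntG.Z0

/-! JOB PH -/

set_option autoImplicit false

open Classical

namespace HNF

open Finset Polynomial FGO FQQ

private theorem PH_fib {α β : Type*} (A : Finset α) (B : Finset β) (P : α × β → Prop) {i1 : DecidablePred P}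
    (C : ℝ) (h : ∑ v ∈ B, ((A.filter fun w => P (w, v)).card : ℝ) ≤ C) :
    (((A ×ˢ B).filter P).card : ℝ) ≤ C := by
  have e : ((A ×ˢ B).filter P).card = ∑ v ∈ B, (A.filter fun w => P (w, v)).card := by
    rw [Finset.card_filter, Finset.sum_product_right]
    refine Finset.sum_congr rfl fun v _ => ?_
    rw [Finset.card_filter]
  rw [e]
  push_cast
  exact h

private theorem PH_boxN (m H : ℕ) (hH : 1 ≤ H) : ((boxN m H).card : ℝ) ≤ (3 * (H : ℝ)) ^ (m + 1) := by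
  unfold boxN
  rw [Fintype.card_piFinset, Finset.prod_const, Z0_card, Finset.card_univ, Fintype.card_fin]
  push_cast
  have h1 : (1 : ℝ) ≤ H := by exact_mod_cast hH
  refine pow_le_pow_left₀ (by positivity) (by linarith) _

private theorem PH_box2 (N : ℕ) (hN : 6 ≤ N) : ((box2 N).card : ℝ) ≤ 729 * (N : ℝ) ^ 6 := by
  rw [box2, card_product]
  push_cast
  have h := Po3_box N hN
  have h0 : (0 : ℝ) ≤ ((FGO.box N).card : ℝ) := Nat.cast_nonneg _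
  calc ((FGO.box N).card : ℝ) * ((FGO.box N).card : ℝ) ≤ (27 * (N : ℝ) ^ 3) * (27 * (N : ℝ) ^ 3) := by gcongr
    _ = 729 * (N : ℝ) ^ 6 := by ring

private theorem PH_union {α : Type*} (B : Finset α) (a b : ℕ) (ha : 1 ≤ a) (Q : ℕ → α → Prop)
    [∀ p, DecidablePred (Q p)] [DecidablePred fun f => ∃ p : ℕ, p.Prime ∧ a < p ∧ p ≤ b ∧ Q p f] (c : ℝ) (hc : 0 ≤ c)
    (h : ∀ p : ℕ, p.Prime → a < p → p ≤ b → ((B.filter (Q p)).card : ℝ) ≤ c / (p : ℝ) ^ 2) :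
    ((B.filter fun f => ∃ p : ℕ, p.Prime ∧ a < p ∧ p ≤ b ∧ Q p f).card : ℝ) ≤ c / a := by
  have h1 : (B.filter fun f => ∃ p : ℕ, p.Prime ∧ a < p ∧ p ≤ b ∧ Q p f) ⊆
      ((Ioc a b).filter Nat.Prime).biUnion fun p => B.filter (Q p) := by
    intro f hf
    rw [mem_filter] at hf
    obtain ⟨hB, p, hp, hzp, hpP, hQ⟩ := hf
    exact mem_biUnion.2 ⟨p, mem_filter.2 ⟨mem_Ioc.2 ⟨hzp, hpP⟩, hp⟩, mem_filter.2 ⟨hB, hQ⟩⟩
  have h2 : (B.filter fun f => ∃ p : ℕ, p.Prime ∧ a < p ∧ p ≤ b ∧ Q p f).card ≤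
      ∑ p ∈ (Ioc a b).filter Nat.Prime, (B.filter (Q p)).card := (card_le_card h1).trans card_biUnion_le
  have ha0 : (0 : ℝ) < a := by exact_mod_cast ha
  have h3 : ∑ p ∈ Ioc a b, ((p : ℝ) ^ 2)⁻¹ ≤ 1 / a := by
    rcases le_total a b with h | h
    · have h4 := sum_Ioc_inv_sq_le_sub (α := ℝ) (by omega : a ≠ 0) h
      have h5 : (0 : ℝ) ≤ (b : ℝ)⁻¹ := by positivity
      rw [one_div]
      linarith
    · rw [Finset.Ioc_eq_empty (by omega), Finset.sum_empty]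
      positivity
  calc ((B.filter fun f => ∃ p : ℕ, p.Prime ∧ a < p ∧ p ≤ b ∧ Q p f).card : ℝ)
      ≤ ((∑ p ∈ (Ioc a b).filter Nat.Prime, (B.filter (Q p)).card : ℕ) : ℝ) := by exact_mod_cast h2
    _ = ∑ p ∈ (Ioc a b).filter Nat.Prime, ((B.filter (Q p)).card : ℝ) := by push_cast; rfl
    _ ≤ ∑ p ∈ (Ioc a b).filter Nat.Prime, c / (p : ℝ) ^ 2 := by
        refine Finset.sum_le_sum fun p hp => ?_
        rw [mem_filter, mem_Ioc] at hp
        exact h p hp.2 hp.1.1 hp.1.2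
    _ ≤ ∑ p ∈ Ioc a b, c / (p : ℝ) ^ 2 := by
        refine Finset.sum_le_sum_of_subset_of_nonneg (Finset.filter_subset _ _) fun p _ _ => ?_
        positivity
    _ = c * ∑ p ∈ Ioc a b, ((p : ℝ) ^ 2)⁻¹ := by
        rw [Finset.mul_sum]
        refine Finset.sum_congr rfl fun p _ => ?_
        rw [div_eq_mul_inv]
    _ ≤ c * (1 / a) := mul_le_mul_of_nonneg_left h3 hc
    _ = c / a := by rw [mul_one_div]

private theorem PH_cop (w p : ℕ) (hp : p.Prime) (hw : 3 ≤ w) (h : w < p) : (8 * primorial w).Coprime p := by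
  rw [Nat.coprime_comm, Nat.Prime.coprime_iff_not_dvd hp]
  intro h1
  rcases (Nat.Prime.dvd_mul hp).1 h1 with h2 | h2
  · have h3 : p ∣ 2 ^ 3 := h2
    have h4 := hp.dvd_of_dvd_pow h3
    have h5 := Nat.le_of_dvd (by norm_num) h4
    omega
  · unfold primorial at h2
    obtain ⟨q, hq, hpq⟩ := hp.prime.exists_mem_finset_dvd h2
    rw [mem_filter, mem_range] at hq
    have h4 := (Nat.prime_dvd_prime_iff_eq hp hq.2).1 hpq
    omega

private theorem PH_dvd (w l : ℕ) (hl : l.Prime) (h : l ≤ w) : l ∣ 8 * primorial w := by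
  refine Dvd.dvd.mul_left ?_ 8
  unfold primorial
  exact Finset.dvd_prod_of_mem (fun p => p) (mem_filter.2 ⟨mem_range.2 (by omega), hl⟩)

private theorem PH_cl {g M l : ℕ} (hl : l ∣ M) {c : Vn (2 * g + 1)} {u : V × V} (h : ClH M c u) : ClH l c u := by
  have hl' : (l : ℤ) ∣ (M : ℤ) := Int.natCast_dvd_natCast.2 hl
  obtain ⟨h1, h2, h3⟩ := h
  exact ⟨fun i => hl'.trans (h1 i), ⟨hl'.trans h2.1, hl'.trans h2.2.1, hl'.trans h2.2.2⟩,
    ⟨hl'.trans h3.1, hl'.trans h3.2.1, hl'.trans h3.2.2⟩⟩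

private theorem PH_LL (δ : ℝ) (hδ : 0 < δ) : ∃ N2 : ℕ, 16 ≤ N2 ∧ ∀ N : ℕ, N2 ≤ N →
    0 < Real.log (Real.log N) ∧ 1 / Real.log (Real.log N) ≤ δ := by
  refine ⟨max 16 ⌈Real.exp (Real.exp (1 / δ))⌉₊, le_max_left _ _, fun N hN => ?_⟩
  have h1 : Real.exp (Real.exp (1 / δ)) ≤ N :=
    (Nat.le_ceil _).trans (by exact_mod_cast (le_max_right _ _).trans hN)
  have h2 : Real.exp (1 / δ) ≤ Real.log N := by
    rw [Real.le_log_iff_exp_le (lt_of_lt_of_le (Real.exp_pos _) h1)]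
    exact h1
  have h3 : 1 / δ ≤ Real.log (Real.log N) := by
    rw [Real.le_log_iff_exp_le (lt_of_lt_of_le (Real.exp_pos _) h2)]
    exact h2
  have h4 : 0 < 1 / δ := by positivity
  have h5 : 0 < Real.log (Real.log N) := lt_of_lt_of_le h4 h3
  refine ⟨h5, ?_⟩
  rw [div_le_iff₀ h5]
  rw [div_le_iff₀ hδ] at h3
  linarith

/-- the conditions of `large_H` -/
private def PH_good (N : ℕ) (u : V × V) : Prop :=
  u.1.1 ≠ 0 ∧ u.2.1 ≠ 0 ∧ ¬ IsSquare (ds u.1) ∧ ¬ IsSquare (ds u.2) ∧ ¬ IsSquare (ds u.1 * ds u.2) ∧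
    (∀ p : ℕ, p.Prime → 4 * N < p → ¬ ((p : ℤ) ∣ ds u.1 ∧ (p : ℤ) ∣ ds u.2))

/-- (part 2) Proof. Model `pos_prop` in VH.lean. Let `w1` from `els_H`, `w2 = max (max w1 (g + 5)) (240 · 16^(2g+8))`, `M = 8 primorial w2` (NEVER compute it); the class `ClH M` contains the condition modulo the prime `l ≤ w2`, `l > g`, `l > 2` (Bertrand, or take `w2` large enough that a prime `l` with `g + 2 < l ≤ w2` exists, e.g. `w2 ≥ 2 (g + 2)`): `Smooth` by `smooth_H`.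
For large `N`, `H = N^K` (`g + 9 ≤ 2 K`, `g ≥ 1`, so `K ≥ 5`), the set of `clH_lower` (`≥ X/(2M)^(2g+8)`) minus: (a) `ClH M ∧ BdP p`, `w2 < p`, `M p ≤ 4 N`: `clH_bad_card`, `∑_{p > w2} 1/p² ≤ 1/w2`: `≤ 60 · 8^(2g+8)/(M^(2g+8) w2) X ≤ (1/4) X/(2M)^(2g+8)`; (b) `BdP p` for `4N/M < p ≤ 4N`: `bdP_card`,
`≤ C M X/N`; (c) `¬ Ty` for the parameters of `core_card` (`C X/loglog N`): gives the three nonsquare conditions by `Ty_ns`; (d) pairs `u` with a prime `p > 4N ≥ N` dividing both discriminants: `FGO.disc_large` (`disc = ds`), times `(3H)^(2g+2)`: `C X/N`; (e) `¬ NoCz`: `cz_card3`; (f) `large_H` for the remaining `u`, at most `(3N)^6`: `C X/N`.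
The remaining pairs have points everywhere by `els_H` and are smooth. -/
theorem part2_H (g K : ℕ) (hg : 1 ≤ g) (hK : g + 9 ≤ 2 * K) : ∃ c : ℝ, 0 < c ∧ ∃ N₀ : ℕ, ∀ N : ℕ, N₀ ≤ N →
    c * (N : ℝ) ^ (2 * K * (g + 1) + 6) ≤
      (Nat.card {q : Dt g // InBox (N ^ K) N q ∧ Smooth q ∧ HasPoint ℝ q ∧ ∀ (p : ℕ) [Fact p.Prime], HasPoint ℚ_[p] q} : ℝ) := by
  obtain ⟨w1, hw1, hE⟩ := els_H hg
  obtain ⟨C2, hC2, hLH⟩ := large_H g hg
  obtain ⟨C1, hC1, Nc, hNc, hcore⟩ := core_card (Mon_eH hg) K 0 (by omega) (fun _ => 0) 0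
    (fun N _ => Nat.zero_le _) (fun N _ => by simp)
  obtain ⟨w2, hw2⟩ : ∃ w2 : ℕ, w2 = max w1 (240 * 16 ^ (2 * g + 8) + 2 * (g + 2)) := ⟨_, rfl⟩
  have hw12 : w1 ≤ w2 := by rw [hw2]; exact le_max_left _ _
  have hw22 : 240 * 16 ^ (2 * g + 8) + 2 * (g + 2) ≤ w2 := by rw [hw2]; exact le_max_right _ _
  have hw23 : 3 ≤ w2 := hw1.trans hw12
  have hw24 : 240 * 16 ^ (2 * g + 8) ≤ w2 := by omega
  have hw25 : 5 ≤ w2 := by
    have : 1 ≤ 16 ^ (2 * g + 8) := Nat.one_le_pow _ _ (by norm_num)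
    omega
  have hE2 := hE w2 hw12
  obtain ⟨l, hl, hl1, hl2⟩ := Nat.exists_prime_lt_and_le_two_mul (g + 2) (by omega)
  have hlM : l ∣ 8 * primorial w2 := PH_dvd w2 l hl (by omega)
  have hcop : ∀ p : ℕ, p.Prime → w2 < p → (8 * primorial w2).Coprime p := fun p hp h => PH_cop w2 p hp hw23 h
  have hMpos : 0 < 8 * primorial w2 := Nat.mul_pos (by norm_num) (primorial_pos w2)
  generalize 8 * primorial w2 = M at hE2 hcop hMpos hlM
  have hSm : ∀ (c : Vn (2 * g + 1)) (u : V × V), ClH M c u → Smooth (qOf (c, u)) := fun c u h =>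
    smooth_H hg hl (by omega) (by omega) c u (PH_cl hlM h)
  have hM0 : (0 : ℝ) < M := by exact_mod_cast hMpos
  obtain ⟨ε, hε⟩ : ∃ ε : ℝ, ε = 1 / (2 * (M : ℝ)) ^ (2 * g + 8) := ⟨_, rfl⟩
  have hε0 : 0 < ε := by rw [hε]; positivity
  obtain ⟨A, hA⟩ : ∃ A : ℝ, A = 60 * 8 ^ (2 * g + 8) * M + 1701 * 3 ^ (2 * g + 2) + ((g : ℝ) + 2) * 3 ^ (2 * g + 7) + 729 * C2 :=
    ⟨_, rfl⟩
  have hA0 : 0 < A := by rw [hA]; positivity
  obtain ⟨NL, hNL, hLL⟩ := PH_LL (ε / (8 * C1)) (by positivity)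
  refine ⟨ε / 2, by positivity, max (max NL Nc) (max M ⌈8 * A / ε⌉₊), fun N hN => ?_⟩
  have hNNL : NL ≤ N := (le_max_left _ _).trans ((le_max_left _ _).trans hN)
  have hNNc : Nc ≤ N := (le_max_right _ _).trans ((le_max_left _ _).trans hN)
  have hNM : M ≤ N := (le_max_left _ _).trans ((le_max_right _ _).trans hN)
  have hNA : ⌈8 * A / ε⌉₊ ≤ N := (le_max_right _ _).trans ((le_max_right _ _).trans hN)
  have hN16 : 16 ≤ N := hNL.trans hNNL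
  obtain ⟨hLL0, hLL1⟩ := hLL N hNNL
  obtain ⟨P0, z0, -, -, -, -, hTy, -⟩ := hcore N hNNc
  have hNpos : 0 < N := by omega
  have hNr : (1 : ℝ) ≤ N := by exact_mod_cast hNpos
  have hNr0 : (0 : ℝ) < N := by linarith
  obtain ⟨H, hH⟩ : ∃ H : ℕ, H = N ^ K := ⟨_, rfl⟩
  have hHr : (H : ℝ) = (N : ℝ) ^ K := by rw [hH]; push_cast; rfl
  have hN5 : N ^ 5 ≤ H := by
    rw [hH]
    exact Nat.pow_le_pow_right hNpos (by omega)
  have hNH : N ≤ H := by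
    rw [hH]
    exact Nat.le_self_pow (by omega) N
  have hN2 : N ^ (g + 2) ≤ H ^ 2 := by
    rw [hH, ← pow_mul]
    exact Nat.pow_le_pow_right hNpos (by omega)
  have hNHr : (N : ℝ) ≤ H := by exact_mod_cast hNH
  have hHr0 : (0 : ℝ) < H := by linarith
  have hH1 : 1 ≤ H := by omega
  obtain ⟨X, hX⟩ : ∃ X : ℝ, X = (H : ℝ) ^ (2 * g + 2) * (N : ℝ) ^ 6 := ⟨_, rfl⟩
  have hX0 : 0 < X := by rw [hX]; positivity
  have hX1 : (N : ℝ) ^ (2 * K * (g + 1) + 6) = X := by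
    rw [hX, hHr, pow_add, ← pow_mul]
    congr 2
    ring
  have e8 : (8 * (H : ℝ)) ^ (2 * g + 2) * (8 * (N : ℝ)) ^ 6 = 8 ^ (2 * g + 8) * X := by
    rw [hX, mul_pow, mul_pow]
    ring
  obtain ⟨Pr, hPr⟩ : ∃ Pr : Dt g → Prop, Pr = fun q => Smooth q ∧ HasPoint ℝ q ∧ ∀ (p : ℕ) [Fact p.Prime], HasPoint ℚ_[p] q :=
    ⟨_, rfl⟩
  have hcount : Nat.card {q : Dt g // InBox (N ^ K) N q ∧ Smooth q ∧ HasPoint ℝ q ∧ ∀ (p : ℕ) [Fact p.Prime], HasPoint ℚ_[p] q} =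
      Nat.card {q : Dt g // InBox H N q ∧ Pr q} := by
    rw [hPr, hH]
  rw [hX1, hcount, card_Dt hg]
  -- the lower bound
  have hlow := clH_lower (g := g) hg hMpos hNM hNH
  rw [← hX] at hlow
  have hlow2 : X * ε ≤ (((Bx (2 * g + 1) H N).filter fun s => ClH M s.1 s.2 ∧ PosH s.1 s.2).card : ℝ) := by
    refine le_trans (le_of_eq ?_) hlow
    rw [hε]
    ring
  -- the error terms
  have hq1 : 1 ≤ 4 * N / M := by
    rw [Nat.le_div_iff_mul_le hMpos]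
    omega
  have ea := PH_union (Bx (2 * g + 1) H N) w2 (4 * N / M) (by omega) (fun p s => ClH M s.1 s.2 ∧ BdP p s.1 s.2)
    ((8 * (H : ℝ)) ^ (2 * g + 2) * (8 * (N : ℝ)) ^ 6 * (60 / (M : ℝ) ^ (2 * g + 8))) (by positivity) (by
      intro p hp h1 h2
      have h3 : M * p ≤ 4 * N := by
        rw [mul_comm]
        exact (Nat.le_div_iff_mul_le hMpos).1 h2
      have h4 := clH_bad_card (g := g) hg hNpos hNH hMpos hp (by omega) (hcop p hp h1) h3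
      refine h4.trans (le_of_eq ?_)
      have hp0 : (p : ℝ) ≠ 0 := by
        have := hp.pos
        positivity
      field_simp)
  have eb := PH_union (Bx (2 * g + 1) H N) (4 * N / M) (4 * N) hq1 (fun p s => BdP p s.1 s.2)
    ((8 * (H : ℝ)) ^ (2 * g + 2) * (8 * (N : ℝ)) ^ 6 * 60) (by positivity) (by
      intro p hp h1 h2
      have h5 : 4 ≤ 4 * N / M := by
        rw [Nat.le_div_iff_mul_le hMpos]
        omega
      have h4 := bdP_card (g := g) hg hNpos hNH hp (by omega) h2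
      refine h4.trans (le_of_eq ?_)
      ring)
  have ba : (8 * (H : ℝ)) ^ (2 * g + 2) * (8 * (N : ℝ)) ^ 6 * (60 / (M : ℝ) ^ (2 * g + 8)) / (w2 : ℝ) ≤ X * ε / 4 := by
    have hw : (0 : ℝ) < w2 := by
      have : 0 < w2 := by omega
      exact_mod_cast this
    rw [e8, div_le_iff₀ hw]
    have h1 : (240 : ℝ) * 16 ^ (2 * g + 8) ≤ w2 := by exact_mod_cast hw24
    have h16 : (16 : ℝ) ^ (2 * g + 8) = 8 ^ (2 * g + 8) * 2 ^ (2 * g + 8) := by
      rw [← mul_pow]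
      norm_num
    have h2 : X * ε / 4 * (240 * 16 ^ (2 * g + 8)) = 8 ^ (2 * g + 8) * X * (60 / (M : ℝ) ^ (2 * g + 8)) := by
      rw [hε, h16, mul_pow]
      field_simp
      ring
    rw [← h2]
    exact mul_le_mul_of_nonneg_left h1 (by positivity)
  have bb : (8 * (H : ℝ)) ^ (2 * g + 2) * (8 * (N : ℝ)) ^ 6 * 60 / ((4 * N / M : ℕ) : ℝ) ≤
      X * (60 * 8 ^ (2 * g + 8) * M / N) := by
    have h1 : (N : ℝ) ≤ M * ((4 * N / M : ℕ) : ℝ) := by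
      have h2 := Nat.div_add_mod (4 * N) M
      have h3 := Nat.mod_lt (4 * N) hMpos
      have h4 : N ≤ M * (4 * N / M) := by omega
      exact_mod_cast h4
    have h0 : (0 : ℝ) < ((4 * N / M : ℕ) : ℝ) := by
      have : 0 < 4 * N / M := by omega
      exact_mod_cast this
    rw [e8, div_le_iff₀ h0]
    calc 8 ^ (2 * g + 8) * X * 60 = X * (60 * 8 ^ (2 * g + 8)) * (N / N) := by
          rw [div_self hNr0.ne']
          ring
      _ = X * (60 * 8 ^ (2 * g + 8) / N) * N := by ring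
      _ ≤ X * (60 * 8 ^ (2 * g + 8) / N) * (M * ((4 * N / M : ℕ) : ℝ)) := by
        refine mul_le_mul_of_nonneg_left h1 (by positivity)
      _ = _ := by ring
  -- not typical
  have bc : (((Bx (2 * g + 1) H N).filter fun s => ¬ Ty eH P0 z0 s.1 s.2).card : ℝ) ≤ X * ε / 8 := by
    have h1 : C1 * (((N : ℝ) ^ K) ^ (2 * g + 1 + 1) * (N : ℝ) ^ 6) / Real.log (Real.log N) ≤ X * ε / 8 := by
      have h2 : ((N : ℝ) ^ K) ^ (2 * g + 1 + 1) * (N : ℝ) ^ 6 = X := by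
        rw [hX, hHr]
      rw [h2]
      calc C1 * X / Real.log (Real.log N) = C1 * X * (1 / Real.log (Real.log N)) := by ring
        _ ≤ C1 * X * (ε / (8 * C1)) := mul_le_mul_of_nonneg_left hLL1 (by positivity)
        _ = X * ε / 8 := by
          field_simp
    rw [← hH] at hTy
    exact hTy.trans h1
  -- both discriminants
  have bd : (((Bx (2 * g + 1) H N).filter fun s => s.2.1.1 ≠ 0 ∧ s.2.2.1 ≠ 0 ∧ ∃ p : ℕ, p.Prime ∧ N < p ∧
      (p : ℤ) ∣ disc s.2.1 ∧ (p : ℤ) ∣ disc s.2.2).card : ℝ) ≤ X * (1701 * 3 ^ (2 * g + 2) / N) := by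
    have h1 : (((Bx (2 * g + 1) H N).filter fun s => s.2.1.1 ≠ 0 ∧ s.2.2.1 ≠ 0 ∧ ∃ p : ℕ, p.Prime ∧ N < p ∧
      (p : ℤ) ∣ disc s.2.1 ∧ (p : ℤ) ∣ disc s.2.2)) = boxN (2 * g + 1) H ×ˢ ((box2 N).filter fun u =>
        u.1.1 ≠ 0 ∧ u.2.1 ≠ 0 ∧ ∃ p : ℕ, p.Prime ∧ N < p ∧ (p : ℤ) ∣ disc u.1 ∧ (p : ℤ) ∣ disc u.2) := by
      ext s
      unfold Bx
      simp only [mem_filter, mem_product]
      constructor
      · rintro ⟨⟨h1, h2⟩, h3⟩
        exact ⟨h1, h2, h3⟩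
      · rintro ⟨h1, h2, h3⟩
        exact ⟨⟨h1, h2⟩, h3⟩
    rw [h1, card_product]
    push_cast
    have h2 := PH_boxN (2 * g + 1) H hH1
    have h3 := disc_large N (by omega)
    calc _ ≤ (3 * (H : ℝ)) ^ (2 * g + 1 + 1) * (1701 * (N : ℝ) ^ 5) := by gcongr
      _ = X * (1701 * 3 ^ (2 * g + 2) / N) := by
        rw [hX, mul_pow]
        field_simp
  -- common zeros
  have be : (((Bx (2 * g + 1) H N).filter fun s => ¬ NoCz (gA s.1) (gB s.1)).card : ℝ) ≤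
      X * (((g : ℝ) + 2) * 3 ^ (2 * g + 7) / N) := by
    have h1 : (((Bx (2 * g + 1) H N).filter fun s => ¬ NoCz (gA s.1) (gB s.1)).card : ℝ) ≤
        (((g + 2) * (2 * H + 1) ^ (2 * g + 1) * (2 * N + 1) ^ 6 : ℕ) : ℝ) := by
      exact_mod_cast cz_card3 hg H N
    have h3 : (g + 2) * (2 * H + 1) ^ (2 * g + 1) * (2 * N + 1) ^ 6 ≤ (g + 2) * (3 * H) ^ (2 * g + 1) * (3 * N) ^ 6 :=
      Nat.mul_le_mul (Nat.mul_le_mul_left _ (Nat.pow_le_pow_left (by omega) _)) (Nat.pow_le_pow_left (by omega) _)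
    have h4 : (((g + 2) * (2 * H + 1) ^ (2 * g + 1) * (2 * N + 1) ^ 6 : ℕ) : ℝ) ≤
        (((g + 2) * (3 * H) ^ (2 * g + 1) * (3 * N) ^ 6 : ℕ) : ℝ) := by exact_mod_cast h3
    refine h1.trans (h4.trans ?_)
    have h5 : ((((g + 2) * (3 * H) ^ (2 * g + 1) * (3 * N) ^ 6 : ℕ)) : ℝ) =
        ((g : ℝ) + 2) * 3 ^ (2 * g + 7) * ((H : ℝ) ^ (2 * g + 1) * (N : ℝ) ^ 6) := by
      push_cast
      rw [mul_pow, mul_pow]
      ring
    rw [h5]
    have h6 : (H : ℝ) ^ (2 * g + 1) * (N : ℝ) ^ 6 ≤ X / N := by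
      rw [hX, le_div_iff₀ hNr0]
      calc (H : ℝ) ^ (2 * g + 1) * (N : ℝ) ^ 6 * N ≤ (H : ℝ) ^ (2 * g + 1) * (N : ℝ) ^ 6 * H :=
            mul_le_mul_of_nonneg_left hNHr (by positivity)
        _ = (H : ℝ) ^ (2 * g + 2) * (N : ℝ) ^ 6 := by
          rw [pow_succ (H : ℝ) (2 * g + 1)]
          ring
    calc ((g : ℝ) + 2) * 3 ^ (2 * g + 7) * ((H : ℝ) ^ (2 * g + 1) * (N : ℝ) ^ 6)
        ≤ ((g : ℝ) + 2) * 3 ^ (2 * g + 7) * (X / N) := mul_le_mul_of_nonneg_left h6 (by positivity)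
      _ = X * (((g : ℝ) + 2) * 3 ^ (2 * g + 7) / N) := by ring
  -- large primes
  have bf : (((Bx (2 * g + 1) H N).filter fun s => PH_good N s.2 ∧ NoCz (gA s.1) (gB s.1) ∧
      ∃ p : ℕ, p.Prime ∧ 4 * N < p ∧ BdP p s.1 s.2).card : ℝ) ≤ X * (729 * C2 / N) := by
    unfold Bx
    refine PH_fib _ _ _ _ ?_
    have h1 : ∀ u ∈ box2 N, (((boxN (2 * g + 1) H).filter fun c => PH_good N (c, u).2 ∧
        NoCz (gA (c, u).1) (gB (c, u).1) ∧ ∃ p : ℕ, p.Prime ∧ 4 * N < p ∧ BdP p (c, u).1 (c, u).2).card : ℝ) ≤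
        C2 * (H : ℝ) ^ (2 * g + 2) / N := by
      intro u hu
      by_cases hgu : PH_good N u
      · obtain ⟨g1, g2, g3, g4, g5, g6⟩ := hgu
        have h2 := hLH H N (by omega) hN5 hN2 u hu g1 g2 g3 g4 g5 g6
        refine le_trans ?_ h2
        have h3 : ((boxN (2 * g + 1) H).filter fun c => PH_good N (c, u).2 ∧
            NoCz (gA (c, u).1) (gB (c, u).1) ∧ ∃ p : ℕ, p.Prime ∧ 4 * N < p ∧ BdP p (c, u).1 (c, u).2) ⊆
            (boxN (2 * g + 1) H).filter fun c => NoCz (gA c) (gB c) ∧ ∃ p : ℕ, p.Prime ∧ 4 * N < p ∧ BdP p c u := by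
          intro c hc
          rw [mem_filter] at hc ⊢
          exact ⟨hc.1, hc.2.2⟩
        exact_mod_cast card_le_card h3
      · have h3 : ((boxN (2 * g + 1) H).filter fun c => PH_good N (c, u).2 ∧
            NoCz (gA (c, u).1) (gB (c, u).1) ∧ ∃ p : ℕ, p.Prime ∧ 4 * N < p ∧ BdP p (c, u).1 (c, u).2) = ∅ :=
          Finset.filter_eq_empty_iff.2 fun c _ hc => hgu hc.1
        rw [h3, card_empty, Nat.cast_zero]
        positivity
    refine (Finset.sum_le_sum h1).trans ?_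
    rw [Finset.sum_const, nsmul_eq_mul]
    have h2 := PH_box2 N (by omega)
    calc ((box2 N).card : ℝ) * (C2 * (H : ℝ) ^ (2 * g + 2) / N) ≤ (729 * (N : ℝ) ^ 6) * (C2 * (H : ℝ) ^ (2 * g + 2) / N) :=
          mul_le_mul_of_nonneg_right h2 (by positivity)
      _ = X * (729 * C2 / N) := by
        rw [hX]
        ring
  -- the inclusion
  have hsub : (Bx (2 * g + 1) H N).filter (fun s => ClH M s.1 s.2 ∧ PosH s.1 s.2) ⊆
      (Bx (2 * g + 1) H N).filter (fun s => Pr (qOf s)) ∪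
        ((Bx (2 * g + 1) H N).filter (fun s => ∃ p : ℕ, p.Prime ∧ w2 < p ∧ p ≤ 4 * N / M ∧ ClH M s.1 s.2 ∧ BdP p s.1 s.2) ∪
          ((Bx (2 * g + 1) H N).filter (fun s => ∃ p : ℕ, p.Prime ∧ 4 * N / M < p ∧ p ≤ 4 * N ∧ BdP p s.1 s.2) ∪
            ((Bx (2 * g + 1) H N).filter (fun s => ¬ Ty eH P0 z0 s.1 s.2) ∪
              ((Bx (2 * g + 1) H N).filter (fun s => s.2.1.1 ≠ 0 ∧ s.2.2.1 ≠ 0 ∧ ∃ p : ℕ, p.Prime ∧ N < p ∧
                (p : ℤ) ∣ disc s.2.1 ∧ (p : ℤ) ∣ disc s.2.2) ∪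
                ((Bx (2 * g + 1) H N).filter (fun s => ¬ NoCz (gA s.1) (gB s.1)) ∪
                  (Bx (2 * g + 1) H N).filter (fun s => PH_good N s.2 ∧ NoCz (gA s.1) (gB s.1) ∧
                    ∃ p : ℕ, p.Prime ∧ 4 * N < p ∧ BdP p s.1 s.2)))))) := by
    intro s hs
    rw [mem_filter] at hs
    obtain ⟨hB, hcl, hpos⟩ := hs
    simp only [mem_union, mem_filter]
    by_cases hc : ∀ p : ℕ, p.Prime → w2 < p → ¬ BdP p s.1 s.2
    · refine Or.inl ⟨hB, ?_⟩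
      rw [hPr]
      exact ⟨hSm s.1 s.2 hcl, hE2 s.1 s.2 hcl hpos hc⟩
    · push Not at hc
      obtain ⟨p, hp, hwp, hbad⟩ := hc
      by_cases h4 : p ≤ 4 * N / M
      · exact Or.inr (Or.inl ⟨hB, p, hp, hwp, h4, hcl, hbad⟩)
      by_cases h5 : p ≤ 4 * N
      · exact Or.inr (Or.inr (Or.inl ⟨hB, p, hp, by omega, h5, hbad⟩))
      by_cases h6 : Ty eH P0 z0 s.1 s.2
      · obtain ⟨n1, n2, n3⟩ := Ty_ns h6
        have v1 : s.2.1.1 ≠ 0 := hpos.2.1.ne'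
        have v2 : s.2.2.1 ≠ 0 := hpos.2.2.1.ne'
        by_cases h7 : ∃ p : ℕ, p.Prime ∧ N < p ∧ (p : ℤ) ∣ disc s.2.1 ∧ (p : ℤ) ∣ disc s.2.2
        · exact Or.inr (Or.inr (Or.inr (Or.inr (Or.inl ⟨hB, v1, v2, h7⟩))))
        · by_cases h8 : NoCz (gA s.1) (gB s.1)
          · refine Or.inr (Or.inr (Or.inr (Or.inr (Or.inr (Or.inr ⟨hB, ⟨v1, v2, n1, n2, n3, ?_⟩, h8, p, hp, by omega, hbad⟩)))))
            intro p' hp' hN' h9
            exact h7 ⟨p', hp', by omega, h9.1, h9.2⟩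
          · exact Or.inr (Or.inr (Or.inr (Or.inr (Or.inr (Or.inl ⟨hB, h8⟩)))))
      · exact Or.inr (Or.inr (Or.inr (Or.inl ⟨hB, h6⟩)))
  have hc2 := (card_le_card hsub).trans ((card_union_le _ _).trans (Nat.add_le_add_left ((card_union_le _ _).trans
    (Nat.add_le_add_left ((card_union_le _ _).trans (Nat.add_le_add_left ((card_union_le _ _).trans
      (Nat.add_le_add_left ((card_union_le _ _).trans (Nat.add_le_add_left (card_union_le _ _) _)) _)) _)) _)) _))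
  have hc3 : (((Bx (2 * g + 1) H N).filter (fun s => ClH M s.1 s.2 ∧ PosH s.1 s.2)).card : ℝ) ≤
      (((Bx (2 * g + 1) H N).filter (fun s => Pr (qOf s))).card : ℝ) +
        ((((Bx (2 * g + 1) H N).filter (fun s => ∃ p : ℕ, p.Prime ∧ w2 < p ∧ p ≤ 4 * N / M ∧ ClH M s.1 s.2 ∧ BdP p s.1 s.2)).card : ℝ) +
          ((((Bx (2 * g + 1) H N).filter (fun s => ∃ p : ℕ, p.Prime ∧ 4 * N / M < p ∧ p ≤ 4 * N ∧ BdP p s.1 s.2)).card : ℝ) +
            ((((Bx (2 * g + 1) H N).filter (fun s => ¬ Ty eH P0 z0 s.1 s.2)).card : ℝ) +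
              ((((Bx (2 * g + 1) H N).filter (fun s => s.2.1.1 ≠ 0 ∧ s.2.2.1 ≠ 0 ∧ ∃ p : ℕ, p.Prime ∧ N < p ∧
                (p : ℤ) ∣ disc s.2.1 ∧ (p : ℤ) ∣ disc s.2.2)).card : ℝ) +
                ((((Bx (2 * g + 1) H N).filter (fun s => ¬ NoCz (gA s.1) (gB s.1))).card : ℝ) +
                  (((Bx (2 * g + 1) H N).filter (fun s => PH_good N s.2 ∧ NoCz (gA s.1) (gB s.1) ∧
                    ∃ p : ℕ, p.Prime ∧ 4 * N < p ∧ BdP p s.1 s.2)).card : ℝ)))))) := by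
    exact_mod_cast hc2
  have hNA2 : 8 * A / ε ≤ N := (Nat.le_ceil _).trans (by exact_mod_cast hNA)
  have hAN : X * (A / N) ≤ X * ε / 8 := by
    have h1 : A / N ≤ ε / 8 := by
      rw [div_le_div_iff₀ hNr0 (by norm_num)]
      rw [div_le_iff₀ hε0] at hNA2
      linarith
    calc X * (A / N) ≤ X * (ε / 8) := mul_le_mul_of_nonneg_left h1 hX0.le
      _ = X * ε / 8 := by ring
  have hsplit : X * (A / N) = X * (60 * 8 ^ (2 * g + 8) * M / N) + X * (1701 * 3 ^ (2 * g + 2) / N) +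
      X * (((g : ℝ) + 2) * 3 ^ (2 * g + 7) / N) + X * (729 * C2 / N) := by
    rw [hA]
    ring
  have hgoal : ε / 2 * X = X * ε - X * ε / 4 - X * ε / 8 - X * ε / 8 := by ring
  rw [hgoal]
  linarith

end HNF
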