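import Pool.Agent.Lib.MP_1ad228_ntH.Defs
import Pool.Agent.Lib.MP_10e784_agF.LP
import Pool.Agent.Lib.MP_10e784_agF.LP2
import Pool.Agent.Lib.MP_10e784_agF.LM

/-! JOB A1 -/

set_option autoImplicit false

open Classical

namespace HNF

open Finset Polynomial FGO FQQ

private theorem A1_fib {M N : Type} [AddCommGroup M] [AddCommGroup N] [Fintype M] [Fintype N]
    (φ : M →+ N) (hs : Function.Surjective φ) :
    (Finset.univ.filter (fun x => φ x = 0)).card * Fintype.card N = Fintype.card M := by
  have h1 : Fintype.card M = ∑ y : N, (Finset.univ.filter (fun x => φ x = y)).card := by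
    rw [← Finset.card_univ]
    exact Finset.card_eq_sum_card_fiberwise (fun x _ => Finset.mem_coe.mpr (Finset.mem_univ _))
  have h2 : ∀ y : N, (Finset.univ.filter (fun x => φ x = y)).card = (Finset.univ.filter (fun x => φ x = 0)).card := by
    intro y
    obtain ⟨x0, hx0⟩ := hs y
    refine Finset.card_bij (fun x _ => x - x0) ?_ ?_ ?_
    · intro x hx
      rw [Finset.mem_filter] at hx ⊢
      exact ⟨Finset.mem_univ _, by rw [map_sub, hx.2, hx0, sub_self]⟩
    · intro a _ b _ hab
      exact sub_left_injective hab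
    · intro b hb
      rw [Finset.mem_filter] at hb
      exact ⟨b + x0, Finset.mem_filter.mpr ⟨Finset.mem_univ _, by rw [map_add, hb.2, hx0, zero_add]⟩,
        add_sub_cancel_right _ _⟩
  rw [h1, Finset.sum_congr rfl (fun y _ => h2 y), Finset.sum_const, smul_eq_mul, Finset.card_univ, mul_comm]

private theorem A1_ind {α : Type} [Fintype α] (P : α → Prop) :
    ∑ f, ind (P f) = ((Finset.univ.filter P).card : ℝ) := by
  unfold ind
  rw [Finset.sum_boole]

private theorem A1_add {F : Type} [CommRing F] {m : ℕ} (e : ℕ → ℕ × ℕ) (c d : Fin (m + 1) → F) (r q : F) :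
    hl e (c + d) r q = hl e c r q + hl e d r q := by
  unfold hl
  rw [← Finset.sum_add_distrib]
  refine Finset.sum_congr rfl (fun i _ => ?_)
  rw [Pi.add_apply]
  ring

private theorem A1_zero {F : Type} [CommRing F] {m : ℕ} (e : ℕ → ℕ × ℕ) (r q : F) :
    hl e (0 : Fin (m + 1) → F) r q = 0 := by
  unfold hl
  exact Finset.sum_eq_zero (fun i _ => by rw [Pi.zero_apply]; ring)

private theorem A1_single {F : Type} [CommRing F] {m : ℕ} (e : ℕ → ℕ × ℕ) (i : Fin (m + 1)) (c r q : F) :
    hl e (Pi.single i c) r q = c * (r ^ (e i).1 * q ^ (e i).2) := by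
  unfold hl
  rw [Finset.sum_eq_single i]
  · rw [Pi.single_eq_same]
  · intro b _ hb
    rw [Pi.single_eq_of_ne hb]
    ring
  · intro h
    exact absurd (Finset.mem_univ _) h

private def A1_h1 {F : Type} [CommRing F] (m : ℕ) (e : ℕ → ℕ × ℕ) (r q : F) : (Fin (m + 1) → F) →+ F where
  toFun c := hl e c r q
  map_zero' := A1_zero e r q
  map_add' c d := A1_add e c d r q

private def A1_h2 {F : Type} [CommRing F] (m : ℕ) (e : ℕ → ℕ × ℕ) (r q r' q' : F) :
    (Fin (m + 1) → F) →+ F × F where
  toFun c := (hl e c r q, hl e c r' q')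
  map_zero' := by
    rw [A1_zero, A1_zero]
    rfl
  map_add' c d := by
    rw [A1_add, A1_add]
    rfl

private theorem A1_card (m p : ℕ) [Fact p.Prime] : Fintype.card (Fin (m + 1) → ZMod p) = p ^ (m + 1) := by
  rw [Fintype.card_fun, ZMod.card, Fintype.card_fin]

private theorem A1_s0 {F : Type} [CommRing F] {m : ℕ} {e : ℕ → ℕ × ℕ} (he : Mon m e) (c r q : F) :
    hl e (Pi.single (0 : Fin (m + 1)) c) r q = c := by
  rw [A1_single, Fin.val_zero, he.e0, pow_zero, pow_zero, mul_one, mul_one]

private theorem A1_s1 {F : Type} [CommRing F] {m : ℕ} {e : ℕ → ℕ × ℕ} (he : Mon m e) (c r q : F) :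
    hl e (Pi.single (⟨1, by have := he.m3; omega⟩ : Fin (m + 1)) c) r q = c * r := by
  rw [A1_single]
  simp only [he.e1, pow_zero, pow_one, mul_one]

private theorem A1_s2 {F : Type} [CommRing F] {m : ℕ} {e : ℕ → ℕ × ℕ} (he : Mon m e) (c r q : F) :
    hl e (Pi.single (⟨2, by have := he.m3; omega⟩ : Fin (m + 1)) c) r q = c * q := by
  rw [A1_single]
  simp only [he.e2, pow_zero, pow_one, one_mul]

/-- Proof. `c ↦ hl e c r q` is additive and surjective (`c = Pi.single 0 x` gives `x`, as `e 0 = (0, 0)`), so it vanishes on `p^m` of the `p^(m+1)` vectors. (Model: `FQQ.mF_root`, private lemma `LP_fib` of LP.lean: the fibres of a surjective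
additive map have equal size.) -/
theorem mF_hl {m : ℕ} {e : ℕ → ℕ × ℕ} (he : Mon m e) (p : ℕ) [Fact p.Prime] (r q : ZMod p) :
    mF m p (fun c => ind (hl e c r q = 0)) = 1 / (p : ℝ) := by
  have hp : (0 : ℝ) < p := by exact_mod_cast (Fact.out : p.Prime).pos
  have hs : Function.Surjective (A1_h1 m e r q) := fun y => ⟨Pi.single 0 y, A1_s0 he y r q⟩
  have h1 := A1_fib (A1_h1 m e r q) hs
  rw [A1_card, ZMod.card] at h1
  unfold mF
  rw [A1_ind, div_eq_div_iff (by positivity) (by positivity), one_mul]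
  exact_mod_cast h1

/-- Proof. `c ↦ (hl e c r q, hl e c r' q')` is additive and surjective onto `F × F`: `Pi.single 0 x` gives `(x, x)`; if `r ≠ r'` then `Pi.single 1 y` (`e 1 = (1, 0)`) gives `(y r, y r')`, if `q ≠ q'` then `Pi.single 2 y` gives `(y q, y q')`.
(Model: `FQQ.mF_root2` in LP.lean.) -/
theorem mF_hl2 {m : ℕ} {e : ℕ → ℕ × ℕ} (he : Mon m e) (p : ℕ) [Fact p.Prime] (r q r' q' : ZMod p) (h : r ≠ r' ∨ q ≠ q') :
    mF m p (fun c => ind (hl e c r q = 0 ∧ hl e c r' q' = 0)) = 1 / (p : ℝ) ^ 2 := by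
  have hp : (0 : ℝ) < p := by exact_mod_cast (Fact.out : p.Prime).pos
  have hs : Function.Surjective (A1_h2 m e r q r' q') := by
    rintro ⟨y, y'⟩
    rcases h with h | h
    · have h0 : r - r' ≠ 0 := sub_ne_zero.2 h
      refine ⟨Pi.single (0 : Fin (m + 1)) (y - (y - y') / (r - r') * r) +
        Pi.single (⟨1, by have := he.m3; omega⟩ : Fin (m + 1)) ((y - y') / (r - r')), ?_⟩
      change (hl e _ r q, hl e _ r' q') = (y, y')
      rw [A1_add, A1_add, A1_s0 he, A1_s0 he, A1_s1 he, A1_s1 he]
      refine Prod.ext ?_ ?_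
      · change y - (y - y') / (r - r') * r + (y - y') / (r - r') * r = y
        ring
      · change y - (y - y') / (r - r') * r + (y - y') / (r - r') * r' = y'
        field_simp
        ring
    · have h0 : q - q' ≠ 0 := sub_ne_zero.2 h
      refine ⟨Pi.single (0 : Fin (m + 1)) (y - (y - y') / (q - q') * q) +
        Pi.single (⟨2, by have := he.m3; omega⟩ : Fin (m + 1)) ((y - y') / (q - q')), ?_⟩
      change (hl e _ r q, hl e _ r' q') = (y, y')
      rw [A1_add, A1_add, A1_s0 he, A1_s0 he, A1_s2 he, A1_s2 he]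
      refine Prod.ext ?_ ?_
      · change y - (y - y') / (q - q') * q + (y - y') / (q - q') * q = y
        ring
      · change y - (y - y') / (q - q') * q + (y - y') / (q - q') * q' = y'
        field_simp
        ring
  have h1 := A1_fib (A1_h2 m e r q r' q') hs
  rw [A1_card, Fintype.card_prod, ZMod.card] at h1
  have h2 : (fun c : Fin (m + 1) → ZMod p => ind (hl e c r q = 0 ∧ hl e c r' q' = 0)) =
      fun c => ind (A1_h2 m e r q r' q' c = 0) := by
    funext c
    have h3 : (hl e c r q = 0 ∧ hl e c r' q' = 0) = (A1_h2 m e r q r' q' c = 0) := by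
      refine propext ?_
      change _ ↔ (hl e c r q, hl e c r' q') = (0, 0)
      rw [Prod.mk.injEq]
    rw [h3]
  rw [h2]
  unfold mF
  rw [A1_ind, div_eq_div_iff (by positivity) (by positivity), one_mul, pow_two]
  exact_mod_cast h1

end HNF
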