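import Pool.Agent.Lib.MP_1ad228_ntH.A1
import Pool.Agent.Lib.MP_10e784_agF.LF

/-! JOB A2 -/

set_option autoImplicit false

open Classical

namespace HNF

open Finset Polynomial FGO FQQ

private theorem A2_and (P Q : Prop) : ind (P ∧ Q) = ind P * ind Q := by
  unfold ind
  by_cases hP : P <;> by_cases hQ : Q <;> simp [hP, hQ]

private theorem A2_root (p : ℕ) [Fact p.Prime] (r : ZMod p) :
    mQ p (fun v => ind (qv v r 1 = 0)) = 1 / (p : ℝ) :=
  mQ_root p r 1 (fun h => one_ne_zero h.2)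

private theorem A2_root2 (p : ℕ) [Fact p.Prime] (r r' : ZMod p) :
    mQ p (fun v => ind (qv v r 1 = 0 ∧ qv v r' 1 = 0)) = if r = r' then 1 / (p : ℝ) else 1 / (p : ℝ) ^ 2 := by
  by_cases h : r = r'
  · rw [if_pos h, ← A2_root p r]
    have h1 : (fun v : ZMod p × ZMod p × ZMod p => ind (qv v r 1 = 0 ∧ qv v r' 1 = 0)) =
        fun v => ind (qv v r 1 = 0) := by
      funext v
      rw [← h]
      exact congrArg ind (propext ⟨fun h2 => h2.1, fun h2 => ⟨h2, h2⟩⟩)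
    rw [h1]
  · rw [if_neg h]
    exact mQ_root2 p (some r) (some r') (fun h1 => h (Option.some.inj h1))

private theorem A2_S1 {α : Type} [Fintype α] (T : α → Prop) :
    ∑ P : α, ind (T P) = ((univ.filter T).card : ℝ) := by
  unfold ind
  rw [sum_boole]

private theorem A2_S2 {α : Type} [Fintype α] (T : α → Prop) :
    ∑ q ∈ (univ : Finset α).offDiag, ind (T q.1 ∧ T q.2) =
      ((univ.filter T).card : ℝ) ^ 2 - (univ.filter T).card := by
  have h1 : ∑ q ∈ (univ : Finset α).offDiag, ind (T q.1 ∧ T q.2) = (((univ.filter T).offDiag).card : ℝ) := by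
    have h2 : ∀ q : α × α, ind (T q.1 ∧ T q.2) = if T q.1 ∧ T q.2 then (1 : ℝ) else 0 := by
      intro q
      unfold ind
      by_cases h : T q.1 ∧ T q.2
      · rw [if_pos h, if_pos h]
      · rw [if_neg h, if_neg h]
    rw [sum_congr rfl (fun q _ => h2 q), sum_boole]
    refine congrArg _ (congrArg Finset.card ?_)
    ext q
    simp only [mem_filter, mem_offDiag, mem_univ, true_and]
    tauto
  rw [h1, offDiag_card, Nat.cast_sub (Nat.le_mul_self _)]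
  push_cast
  ring

private theorem A2_up {α : Type} [Fintype α] (T : α → Prop) :
    ind (∃ P, T P) ≤ ∑ P : α, ind (T P) := by
  by_cases h : ∃ P, T P
  · obtain ⟨P, hP⟩ := h
    have h1 : ind (∃ P, T P) = 1 := by
      unfold ind
      rw [if_pos ⟨P, hP⟩]
    have h2 : ind (T P) = 1 := by
      unfold ind
      rw [if_pos hP]
    rw [h1, ← h2]
    exact single_le_sum (f := fun P => ind (T P)) (fun Q _ => ind_nonneg (T Q)) (mem_univ P)
  · have h1 : ind (∃ P, T P) = 0 := by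
      unfold ind
      rw [if_neg h]
    rw [h1]
    exact sum_nonneg fun P _ => ind_nonneg (T P)

private theorem A2_low {α : Type} [Fintype α] (T : α → Prop) :
    ∑ P : α, ind (T P) + -(1 / 2) * ∑ q ∈ (univ : Finset α).offDiag, ind (T q.1 ∧ T q.2) ≤ ind (∃ P, T P) := by
  rw [A2_S1, A2_S2]
  by_cases h : ∃ P, T P
  · have h1 : ind (∃ P, T P) = 1 := by
      unfold ind
      rw [if_pos h]
    rw [h1]
    obtain ⟨P, hP⟩ := h
    have h2 : 0 < (univ.filter T).card := card_pos.mpr ⟨P, by simp [hP]⟩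
    obtain ⟨k, hk⟩ : ∃ k : ℕ, (univ.filter T).card = k + 1 := ⟨(univ.filter T).card - 1, by omega⟩
    rw [hk]
    push_cast
    have h3 : (0 : ℝ) ≤ (k : ℝ) * ((k : ℝ) - 1) := by
      rcases Nat.eq_zero_or_pos k with h4 | h4
      · rw [h4]
        simp
      · have h5 : (1 : ℝ) ≤ k := by exact_mod_cast h4
        exact mul_nonneg (by linarith) (by linarith)
    nlinarith
  · have h1 : ind (∃ P, T P) = 0 := by
      unfold ind
      rw [if_neg h]
    have h2 : (univ.filter T) = ∅ := by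
      rw [filter_eq_empty_iff]
      intro P _ hP
      exact h ⟨P, hP⟩
    rw [h1, h2]
    simp

private theorem A2_Ez {F : Type} [CommRing F] {m : ℕ} (e : ℕ → ℕ × ℕ) (c : Fin (m + 1) → F) (v w : F × F × F) :
    ind (Ez e c v w) = ind (∃ P : F × F, Zz e c v w P.1 P.2) := by
  refine congrArg ind (propext ?_)
  unfold Ez
  constructor
  · rintro ⟨r, q, h⟩
    exact ⟨(r, q), h⟩
  · rintro ⟨P, h⟩
    exact ⟨P.1, P.2, h⟩

private theorem A2_row (p : ℕ) [Fact p.Prime] (a : ZMod p) :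
    ∑ b : ZMod p, (if a = b then 1 / (p : ℝ) else 1 / (p : ℝ) ^ 2) = (2 * (p : ℝ) - 1) / (p : ℝ) ^ 2 := by
  have hp : (0 : ℝ) < p := by exact_mod_cast (Fact.out : p.Prime).pos
  have h1 : ∀ b : ZMod p, (if a = b then 1 / (p : ℝ) else 1 / (p : ℝ) ^ 2) =
      1 / (p : ℝ) ^ 2 + if a = b then 1 / (p : ℝ) - 1 / (p : ℝ) ^ 2 else 0 := by
    intro b
    by_cases h : a = b
    · rw [if_pos h, if_pos h]
      ring
    · rw [if_neg h, if_neg h, add_zero]
  rw [sum_congr rfl (fun b _ => h1 b), sum_add_distrib, sum_const, sum_ite_eq, if_pos (mem_univ a), card_univ,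
    ZMod.card, nsmul_eq_mul]
  field_simp
  ring

private theorem A2_sq (p : ℕ) [Fact p.Prime] :
    ∑ x ∈ (univ : Finset (ZMod p × ZMod p)).offDiag,
      (if x.1.1 = x.2.1 then 1 / (p : ℝ) else 1 / (p : ℝ) ^ 2) * (if x.1.2 = x.2.2 then 1 / (p : ℝ) else 1 / (p : ℝ) ^ 2) *
        (1 / (p : ℝ) ^ 2) ≤ 3 / (p : ℝ) ^ 2 := by
  have hp : (1 : ℝ) ≤ p := by exact_mod_cast (Fact.out : p.Prime).one_lt.le
  set g : (ZMod p × ZMod p) × (ZMod p × ZMod p) → ℝ := fun x =>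
    (if x.1.1 = x.2.1 then 1 / (p : ℝ) else 1 / (p : ℝ) ^ 2) * (if x.1.2 = x.2.2 then 1 / (p : ℝ) else 1 / (p : ℝ) ^ 2) *
        (1 / (p : ℝ) ^ 2) with hg
  have h1 : ∑ x ∈ (univ : Finset (ZMod p × ZMod p)).diag, g x + ∑ x ∈ (univ : Finset (ZMod p × ZMod p)).offDiag, g x =
      ∑ x : (ZMod p × ZMod p) × (ZMod p × ZMod p), g x := by
    rw [← sum_union (disjoint_diag_offDiag _), diag_union_offDiag]
    rfl
  have h2 : ∑ x ∈ (univ : Finset (ZMod p × ZMod p)).diag, g x = 1 / (p : ℝ) ^ 2 := by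
    rw [sum_diag]
    have h3 : ∀ y : ZMod p × ZMod p, g (y, y) = 1 / (p : ℝ) ^ 4 := by
      intro y
      rw [hg]
      simp only [if_true]
      field_simp
    rw [sum_congr rfl (fun y _ => h3 y), sum_const, card_univ, Fintype.card_prod, ZMod.card, nsmul_eq_mul]
    push_cast
    field_simp
  have h3 : ∑ x : (ZMod p × ZMod p) × (ZMod p × ZMod p), g x = (2 * (p : ℝ) - 1) ^ 2 / (p : ℝ) ^ 4 := by
    rw [Fintype.sum_prod_type]
    have h4 : ∀ y : ZMod p × ZMod p, ∑ z : ZMod p × ZMod p, g (y, z) = (2 * (p : ℝ) - 1) ^ 2 / (p : ℝ) ^ 6 := by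
      intro y
      rw [hg]
      simp only
      rw [← sum_mul, Fintype.sum_prod_type]
      simp only
      have h5 : ∑ a : ZMod p, ∑ b : ZMod p, (if y.1 = a then 1 / (p : ℝ) else 1 / (p : ℝ) ^ 2) *
          (if y.2 = b then 1 / (p : ℝ) else 1 / (p : ℝ) ^ 2) =
          (∑ a : ZMod p, if y.1 = a then 1 / (p : ℝ) else 1 / (p : ℝ) ^ 2) *
            ∑ b : ZMod p, if y.2 = b then 1 / (p : ℝ) else 1 / (p : ℝ) ^ 2 := by
        rw [sum_mul_sum]
      rw [h5, A2_row, A2_row]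
      field_simp
    rw [sum_congr rfl (fun y _ => h4 y), sum_const, card_univ, Fintype.card_prod, ZMod.card, nsmul_eq_mul]
    push_cast
    field_simp
  have h4 : (2 * (p : ℝ) - 1) ^ 2 / (p : ℝ) ^ 4 ≤ 1 / (p : ℝ) ^ 2 + 3 / (p : ℝ) ^ 2 := by
    rw [← add_div, div_le_div_iff₀ (by positivity) (by positivity)]
    have h5 : (2 * (p : ℝ) - 1) ^ 2 ≤ 4 * (p : ℝ) ^ 2 := by nlinarith
    have h6 : (0 : ℝ) ≤ (p : ℝ) ^ 2 := by positivity
    nlinarith [mul_le_mul_of_nonneg_right h5 h6]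
  linarith

/-- Proof. `Zz` is the conjunction of independent events; `Av_prod`, `mQ_root` (with `pt`-free form: point `(r, 1)`), `mF_hl`. -/
theorem Av_Zz {m : ℕ} {e : ℕ → ℕ × ℕ} (he : Mon m e) (p : ℕ) [Fact p.Prime] (r q : ZMod p) :
    Av m p (fun c v w => ind (Zz e c v w r q)) = 1 / (p : ℝ) ^ 3 := by
  have h1 : (fun (c : Fin (m + 1) → ZMod p) (v w : ZMod p × ZMod p × ZMod p) => ind (Zz e c v w r q)) =
      fun c v w => ind (hl e c r q = 0) * ind (qv v r 1 = 0) * ind (qv w q 1 = 0) := by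
    funext c v w
    rw [← A2_and, ← A2_and]
    exact congrArg ind (propext ⟨fun h => ⟨⟨h.2.2, h.1⟩, h.2.1⟩, fun h => ⟨h.1.2, h.2, h.1.1⟩⟩)
  rw [h1, Av_prod m p (fun c => ind (hl e c r q = 0)) (fun v => ind (qv v r 1 = 0)) (fun w => ind (qv w q 1 = 0)),
    mF_hl he, A2_root, A2_root]
  ring

/-- Proof. `Av_prod`; the factor of `v` is `1/p` if `r = r'` and `1/p²` otherwise (`mQ_root`, `mQ_root2 p (some r) (some r')`), the same for `w`, the factor of `c` is `1/p²` (`mF_hl2`). -/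
theorem Av_Zz2 {m : ℕ} {e : ℕ → ℕ × ℕ} (he : Mon m e) (p : ℕ) [Fact p.Prime] (r q r' q' : ZMod p) (h : r ≠ r' ∨ q ≠ q') :
    Av m p (fun c v w => ind (Zz e c v w r q ∧ Zz e c v w r' q')) ≤
      (if r = r' then 1 / (p : ℝ) else 1 / (p : ℝ) ^ 2) * (if q = q' then 1 / (p : ℝ) else 1 / (p : ℝ) ^ 2) * (1 / (p : ℝ) ^ 2) := by
  have h1 : (fun (c : Fin (m + 1) → ZMod p) (v w : ZMod p × ZMod p × ZMod p) =>
      ind (Zz e c v w r q ∧ Zz e c v w r' q')) =
      fun c v w => ind (hl e c r q = 0 ∧ hl e c r' q' = 0) * ind (qv v r 1 = 0 ∧ qv v r' 1 = 0) *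
        ind (qv w q 1 = 0 ∧ qv w q' 1 = 0) := by
    funext c v w
    rw [← A2_and, ← A2_and]
    exact congrArg ind (propext ⟨fun h => ⟨⟨⟨h.1.2.2, h.2.2.2⟩, h.1.1, h.2.1⟩, h.1.2.1, h.2.2.1⟩,
      fun h => ⟨⟨h.1.2.1, h.2.1, h.1.1.1⟩, h.1.2.2, h.2.2, h.1.1.2⟩⟩)
  rw [h1, Av_prod m p (fun c => ind (hl e c r q = 0 ∧ hl e c r' q' = 0)) (fun v => ind (qv v r 1 = 0 ∧ qv v r' 1 = 0))
    (fun w => ind (qv w q 1 = 0 ∧ qv w q' 1 = 0)), mF_hl2 he p r q r' q' h, A2_root2, A2_root2]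
  exact le_of_eq (by ring)

/-- Proof. Union bound over the `p²` pairs (model: `FQQ.Av_E_le` in LE.lean; `Av_sum`, `Av_mono`): `p²/p³`. -/
theorem Av_Ez_le {m : ℕ} {e : ℕ → ℕ × ℕ} (he : Mon m e) (p : ℕ) [Fact p.Prime] :
    Av m p (fun c v w => ind (Ez e c v w)) ≤ 1 / (p : ℝ) := by
  have hp : (0 : ℝ) < p := by exact_mod_cast (Fact.out : p.Prime).pos
  have h1 : Av m p (fun c v w => ind (Ez e c v w)) ≤
      Av m p (fun c v w => ∑ P : ZMod p × ZMod p, ind (Zz e c v w P.1 P.2)) := by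
    refine Av_mono m p _ _ fun c v w => ?_
    rw [A2_Ez]
    exact A2_up (fun P : ZMod p × ZMod p => Zz e c v w P.1 P.2)
  rw [Av_sum m p univ (fun (P : ZMod p × ZMod p) c v w => ind (Zz e c v w P.1 P.2)),
    sum_congr rfl (fun P _ => Av_Zz he p P.1 P.2), sum_const, card_univ, Fintype.card_prod, ZMod.card,
    nsmul_eq_mul] at h1
  refine h1.trans (le_of_eq ?_)
  push_cast
  field_simp

/-- Proof. `ind (∃ x, T x) ≥ ∑ ind (T x) - (1/2) ∑_{x ≠ x'} ind (T x ∧ T x')` (model: `FQQ.le_Av_E` in LE.lean). The pairs `(r, q) ≠ (r', q')`: `r = r'`, `q ≠ q'`: at most `p³` pairs with `1/p⁵`; `r ≠ r'`, `q = q'`: the same; `r ≠ r'`, `q ≠ q'`: at most `p⁴`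
pairs with `1/p⁶`. So the sum is `≤ 3/p²`. -/
theorem le_Av_Ez {m : ℕ} {e : ℕ → ℕ × ℕ} (he : Mon m e) (p : ℕ) [Fact p.Prime] :
    1 / (p : ℝ) - 3 / 2 / (p : ℝ) ^ 2 ≤ Av m p (fun c v w => ind (Ez e c v w)) := by
  have hp : (0 : ℝ) < p := by exact_mod_cast (Fact.out : p.Prime).pos
  have h1 : Av m p (fun c v w => ∑ P : ZMod p × ZMod p, ind (Zz e c v w P.1 P.2) +
      -(1 / 2) * ∑ x ∈ (univ : Finset (ZMod p × ZMod p)).offDiag,
        ind (Zz e c v w x.1.1 x.1.2 ∧ Zz e c v w x.2.1 x.2.2)) ≤ Av m p (fun c v w => ind (Ez e c v w)) := by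
    refine Av_mono m p _ _ fun c v w => ?_
    rw [A2_Ez]
    exact A2_low (fun P : ZMod p × ZMod p => Zz e c v w P.1 P.2)
  rw [Av_add m p (fun c v w => ∑ P : ZMod p × ZMod p, ind (Zz e c v w P.1 P.2))
    (fun c v w => -(1 / 2) * ∑ x ∈ (univ : Finset (ZMod p × ZMod p)).offDiag,
        ind (Zz e c v w x.1.1 x.1.2 ∧ Zz e c v w x.2.1 x.2.2)),
    Av_smul m p (-(1 / 2)) (fun c v w => ∑ x ∈ (univ : Finset (ZMod p × ZMod p)).offDiag,
        ind (Zz e c v w x.1.1 x.1.2 ∧ Zz e c v w x.2.1 x.2.2)),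
    Av_sum m p univ (fun (P : ZMod p × ZMod p) c v w => ind (Zz e c v w P.1 P.2)),
    sum_congr rfl (fun P _ => Av_Zz he p P.1 P.2), sum_const, card_univ, Fintype.card_prod, ZMod.card,
    nsmul_eq_mul,
    Av_sum m p (univ : Finset (ZMod p × ZMod p)).offDiag
      (fun x c v w => ind (Zz e c v w x.1.1 x.1.2 ∧ Zz e c v w x.2.1 x.2.2))] at h1
  have h2 : ∑ x ∈ (univ : Finset (ZMod p × ZMod p)).offDiag,
      Av m p (fun c v w => ind (Zz e c v w x.1.1 x.1.2 ∧ Zz e c v w x.2.1 x.2.2)) ≤ 3 / (p : ℝ) ^ 2 := by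
    refine le_trans (sum_le_sum fun x hx => ?_) (A2_sq p)
    refine Av_Zz2 he p x.1.1 x.1.2 x.2.1 x.2.2 ?_
    have h3 := (mem_offDiag.1 hx).2.2
    by_contra h4
    rw [not_or, not_not, not_not] at h4
    exact h3 (Prod.ext h4.1 h4.2)
  have h3 : ((p * p : ℕ) : ℝ) * (1 / (p : ℝ) ^ 3) = 1 / (p : ℝ) := by
    push_cast
    field_simp
  rw [h3] at h1
  have h4 : 3 / 2 / (p : ℝ) ^ 2 = 1 / 2 * (3 / (p : ℝ) ^ 2) := by ring
  rw [h4]
  linarith

end HNF
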