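import Pool.Agent.Lib.MP_1ad228_ntH.A2

/-! JOB A3 -/

set_option autoImplicit false

open Classical

namespace HNF

open Finset Polynomial FGO FQQ

private theorem A3_ind3 (a b c : Prop) : ind (a ∧ b ∧ c) = ind a * ind b * ind c := by
  unfold ind
  by_cases ha : a <;> by_cases hb : b <;> by_cases hc : c <;> simp [ha, hb, hc]

/-- independence for three events -/
private theorem A3_prod (m p : ℕ) [Fact p.Prime] (A : (Fin (m + 1) → ZMod p) → Prop) (B C : ZMod p × ZMod p × ZMod p → Prop) :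
    Av m p (fun f v w => ind (A f ∧ B v ∧ C w)) =
      mF m p (fun f => ind (A f)) * mQ p (fun v => ind (B v)) * mQ p (fun w => ind (C w)) := by
  rw [← Av_prod]
  simp only [A3_ind3]

private theorem A3_ind_le_sum {ι : Type} (s : Finset ι) (A : Prop) (B : ι → Prop) (h : A → ∃ i ∈ s, B i) :
    ind A ≤ ∑ i ∈ s, ind (B i) := by
  by_cases hA : A
  · obtain ⟨i, hi, hB⟩ := h hA
    have h1 : ind (B i) ≤ ∑ i ∈ s, ind (B i) := Finset.single_le_sum (fun i _ => ind_nonneg (B i)) hi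
    refine le_trans ?_ h1
    exact ind_mono fun _ => hB
  · have h1 : ind A = 0 := by
      unfold ind
      rw [if_neg hA]
    rw [h1]
    exact Finset.sum_nonneg fun i _ => ind_nonneg (B i)

private theorem A3_card (p : ℕ) [Fact p.Prime] : ((Finset.univ : Finset (ZMod p × ZMod p)).card : ℝ) = (p : ℝ) ^ 2 := by
  rw [Finset.card_univ, Fintype.card_prod, ZMod.card]
  push_cast
  ring

private theorem A3_root (p : ℕ) [Fact p.Prime] (r : ZMod p) : mQ p (fun v => ind (qv v r 1 = 0)) = 1 / (p : ℝ) :=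
  mQ_root p r 1 (fun h => one_ne_zero h.2)

/-- Proof. Union bound over the pairs `(r, q)`: `Av (ind (Zz r q ∧ ds v = 0)) = (1/p²)(1/p)(1/p)` (`mQ_disc_root p h2 (some r)`, `mQ_root`, `mF_hl`, `Av_prod`): total `p²/p⁴`. -/
theorem Av_EzD0 {m : ℕ} {e : ℕ → ℕ × ℕ} (he : Mon m e) (p : ℕ) [Fact p.Prime] (h2 : p ≠ 2) :
    Av m p (fun c v w => ind (Ez e c v w ∧ ds v = 0)) ≤ 1 / (p : ℝ) ^ 2 := by
  have hp0 : (0 : ℝ) < p := by exact_mod_cast (Fact.out : p.Prime).pos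
  have h1 : Av m p (fun c v w => ind (Ez e c v w ∧ ds v = 0)) ≤
      Av m p (fun c v w => ∑ x ∈ (Finset.univ : Finset (ZMod p × ZMod p)),
        ind (hl e c x.1 x.2 = 0 ∧ (ds v = 0 ∧ qv v x.1 1 = 0) ∧ qv w x.2 1 = 0)) := by
    refine Av_mono m p _ _ fun c v w => ?_
    refine A3_ind_le_sum _ _ (fun x : ZMod p × ZMod p =>
      hl e c x.1 x.2 = 0 ∧ (ds v = 0 ∧ qv v x.1 1 = 0) ∧ qv w x.2 1 = 0) ?_
    rintro ⟨⟨r, q, h3, h4, h5⟩, h6⟩
    exact ⟨(r, q), Finset.mem_univ _, h5, ⟨h6, h3⟩, h4⟩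
  refine h1.trans ?_
  rw [Av_sum]
  have h7 : ∀ x : ZMod p × ZMod p, Av m p (fun c v w =>
      ind (hl e c x.1 x.2 = 0 ∧ (ds v = 0 ∧ qv v x.1 1 = 0) ∧ qv w x.2 1 = 0)) = 1 / (p : ℝ) ^ 4 := by
    intro x
    rw [A3_prod m p (fun c => hl e c x.1 x.2 = 0) (fun v => ds v = 0 ∧ qv v x.1 1 = 0) (fun w => qv w x.2 1 = 0),
      mF_hl he p x.1 x.2, A3_root p x.2]
    have h8 : mQ p (fun v => ind (ds v = 0 ∧ qv v x.1 1 = 0)) = 1 / (p : ℝ) ^ 2 := mQ_disc_root p h2 (some x.1)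
    rw [h8]
    field_simp
  simp only [h7]
  rw [Finset.sum_const, nsmul_eq_mul, A3_card]
  apply le_of_eq
  field_simp

/-- Proof. The same for `w`. -/
theorem Av_EzD1 {m : ℕ} {e : ℕ → ℕ × ℕ} (he : Mon m e) (p : ℕ) [Fact p.Prime] (h2 : p ≠ 2) :
    Av m p (fun c v w => ind (Ez e c v w ∧ ds w = 0)) ≤ 1 / (p : ℝ) ^ 2 := by
  have hp0 : (0 : ℝ) < p := by exact_mod_cast (Fact.out : p.Prime).pos
  have h1 : Av m p (fun c v w => ind (Ez e c v w ∧ ds w = 0)) ≤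
      Av m p (fun c v w => ∑ x ∈ (Finset.univ : Finset (ZMod p × ZMod p)),
        ind (hl e c x.1 x.2 = 0 ∧ qv v x.1 1 = 0 ∧ (ds w = 0 ∧ qv w x.2 1 = 0))) := by
    refine Av_mono m p _ _ fun c v w => ?_
    refine A3_ind_le_sum _ _ (fun x : ZMod p × ZMod p =>
      hl e c x.1 x.2 = 0 ∧ qv v x.1 1 = 0 ∧ (ds w = 0 ∧ qv w x.2 1 = 0)) ?_
    rintro ⟨⟨r, q, h3, h4, h5⟩, h6⟩
    exact ⟨(r, q), Finset.mem_univ _, h5, h3, h6, h4⟩
  refine h1.trans ?_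
  rw [Av_sum]
  have h7 : ∀ x : ZMod p × ZMod p, Av m p (fun c v w =>
      ind (hl e c x.1 x.2 = 0 ∧ qv v x.1 1 = 0 ∧ (ds w = 0 ∧ qv w x.2 1 = 0))) = 1 / (p : ℝ) ^ 4 := by
    intro x
    rw [A3_prod m p (fun c => hl e c x.1 x.2 = 0) (fun v => qv v x.1 1 = 0) (fun w => ds w = 0 ∧ qv w x.2 1 = 0),
      mF_hl he p x.1 x.2, A3_root p x.1]
    have h8 : mQ p (fun w => ind (ds w = 0 ∧ qv w x.2 1 = 0)) = 1 / (p : ℝ) ^ 2 := mQ_disc_root p h2 (some x.2)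
    rw [h8]
    field_simp
  simp only [h7]
  rw [Finset.sum_const, nsmul_eq_mul, A3_card]
  apply le_of_eq
  field_simp

private theorem A3_bonf (a b c : Prop) :
    ind a + ind b + ind c ≤ ind (a ∨ b ∨ c) + (ind (a ∧ b) + ind (a ∧ c) + ind (b ∧ c)) := by
  unfold ind
  by_cases ha : a <;> by_cases hb : b <;> by_cases hc : c <;> simp [ha, hb, hc]

private theorem A3_union (a b c : Prop) : ind (a ∨ b ∨ c) ≤ ind a + ind b + ind c := by
  unfold ind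
  by_cases ha : a <;> by_cases hb : b <;> by_cases hc : c <;> simp [ha, hb, hc]

/-- Proof. `ind (a ∨ b ∨ c) ≥ ind a + ind b + ind c - ind (a ∧ b) - ind (a ∧ c) - ind (b ∧ c)` and `≤ ind a + ind b + ind c`; `le_Av_Ez`, `Av_Ez_le`, `FQQ.Av_D` (`Dc v w 0 = ds v`, `Dc v w 1 = ds w` by `rfl`), `Av_EzD0`, `Av_EzD1`, `FQQ.Av_DD`.
`1/p - 3/2/p² + 1/p + 1/p - 3/p² ≥ 3/p - 5/p²`. -/
theorem Av_Em1 {m : ℕ} {e : ℕ → ℕ × ℕ} (he : Mon m e) (p : ℕ) [Fact p.Prime] (h2 : p ≠ 2) :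
    3 / (p : ℝ) - 5 / (p : ℝ) ^ 2 ≤ Av m p (fun c v w => ind (Em1 e c v w)) ∧
      Av m p (fun c v w => ind (Em1 e c v w)) ≤ 3 / (p : ℝ) := by
  have hp0 : (0 : ℝ) < p := by exact_mod_cast (Fact.out : p.Prime).pos
  have hsum : Av m p (fun c v w => ind (Ez e c v w) + ind (ds v = 0) + ind (ds w = 0)) =
      Av m p (fun c v w => ind (Ez e c v w)) + Av m p (fun _ v _ => ind (ds v = 0)) + Av m p (fun _ _ w => ind (ds w = 0)) := by
    rw [Av_add m p (fun c v w => ind (Ez e c v w) + ind (ds v = 0)) (fun _ _ w => ind (ds w = 0)),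
      Av_add m p (fun c v w => ind (Ez e c v w)) (fun _ v _ => ind (ds v = 0))]
  have d0 : Av m p (fun _ v _ => ind (ds v = 0)) = 1 / (p : ℝ) := Av_D m p h2 0
  have d1 : Av m p (fun _ _ w => ind (ds w = 0)) = 1 / (p : ℝ) := Av_D m p h2 1
  have dd : Av m p (fun _ v w => ind (ds v = 0 ∧ ds w = 0)) = 1 / (p : ℝ) ^ 2 := Av_DD m p h2
  have s3 : 3 / (p : ℝ) = 3 * (1 / (p : ℝ)) := by ring
  constructor
  · have h1 : Av m p (fun c v w => ind (Ez e c v w) + ind (ds v = 0) + ind (ds w = 0)) ≤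
        Av m p (fun c v w => ind (Em1 e c v w) +
          (ind (Ez e c v w ∧ ds v = 0) + ind (Ez e c v w ∧ ds w = 0) + ind (ds v = 0 ∧ ds w = 0))) :=
      Av_mono m p _ _ fun c v w => A3_bonf _ _ _
    have h4 : Av m p (fun c v w => ind (Em1 e c v w) +
          (ind (Ez e c v w ∧ ds v = 0) + ind (Ez e c v w ∧ ds w = 0) + ind (ds v = 0 ∧ ds w = 0))) =
        Av m p (fun c v w => ind (Em1 e c v w)) + (Av m p (fun c v w => ind (Ez e c v w ∧ ds v = 0)) +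
          Av m p (fun c v w => ind (Ez e c v w ∧ ds w = 0)) + Av m p (fun _ v w => ind (ds v = 0 ∧ ds w = 0))) := by
      rw [Av_add m p (fun c v w => ind (Em1 e c v w)) (fun c v w =>
          ind (Ez e c v w ∧ ds v = 0) + ind (Ez e c v w ∧ ds w = 0) + ind (ds v = 0 ∧ ds w = 0)),
        Av_add m p (fun c v w => ind (Ez e c v w ∧ ds v = 0) + ind (Ez e c v w ∧ ds w = 0))
          (fun _ v w => ind (ds v = 0 ∧ ds w = 0)),
        Av_add m p (fun c v w => ind (Ez e c v w ∧ ds v = 0)) (fun c v w => ind (Ez e c v w ∧ ds w = 0))]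
    rw [hsum, h4, d0, d1, dd] at h1
    have e0 := le_Av_Ez he p
    have e1 := Av_EzD0 he p h2
    have e2 := Av_EzD1 he p h2
    have s5 : 5 / (p : ℝ) ^ 2 = 5 * (1 / (p : ℝ) ^ 2) := by ring
    have s6 : 3 / 2 / (p : ℝ) ^ 2 = 3 / 2 * (1 / (p : ℝ) ^ 2) := by ring
    have hp2 : 0 ≤ 1 / (p : ℝ) ^ 2 := by positivity
    rw [s3, s5]
    rw [s6] at e0
    linarith
  · have h1 : Av m p (fun c v w => ind (Em1 e c v w)) ≤
        Av m p (fun c v w => ind (Ez e c v w) + ind (ds v = 0) + ind (ds w = 0)) :=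
      Av_mono m p _ _ fun c v w => A3_union _ _ _
    rw [hsum, d0, d1] at h1
    have e0 := Av_Ez_le he p
    rw [s3]
    linarith

end HNF
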