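import Pool.Agent.Lib.MP_1ad228_ntH.Defs
import Pool.Agent.Lib.MP_10e784_agF.LG
import Pool.Agent.Lib.MP_10e784_agF.LF
import Pool.Agent.Lib.MP_10e784_agF.LC

/-! JOB A4 -/

set_option autoImplicit false

open Classical

namespace HNF

open Finset Polynomial FGO FQQ

private theorem A4_aux (p : ℕ) [Fact p.Prime] (h2 : p ≠ 2) (δ : ZMod p) :
    mQ p (fun v => ind (ds v = 0 ∧ Sq (δ * v.1))) ≤ 1 / (2 * (p : ℝ)) := by
  obtain ⟨c, hc0, hc⟩ := exists_nonsq p h2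
  have h1 : mQ p (fun v => ind (ds (c • v) = 0 ∧ Sq (δ * (c • v).1))) =
      mQ p (fun v => ind (ds v = 0 ∧ Sq (δ * v.1))) :=
    mQ_scale p c hc0 (fun v => ind (ds v = 0 ∧ Sq (δ * v.1)))
  have h3 : mQ p (fun v => ind (ds v = 0 ∧ Sq (δ * v.1)) + ind (ds (c • v) = 0 ∧ Sq (δ * (c • v).1))) ≤
      mQ p (fun v => ind (ds v = 0)) := by
    refine mQ_mono p _ _ fun v => ?_
    by_cases hd : ds v = 0
    · have h5 : ¬ ((ds v = 0 ∧ Sq (δ * v.1)) ∧ (ds (c • v) = 0 ∧ Sq (δ * (c • v).1))) := by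
        rintro ⟨⟨_, h6⟩, ⟨_, h7⟩⟩
        apply not_sq_mul h6 hc
        have h8 : δ * (c • v).1 = c * (δ * v.1) := by
          have h9 : (c • v).1 = c * v.1 := rfl
          rw [h9]
          ring
        rw [h8] at h7
        exact h7
      unfold ind
      rw [if_pos hd]
      by_cases h6 : ds v = 0 ∧ Sq (δ * v.1)
      · rw [if_pos h6, if_neg fun h7 => h5 ⟨h6, h7⟩]
        norm_num
      · rw [if_neg h6]
        split_ifs <;> norm_num
    · have h5 : ¬ (ds v = 0 ∧ Sq (δ * v.1)) := fun h => hd h.1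
      have h6 : ¬ (ds (c • v) = 0 ∧ Sq (δ * (c • v).1)) := by
        intro h
        have h7 : ds (c • v) = 0 := h.1
        rw [ds_cmul] at h7
        exact (mul_ne_zero (pow_ne_zero 2 hc0) hd) h7
      unfold ind
      rw [if_neg h5, if_neg h6, if_neg hd]
      norm_num
  rw [mQ_add, h1, mQ_disc p h2] at h3
  have e : 1 / (2 * (p : ℝ)) = 1 / (p : ℝ) / 2 := by
    rw [div_div, mul_comm]
  rw [e]
  linarith

/-- Proof. (Model: `FQQ.Av_C0` in LC.lean.) Take `c0` nonsquare (`exists_nonsq`) and replace `v` by `c0 • v` (`mQ_scale`): `ds (c0 • v) = c0² ds v`, `(c0 • v).1 = c0 v.1`, and `Sq (δ v.1)`, `Sq (δ c0 v.1)` are not both true (`not_sq_mul`).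
So `ind(v) + ind(c0 v) ≤ ind (ds v = 0)`, mean value `1/p` (`mQ_disc`). -/
theorem Av_C0' (m p : ℕ) [Fact p.Prime] (h2 : p ≠ 2) (δ : ZMod p) :
    Av m p (fun _ v _ => ind (ds v = 0 ∧ Sq (δ * v.1))) ≤ 1 / (2 * (p : ℝ)) := by
  have h : Av m p (fun _ v _ => ind (ds v = 0 ∧ Sq (δ * v.1))) = mQ p (fun v => ind (ds v = 0 ∧ Sq (δ * v.1))) := by
    unfold Av
    congr 1
    funext v
    simp only [mF_const, mQ_const]
  rw [h]
  exact A4_aux p h2 δ

/-- Proof. The same with `w`. -/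
theorem Av_C1' (m p : ℕ) [Fact p.Prime] (h2 : p ≠ 2) (δ : ZMod p) :
    Av m p (fun _ _ w => ind (ds w = 0 ∧ Sq (δ * w.1))) ≤ 1 / (2 * (p : ℝ)) := by
  have h : Av m p (fun _ _ w => ind (ds w = 0 ∧ Sq (δ * w.1))) = mQ p (fun _ => mQ p (fun w => ind (ds w = 0 ∧ Sq (δ * w.1)))) := by
    unfold Av
    congr 1
    funext v
    congr 1
    funext w
    simp only [mF_const]
  rw [h, mQ_const]
  exact A4_aux p h2 δ

end HNF
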