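import Pool.Agent.Lib.MP_1ad228_ntH.A3
import Pool.Agent.Lib.MP_1ad228_ntH.A4
import Pool.Agent.Lib.MP_10e784_agF.LT
import Pool.Agent.Lib.MP_10e784_agF.LS
import Pool.Agent.Lib.MP_10e784_agF.KT1

/-! JOB A5 -/

set_option autoImplicit false

open Classical

namespace HNF

open Finset Polynomial FGO FQQ

theorem Per3_gp1 {m : ℕ} (e : ℕ → ℕ × ℕ) (p : ℕ) (δ : ℤ) (l : Lb) : Per3 p (gp1 (m := m) e δ l p) :=
  Per3_of m p (fun c v w => ind (Ev1 e (δ : ZMod p) c v w l))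

theorem Per3_xo1 {m : ℕ} (e : ℕ → ℕ × ℕ) (p : ℕ) : Per3 p (xo1 (m := m) e p) :=
  Per3_of m p (fun c v w => ind (Em1 e c v w))

theorem Per3_ie1 {m : ℕ} (e : ℕ → ℕ × ℕ) (p : ℕ) : Per3 p (ie1 (m := m) e p) :=
  Per3_of m p (fun c v w => ind (Ez e c v w))

theorem gp1_nonneg {m : ℕ} (e : ℕ → ℕ × ℕ) (p : ℕ) (δ : ℤ) (l : Lb) (f : Vn m) (u : V × V) :
    0 ≤ gp1 e δ l p f u ∧ gp1 e δ l p f u ≤ 1 :=
  ⟨ind_nonneg _, ind_le_one _⟩

theorem xo1_nonneg {m : ℕ} (e : ℕ → ℕ × ℕ) (p : ℕ) (f : Vn m) (u : V × V) : 0 ≤ xo1 e p f u ∧ xo1 e p f u ≤ 1 :=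
  ⟨ind_nonneg _, ind_le_one _⟩

theorem gp1_O {m : ℕ} (e : ℕ → ℕ × ℕ) (p : ℕ) (δ : ℤ) (f : Vn m) (u : V × V) :
    gp1 e δ Lb.O p f u = 1 - xo1 e p f u := by
  unfold gp1 xo1
  by_cases h : Em1 e (cN p f) (cV p u.1) (cV p u.2)
  · have h1 : ind (Ev1 e (δ : ZMod p) (cN p f) (cV p u.1) (cV p u.2) Lb.O) = 0 := if_neg (fun h1 => h1 h)
    have h2 : ind (Em1 e (cN p f) (cV p u.1) (cV p u.2)) = 1 := if_pos h
    rw [h1, h2, sub_self]
  · have h1 : ind (Ev1 e (δ : ZMod p) (cN p f) (cV p u.1) (cV p u.2) Lb.O) = 1 := if_pos h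
    have h2 : ind (Em1 e (cN p f) (cV p u.1) (cV p u.2)) = 0 := if_neg h
    rw [h1, h2, sub_zero]

/-- The densities of the labels. Proof. (Models: `FQQ.E3_gp`, `E3_xo`, `E3_ie` in LS.lean.) `E3_eq_Av`; `cases l`; `Lb.O`: `ind ≤ 1` (`Av_mono`, `Av_const`); `Lb.A`, `Lb.B`: `Av_Ez_le`; `Lb.C0`: `Av_C0'`; `Lb.C1`: `Av_C1'`. -/
theorem E3_gp1 {m : ℕ} {e : ℕ → ℕ × ℕ} (he : Mon m e) (p : ℕ) (hp : p.Prime) (h2 : p ≠ 2) (δ : ℤ) (l : Lb) :
    E3 m p (gp1 e δ l p) ≤ eb1 l p := by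
  have : Fact p.Prime := ⟨hp⟩
  have h := E3_eq_Av m p (fun c v w => ind (Ev1 e (δ : ZMod p) c v w l))
  have h' : E3 m p (gp1 e δ l p) = Av m p (fun c v w => ind (Ev1 e (δ : ZMod p) c v w l)) := h
  rw [h']
  cases l with
  | O =>
    have h1 := Av_mono m p (fun c v w => ind (Ev1 e (δ : ZMod p) c v w Lb.O)) (fun _ _ _ => 1)
      (fun _ _ _ => ind_le_one _)
    rw [Av_const] at h1
    exact h1
  | A => exact Av_Ez_le he p
  | B => exact Av_Ez_le he p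
  | C0 => exact Av_C0' m p h2 _
  | C1 => exact Av_C1' m p h2 _

theorem E3_xo1 {m : ℕ} {e : ℕ → ℕ × ℕ} (he : Mon m e) (p : ℕ) (hp : p.Prime) (h2 : p ≠ 2) :
    dn3 p ≤ E3 m p (xo1 e p) ∧ E3 m p (xo1 e p) ≤ 3 / (p : ℝ) := by
  have : Fact p.Prime := ⟨hp⟩
  have h := E3_eq_Av m p (fun c v w => ind (Em1 e c v w))
  have h' : E3 m p (xo1 e p) = Av m p (fun c v w => ind (Em1 e c v w)) := h
  rw [h']
  exact Av_Em1 he p h2

theorem E3_ie1 {m : ℕ} {e : ℕ → ℕ × ℕ} (he : Mon m e) (p : ℕ) (hp : p.Prime) : E3 m p (ie1 e p) ≤ 1 / (p : ℝ) := by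
  have : Fact p.Prime := ⟨hp⟩
  have h := E3_eq_Av m p (fun c v w => ind (Ez e c v w))
  have h' : E3 m p (ie1 e p) = Av m p (fun c v w => ind (Ez e c v w)) := h
  rw [h']
  exact Av_Ez_le he p

/-- the affine zeros of a quadratic form with nonzero discriminant -/
theorem A5_zeros {p : ℕ} [Fact p.Prime] (w : ZMod p × ZMod p × ZMod p) (hw : ds w ≠ 0) :
    (univ.filter fun r : ZMod p => qv w r 1 = 0).card ≤ 2 := by
  obtain ⟨a, b, c⟩ := w
  have hd : b ^ 2 - 4 * a * c ≠ 0 := hw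
  by_cases ha : a = 0
  · have hb : b ≠ 0 := by
      rintro rfl
      apply hd
      rw [ha]
      ring
    have hsub : (univ.filter fun r : ZMod p => qv (a, b, c) r 1 = 0) ⊆ {-c / b} := by
      intro r hr
      rw [mem_filter] at hr
      have h2 : a * r ^ 2 + b * r * 1 + c * 1 ^ 2 = 0 := hr.2
      rw [ha] at h2
      rw [mem_singleton, eq_div_iff hb]
      linear_combination h2
    refine (card_le_card hsub).trans ?_
    rw [card_singleton]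
    norm_num
  · by_cases hr : ∃ r : ZMod p, a * r ^ 2 + b * r + c = 0
    · obtain ⟨r0, hr0⟩ := hr
      have hsub : (univ.filter fun r : ZMod p => qv (a, b, c) r 1 = 0) ⊆ {r0, -b / a - r0} := by
        intro r hr
        rw [mem_filter] at hr
        have h2 : a * r ^ 2 + b * r * 1 + c * 1 ^ 2 = 0 := hr.2
        have h3 : (r - r0) * (a * (r + r0) + b) = 0 := by
          linear_combination h2 - hr0
        rcases mul_eq_zero.1 h3 with h4 | h4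
        · rw [sub_eq_zero.1 h4]
          simp
        · have h5 : r = -b / a - r0 := by
            rw [eq_sub_iff_add_eq, eq_div_iff ha]
            linear_combination h4
          rw [h5]
          simp
      exact (card_le_card hsub).trans (card_le_two)
    · have hsub : (univ.filter fun r : ZMod p => qv (a, b, c) r 1 = 0) ⊆ ∅ := by
        intro r hr'
        rw [mem_filter] at hr'
        have h2 : a * r ^ 2 + b * r * 1 + c * 1 ^ 2 = 0 := hr'.2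
        exfalso
        apply hr
        refine ⟨r, ?_⟩
        linear_combination h2
      refine (card_le_card hsub).trans ?_
      rw [card_empty]
      norm_num

/-- Proof. `ds (cV p u.1) ≠ 0`, `ds (cV p u.2) ≠ 0`: both polynomials `Pq` are nonzero of degree `≤ 2`, so at most two roots each: at most four pairs `(r, q)`; union bound with `mF_hl` (`ExN_eq_mF`; `xo1 = ind (Ez ..)` in this case). (Model: `FQQ.ExN_xo` in LS.lean.) -/
theorem ExN_xo1 {m : ℕ} {e : ℕ → ℕ × ℕ} (he : Mon m e) (p : ℕ) (hp : p.Prime) (u : V × V) (h1 : ds (cV p u.1) ≠ 0)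
    (h2 : ds (cV p u.2) ≠ 0) : ExN m p (fun f => xo1 e p f u) ≤ 4 / (p : ℝ) := by
  have : Fact p.Prime := ⟨hp⟩
  obtain ⟨v, hv⟩ : ∃ v, v = cV p u.1 := ⟨_, rfl⟩
  obtain ⟨w, hw⟩ : ∃ w, w = cV p u.2 := ⟨_, rfl⟩
  have hE : ExN m p (fun f => xo1 e p f u) = mF m p (fun c => ind (Em1 e c v w)) := by
    rw [hv, hw]
    exact ExN_eq_mF m p (fun c => ind (Em1 e c (cV p u.1) (cV p u.2)))
  rw [hE]
  rw [← hv] at h1
  rw [← hw] at h2
  obtain ⟨S, hS⟩ : ∃ S : Finset (ZMod p × ZMod p),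
      S = (univ.filter fun r : ZMod p => qv v r 1 = 0) ×ˢ (univ.filter fun r : ZMod p => qv w r 1 = 0) := ⟨_, rfl⟩
  have hcard : S.card ≤ 4 := by
    rw [hS, card_product]
    exact (Nat.mul_le_mul (A5_zeros v h1) (A5_zeros w h2))
  have hle : ∀ c : Fin (m + 1) → ZMod p, ind (Em1 e c v w) ≤ ∑ x ∈ S, ind (hl e c x.1 x.2 = 0) := by
    intro c
    by_cases hEm : Em1 e c v w
    · have hi : ind (Em1 e c v w) = 1 := if_pos hEm
      rw [hi]
      rcases hEm with ⟨r, q, hr, hq, hh⟩ | h | h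
      · have hm : (r, q) ∈ S := by
          rw [hS, mem_product]
          exact ⟨mem_filter.2 ⟨mem_univ _, hr⟩, mem_filter.2 ⟨mem_univ _, hq⟩⟩
        have h3 := single_le_sum (f := fun x : ZMod p × ZMod p => ind (hl e c x.1 x.2 = 0))
          (fun _ _ => ind_nonneg _) hm
        have h4 : ind (hl e c r q = 0) = 1 := if_pos hh
        have h5 : ind (hl e c r q = 0) ≤ ∑ x ∈ S, ind (hl e c x.1 x.2 = 0) := h3
        linarith
      · exact absurd h h1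
      · exact absurd h h2
    · have hi : ind (Em1 e c v w) = 0 := if_neg hEm
      rw [hi]
      exact sum_nonneg fun _ _ => ind_nonneg _
  refine (mF_mono m p _ _ hle).trans ?_
  rw [mF_sum, Finset.sum_congr rfl fun x _ => mF_hl he p x.1 x.2, sum_const, nsmul_eq_mul]
  have h3 : (S.card : ℝ) ≤ 4 := by exact_mod_cast hcard
  have h4 : (0 : ℝ) ≤ 1 / (p : ℝ) := by positivity
  calc (S.card : ℝ) * (1 / (p : ℝ)) ≤ 4 * (1 / (p : ℝ)) := mul_le_mul_of_nonneg_right h3 h4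
    _ = 4 / (p : ℝ) := by ring

theorem xo1_eq_one {m : ℕ} (e : ℕ → ℕ × ℕ) (p : ℕ) (u : V × V) (h : ds (cV p u.1) = 0 ∨ ds (cV p u.2) = 0) (f : Vn m) :
    xo1 e p f u = 1 := by
  have hEm : Em1 e (cN p f) (cV p u.1) (cV p u.2) := Or.inr h
  exact if_pos hEm

/-- Proof. `ind (¬ TypP1) ≤ ind (Ez ∧ ds v = 0) + ind (Ez ∧ ds w = 0) + ind (ds v = 0 ∧ ds w = 0)`; `E3_eq_Av`, `Av_EzD0`, `Av_EzD1`, `FQQ.Av_DD`. -/
theorem E3_typ1 {m : ℕ} {e : ℕ → ℕ × ℕ} (he : Mon m e) (p : ℕ) (hp : p.Prime) (h2 : p ≠ 2) :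
    Per3 p (fun (f : Vn m) u => ind (¬ TypP1 e p f u)) ∧ E3 m p (fun (f : Vn m) u => ind (¬ TypP1 e p f u)) ≤ 3 / (p : ℝ) ^ 2 := by
  have : Fact p.Prime := ⟨hp⟩
  obtain ⟨φ, hφ⟩ : ∃ φ : (Fin (m + 1) → ZMod p) → ZMod p × ZMod p × ZMod p → ZMod p × ZMod p × ZMod p → ℝ,
      φ = fun c v w => ind (¬ (¬ (Ez e c v w ∧ ds v = 0) ∧ ¬ (Ez e c v w ∧ ds w = 0) ∧ ¬ (ds v = 0 ∧ ds w = 0))) :=
    ⟨_, rfl⟩
  have e1 : (fun (f : Vn m) (u : V × V) => ind (¬ TypP1 e p f u)) =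
      fun (f : Vn m) (u : V × V) => φ (cN p f) (cV p u.1) (cV p u.2) := by
    rw [hφ]
    rfl
  rw [e1]
  refine ⟨Per3_of m p φ, ?_⟩
  rw [E3_eq_Av m p φ]
  have hle : ∀ c v w, φ c v w ≤ ind (Ez e c v w ∧ ds v = 0) + ind (Ez e c v w ∧ ds w = 0) +
      ind (Dc v w 0 = 0 ∧ Dc v w 1 = 0) := by
    intro c v w
    have hD : (Dc v w 0 = 0 ∧ Dc v w 1 = 0) = (ds v = 0 ∧ ds w = 0) := rfl
    rw [hφ, hD]
    simp only [ind]
    by_cases a1 : Ez e c v w ∧ ds v = 0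
    · rw [if_pos a1, if_pos (fun h => h.1 a1)]
      split_ifs <;> norm_num
    · by_cases a2 : Ez e c v w ∧ ds w = 0
      · rw [if_neg a1, if_pos a2, if_pos (fun h => h.2.1 a2)]
        split_ifs <;> norm_num
      · by_cases a3 : ds v = 0 ∧ ds w = 0
        · rw [if_neg a1, if_neg a2, if_pos a3, if_pos (fun h => h.2.2 a3)]
          norm_num
        · rw [if_neg a1, if_neg a2, if_neg a3, if_neg (fun h => h ⟨a1, a2, a3⟩)]
          norm_num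
  refine (Av_mono m p _ _ hle).trans ?_
  rw [Av_add, Av_add, Av_DD m p h2]
  have h3 := Av_EzD0 he p h2
  have h4 := Av_EzD1 he p h2
  calc _ ≤ 1 / (p : ℝ) ^ 2 + 1 / (p : ℝ) ^ 2 + 1 / (p : ℝ) ^ 2 := by
        exact add_le_add (add_le_add h3 h4) le_rfl
    _ = 3 / (p : ℝ) ^ 2 := by ring

end HNF
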