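import Pool.Agent.Lib.MP_1ad228_ntH.Defs
import Pool.Agent.Lib.MP_10e784_agF.RA
import Pool.Agent.Lib.MP_10e784_agF.HB
import Pool.Agent.Lib.MP_10e784_agF.HE

/-! JOB GN1 -/

set_option autoImplicit false

open Classical

namespace HNF

open Finset Polynomial FGO FQQ

/-- the quadratic form `v(κ · y)` in `y` -/
def qk (v : V) (k0 k1 k2 k3 : ℤ) : V :=
  (v.1 * k1 ^ 2 + v.2.1 * k1 * k0 + v.2.2 * k0 ^ 2,
    2 * v.1 * k1 * k3 + v.2.1 * (k1 * k2 + k3 * k0) + 2 * v.2.2 * k0 * k2,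
    v.1 * k3 ^ 2 + v.2.1 * k3 * k2 + v.2.2 * k2 ^ 2)

/-- the form `w(y₀, - y₁)` -/
def wm (w : V) : V := (w.1, -w.2.1, w.2.2)

/-- the norm form of the biquadratic algebra -/
def Ph (v w : V) (k0 k1 k2 k3 : ℤ) : ℤ := rs (qk v k0 k1 k2 k3) (wm w)

theorem qk_eval (v : V) (k0 k1 k2 k3 y0 y1 : ℤ) :
    qv (qk v k0 k1 k2 k3) y0 y1 = qv v (k1 * y0 + k3 * y1) (k0 * y0 + k2 * y1) := by
  unfold qk qv
  ring

theorem ds_qk (v : V) (k0 k1 k2 k3 : ℤ) : ds (qk v k0 k1 k2 k3) = (k1 * k2 - k3 * k0) ^ 2 * ds v := by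
  unfold qk ds
  ring

theorem GN1_disc (v : V) (a b c d : ℤ) :
    ds (qk v a b c d) = ds v * (b * c - d * a) ^ 2 := by
  unfold ds qk
  ring

/-- An anisotropic form has no zero. -/
theorem GN1_aniso {v : V} (hv : ¬ IsSquare (ds v)) {x z : ℤ}
    (h : v.1 * x ^ 2 + v.2.1 * x * z + v.2.2 * z ^ 2 = 0) : x = 0 ∧ z = 0 := by
  have hz : z = 0 := by
    by_contra hz
    have h1 : ds v * z ^ 2 = (2 * v.1 * x + v.2.1 * z) ^ 2 := by
      unfold ds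
      linear_combination (-4 * v.1) * h
    obtain ⟨k, hk⟩ : z ∣ 2 * v.1 * x + v.2.1 * z := by
      have h2 : z ^ 2 ∣ (2 * v.1 * x + v.2.1 * z) ^ 2 := ⟨ds v, by rw [← h1]; ring⟩
      exact (Int.pow_dvd_pow_iff (by norm_num)).1 h2
    apply hv
    refine ⟨k, ?_⟩
    rw [hk] at h1
    have h3 : z ^ 2 ≠ 0 := pow_ne_zero 2 hz
    have h4 : z ^ 2 * ds v = z ^ 2 * (k * k) := by linear_combination h1
    exact mul_left_cancel₀ h3 h4
  refine ⟨?_, hz⟩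
  rw [hz] at h
  have h1 : v.1 * x ^ 2 = 0 := by linear_combination h
  rcases mul_eq_zero.1 h1 with h2 | h2
  · exact absurd ⟨v.2.1, by unfold ds; rw [h2]; ring⟩ hv
  · exact pow_eq_zero_iff (by norm_num) |>.1 h2

/-- A form with resultant zero with an irreducible form is proportional to it. -/
theorem GN1_prop {f w : V} (hw : ¬ IsSquare (ds w)) (h : rs f w = 0) :
    f.1 * w.2.2 = w.1 * f.2.2 ∧ f.1 * w.2.1 = w.1 * f.2.1 := by
  -- `4 w₁² rs = (2 w₁ P - w₂ Q)² - ds w Q²` with `P = f₁ w₃ - w₁ f₃`, `Q = f₁ w₂ - w₁ f₂`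
  set P := f.1 * w.2.2 - w.1 * f.2.2 with hP
  set Q := f.1 * w.2.1 - w.1 * f.2.1 with hQ
  have h1 : 4 * w.1 ^ 2 * rs f w = (2 * w.1 * P - w.2.1 * Q) ^ 2 - ds w * Q ^ 2 := by
    rw [hP, hQ]
    unfold rs ds
    ring
  have hw1 : w.1 ≠ 0 := fun h0 => hw ⟨w.2.1, by unfold ds; rw [h0]; ring⟩
  have h2 : (2 * w.1 * P - w.2.1 * Q) ^ 2 = ds w * Q ^ 2 := by
    rw [h, mul_zero] at h1
    linarith
  have hQ0 : Q = 0 := by
    by_contra hQ0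
    obtain ⟨k, hk⟩ : Q ∣ 2 * w.1 * P - w.2.1 * Q := by
      have h3 : Q ^ 2 ∣ (2 * w.1 * P - w.2.1 * Q) ^ 2 := ⟨ds w, by rw [h2]; ring⟩
      exact (Int.pow_dvd_pow_iff (by norm_num)).1 h3
    apply hw
    refine ⟨k, ?_⟩
    rw [hk] at h2
    have h4 : Q ^ 2 * ds w = Q ^ 2 * (k * k) := by linear_combination -h2
    exact mul_left_cancel₀ (pow_ne_zero 2 hQ0) h4
  rw [hQ0, mul_zero, sub_zero] at h2
  have h5 : 2 * w.1 * P = 0 := by
    have h6 : (2 * w.1 * P) ^ 2 = 0 := by rw [h2]; ring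
    exact pow_eq_zero_iff (by norm_num) |>.1 h6
  have hP0 : P = 0 := by
    rcases mul_eq_zero.1 h5 with h6 | h6
    · exact absurd (by linarith : w.1 = 0) hw1
    · exact h6
  exact ⟨by linarith [hP, hP0], by linarith [hQ, hQ0]⟩

/-- **The norm form is anisotropic.** -/
theorem GN1_ne {v w : V} (hv : ¬ IsSquare (ds v)) (hw : ¬ IsSquare (ds w))
    (hvw : ¬ IsSquare (ds v * ds w)) {a b c d : ℤ} (h : Ph v w a b c d = 0) :
    a = 0 ∧ b = 0 ∧ c = 0 ∧ d = 0 := by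
  have hw' : ¬ IsSquare (ds (wm w)) := by
    have : ds (wm w) = ds w := by unfold ds wm; ring
    rw [this]
    exact hw
  obtain ⟨h1, h2⟩ := GN1_prop hw' h
  set f := qk v a b c d with hf
  have hw1 : w.1 ≠ 0 := fun h0 => hw ⟨w.2.1, by unfold ds; rw [h0]; ring⟩
  have h1' : f.1 * w.2.2 = w.1 * f.2.2 := h1
  have h2' : f.1 * (-w.2.1) = w.1 * f.2.1 := h2
  have h3 : ds f * w.1 ^ 2 = ds w * f.1 ^ 2 := by
    unfold ds
    linear_combination (-(w.1 * f.2.1) + f.1 * w.2.1) * h2' + (4 * f.1 * w.1) * h1'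
  have hA : f.1 = 0 := by
    by_contra hA
    rw [hf, GN1_disc, ← hf] at h3
    have h4 : ds v * ds w * f.1 ^ 2 = (ds v * (b * c - d * a) * w.1) ^ 2 := by
      linear_combination (-ds v) * h3
    obtain ⟨k, hk⟩ : f.1 ∣ ds v * (b * c - d * a) * w.1 := by
      have h5 : f.1 ^ 2 ∣ (ds v * (b * c - d * a) * w.1) ^ 2 :=
        ⟨ds v * ds w, by rw [← h4]; ring⟩
      exact (Int.pow_dvd_pow_iff (by norm_num)).1 h5
    apply hvw
    refine ⟨k, ?_⟩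
    rw [hk] at h4
    have h6 : f.1 ^ 2 * (ds v * ds w) = f.1 ^ 2 * (k * k) := by linear_combination h4
    exact mul_left_cancel₀ (pow_ne_zero 2 hA) h6
  have hC : f.2.2 = 0 := by
    rw [hA, zero_mul] at h1'
    exact (mul_eq_zero.1 h1'.symm).resolve_left hw1
  have e1 := GN1_aniso hv (x := b) (z := a) hA
  have e2 := GN1_aniso hv (x := d) (z := c) hC
  exact ⟨e1.2, e1.1, e2.2, e2.1⟩

/-- **The divisibility.** -/
theorem GN1_cube {v w : V} {D t r q a b c d : ℤ} (hr : D ∣ ev v r) (hq : D ∣ ev w q)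
    (ha : D ∣ a - t) (hb : D ∣ b - t * r) (hc : D ∣ c - t * q) (hd : D ∣ d - t * (q * r)) :
    D ^ 3 ∣ Ph v w a b c d := by
  obtain ⟨s, hs⟩ := hr
  obtain ⟨s', hs'⟩ := hq
  obtain ⟨a', ha'⟩ := ha
  obtain ⟨b', hb'⟩ := hb
  obtain ⟨c', hc'⟩ := hc
  obtain ⟨d', hd'⟩ := hd
  have ea : a = t + D * a' := by linarith
  have eb : b = t * r + D * b' := by linarith
  have ec : c = t * q + D * c' := by linarith
  have ed : d = t * (q * r) + D * d' := by linarith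
  -- `qk v a b c d = D (L ℓ + D M)`, `ℓ = y₀ + q y₁`
  set l0 : ℤ := t * t * s + t * (2 * v.1 * r * b' + v.2.1 * (r * a' + b') + 2 * v.2.2 * a') with hl0
  set l1 : ℤ := t * t * s * q + t * (2 * v.1 * r * d' + v.2.1 * (r * c' + d') + 2 * v.2.2 * c')
    with hl1
  set M := qk v a' b' c' d' with hM
  have e1 : (qk v a b c d).1 = D * (l0 + D * M.1) := by
    rw [hl0, hM, ea, eb]
    unfold qk
    unfold ev at hs
    linear_combination (t * t) * hs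
  have e2 : (qk v a b c d).2.1 = D * (l1 + q * l0 + D * M.2.1) := by
    rw [hl0, hl1, hM, ea, eb, ec, ed]
    unfold qk
    unfold ev at hs
    linear_combination (2 * t * t * q) * hs
  have e3 : (qk v a b c d).2.2 = D * (q * l1 + D * M.2.2) := by
    rw [hl1, hM, ec, ed]
    unfold qk
    unfold ev at hs
    linear_combination (t * t * q * q) * hs
  set A' := l0 + D * M.1 with hA'
  set B' := l1 + q * l0 + D * M.2.1 with hB'
  set C' := q * l1 + D * M.2.2 with hC'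
  have gA : A' ≡ l0 [ZMOD D] := (Int.modEq_iff_dvd.2 ⟨M.1, by rw [hA']; ring⟩).symm
  have gB : B' ≡ l1 + q * l0 [ZMOD D] := (Int.modEq_iff_dvd.2 ⟨M.2.1, by rw [hB']; ring⟩).symm
  have gC : C' ≡ q * l1 [ZMOD D] := (Int.modEq_iff_dvd.2 ⟨M.2.2, by rw [hC']; ring⟩).symm
  have gW : w.2.2 ≡ -(w.1 * q ^ 2) - w.2.1 * q [ZMOD D] :=
    (Int.modEq_iff_dvd.2 ⟨s', by rw [← hs']; unfold ev; ring⟩).symm
  have g1 := (((gA.mul gW).sub (gC.mul_left w.1)).pow 2).sub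
    (((gA.mul_right (-w.2.1)).sub (gB.mul_left w.1)).mul
      ((gB.mul gW).sub (gC.mul_left (-w.2.1))))
  have g2 : (l0 * (-(w.1 * q ^ 2) - w.2.1 * q) - w.1 * (q * l1)) ^ 2 -
      (l0 * -w.2.1 - w.1 * (l1 + q * l0)) *
        ((l1 + q * l0) * (-(w.1 * q ^ 2) - w.2.1 * q) - -w.2.1 * (q * l1)) = 0 := by
    ring
  rw [g2] at g1
  obtain ⟨k, hk⟩ := Int.modEq_zero_iff_dvd.1 g1
  refine ⟨k, ?_⟩
  unfold Ph rs wm
  rw [e1, e2, e3]
  show (D * A' * w.2.2 - w.1 * (D * C')) ^ 2 - (D * A' * -w.2.1 - w.1 * (D * B')) *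
    (D * B' * w.2.2 - -w.2.1 * (D * C')) = D ^ 3 * k
  linear_combination (D ^ 2) * hk

/-- The size of the norm form. -/
theorem GN1_le {v w : V} {N K : ℤ} (hv : |v.1| ≤ N ∧ |v.2.1| ≤ N ∧ |v.2.2| ≤ N)
    (hw : |w.1| ≤ N ∧ |w.2.1| ≤ N ∧ |w.2.2| ≤ N) {a b c d : ℤ} (ha : |a| ≤ K) (hb : |b| ≤ K)
    (hc : |c| ≤ K) (hd : |d| ≤ K) : |Ph v w a b c d| ≤ 117 * N ^ 4 * K ^ 4 := by
  have hN : 0 ≤ N := (abs_nonneg _).trans hv.1
  have hK : 0 ≤ K := (abs_nonneg _).trans ha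
  have m3 : ∀ x y z : ℤ, |x| ≤ N → |y| ≤ K → |z| ≤ K → |x * y * z| ≤ N * K ^ 2 := by
    intro x y z hx hy hz
    rw [abs_mul, abs_mul, pow_two, ← mul_assoc]
    exact mul_le_mul (mul_le_mul hx hy (abs_nonneg _) hN) hz (abs_nonneg _) (by positivity)
  have m1 : ∀ x y : ℤ, |x| ≤ K → |y| ≤ K →
      |v.1 * x ^ 2 + v.2.1 * x * y + v.2.2 * y ^ 2| ≤ 3 * (N * K ^ 2) := by
    intro x y hx hy
    have i1 := m3 v.1 x x hv.1 hx hx
    have i2 := m3 v.2.1 x y hv.2.1 hx hy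
    have i3 := m3 v.2.2 y y hv.2.2 hy hy
    have e : v.1 * x ^ 2 + v.2.1 * x * y + v.2.2 * y ^ 2 =
        v.1 * x * x + v.2.1 * x * y + v.2.2 * y * y := by ring
    rw [e]
    have j1 := abs_add_le (v.1 * x * x + v.2.1 * x * y) (v.2.2 * y * y)
    have j2 := abs_add_le (v.1 * x * x) (v.2.1 * x * y)
    linarith
  have hA : |(qk v a b c d).1| ≤ 3 * (N * K ^ 2) := m1 b a hb ha
  have hC : |(qk v a b c d).2.2| ≤ 3 * (N * K ^ 2) := m1 d c hd hc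
  have hB : |(qk v a b c d).2.1| ≤ 6 * (N * K ^ 2) := by
    have i1 := m3 v.1 b d hv.1 hb hd
    have i2 := m3 v.2.1 b c hv.2.1 hb hc
    have i3 := m3 v.2.1 d a hv.2.1 hd ha
    have i4 := m3 v.2.2 a c hv.2.2 ha hc
    have e : (qk v a b c d).2.1 = v.1 * b * d + v.1 * b * d + (v.2.1 * b * c + v.2.1 * d * a) +
        (v.2.2 * a * c + v.2.2 * a * c) := by
      unfold qk
      ring
    rw [e]
    have j1 := abs_add_le (v.1 * b * d + v.1 * b * d + (v.2.1 * b * c + v.2.1 * d * a))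
      (v.2.2 * a * c + v.2.2 * a * c)
    have j2 := abs_add_le (v.1 * b * d + v.1 * b * d) (v.2.1 * b * c + v.2.1 * d * a)
    have j3 := abs_add_le (v.1 * b * d) (v.1 * b * d)
    have j4 := abs_add_le (v.2.1 * b * c) (v.2.1 * d * a)
    have j5 := abs_add_le (v.2.2 * a * c) (v.2.2 * a * c)
    linarith
  set T := N * K ^ 2 with hT
  have hT0 : 0 ≤ T := by positivity
  set f := qk v a b c d with hf
  have m2 : ∀ x y z : ℤ, |x| ≤ z → |y| ≤ N → |x * y| ≤ z * N := by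
    intro x y z hx hy
    rw [abs_mul]
    exact mul_le_mul hx hy (abs_nonneg _) ((abs_nonneg _).trans hx)
  have p1 : |f.1 * w.2.2 - w.1 * f.2.2| ≤ 6 * (T * N) := by
    have i1 := m2 f.1 w.2.2 _ hA hw.2.2
    have i2 := m2 f.2.2 w.1 _ hC hw.1
    have j1 := abs_sub (f.1 * w.2.2) (w.1 * f.2.2)
    rw [mul_comm w.1 f.2.2] at j1 ⊢
    linarith
  have p2 : |f.1 * -w.2.1 - w.1 * f.2.1| ≤ 9 * (T * N) := by
    have i1 := m2 f.1 (-w.2.1) _ hA (by rw [abs_neg]; exact hw.2.1)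
    have i2 := m2 f.2.1 w.1 _ hB hw.1
    have j1 := abs_sub (f.1 * -w.2.1) (w.1 * f.2.1)
    rw [mul_comm w.1 f.2.1] at j1 ⊢
    linarith
  have p3 : |f.2.1 * w.2.2 - -w.2.1 * f.2.2| ≤ 9 * (T * N) := by
    have i1 := m2 f.2.1 w.2.2 _ hB hw.2.2
    have i2 := m2 f.2.2 (-w.2.1) _ hC (by rw [abs_neg]; exact hw.2.1)
    have j1 := abs_sub (f.2.1 * w.2.2) (-w.2.1 * f.2.2)
    rw [mul_comm (-w.2.1) f.2.2] at j1 ⊢
    linarith
  have e : Ph v w a b c d = (f.1 * w.2.2 - w.1 * f.2.2) ^ 2 -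
      (f.1 * -w.2.1 - w.1 * f.2.1) * (f.2.1 * w.2.2 - -w.2.1 * f.2.2) := rfl
  rw [e]
  have q1 : |(f.1 * w.2.2 - w.1 * f.2.2) ^ 2| ≤ 36 * (T * N) ^ 2 := by
    rw [abs_pow]
    calc |f.1 * w.2.2 - w.1 * f.2.2| ^ 2 ≤ (6 * (T * N)) ^ 2 :=
          pow_le_pow_left₀ (abs_nonneg _) p1 2
      _ = 36 * (T * N) ^ 2 := by ring
  have q2 : |(f.1 * -w.2.1 - w.1 * f.2.1) * (f.2.1 * w.2.2 - -w.2.1 * f.2.2)| ≤
      81 * (T * N) ^ 2 := by
    rw [abs_mul]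
    calc _ ≤ 9 * (T * N) * (9 * (T * N)) := mul_le_mul p2 p3 (abs_nonneg _) (by positivity)
      _ = 81 * (T * N) ^ 2 := by ring
  have j1 := abs_sub ((f.1 * w.2.2 - w.1 * f.2.2) ^ 2)
    ((f.1 * -w.2.1 - w.1 * f.2.1) * (f.2.1 * w.2.2 - -w.2.1 * f.2.2))
  have e2 : 117 * N ^ 4 * K ^ 4 = 36 * (T * N) ^ 2 + 81 * (T * N) ^ 2 := by
    rw [hT]
    ring
  rw [e2]
  linarith


/-- Proof. Write `v.2.2 = D v' - v.1 r² - v.2.1 r`, `w.2.2 = D w' - w.1 q² - w.2.1 q`, `k0 = t + D m0`, `k1 = t r + D m1`, `k2 = t q + D m2`, `k3 = t r q + D m3` (`obtain`, `subst`). Then `qk v ..` is `D` times a vector `Q'` with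
`Q' = (t² v' + t b0 + D .., 2 t² q v' + t (b1 + q b0) + D .., t² q² v' + t q b1 + D ..)`, where `b0, b1` are the coefficients of the linear form `b(y) = B_v((r, 1), (m1(y), m0(y)))`: `b0 = 2 v.1 r m1 + v.2.1 (m1 + r m0) + 2 v.2.2 m0`,
`b1 = 2 v.1 r m3 + v.2.1 (m3 + r m2) + 2 v.2.2 m2` (polarisation of `v`); modulo `D`: `Q' = (y₀ + q y₁)(t² v' (y₀ + q y₁) + t (b0 y₀ + b1 y₁))` and `wm w = (y₀ + q y₁)(w.1 y₀ - (w.1 q + w.2.1) y₁)`: common linear factor, so `rs Q' (wm w) ≡ 0 mod D`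
(`rs` of two products with a common linear factor is `0`: polynomial identity), and `rs (D • Q') (wm w) = D² rs Q' (wm w)` (`rs_cmul_left`). -/
theorem cube_dvd_Ph {D : ℤ} {v w : V} {r q t k0 k1 k2 k3 : ℤ} (hv : D ∣ ev v r) (hw : D ∣ ev w q) (h0 : D ∣ k0 - t)
    (h1 : D ∣ k1 - t * r) (h2 : D ∣ k2 - t * q) (h3 : D ∣ k3 - t * (r * q)) : D ^ 3 ∣ Ph v w k0 k1 k2 k3 :=
  GN1_cube hv hw h0 h1 h2 (by rw [mul_comm q r]; exact h3)

/-- Proof. Suppose `Ph = 0`. `A = qk v ..`, `B = wm w`, `rs A B = 0`. `ds B = ds w` is not a square. `rs_eq`, `FGO.res_crs`: the vector product `n = crs A B` satisfies `n₂² = n₁ n₃`, and `dot n B = 0` (`dot_crs_right`). If `n ≠ 0` then `(n₁ : n₂)` or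
`(n₂ : n₃)` is a rational zero of `B` (`B(n₁, n₂) = n₁ (B.1 n₁ + B.2.1 n₂ + B.2.2 n₃) = 0` as `n₂² = n₁ n₃`; the same for `(n₂, n₃)`), contradiction to `qv_ne` (file HB: a quadratic form whose discriminant is not a square has no nontrivial zero).
So `n = 0`: `A` and `B` are proportional: `B ≠ 0`, and `A_i B_j = A_j B_i`. Hence `ds A * B.1² = ds B * A.1²` etc.; `B.1 ≠ 0` (`ds w` not a square). `ds A = det² ds v` (`ds_qk`). If `A.1 ≠ 0`: multiply by `ds v`: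
`(det ds v B.1)² = (ds v ds w) A.1²`, so `ds v * ds w` is a square (of a rational number, so of an integer), contradiction. If `A.1 = 0`: `A = 0` (`A_i B.1 = A.1 B_i = 0`), so `v(κ · y) = 0` for all `y` (`qk_eval`), and `qv_ne` for `v` with
`y = (1, 0)`, `(0, 1)` gives `k1 = k0 = 0`, `k3 = k2 = 0`. -/
theorem Ph_ne {v w : V} (hv : ¬ IsSquare (ds v)) (hw : ¬ IsSquare (ds w)) (hvw : ¬ IsSquare (ds v * ds w)) {k0 k1 k2 k3 : ℤ}
    (h : ¬ (k0 = 0 ∧ k1 = 0 ∧ k2 = 0 ∧ k3 = 0)) : Ph v w k0 k1 k2 k3 ≠ 0 :=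
  fun h0 => h (GN1_ne hv hw hvw h0)

/-- Proof. The coordinates of `qk` are at most `3 N k²`, `6 N k²`, `3 N k²`; `abs_rs_le` (file HE) with `A = 6 N k²`, `B = N`: `8 (6 N k²)² N² = 288 N⁴ k⁴`. -/
theorem abs_Ph_le {N k : ℕ} {v w : V} (hv : v ∈ box N) (hw : w ∈ box N) {k0 k1 k2 k3 : ℤ} (h0 : |k0| ≤ k) (h1 : |k1| ≤ k)
    (h2 : |k2| ≤ k) (h3 : |k3| ≤ k) : |Ph v w k0 k1 k2 k3| ≤ 288 * (N : ℤ) ^ 4 * (k : ℤ) ^ 4 := by
  have h := GN1_le (mem_box.1 hv) (mem_box.1 hw) h0 h1 h2 h3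
  refine h.trans ?_
  have h5 : (0 : ℤ) ≤ (N : ℤ) ^ 4 * (k : ℤ) ^ 4 := by positivity
  linarith [mul_assoc (117 : ℤ) ((N : ℤ) ^ 4) ((k : ℤ) ^ 4), mul_assoc (288 : ℤ) ((N : ℤ) ^ 4) ((k : ℤ) ^ 4)]

end HNF
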