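import Pool.Agent.Lib.MP_1ad228_ntH.FDefs
import Pool.Agent.Lib.MP_10e784_agF.RB

/-! The form `w(A, B)`, its reductions, and the coordinates of the pair `(A, B)`. -/

set_option autoImplicit false

open Classical

namespace HNF

open Finset Polynomial FGO FQQ

theorem HA1_conv {F : Type} [CommRing F] {g : ℕ} (t : Fin (g + 1) → Fin (g + 1) → F) (φ : ℕ → F) :
    ∑ i : Fin (2 * g + 1), (∑ j : Fin (g + 1), ∑ k : Fin (g + 1),
      if (j : ℕ) + (k : ℕ) = (i : ℕ) then t j k else 0) * φ (i : ℕ) =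
    ∑ j : Fin (g + 1), ∑ k : Fin (g + 1), t j k * φ ((j : ℕ) + (k : ℕ)) := by
  simp_rw [Finset.sum_mul]
  rw [Finset.sum_comm]
  refine Finset.sum_congr rfl fun j _ => ?_
  rw [Finset.sum_comm]
  refine Finset.sum_congr rfl fun k _ => ?_
  have hlt : (j : ℕ) + (k : ℕ) < 2 * g + 1 := by
    have := j.isLt
    have := k.isLt
    omega
  rw [Finset.sum_eq_single (⟨(j : ℕ) + (k : ℕ), hlt⟩ : Fin (2 * g + 1))]
  · rw [if_pos rfl]
  · intro b _ hb
    rw [if_neg (fun h => hb (Fin.ext h.symm)), zero_mul]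
  · intro h
    exact absurd (Finset.mem_univ _) h

/-- the values of the form `w(A, B)` -/
theorem hv_hw {F : Type} [CommRing F] {g : ℕ} (w : F × F × F) (A B : Fin (g + 1) → F) (x z : F) :
    hv (hw w A B) x z = qv w (hv A x z) (hv B x z) := by
  have h1 : hv (hw w A B) x z = ∑ i : Fin (2 * g + 1), (∑ j : Fin (g + 1), ∑ k : Fin (g + 1),
      if (j : ℕ) + (k : ℕ) = (i : ℕ) then w.1 * (A j * A k) + w.2.1 * (A j * B k) + w.2.2 * (B j * B k) else 0) *
        (fun n : ℕ => x ^ n * z ^ (2 * g - n)) (i : ℕ) := by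
    unfold hv hw
    refine Finset.sum_congr rfl fun i _ => ?_
    rw [mul_assoc]
  rw [h1, HA1_conv (fun j k => w.1 * (A j * A k) + w.2.1 * (A j * B k) + w.2.2 * (B j * B k))
    (fun n : ℕ => x ^ n * z ^ (2 * g - n))]
  have h2 : ∀ U W : Fin (g + 1) → F, hv U x z * hv W x z =
      ∑ j : Fin (g + 1), ∑ k : Fin (g + 1), (U j * W k) * (x ^ ((j : ℕ) + (k : ℕ)) * z ^ (2 * g - ((j : ℕ) + (k : ℕ)))) := by
    intro U W
    unfold hv
    rw [Finset.sum_mul_sum]
    refine Finset.sum_congr rfl fun j _ => Finset.sum_congr rfl fun k _ => ?_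
    have hj := j.isLt
    have hk := k.isLt
    have e : 2 * g - ((j : ℕ) + (k : ℕ)) = (g - (j : ℕ)) + (g - (k : ℕ)) := by omega
    rw [e, pow_add, pow_add]
    ring
  have h3 : qv w (hv A x z) (hv B x z) = w.1 * (hv A x z * hv A x z) + w.2.1 * (hv A x z * hv B x z) +
      w.2.2 * (hv B x z * hv B x z) := by
    unfold qv
    ring
  rw [h3, h2, h2, h2]
  simp_rw [Finset.mul_sum]
  rw [← Finset.sum_add_distrib, ← Finset.sum_add_distrib]
  refine Finset.sum_congr rfl fun j _ => ?_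
  rw [← Finset.sum_add_distrib, ← Finset.sum_add_distrib]
  refine Finset.sum_congr rfl fun k _ => ?_
  ring

theorem map_hw {F F' : Type} [CommRing F] [CommRing F'] (φ : F →+* F') {g : ℕ} (w : F × F × F) (A B : Fin (g + 1) → F)
    (i : Fin (2 * g + 1)) : φ (hw w A B i) = hw (φ w.1, φ w.2.1, φ w.2.2) (fun j => φ (A j)) (fun j => φ (B j)) i := by
  unfold hw
  rw [map_sum]
  refine Finset.sum_congr rfl fun j _ => ?_
  rw [map_sum]
  refine Finset.sum_congr rfl fun k _ => ?_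
  by_cases h : (j : ℕ) + (k : ℕ) = (i : ℕ)
  · rw [if_pos h, if_pos h]
    simp only [map_add, map_mul]
  · rw [if_neg h, if_neg h, map_zero]

theorem HA1_Pf {F : Type} [CommRing F] {m : ℕ} (f : Fin (m + 1) → F) : Pf f = hv (fun i => C (f i)) X 1 := by
  unfold Pf hv
  refine Finset.sum_congr rfl fun i _ => ?_
  rw [one_pow, mul_one]

theorem Pf_hw {F : Type} [CommRing F] {g : ℕ} (w : F × F × F) (A B : Fin (g + 1) → F) :
    Pf (hw w A B) = C w.1 * Pf A ^ 2 + C w.2.1 * Pf A * Pf B + C w.2.2 * Pf B ^ 2 := by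
  have h : (fun i => C (hw w A B i)) = hw (C w.1, C w.2.1, C w.2.2) (fun j => C (A j)) (fun j => C (B j)) := by
    funext i
    exact map_hw C w A B i
  rw [HA1_Pf, h, hv_hw, HA1_Pf A, HA1_Pf B]
  rfl

theorem vV_eq {F : Type} [CommRing F] (v : V) (x z : F) : vV v x z = qv ((v.1 : F), (v.2.1 : F), (v.2.2 : F)) x z := rfl

theorem vG_eq {F : Type} [CommRing F] {g : ℕ} (G : Vn g) (x z : F) : vG G x z = hv (fun i => (G i : F)) x z := rfl

/-- the value of `h` -/
theorem vH_eq {F : Type} [CommRing F] {g : ℕ} (q : Dt g) (x z : F) :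
    vH q x z = hv (fun i => ((hw q.1.2 q.2.1 q.2.2 i : ℤ) : F)) x z := by
  have h : (fun i => ((hw q.1.2 q.2.1 q.2.2 i : ℤ) : F)) = hw (((q.1.2.1 : ℤ) : F), ((q.1.2.2.1 : ℤ) : F), ((q.1.2.2.2 : ℤ) : F))
      (fun j => ((q.2.1 j : ℤ) : F)) (fun j => ((q.2.2 j : ℤ) : F)) := by
    funext i
    exact map_hw (Int.castRingHom F) q.1.2 q.2.1 q.2.2 i
  rw [h, hv_hw]
  rfl

theorem Rs_map {F F' : Type} [CommRing F] [CommRing F'] (φ : F →+* F') {m : ℕ} (f : Fin (m + 1) → F) (v : F × F × F) :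
    φ (Rs f v) = Rs (fun i => φ (f i)) (φ v.1, φ v.2.1, φ v.2.2) := by
  have h1 : (Pf f).map φ = Pf (fun i => φ (f i)) := by
    unfold Pf
    rw [Polynomial.map_sum]
    refine Finset.sum_congr rfl fun i _ => ?_
    rw [Polynomial.map_mul, Polynomial.map_pow, Polynomial.map_C, Polynomial.map_X]
  have h2 : (Pq v).map φ = Pq (φ v.1, φ v.2.1, φ v.2.2) := by
    unfold Pq
    rw [Polynomial.map_add, Polynomial.map_add, Polynomial.map_mul, Polynomial.map_mul,
      Polynomial.map_pow, Polynomial.map_C, Polynomial.map_C, Polynomial.map_C, Polynomial.map_X]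
  unfold Rs
  rw [← h1, ← h2, Polynomial.resultant_map_map]

theorem Rg_map {F F' : Type} [CommRing F] [CommRing F'] (φ : F →+* F') {g : ℕ} (A B : Fin (g + 1) → F) (v w : F × F × F) :
    φ (Rg A B v w) = Rg (fun i => φ (A i)) (fun i => φ (B i)) (φ v.1, φ v.2.1, φ v.2.2) (φ w.1, φ w.2.1, φ w.2.2) := by
  unfold Rg
  rw [Rs_map]
  congr 1
  funext i
  exact map_hw φ w A B i

theorem Rg_cast {g : ℕ} (n : ℕ) (A B : Vn g) (v w : V) :
    ((Rg A B v w : ℤ) : ZMod n) = Rg (fun i => (A i : ZMod n)) (fun i => (B i : ZMod n)) (cV n v) (cV n w) :=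
  Rg_map (Int.castRingHom (ZMod n)) A B v w

theorem HA1_eH {n : ℕ} (hn : 1 ≤ n) : eH (2 * n + 2) = (n + 1, 0) ∧ eH (2 * n + 3) = (n + 1, 1) := by
  unfold eH
  constructor
  · rw [if_neg (by omega), if_neg (by omega)]
    refine Prod.ext ?_ ?_
    · show (2 * n + 2) / 2 = n + 1
      omega
    · show (2 * n + 2) % 2 = 0
      omega
  · rw [if_neg (by omega), if_neg (by omega)]
    refine Prod.ext ?_ ?_
    · show (2 * n + 3) / 2 = n + 1
      omega
    · show (2 * n + 3) % 2 = 1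
      omega

theorem HA1_sum {F : Type} [CommRing F] (e : ℕ → F) (r q : F) {G : ℕ} (hG : 1 ≤ G) :
    ∑ n ∈ range (2 * G + 2), e n * (r ^ (eH n).1 * q ^ (eH n).2) =
      ∑ i ∈ range (G + 1), (e (if i = 1 then 1 else 2 * i) * r ^ i + q * (e (if i = 0 then 2 else 2 * i + 1) * r ^ i)) := by
  induction G, hG using Nat.le_induction with
  | base =>
    have h0 : eH 0 = (0, 0) := by decide
    have h1 : eH 1 = (1, 0) := by decide
    have h2 : eH 2 = (0, 1) := by decide
    have h3 : eH 3 = (1, 1) := by decide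
    simp only [Finset.sum_range_succ, Finset.sum_range_zero, Nat.mul_one, h0, h1, h2, h3]
    simp
    ring
  | succ G hG ih =>
    have h1 := HA1_eH hG
    have e1 : 2 * (G + 1) + 2 = (2 * G + 2) + 1 + 1 := by ring
    rw [e1, Finset.sum_range_succ, Finset.sum_range_succ, ih, Finset.sum_range_succ _ (G + 1), h1.1, h1.2,
      if_neg (by omega), if_neg (by omega)]
    have e2 : 2 * (G + 1) = 2 * G + 2 := by ring
    have e3 : 2 * (G + 1) + 1 = 2 * G + 3 := by ring
    rw [e3, e2]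
    ring

/-- The polynomial `A(r) - q B(r)`. -/
theorem hl_eH {F : Type} [CommRing F] {g : ℕ} (hg : 1 ≤ g) (c : Fin (2 * g + 1 + 1) → F) (r q : F) :
    hl eH c r q = hv (gA c) r 1 - q * hv (gB c) r 1 := by
  have h1 : hl eH c r q = ∑ n ∈ range (2 * g + 2), ex c n * (r ^ (eH n).1 * q ^ (eH n).2) := by
    rw [← Fin.sum_univ_eq_sum_range (fun n => ex c n * (r ^ (eH n).1 * q ^ (eH n).2)) (2 * g + 2)]
    unfold hl
    refine Finset.sum_congr rfl fun i _ => ?_
    congr 1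
    unfold ex
    rw [dif_pos i.isLt]
  have h2 : hv (gA c) r 1 = ∑ i ∈ range (g + 1), ex c (if i = 1 then 1 else 2 * i) * r ^ i := by
    rw [← Fin.sum_univ_eq_sum_range (fun i => ex c (if i = 1 then 1 else 2 * i) * r ^ i) (g + 1)]
    unfold hv gA
    refine Finset.sum_congr rfl fun i _ => ?_
    rw [one_pow, mul_one]
  have h3 : hv (gB c) r 1 = - ∑ i ∈ range (g + 1), ex c (if i = 0 then 2 else 2 * i + 1) * r ^ i := by
    rw [← Fin.sum_univ_eq_sum_range (fun i => ex c (if i = 0 then 2 else 2 * i + 1) * r ^ i) (g + 1), ← Finset.sum_neg_distrib]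
    unfold hv gB
    refine Finset.sum_congr rfl fun i _ => ?_
    rw [one_pow, mul_one, neg_mul]
  rw [h1, h2, h3, HA1_sum _ r q hg, Finset.sum_add_distrib, ← Finset.mul_sum]
  ring

theorem Mon_eH {g : ℕ} (hg : 1 ≤ g) : Mon (2 * g + 1) eH := by
  refine ⟨by omega, by decide, by decide, by decide, by decide⟩

theorem HA1_ex {m : ℕ} (n : ℕ) (c : Vn m) (k : ℕ) : ((ex c k : ℤ) : ZMod n) = ex (cN n c) k := by
  unfold ex
  by_cases h : k < m + 1
  · rw [dif_pos h, dif_pos h]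
    rfl
  · rw [dif_neg h, dif_neg h, Int.cast_zero]

theorem gA_cN {g : ℕ} (n : ℕ) (c : Vn (2 * g + 1)) : (fun i => ((gA c i : ℤ) : ZMod n)) = gA (cN n c) := by
  funext i
  exact HA1_ex n c _

theorem gB_cN {g : ℕ} (n : ℕ) (c : Vn (2 * g + 1)) : (fun i => ((gB c i : ℤ) : ZMod n)) = gB (cN n c) := by
  funext i
  unfold gB
  rw [Int.cast_neg, HA1_ex]

end HNF
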