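import Pool.Agent.Lib.MP_1ad228_ntH.HC1b

/-! JOB HC1 -/

set_option autoImplicit false

open Classical

namespace HNF

open Finset Polynomial FGO FQQ

/-- the number of zeros of a nonzero quadratic form over `F_p`. Proof. For each `X ≠ 0` at most `2` values `Y` if the polynomial `w(X, Y)` in `Y` is not zero; `w(X, Y) = w(X, 1 · Y)`: it is not the zero polynomial in `Y` for `X ≠ 0` as `w ≠ 0`
(its coefficients are `w.1 X²`, `w.2.1 X`, `w.2.2`). For `X = 0`: `w.2.2 Y² = 0`: at most `p` values, in total `2 (p - 1) + p ≤ 3 p`. -/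
theorem zeros_le (p : ℕ) [Fact p.Prime] (w : ZMod p × ZMod p × ZMod p) (hw0 : w ≠ 0) :
    ((univ : Finset (ZMod p × ZMod p)).filter fun s => qv w s.1 s.2 = 0).card ≤ 3 * p := by
  rw [Finset.card_filter, Fintype.sum_prod_type]
  have h1 : ∀ X : ZMod p, (∑ Y : ZMod p, if qv w X Y = 0 then 1 else 0) ≤ 2 + (if X = 0 then p else 0) := by
    intro X
    rw [← Finset.card_filter]
    by_cases hX : X = 0
    · rw [if_pos hX]
      have h2 := Finset.card_le_univ (univ.filter fun Y : ZMod p => qv w X Y = 0)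
      rw [ZMod.card] at h2
      omega
    · rw [if_neg hX, add_zero]
      apply HC1b_two (w.1 * X ^ 2) (w.2.1 * X) w.2.2
      · rintro ⟨ha, hb, hd⟩
        apply hw0
        rw [mul_eq_zero, or_iff_left (pow_ne_zero 2 hX)] at ha
        rw [mul_eq_zero, or_iff_left hX] at hb
        exact Prod.ext ha (Prod.ext hb hd)
      · intro Y hY
        rw [Finset.mem_filter] at hY
        have h3 := hY.2
        unfold qv at h3
        linear_combination h3
  calc _ ≤ ∑ X : ZMod p, (2 + (if X = 0 then p else 0)) := Finset.sum_le_sum fun X _ => h1 X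
    _ = 3 * p := by
      rw [Finset.sum_add_distrib, Finset.sum_const, Finset.card_univ, ZMod.card, Finset.sum_ite_eq']
      simp
      ring

/-- two vectors which agree outside the two coordinates belonging to `i₀` -/
theorem HC1_fib {g : ℕ} {p : ℕ} [Fact p.Prime] (x z : ZMod p) (i0 : Fin (g + 1))
    (hi0 : x ^ (i0 : ℕ) * z ^ (g - (i0 : ℕ)) ≠ 0) (a b : Fin (2 * g + 1 + 1))
    (ha : (a : ℕ) = if (i0 : ℕ) = 1 then 1 else 2 * (i0 : ℕ))
    (hb : (b : ℕ) = if (i0 : ℕ) = 0 then 2 else 2 * (i0 : ℕ) + 1)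
    (c c' : Fin (2 * g + 1 + 1) → ZMod p) (h : ∀ j, j ≠ a → j ≠ b → c j = c' j)
    (h1 : hv (gA c) x z = hv (gA c') x z) (h2 : hv (gB c) x z = hv (gB c') x z) : c = c' := by
  have ea : gA c i0 = c a := by
    unfold gA ex
    rw [← ha, dif_pos a.isLt]
  have ea' : gA c' i0 = c' a := by
    unfold gA ex
    rw [← ha, dif_pos a.isLt]
  have eb : gB c i0 = - c b := by
    unfold gB ex
    rw [← hb, dif_pos b.isLt]
  have eb' : gB c' i0 = - c' b := by
    unfold gB ex
    rw [← hb, dif_pos b.isLt]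
  have hA : ∀ i : Fin (g + 1), i ≠ i0 → gA c i = gA c' i := by
    intro i hi
    have hne : (i : ℕ) ≠ (i0 : ℕ) := fun h => hi (Fin.ext h)
    unfold gA ex
    split_ifs with h3 h4 h4
    · apply h
      · intro h5
        have h6 := congrArg Fin.val h5
        simp only [ha] at h6
        split_ifs at h6 <;> omega
      · intro h5
        have h6 := congrArg Fin.val h5
        simp only [hb] at h6
        split_ifs at h6 <;> omega
    · rfl
    · apply h
      · intro h5
        have h6 := congrArg Fin.val h5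
        simp only [ha] at h6
        split_ifs at h6 <;> omega
      · intro h5
        have h6 := congrArg Fin.val h5
        simp only [hb] at h6
        split_ifs at h6 <;> omega
    · rfl
  have hB : ∀ i : Fin (g + 1), i ≠ i0 → gB c i = gB c' i := by
    intro i hi
    have hne : (i : ℕ) ≠ (i0 : ℕ) := fun h => hi (Fin.ext h)
    unfold gB ex
    congr 1
    split_ifs with h3 h4 h4
    · apply h
      · intro h5
        have h6 := congrArg Fin.val h5
        simp only [ha] at h6
        split_ifs at h6 <;> omega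
      · intro h5
        have h6 := congrArg Fin.val h5
        simp only [hb] at h6
        split_ifs at h6 <;> omega
    · rfl
    · apply h
      · intro h5
        have h6 := congrArg Fin.val h5
        simp only [ha] at h6
        split_ifs at h6 <;> omega
      · intro h5
        have h6 := congrArg Fin.val h5
        simp only [hb] at h6
        split_ifs at h6 <;> omega
    · rfl
  have key : ∀ f f' : Fin (g + 1) → ZMod p, (∀ i, i ≠ i0 → f i = f' i) → hv f x z = hv f' x z → f i0 = f' i0 := by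
    intro f f' hf he
    unfold hv at he
    rw [← Finset.add_sum_erase _ _ (Finset.mem_univ i0), ← Finset.add_sum_erase univ (fun i : Fin (g + 1) => f' i * x ^ (i : ℕ) * z ^ (g - (i : ℕ))) (Finset.mem_univ i0)] at he
    have h3 : ∑ i ∈ univ.erase i0, f i * x ^ (i : ℕ) * z ^ (g - (i : ℕ)) = ∑ i ∈ univ.erase i0, f' i * x ^ (i : ℕ) * z ^ (g - (i : ℕ)) := by
      apply Finset.sum_congr rfl
      intro i hi
      rw [hf i (Finset.ne_of_mem_erase hi)]
    rw [h3] at he
    have h4 := add_right_cancel he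
    have h5 : f i0 * (x ^ (i0 : ℕ) * z ^ (g - (i0 : ℕ))) = f' i0 * (x ^ (i0 : ℕ) * z ^ (g - (i0 : ℕ))) := by
      linear_combination h4
    exact mul_right_cancel₀ hi0 h5
  have k1 := key _ _ hA h1
  have k2 := key _ _ hB h2
  rw [ea, ea'] at k1
  rw [eb, eb'] at k2
  funext j
  by_cases hja : j = a
  · rw [hja]; exact k1
  · by_cases hjb : j = b
    · rw [hjb]; exact neg_injective k2
    · exact h j hja hjb

theorem HC1_card {g : ℕ} (hg : 1 ≤ g) (p : ℕ) [Fact p.Prime] (w : ZMod p × ZMod p × ZMod p) (hw0 : w ≠ 0) (x z : ZMod p)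
    (hxz : ¬ (x = 0 ∧ z = 0)) (D : DecidablePred fun c : Fin (2 * g + 1 + 1) → ZMod p => hv (hw w (gA c) (gB c)) x z = 0) :
    (@Finset.filter _ (fun c : Fin (2 * g + 1 + 1) → ZMod p => hv (hw w (gA c) (gB c)) x z = 0) D univ).card ≤ p ^ (2 * g) * (3 * p) := by
  obtain ⟨i0, hi0⟩ : ∃ i0 : Fin (g + 1), x ^ (i0 : ℕ) * z ^ (g - (i0 : ℕ)) ≠ 0 := by
    by_cases hz : z = 0
    · have hx : x ≠ 0 := fun h => hxz ⟨h, hz⟩
      refine ⟨Fin.last g, ?_⟩
      rw [Fin.val_last, Nat.sub_self, pow_zero, mul_one]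
      exact pow_ne_zero _ hx
    · refine ⟨0, ?_⟩
      rw [Fin.val_zero, pow_zero, one_mul]
      exact pow_ne_zero _ hz
  have hi0l := i0.isLt
  obtain ⟨a, ha⟩ : ∃ a : Fin (2 * g + 1 + 1), (a : ℕ) = if (i0 : ℕ) = 1 then 1 else 2 * (i0 : ℕ) := by
    refine ⟨⟨if (i0 : ℕ) = 1 then 1 else 2 * (i0 : ℕ), ?_⟩, rfl⟩
    split_ifs <;> omega
  obtain ⟨b, hb⟩ : ∃ b : Fin (2 * g + 1 + 1), (b : ℕ) = if (i0 : ℕ) = 0 then 2 else 2 * (i0 : ℕ) + 1 := by
    refine ⟨⟨if (i0 : ℕ) = 0 then 2 else 2 * (i0 : ℕ) + 1, ?_⟩, rfl⟩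
    split_ifs <;> omega
  have hab : a ≠ b := by
    intro h
    have h1 := congrArg Fin.val h
    rw [ha, hb] at h1
    split_ifs at h1 <;> omega
  refine (Finset.card_le_mul_card_image_of_maps_to (f := fun c : Fin (2 * g + 1 + 1) → ZMod p => (hv (gA c) x z, hv (gB c) x z))
    (t := (univ : Finset (ZMod p × ZMod p)).filter fun s => qv w s.1 s.2 = 0) ?_ (p ^ (2 * g)) ?_).trans
    (Nat.mul_le_mul_left _ (zeros_le p w hw0))
  · intro c hc
    rw [Finset.mem_filter] at hc ⊢
    refine ⟨Finset.mem_univ _, ?_⟩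
    rw [hv_hw] at hc
    exact hc.2
  · intro s _
    have hcd : Fintype.card ({j : Fin (2 * g + 1 + 1) // j ≠ a ∧ j ≠ b} → ZMod p) = p ^ (2 * g) := by
      rw [Fintype.card_fun, ZMod.card]
      congr 1
      rw [Fintype.card_subtype]
      have h1 : (univ.filter fun j : Fin (2 * g + 1 + 1) => j ≠ a ∧ j ≠ b) = (univ.erase a).erase b := by
        ext j
        simp only [Finset.mem_filter, Finset.mem_univ, true_and, Finset.mem_erase, and_true]
        tauto
      rw [h1, Finset.card_erase_of_mem (Finset.mem_erase.2 ⟨hab.symm, Finset.mem_univ _⟩), Finset.card_erase_of_mem (Finset.mem_univ _),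
        Finset.card_univ, Fintype.card_fin]
      omega
    rw [← hcd, ← Finset.card_univ]
    apply Finset.card_le_card_of_injOn (fun c => fun j : {j : Fin (2 * g + 1 + 1) // j ≠ a ∧ j ≠ b} => c j.1)
    · intro f _
      exact Finset.mem_coe.2 (Finset.mem_univ _)
    · intro c hc c' hc' hcc
      rw [Finset.mem_coe, Finset.mem_filter] at hc hc'
      have h1 := hc.2.trans hc'.2.symm
      rw [Prod.mk.injEq] at h1
      refine HC1_fib x z i0 hi0 a b ha hb c c' ?_ h1.1 h1.2
      intro j hja hjb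
      exact congrFun hcc ⟨j, hja, hjb⟩

/-- Proof. `c ↦ (hv (gA c) x z, hv (gB c) x z)` is additive and surjective onto `F_p²` (`g ≥ 1`; `c = Pi.single`: if `z ≠ 0` use the coordinates `0` and `2` (constant coefficients of `G₁`, `G₂`), if `z = 0` the coordinates `2 g` and `2 g + 1` (for `g = 1`: `1` and `3`)),
all fibres have the same size; `zeros_le`: `3 p / p²`. -/
theorem mF_hz {g : ℕ} (hg : 1 ≤ g) (p : ℕ) [Fact p.Prime] (w : ZMod p × ZMod p × ZMod p) (hw0 : w ≠ 0) (x z : ZMod p)
    (hxz : ¬ (x = 0 ∧ z = 0)) :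
    mF (2 * g + 1) p (fun c => ind (hv (hw w (gA c) (gB c)) x z = 0)) ≤ 3 / (p : ℝ) := by
  have hp0 := BA_pos p
  unfold mF
  rw [BA_sum_ind]
  rw [div_le_div_iff₀ (by positivity) (by positivity)]
  calc _ ≤ ((p ^ (2 * g) * (3 * p) : ℕ) : ℝ) * (p : ℝ) :=
        mul_le_mul_of_nonneg_right (Nat.cast_le.2 (HC1_card hg p w hw0 x z hxz _)) (by positivity)
    _ = 3 * (p : ℝ) ^ (2 * g + 1 + 1) := by push_cast; ring

end HNF
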