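import Pool.Agent.Lib.MP_1ad228_ntH.HA1
import Pool.Agent.Lib.MP_10e784_agF.LM
import Pool.Agent.Lib.MP_10e784_agF.BA
import Pool.Agent.Lib.MP_10e784_agF.RD

/-! JOB HC1, second half -/

set_option autoImplicit false

open Classical

namespace HNF

open Finset Polynomial FGO FQQ

theorem HC1b_A {p : ℕ} [Fact p.Prime] {E : Type} [Field E] [Algebra (ZMod p) E] (r : E) {g : ℕ} (hg : 1 ≤ g)
    (c c' : Fin (2 * g + 1 + 1) → ZMod p) (h : ∀ j : Fin (2 * g + 1 + 1), 2 ≤ (j : ℕ) → c j = c' j) :
    aeval r (Pf (gA c)) - aeval r (Pf (gA c')) =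
      algebraMap (ZMod p) E (c ⟨0, by omega⟩ - c' ⟨0, by omega⟩) +
      algebraMap (ZMod p) E (c ⟨1, by omega⟩ - c' ⟨1, by omega⟩) * r := by
  obtain ⟨k, rfl⟩ : ∃ k, g = k + 1 := ⟨g - 1, by omega⟩
  unfold Pf
  simp only [map_sum, map_mul, aeval_C, map_pow, aeval_X]
  rw [← Finset.sum_sub_distrib, Fin.sum_univ_succ, Fin.sum_univ_succ, Finset.sum_eq_zero]
  · have h0 : gA c 0 = c ⟨0, by omega⟩ := by
      unfold gA ex
      simp
    have h0' : gA c' 0 = c' ⟨0, by omega⟩ := by
      unfold gA ex
      simp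
    have h1 : gA c (Fin.succ 0) = c ⟨1, by omega⟩ := by
      unfold gA ex
      simp
    have h1' : gA c' (Fin.succ 0) = c' ⟨1, by omega⟩ := by
      unfold gA ex
      simp
    rw [h0, h0', h1, h1', map_sub, map_sub]
    simp
    ring
  · intro i _
    have h2 : gA c i.succ.succ = gA c' i.succ.succ := by
      unfold gA ex
      have hi := i.isLt
      have e1 : ((i.succ.succ : Fin (k + 1 + 1)) : ℕ) = (i : ℕ) + 2 := by simp
      rw [e1, if_neg (by omega)]
      rw [dif_pos (by omega), dif_pos (by omega)]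
      apply h
      simp only
      omega
    rw [h2, sub_self]

theorem HC1b_B {p : ℕ} [Fact p.Prime] {E : Type} [Field E] [Algebra (ZMod p) E] (r : E) {g : ℕ} (hg : 1 ≤ g)
    (c c' : Fin (2 * g + 1 + 1) → ZMod p)
    (h : ∀ j : Fin (2 * g + 1 + 1), (j : ℕ) ≠ 2 → (j : ℕ) ≠ 3 → c j = c' j) :
    aeval r (Pf (gB c)) - aeval r (Pf (gB c')) =
      - (algebraMap (ZMod p) E (c ⟨2, by omega⟩ - c' ⟨2, by omega⟩) +
      algebraMap (ZMod p) E (c ⟨3, by omega⟩ - c' ⟨3, by omega⟩) * r) := by
  obtain ⟨k, rfl⟩ : ∃ k, g = k + 1 := ⟨g - 1, by omega⟩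
  unfold Pf
  simp only [map_sum, map_mul, aeval_C, map_pow, aeval_X]
  rw [← Finset.sum_sub_distrib, Fin.sum_univ_succ, Fin.sum_univ_succ, Finset.sum_eq_zero]
  · have h0 : gB c 0 = - c ⟨2, by omega⟩ := by
      unfold gB ex
      simp
    have h0' : gB c' 0 = - c' ⟨2, by omega⟩ := by
      unfold gB ex
      simp
    have h1 : gB c (Fin.succ 0) = - c ⟨3, by omega⟩ := by
      unfold gB ex
      simp
    have h1' : gB c' (Fin.succ 0) = - c' ⟨3, by omega⟩ := by
      unfold gB ex
      simp
    rw [h0, h0', h1, h1', map_sub, map_sub]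
    simp
    ring
  · intro i _
    have h2 : gB c i.succ.succ = gB c' i.succ.succ := by
      unfold gB ex
      have hi := i.isLt
      have e1 : ((i.succ.succ : Fin (k + 1 + 1)) : ℕ) = (i : ℕ) + 2 := by simp
      rw [e1, if_neg (by omega)]
      rw [dif_pos (by omega), dif_pos (by omega)]
      rw [h _ (by simp only; omega) (by simp only; omega)]
    rw [h2, sub_self]

/-- a quadratic polynomial has at most two roots -/
theorem HC1b_two {E : Type} [Field E] (a b d : E) (h : ¬ (a = 0 ∧ b = 0 ∧ d = 0)) (S : Finset E)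
    (hS : ∀ y ∈ S, a + b * y + d * y ^ 2 = 0) : S.card ≤ 2 := by
  set P : E[X] := C d * X ^ 2 + C b * X + C a with hP
  have hP0 : P ≠ 0 := by
    intro h0
    apply h
    have c0 := congrArg (fun q => coeff q 0) h0
    have c1 := congrArg (fun q => coeff q 1) h0
    have c2 := congrArg (fun q => coeff q 2) h0
    simp [hP, coeff_X, coeff_C] at c0 c1 c2
    exact ⟨c0, c1, c2⟩
  have h1 : S ⊆ P.roots.toFinset := by
    intro y hy
    rw [Multiset.mem_toFinset, mem_roots hP0, IsRoot.def]
    have := hS y hy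
    simp only [hP, eval_add, eval_mul, eval_C, eval_pow, eval_X]
    linear_combination this
  calc S.card ≤ P.roots.toFinset.card := Finset.card_le_card h1
    _ ≤ Multiset.card P.roots := Multiset.toFinset_card_le _
    _ ≤ P.natDegree := card_roots' P
    _ ≤ 2 := natDegree_quadratic_le

theorem HC1b_card {g : ℕ} (hg : 1 ≤ g) (p : ℕ) [Fact p.Prime] (v w : ZMod p × ZMod p × ZMod p) (hw0 : w ≠ 0)
    (hv0 : ∀ x z : ZMod p, ¬ (x = 0 ∧ z = 0) → qv v x z ≠ 0) :
    (univ.filter fun c : Fin (2 * g + 1 + 1) → ZMod p => Pq v ∣ Pf (hw w (gA c) (gB c))).card ≤ 3 * p ^ (2 * g) := by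
  have hv1 : v.1 ≠ 0 := by
    intro h
    apply hv0 1 0 (by simp)
    unfold qv
    rw [h]; ring
  let E := AlgebraicClosure (ZMod p)
  have hdeg : (Pq v).degree = 2 := by
    unfold Pq
    exact degree_quadratic hv1
  obtain ⟨r, hr⟩ : ∃ r : E, aeval r (Pq v) = 0 := by
    obtain ⟨r, hr⟩ := IsAlgClosed.exists_aeval_eq_zero E (Pq v) (by rw [hdeg]; norm_num)
    exact ⟨r, hr⟩
  -- independence
  have hind : ∀ a b : ZMod p, algebraMap (ZMod p) E a + algebraMap (ZMod p) E b * r = 0 → a = 0 ∧ b = 0 := by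
    intro a b hab
    have hb : b = 0 := by
      by_contra hb
      have h1 : r = algebraMap (ZMod p) E (- a / b) := by
        have h2 : algebraMap (ZMod p) E b ≠ 0 := by
          rw [Ne, FaithfulSMul.algebraMap_eq_zero_iff]
          exact hb
        rw [map_div₀, map_neg, eq_div_iff h2]
        linear_combination hab
      rw [h1, aeval_algebraMap_apply, FaithfulSMul.algebraMap_eq_zero_iff] at hr
      apply hv0 (- a / b) 1 (by simp)
      have h3 : aeval (- a / b) (Pq v) = qv v (- a / b) 1 := by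
        unfold Pq qv
        simp
      rw [← h3]
      exact hr
    rw [hb, map_zero, zero_mul, add_zero, FaithfulSMul.algebraMap_eq_zero_iff] at hab
    exact ⟨hab, hb⟩
  have hroot : ∀ c : Fin (2 * g + 1 + 1) → ZMod p, Pq v ∣ Pf (hw w (gA c) (gB c)) →
      algebraMap (ZMod p) E w.1 * (aeval r (Pf (gA c))) ^ 2 +
        algebraMap (ZMod p) E w.2.1 * aeval r (Pf (gA c)) * aeval r (Pf (gB c)) +
        algebraMap (ZMod p) E w.2.2 * (aeval r (Pf (gB c))) ^ 2 = 0 := by
    intro c hc
    obtain ⟨q, hq⟩ := hc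
    have h1 : aeval r (Pf (hw w (gA c) (gB c))) = 0 := by
      rw [hq, map_mul, hr, zero_mul]
    rw [Pf_hw] at h1
    simpa [aeval_C] using h1
  have hcd : Fintype.card (Fin (2 * g) → ZMod p) = p ^ (2 * g) := by
    rw [Fintype.card_fun, ZMod.card, Fintype.card_fin]
  set S := univ.filter fun c : Fin (2 * g + 1 + 1) → ZMod p => Pq v ∣ Pf (hw w (gA c) (gB c)) with hS
  have hsplit : S.card = (S.filter fun c => aeval r (Pf (gA c)) = 0).card +
      (S.filter fun c => ¬ aeval r (Pf (gA c)) = 0).card := by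
    rw [Finset.card_filter_add_card_filter_not]
  have h1 : (S.filter fun c => aeval r (Pf (gA c)) = 0).card ≤ p ^ (2 * g) := by
    rw [← hcd, ← Finset.card_univ]
    apply Finset.card_le_card_of_injOn (fun c => fun i : Fin (2 * g) => c ⟨(i : ℕ) + 2, by omega⟩)
    · intro f _
      exact Finset.mem_coe.2 (Finset.mem_univ _)
    · intro c hc c' hc' hcc
      rw [Finset.mem_coe, Finset.mem_filter] at hc hc'
      have h2 : ∀ j : Fin (2 * g + 1 + 1), 2 ≤ (j : ℕ) → c j = c' j := by
        intro j hj
        have hjl := j.isLt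
        have h3 := congrFun hcc ⟨(j : ℕ) - 2, by omega⟩
        simp only at h3
        have h4 : (⟨(j : ℕ) - 2 + 2, by omega⟩ : Fin (2 * g + 1 + 1)) = j := by
          apply Fin.ext
          simp only
          omega
        rw [h4] at h3
        exact h3
      have h3 := HC1b_A r hg c c' h2
      rw [hc.2, hc'.2, sub_zero] at h3
      obtain ⟨e0, e1⟩ := hind _ _ h3.symm
      funext j
      by_cases hj : 2 ≤ (j : ℕ)
      · exact h2 j hj
      · by_cases hj0 : (j : ℕ) = 0
        · have : j = ⟨0, by omega⟩ := Fin.ext hj0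
          rw [this]
          exact sub_eq_zero.1 e0
        · have : j = ⟨1, by omega⟩ := Fin.ext (by simp only; omega)
          rw [this]
          exact sub_eq_zero.1 e1
  have h2 : (S.filter fun c => ¬ aeval r (Pf (gA c)) = 0).card ≤ 2 * p ^ (2 * g) := by
    set T := S.filter fun c => ¬ aeval r (Pf (gA c)) = 0 with hT
    let φ : (Fin (2 * g + 1 + 1) → ZMod p) → (Fin (2 * g) → ZMod p) := fun c i =>
      if h : (i : ℕ) < 2 then c ⟨(i : ℕ), by omega⟩ else c ⟨(i : ℕ) + 2, by omega⟩
    have h3 : T.card ≤ 2 * (T.image φ).card := by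
      apply Finset.card_le_mul_card_image
      intro a _
      -- the fibre
      have hfib : ∀ c ∈ T.filter fun x => φ x = a, ∀ c' ∈ T.filter fun x => φ x = a,
          ∀ j : Fin (2 * g + 1 + 1), (j : ℕ) ≠ 2 → (j : ℕ) ≠ 3 → c j = c' j := by
        intro c hc c' hc' j hj2 hj3
        rw [Finset.mem_filter] at hc hc'
        have hjl := j.isLt
        have h4 : φ c = φ c' := hc.2.trans hc'.2.symm
        by_cases hj : (j : ℕ) < 2
        · have h5 := congrFun h4 ⟨(j : ℕ), by omega⟩
          simp only [φ] at h5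
          rw [dif_pos hj, dif_pos hj] at h5
          exact h5
        · have h5 := congrFun h4 ⟨(j : ℕ) - 2, by omega⟩
          simp only [φ] at h5
          rw [dif_neg (by omega), dif_neg (by omega)] at h5
          have h6 : (⟨(j : ℕ) - 2 + 2, by omega⟩ : Fin (2 * g + 1 + 1)) = j := by
            apply Fin.ext
            simp only
            omega
          rw [h6] at h5
          exact h5
      by_cases hne : (T.filter fun x => φ x = a).Nonempty
      · obtain ⟨c0, hc0⟩ := hne
        have hX : ∀ c ∈ T.filter fun x => φ x = a, gA c = gA c0 := by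
          intro c hc
          have h5 := hfib c hc c0 hc0
          funext i
          unfold gA ex
          have hi := i.isLt
          by_cases hi1 : (i : ℕ) = 1
          · rw [if_pos hi1, dif_pos (by omega), dif_pos (by omega)]
            exact h5 _ (by simp only; omega) (by simp only; omega)
          · rw [if_neg hi1, dif_pos (by omega), dif_pos (by omega)]
            exact h5 _ (by simp only; omega) (by simp only; omega)
        have hX0 : aeval r (Pf (gA c0)) ≠ 0 := by
          rw [Finset.mem_filter, hT, Finset.mem_filter] at hc0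
          exact hc0.1.2
        have hinj : Set.InjOn (fun c : Fin (2 * g + 1 + 1) → ZMod p => aeval r (Pf (gB c)))
            ((T.filter fun x => φ x = a : Finset (Fin (2 * g + 1 + 1) → ZMod p)) :
              Set (Fin (2 * g + 1 + 1) → ZMod p)) := by
          intro c hc c' hc' hcc
          rw [Finset.mem_coe] at hc hc'
          have h5 := hfib c hc c' hc'
          have h6 := HC1b_B r hg c c' h5
          simp only at hcc
          rw [hcc, sub_self, eq_comm, neg_eq_zero] at h6
          obtain ⟨e0, e1⟩ := hind _ _ h6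
          funext j
          by_cases hj2 : (j : ℕ) = 2
          · have : j = ⟨2, by omega⟩ := Fin.ext hj2
            rw [this]
            exact sub_eq_zero.1 e0
          · by_cases hj3 : (j : ℕ) = 3
            · have : j = ⟨3, by omega⟩ := Fin.ext hj3
              rw [this]
              exact sub_eq_zero.1 e1
            · exact h5 j hj2 hj3
        rw [← Finset.card_image_of_injOn hinj]
        apply HC1b_two (algebraMap (ZMod p) E w.1 * (aeval r (Pf (gA c0))) ^ 2)
          (algebraMap (ZMod p) E w.2.1 * aeval r (Pf (gA c0))) (algebraMap (ZMod p) E w.2.2)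
        · rintro ⟨ha, hb, hd⟩
          apply hw0
          rw [mul_eq_zero, or_iff_left (pow_ne_zero 2 hX0), FaithfulSMul.algebraMap_eq_zero_iff] at ha
          rw [mul_eq_zero, or_iff_left hX0, FaithfulSMul.algebraMap_eq_zero_iff] at hb
          rw [FaithfulSMul.algebraMap_eq_zero_iff] at hd
          exact Prod.ext ha (Prod.ext hb hd)
        · intro y hy
          rw [Finset.mem_image] at hy
          obtain ⟨c, hc, rfl⟩ := hy
          have h6 := hX c hc
          rw [Finset.mem_filter, hT, Finset.mem_filter, hS, Finset.mem_filter] at hc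
          have h7 := hroot c hc.1.1.2
          rw [h6] at h7
          linear_combination h7
      · rw [Finset.not_nonempty_iff_eq_empty] at hne
        rw [hne]
        simp
    refine h3.trans ?_
    apply Nat.mul_le_mul_left
    rw [← hcd]
    exact Finset.card_le_univ _
  rw [hsplit]
  calc _ ≤ p ^ (2 * g) + 2 * p ^ (2 * g) := add_le_add h1 h2
    _ = 3 * p ^ (2 * g) := by ring

theorem mF_irr {g : ℕ} (hg : 1 ≤ g) (p : ℕ) [Fact p.Prime] (v w : ZMod p × ZMod p × ZMod p) (hw0 : w ≠ 0)
    (hv0 : ∀ x z : ZMod p, ¬ (x = 0 ∧ z = 0) → qv v x z ≠ 0) :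
    mF (2 * g + 1) p (fun c => ind (Pq v ∣ Pf (hw w (gA c) (gB c)))) ≤ 3 / (p : ℝ) ^ 2 := by
  have hp0 := BA_pos p
  unfold mF
  rw [BA_sum_ind]
  have h1 : ((univ.filter fun c : Fin (2 * g + 1 + 1) → ZMod p => Pq v ∣ Pf (hw w (gA c) (gB c))).card : ℝ) ≤
      3 * (p : ℝ) ^ (2 * g) := by exact_mod_cast HC1b_card hg p v w hw0 hv0
  rw [div_le_div_iff₀ (by positivity) (by positivity)]
  calc _ ≤ 3 * (p : ℝ) ^ (2 * g) * (p : ℝ) ^ 2 := mul_le_mul_of_nonneg_right h1 (by positivity)
    _ = 3 * (p : ℝ) ^ (2 * g + 1 + 1) := by ring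

end HNF
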