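import Pool.Agent.Lib.MP_1ad228_ntH.HI1
import Pool.Agent.Lib.MP_1ad228_ntH.LV

/-! At the primes which do not divide the resultant one of the two factors is a unit. -/

set_option autoImplicit false

open Classical

namespace HNF

open Finset Polynomial FGO FQQ

theorem toGP_Ev {p : ℕ} [Fact p.Prime] {g : ℕ} (hg : 1 ≤ g) {q : Dt g} (hR : Rq q ≠ 0) (hp : ¬ (p : ℤ) ∣ Rq q)
    (P : Pt ℚ_[p] q) : (toGP hg hR P).Ev := by
  obtain ⟨L⟩ := ZC.exists_lval p P.K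
  obtain ⟨lam, hlam, -, -, h⟩ := LV_unit L (by omega : 1 ≤ 2 * g) (hw q.1.2 q.2.1 q.2.2) q.1.1 hp P.ne
  rcases h with h | h
  · refine ⟨L, lam ^ g, pow_ne_zero _ hlam, Or.inr ?_⟩
    change L.v (vH q P.x P.z) = L.v (lam ^ g) ^ 2
    rw [vH_eq, h, ZG.v_pow, ← pow_mul, mul_comm]
  · exact ⟨L, lam, hlam, Or.inl h⟩

end HNF
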