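import Pool.Agent.Lib.MP_1ad228_ntH.Defs
import Pool.Agent.Lib.MP_10e784_agF.KN1

/-! JOB K3 -/

set_option autoImplicit false

open Classical

namespace HNF

open Finset Polynomial FGO FQQ

private theorem K3_one (M m k : ℕ) (hm : 0 < m) (hM : M = m * k) (c : ℤ) :
    ((Ico (0 : ℤ) (M : ℤ)).filter fun x => (m : ℤ) ∣ x - c).card = k := by
  have h1 : ((Ico (0 : ℤ) (M : ℤ)).filter fun x => (m : ℤ) ∣ x - c) =
      (Ico (0 : ℤ) (M : ℤ)).filter fun x => x ≡ c [ZMOD (m : ℤ)] := by
    refine Finset.filter_congr fun x _ => ?_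
    rw [Int.modEq_comm, Int.modEq_iff_dvd]
  have hm' : (0 : ℤ) < m := by exact_mod_cast hm
  have h2 := Int.Ico_filter_modEq_card (0 : ℤ) (M : ℤ) hm' c
  rw [h1]
  have h3 : (((M : ℤ) - c : ℤ) : ℚ) / ((m : ℤ) : ℚ) = (((0 : ℤ) - c : ℤ) : ℚ) / ((m : ℤ) : ℚ) + ((k : ℤ) : ℚ) := by
    have : ((m : ℤ) : ℚ) ≠ 0 := by exact_mod_cast hm.ne'
    rw [hM]
    push_cast
    field_simp
    ring
  have h4 : (((Ico (0 : ℤ) (M : ℤ)).filter fun x => x ≡ c [ZMOD (m : ℤ)]).card : ℤ) = k := by
    rw [h2]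
    push_cast at h3 ⊢
    rw [h3]
    have h5 := Int.ceil_add_natCast (((0 : ℚ) - c) / (m : ℚ)) k
    rw [h5]
    simp
  exact_mod_cast h4

private theorem K3_evn {m : ℕ} (x : ℤ) (g : Fin m → ℤ) (l : Vn m) (hl0 : l 0 = 1) :
    evl l (Fin.cons x g : Vn m) = x + ∑ i : Fin m, g i * l i.succ := by
  unfold evl
  rw [Fin.sum_univ_succ]
  simp [hl0]

/-- Chinese remainder theorem for the first coordinate -/
private theorem K3_crt (M q : ℕ) (hc : M.Coprime q) (c e : ℤ) :
    ∃ s : ℤ, ∀ x : ℤ, ((q : ℤ) ∣ x - c ∧ (M : ℤ) ∣ x + e) ↔ ((M * q : ℕ) : ℤ) ∣ x - s := by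
  have hcop : IsCoprime (q : ℤ) (M : ℤ) := (Nat.isCoprime_iff_coprime.mpr hc).symm
  have hcop2 := hcop
  obtain ⟨u, v, huv⟩ := hcop
  refine ⟨c * (v * M) - e * (u * q), fun x => ?_⟩
  have hq' : (q : ℤ) ∣ (c * (v * M) - e * (u * q)) - c :=
    ⟨-c * u - e * u, by linear_combination c * huv⟩
  have hM' : (M : ℤ) ∣ (c * (v * M) - e * (u * q)) + e :=
    ⟨c * v + e * v, by linear_combination -e * huv⟩
  push_cast
  constructor
  · rintro ⟨h1, h2⟩
    have h3 : (q : ℤ) ∣ x - (c * (v * M) - e * (u * q)) := by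
      have h := dvd_sub h1 hq'
      have e1 : (x - c) - ((c * (v * M) - e * (u * q)) - c) = x - (c * (v * M) - e * (u * q)) := by ring
      rwa [e1] at h
    have h4 : (M : ℤ) ∣ x - (c * (v * M) - e * (u * q)) := by
      have h := dvd_sub h2 hM'
      have e1 : (x + e) - ((c * (v * M) - e * (u * q)) + e) = x - (c * (v * M) - e * (u * q)) := by ring
      rwa [e1] at h
    exact hcop2.symm.mul_dvd h4 h3
  · intro h
    have h2 : (q : ℤ) ∣ x - (c * (v * M) - e * (u * q)) := (dvd_mul_left _ _).trans h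
    have h4 : (M : ℤ) ∣ x - (c * (v * M) - e * (u * q)) := (dvd_mul_right _ _).trans h
    constructor
    · have h3 := dvd_add h2 hq'
      have e1 : (x - (c * (v * M) - e * (u * q))) + ((c * (v * M) - e * (u * q)) - c) = x - c := by ring
      rwa [e1] at h3
    · have h3 := dvd_add h4 hM'
      have e1 : (x - (c * (v * M) - e * (u * q))) + ((c * (v * M) - e * (u * q)) + e) = x + e := by ring
      rwa [e1] at h3

/-- reduction modulo `M` of all coordinates -/
private def K3_red {m : ℕ} (M : ℕ) (v : Vn m) : Vn m := fun i => v i % M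

private theorem K3_dvd (M : ℕ) (a : ℤ) : (M : ℤ) ∣ a % M - a := by
  have h := Int.emod_add_mul_ediv a M
  exact ⟨-(a / M), by linarith⟩

private theorem K3_red_mem {m : ℕ} (M : ℕ) (hM : 0 < M) (v : Vn m) : K3_red M v ∈ cubeN m M := by
  have hM0 : (M : ℤ) ≠ 0 := by exact_mod_cast hM.ne'
  have hM1 : (0 : ℤ) < M := by exact_mod_cast hM
  rw [mem_cubeN]
  exact fun i => ⟨Int.emod_nonneg _ hM0, Int.emod_lt_of_pos _ hM1⟩

private theorem K3_eq {m M : ℕ} {v w : Vn m} (hv : v ∈ cubeN m M) (hw : w ∈ cubeN m M) (h : CgN M v w) :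
    v = w := by
  rw [mem_cubeN] at hv hw
  funext i
  have h1 : |v i - w i| < M := by
    rw [abs_lt]
    constructor
    · linarith [(hv i).1, (hw i).2]
    · linarith [(hv i).2, (hw i).1]
  have h2 := Int.eq_zero_of_abs_lt_dvd (h i) h1
  linarith

private theorem K3_trans {m d : ℕ} {u v w : Vn m} (h : CgN d u v) (h' : CgN d v w) : CgN d u w := by
  intro i
  have := dvd_add (h i) (h' i)
  rwa [sub_add_sub_cancel] at this

private theorem K3_of_dvd {m d M : ℕ} (hd : d ∣ M) {u v : Vn m} (h : CgN M u v) : CgN d u v := by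
  have h1 : (d : ℤ) ∣ (M : ℤ) := by exact_mod_cast hd
  exact fun i => dvd_trans h1 (h i)

private theorem K3_evdvd {m d : ℕ} {v w : Vn m} (l : Vn m) (h : CgN d v w) (hw : (d : ℤ) ∣ evl l w) :
    (d : ℤ) ∣ evl l v := by
  have h1 : evl l v = evl l w + ∑ i : Fin (m + 1), (v i - w i) * l i := by
    unfold evl
    rw [← Finset.sum_add_distrib]
    exact Finset.sum_congr rfl fun i _ => by ring
  rw [h1]
  exact dvd_add hw (Finset.dvd_sum fun i _ => (h i).mul_right _)

private theorem K3_exp {m M : ℕ} (hM : 0 < M) (k : Vn m) {v w : Vn m} (h : CgN M v w) :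
    Complex.exp (2 * Real.pi * Complex.I * (((∑ i, k i * v i : ℤ) : ℂ) / (M : ℂ))) =
      Complex.exp (2 * Real.pi * Complex.I * (((∑ i, k i * w i : ℤ) : ℂ) / (M : ℂ))) := by
  have h2 : (M : ℤ) ∣ ∑ i, k i * v i - ∑ i, k i * w i := by
    rw [← Finset.sum_sub_distrib]
    refine Finset.dvd_sum fun i _ => ?_
    rw [← mul_sub]
    exact (h i).mul_left _
  obtain ⟨x, hx⟩ := h2
  have hM0 : (M : ℂ) ≠ 0 := by exact_mod_cast hM.ne'
  have h1 : ∑ i, k i * v i = ∑ i, k i * w i + M * x := by linarith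
  rw [Complex.exp_eq_exp_iff_exists_int]
  refine ⟨x, ?_⟩
  rw [h1]
  push_cast
  field_simp

/-- Proof. `M' = M q k`. The coordinates `f i`, `i ≠ 0`, are arbitrary in the class of `c i` modulo `q` (`M'/q` values each). Given these, `evn f r = f 0 + (rest)`, so `f 0` lies in one class modulo `M` and in one
class modulo `q`, i.e. in one class modulo `M q` (Chinese remainder theorem): `M'/(M q)` values. Total `(M'/q)^m M'/(M q)`. (One coordinate: `#{x ∈ Ico 0 M' : d ∣ x - c} = M'/d` for `d ∣ M'`.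
Split off the coordinate `0` with `Fin.consEquiv`, `Fin.insertNthEquiv` or `Fintype.piFinset`/`Fin.cons`.) -/
theorem card_cosetL {m : ℕ} (M' M q : ℕ) (hM' : 0 < M') (hM : 0 < M) (hq : 0 < q) (hc : M.Coprime q) (hd : M * q ∣ M')
    (l : Vn m) (hl0 : l 0 = 1) (c : Vn m) : ((cubeN m M').filter (CosL M q l c)).card * (M * q ^ (m + 1)) = M' ^ (m + 1) := by
  obtain ⟨k, hk⟩ := hd
  set T : Finset (Fin m → ℤ) :=
    Fintype.piFinset fun i : Fin m => (Ico (0 : ℤ) (M' : ℤ)).filter fun x => (q : ℤ) ∣ x - c i.succ with hT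
  have hTc : T.card = (M * k) ^ m := by
    rw [hT, Fintype.card_piFinset]
    have h1 : ∀ i : Fin m, ((Ico (0 : ℤ) (M' : ℤ)).filter fun x => (q : ℤ) ∣ x - c i.succ).card = M * k := by
      intro i
      refine K3_one M' q (M * k) hq ?_ _
      rw [hk]
      ring
    rw [Finset.prod_congr rfl fun i _ => h1 i]
    simp
  have hmaps : ∀ f ∈ (cubeN m M').filter (CosL M q l c), (fun i : Fin m => f i.succ) ∈ T := by
    intro f hf
    rw [mem_filter, mem_cubeN] at hf
    rw [hT, Fintype.mem_piFinset]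
    intro i
    rw [mem_filter, mem_Ico]
    exact ⟨hf.1 i.succ, hf.2.1 i.succ⟩
  have hfib : ∀ g ∈ T, (((cubeN m M').filter (CosL M q l c)).filter
      fun f => (fun i : Fin m => f i.succ) = g).card = k := by
    intro g hg
    rw [hT, Fintype.mem_piFinset] at hg
    obtain ⟨s, hs⟩ := K3_crt M q hc (c 0) (∑ i : Fin m, g i * l i.succ)
    rw [← K3_one M' (M * q) k (Nat.mul_pos hM hq) hk s]
    refine Finset.card_nbij' (fun f => f 0) (fun x => (Fin.cons x g : Vn m)) ?_ ?_ ?_ ?_
    · intro f hf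
      rw [Finset.mem_coe, mem_filter, mem_filter, mem_cubeN] at hf
      obtain ⟨⟨h1, h2, h3⟩, h4⟩ := hf
      rw [Finset.mem_coe, mem_filter, mem_Ico]
      refine ⟨h1 0, (hs _).1 ⟨h2 0, ?_⟩⟩
      have h5 : f = (Fin.cons (f 0) g : Vn m) := by
        rw [← h4]
        exact (Fin.cons_self_tail f).symm
      rw [h5, K3_evn _ _ l hl0] at h3
      exact h3
    · intro x hx
      rw [Finset.mem_coe, mem_filter, mem_Ico] at hx
      obtain ⟨h1, h2⟩ := hx
      obtain ⟨h3, h4⟩ := (hs x).2 h2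
      rw [Finset.mem_coe, mem_filter, mem_filter, mem_cubeN]
      refine ⟨⟨?_, ?_, ?_⟩, ?_⟩
      · intro i
        refine Fin.cases ?_ (fun j => ?_) i
        · exact h1
        · have h5 := hg j
          rw [mem_filter, mem_Ico] at h5
          exact h5.1
      · intro i
        refine Fin.cases ?_ (fun j => ?_) i
        · exact h3
        · have h5 := hg j
          rw [mem_filter, mem_Ico] at h5
          exact h5.2
      · rw [K3_evn _ _ l hl0]
        exact h4
      · funext i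
        rfl
    · intro f hf
      rw [Finset.mem_coe, mem_filter] at hf
      obtain ⟨_, h4⟩ := hf
      change (Fin.cons (f 0) g : Vn m) = f
      rw [← h4]
      exact Fin.cons_self_tail f
    · intro x _
      rfl
  have hcard : ((cubeN m M').filter (CosL M q l c)).card = (M * k) ^ m * k := by
    rw [Finset.card_eq_sum_card_fiberwise (f := fun (f : Vn m) => (fun i : Fin m => f i.succ)) (t := T) hmaps,
      Finset.sum_congr rfl hfib, Finset.sum_const, smul_eq_mul, hTc]
  rw [hcard, hk]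
  ring

/-- Proof. (Model: `FGO.char_sum_zero`.) The translation `f ↦ (f + u) mod M'` (coordinatewise) is a bijection of the filtered cube (`M q ∣ M'`) and multiplies every term by `e((∑ k i u i)/M') ≠ 1`
(`Complex.exp_eq_one_iff`); so the sum `T` satisfies `T = e(..) T`, `T = 0`. -/
theorem char_sum_zeroL {m : ℕ} (M' M q : ℕ) (hM' : 0 < M') (hd : M * q ∣ M') (l c k u : Vn m)
    (hu : CosL M q l 0 u) (hku : ¬ (M' : ℤ) ∣ ∑ i, k i * u i) :
    ∑ f ∈ (cubeN m M').filter (CosL M q l c),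
      Complex.exp (2 * Real.pi * Complex.I * (((∑ i, k i * f i : ℤ) : ℂ) / (M' : ℂ))) = 0 := by
  have hM0 : (M' : ℂ) ≠ 0 := by exact_mod_cast hM'.ne'
  have hMM : M ∣ M' := dvd_trans (dvd_mul_right M q) hd
  have hqM : q ∣ M' := dvd_trans (dvd_mul_left q M) hd
  obtain ⟨hu1, hu2⟩ := hu
  have hred : ∀ v : Vn m, CgN M' (K3_red M' v) v := fun v i => K3_dvd M' (v i)
  -- translations preserve the set
  have hmem : ∀ (s : ℤ) (v : Vn m), v ∈ (cubeN m M').filter (CosL M q l c) →
      K3_red M' (fun i => v i + s * u i) ∈ (cubeN m M').filter (CosL M q l c) := by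
    intro s v hv
    rw [mem_filter] at hv ⊢
    obtain ⟨_, hv1, hv2⟩ := hv
    refine ⟨K3_red_mem M' hM' _, ?_, ?_⟩
    · refine K3_trans (K3_of_dvd hqM (hred _)) (K3_trans ?_ hv1)
      intro i
      have h1 := hu1 i
      simp only [Pi.zero_apply, sub_zero] at h1
      change (q : ℤ) ∣ v i + s * u i - v i
      rw [add_sub_cancel_left]
      exact h1.mul_left s
    · refine K3_evdvd l (K3_of_dvd hMM (hred _)) ?_
      have h1 : evl l (fun i => v i + s * u i) = evl l v + s * evl l u := by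
        unfold evl
        rw [Finset.mul_sum, ← Finset.sum_add_distrib]
        exact Finset.sum_congr rfl fun i _ => by ring
      rw [h1]
      exact dvd_add hv2 (hu2.mul_left s)
  set F := (cubeN m M').filter (CosL M q l c) with hF
  set S : ℂ := ∑ f ∈ F, Complex.exp (2 * Real.pi * Complex.I * (((∑ i, k i * f i : ℤ) : ℂ) / (M' : ℂ))) with hS
  set z : ℂ := Complex.exp (2 * Real.pi * Complex.I * (((∑ i, k i * u i : ℤ) : ℂ) / (M' : ℂ))) with hz
  have hbij : S = ∑ f ∈ F, z * Complex.exp (2 * Real.pi * Complex.I * (((∑ i, k i * f i : ℤ) : ℂ) / (M' : ℂ))) := by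
    rw [hS]
    symm
    refine Finset.sum_nbij' (fun v => K3_red M' (fun i => v i + 1 * u i))
      (fun v => K3_red M' (fun i => v i + (-1) * u i))
      (fun v hv => hmem 1 v hv) (fun v hv => hmem (-1) v hv) ?_ ?_ ?_
    · intro v hv
      have hv' : v ∈ cubeN m M' := (mem_filter.mp hv).1
      refine K3_eq (K3_red_mem M' hM' _) hv' (K3_trans (hred _) ?_)
      intro i
      have h1 := hred (fun i => v i + 1 * u i) i
      change (M' : ℤ) ∣ K3_red M' (fun i => v i + 1 * u i) i + (-1) * u i - v i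
      have e : K3_red M' (fun i => v i + 1 * u i) i + (-1) * u i - v i =
          K3_red M' (fun i => v i + 1 * u i) i - (v i + 1 * u i) := by ring
      rw [e]
      exact h1
    · intro v hv
      have hv' : v ∈ cubeN m M' := (mem_filter.mp hv).1
      refine K3_eq (K3_red_mem M' hM' _) hv' (K3_trans (hred _) ?_)
      intro i
      have h1 := hred (fun i => v i + (-1) * u i) i
      change (M' : ℤ) ∣ K3_red M' (fun i => v i + (-1) * u i) i + 1 * u i - v i
      have e : K3_red M' (fun i => v i + (-1) * u i) i + 1 * u i - v i =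
          K3_red M' (fun i => v i + (-1) * u i) i - (v i + (-1) * u i) := by ring
      rw [e]
      exact h1
    · intro v _
      rw [K3_exp hM' k (hred (fun i => v i + 1 * u i)), hz, ← Complex.exp_add]
      congr 1
      have h1 : ∑ i, k i * (v i + 1 * u i) = ∑ i, k i * v i + ∑ i, k i * u i := by
        rw [← Finset.sum_add_distrib]
        exact Finset.sum_congr rfl fun i _ => by ring
      rw [h1]
      push_cast
      ring
  rw [← Finset.mul_sum, ← hS] at hbij
  have hz1 : z ≠ 1 := by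
    intro h
    rw [hz, Complex.exp_eq_one_iff] at h
    obtain ⟨n, hn⟩ := h
    apply hku
    refine ⟨n, ?_⟩
    have hpi : (2 * Real.pi * Complex.I : ℂ) ≠ 0 := Complex.two_pi_I_ne_zero
    have h2 : ((∑ i, k i * u i : ℤ) : ℂ) / (M' : ℂ) = n := by
      have h3 : (2 * Real.pi * Complex.I : ℂ) * (((∑ i, k i * u i : ℤ) : ℂ) / (M' : ℂ)) =
          (2 * Real.pi * Complex.I : ℂ) * n := by
        rw [hn]
        ring
      exact mul_left_cancel₀ hpi h3
    rw [div_eq_iff hM0] at h2
    have h4 : ((∑ i, k i * u i : ℤ) : ℂ) = ((M' * n : ℤ) : ℂ) := by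
      rw [h2]
      push_cast
      ring
    exact_mod_cast h4
  have h5 : (z - 1) * S = 0 := by
    rw [sub_mul, one_mul, ← hbij, sub_self]
  rcases mul_eq_zero.mp h5 with h | h
  · exact absurd (sub_eq_zero.mp h) hz1
  · exact h

end HNF
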