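import Pool.Agent.Lib.MP_1ad228_ntH.Defs
import Pool.Agent.Lib.MP_10e784_agF.KN1

/-! JOB K4 -/

set_option autoImplicit false

open Classical

namespace HNF

open Finset Polynomial FGO FQQ

private theorem K4_sum {m : ℕ} (f : Vn m) (i : Fin (m + 1)) (c : ℤ) :
    ∑ j, f j * (Pi.single i c : Vn m) j = f i * c := by
  rw [Finset.sum_eq_single i]
  · rw [Pi.single_eq_same]
  · intro j _ hj
    rw [Pi.single_eq_of_ne hj, mul_zero]
  · intro h
    exact absurd (mem_univ i) h

private theorem K4_ev {m : ℕ} (i : Fin (m + 1)) (c : ℤ) (l : Vn m) :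
    evl l (Pi.single i c : Vn m) = c * l i := by
  unfold evl
  rw [Finset.sum_eq_single i]
  · rw [Pi.single_eq_same]
  · intro j _ hj
    rw [Pi.single_eq_of_ne hj, zero_mul]
  · intro h
    exact absurd (mem_univ i) h

private theorem K4_sub {m : ℕ} (f g l : Vn m) : evl l (f - g) = evl l f - evl l g := by
  unfold evl
  rw [← Finset.sum_sub_distrib]
  exact Finset.sum_congr rfl fun j _ => by rw [Pi.sub_apply, sub_mul]

private theorem K4_smul {m : ℕ} (c : ℤ) (f l : Vn m) : evl l (fun j => c * f j) = c * evl l f := by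
  unfold evl
  rw [Finset.mul_sum]
  exact Finset.sum_congr rfl fun j _ => mul_assoc _ _ _

/-- Proof. (Model: `FGO.exists_move`.) Suppose not: `M' = 4HJ` divides `k · u` for all `u` with `CosL M q l 0 u`. Write `J = M q J'`, so `M' = M q (4HJ')`.
(1) `u = M q e_i` is allowed, so `4HJ' ∣ k i`: write `k = 4HJ' n`, `n ≠ 0`. As `|k i| < J = M q J'`: `4 H |n i| < M q ≤ q0 M` for all `i`.
(2) For every `w` with `M ∣ evn w r` the vector `u = q w` is allowed: `M' ∣ q (4HJ') (n · w)`, i.e. `M ∣ n · w`.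
(3) For `i ≠ 0` the vector `w = e_i - r^i e_0` has `evn w r = 0`, so `M ∣ n i - r^i n 0`; also `M ∣ n 0 - (n 0) r^0`. So with `t = n 0` all `M ∣ n i - t r^i`, and `GoodN` gives `i` with `q0 M ≤ 4 H |n i|`:
contradiction to (1). -/
theorem exists_moveL {m H J M q q0 : ℕ} {l : Vn m} (hl0 : l 0 = 1) (hH : 0 < H) (hJ : 0 < J) (hM : 0 < M) (hq : 0 < q)
    (hd : M * q ∣ J) (hq0 : q ≤ q0) (hG : GoodL m H q0 M l) (k : Vn m) (hk : k ≠ 0)
    (hkJ : ∀ i, (k i).natAbs < J) :
    ∃ u : Vn m, CosL M q l 0 u ∧ ¬ ((4 * H * J : ℕ) : ℤ) ∣ ∑ i, k i * u i := by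
  by_contra hcon
  push Not at hcon
  obtain ⟨J', rfl⟩ := hd
  have hJ' : 0 < J' := Nat.pos_of_ne_zero fun h => by
    rw [h, mul_zero] at hJ
    exact lt_irrefl _ hJ
  have hM0 : (M : ℤ) ≠ 0 := by exact_mod_cast hM.ne'
  have hq00 : (q : ℤ) ≠ 0 := by exact_mod_cast hq.ne'
  have hH0 : (H : ℤ) ≠ 0 := by exact_mod_cast hH.ne'
  have hJ0 : (J' : ℤ) ≠ 0 := by exact_mod_cast hJ'.ne'
  -- (1)
  have h1 : ∀ i, ∃ c : ℤ, k i = 4 * H * J' * c := by
    intro i
    have hc : CosL M q l 0 (Pi.single i ((M : ℤ) * q) : Vn m) := by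
      refine ⟨?_, ?_⟩
      · intro j
        by_cases hj : j = i
        · subst hj
          rw [Pi.single_eq_same, Pi.zero_apply, sub_zero]
          exact dvd_mul_left _ _
        · rw [Pi.single_eq_of_ne hj, Pi.zero_apply, sub_zero]
          exact dvd_zero _
      · rw [K4_ev]
        exact ⟨(q : ℤ) * l i, by ring⟩
    have h2 := hcon _ hc
    rw [K4_sum] at h2
    push_cast at h2
    obtain ⟨c, hc'⟩ := h2
    refine ⟨c, ?_⟩
    have h3 : (M : ℤ) * q ≠ 0 := mul_ne_zero hM0 hq00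
    apply mul_right_cancel₀ h3
    rw [hc']
    ring
  choose n hn using h1
  have hn0 : n ≠ 0 := by
    rintro rfl
    refine hk (funext fun i => ?_)
    rw [hn i, Pi.zero_apply, mul_zero]
  have hb : ∀ i, 4 * H * (n i).natAbs < q0 * M := by
    intro i
    have h2 := hkJ i
    rw [hn i] at h2
    have h3 : (4 * (H : ℤ) * J' * n i).natAbs = 4 * H * J' * (n i).natAbs := by
      rw [Int.natAbs_mul, Int.natAbs_mul, Int.natAbs_mul, Int.natAbs_natCast, Int.natAbs_natCast]
      rfl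
    rw [h3] at h2
    have h4 : J' * (4 * H * (n i).natAbs) < J' * (M * q) := by
      calc J' * (4 * H * (n i).natAbs) = 4 * H * J' * (n i).natAbs := by ring
        _ < M * q * J' := h2
        _ = J' * (M * q) := by ring
    have h5 := Nat.lt_of_mul_lt_mul_left h4
    calc 4 * H * (n i).natAbs < M * q := h5
      _ ≤ M * q0 := Nat.mul_le_mul_left M hq0
      _ = q0 * M := mul_comm _ _
  -- (2)
  have h2 : ∀ w : Vn m, (M : ℤ) ∣ evl l w → (M : ℤ) ∣ ∑ i, n i * w i := by
    intro w hw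
    have hc : CosL M q l 0 (fun j => (q : ℤ) * w j) := by
      refine ⟨?_, ?_⟩
      · intro j
        rw [Pi.zero_apply, sub_zero]
        exact dvd_mul_right _ _
      · rw [K4_smul]
        exact Dvd.dvd.mul_left hw _
    have h3 := hcon _ hc
    have h4 : ∑ i, k i * ((q : ℤ) * w i) = (4 * H * J' * q) * ∑ i, n i * w i := by
      rw [Finset.mul_sum]
      refine Finset.sum_congr rfl fun i _ => ?_
      rw [hn i]
      ring
    rw [h4] at h3
    have h5 : ((4 * H * (M * q * J') : ℕ) : ℤ) = (4 * H * J' * q) * M := by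
      push_cast
      ring
    rw [h5] at h3
    have h6 : (4 * (H : ℤ) * J' * q) ≠ 0 :=
      mul_ne_zero (mul_ne_zero (mul_ne_zero (by norm_num) hH0) hJ0) hq00
    exact (mul_dvd_mul_iff_left h6).1 h3
  -- (3)
  obtain ⟨i, hi⟩ := hG n hn0 ⟨n 0, fun i => by
    have h3 := h2 (Pi.single i 1 - Pi.single 0 (l i)) (by
      rw [K4_sub, K4_ev, K4_ev]
      have e : (1 : ℤ) * l i - l i * l 0 = 0 := by
        rw [hl0]
        ring
      rw [e]
      exact dvd_zero _)
    have h4 : ∑ j, n j * (Pi.single i 1 - Pi.single 0 (l i) : Vn m) j = n i - n 0 * l i := by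
      have h5 : ∑ j, n j * (Pi.single i 1 - Pi.single 0 (l i) : Vn m) j =
          ∑ j, n j * (Pi.single i 1 : Vn m) j - ∑ j, n j * (Pi.single 0 (l i) : Vn m) j := by
        rw [← Finset.sum_sub_distrib]
        exact Finset.sum_congr rfl fun j _ => by rw [Pi.sub_apply, mul_sub]
      rw [h5, K4_sum, K4_sum, mul_one]
    rwa [h4] at h3⟩
  have h7 := hb i
  omega

end HNF
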