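import Pool.Agent.Lib.MP_1ad228_ntH.K3
import Pool.Agent.Lib.MP_1ad228_ntH.K4

/-! JOB K5 -/

set_option autoImplicit false

open Classical

namespace HNF

open Finset Polynomial FGO FQQ

/-- the kernel as a sum of exponentials -/
private theorem K5_aux1 (J M : ℕ) (a : ℤ) :
    ((wt J M a : ℝ) : ℂ) = 2 / (J : ℂ) ^ 2 * ∑ p ∈ range J ×ˢ range J,
      Complex.exp (2 * Real.pi * Complex.I * ((((((p.1 : ℤ) - (p.2 : ℤ)) * a : ℤ) : ℂ)) / (M : ℂ))) := by
  unfold wt
  push_cast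
  congr 1
  rw [← Complex.mul_conj', map_sum, Finset.sum_mul_sum, ← Finset.sum_product']
  refine Finset.sum_congr rfl fun p _ => ?_
  rw [← Complex.exp_conj, ← Complex.exp_add]
  congr 1
  simp only [map_mul, map_div₀, Complex.conj_I, Complex.conj_ofReal, Complex.conj_natCast, map_intCast, map_ofNat]
  ring

/-- the frequency -/
private def K5_k {m : ℕ} (p : Fin (m + 1) → ℕ × ℕ) : Vn m := fun i => ((p i).1 : ℤ) - ((p i).2 : ℤ)

private noncomputable def K5_P (m J : ℕ) : Finset (Fin (m + 1) → ℕ × ℕ) :=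
  Fintype.piFinset fun _ => range J ×ˢ range J

private theorem K5_aux2 {m : ℕ} (J M : ℕ) (f : Vn m) :
    ((WN J M f : ℝ) : ℂ) = (2 / (J : ℂ) ^ 2) ^ (m + 1) * ∑ p ∈ K5_P m J,
      Complex.exp (2 * Real.pi * Complex.I * (((∑ i, K5_k p i * f i : ℤ) : ℂ) / (M : ℂ))) := by
  unfold WN
  rw [Complex.ofReal_prod]
  simp only [K5_aux1]
  rw [Finset.prod_mul_distrib, Finset.prod_const, Finset.card_univ, Fintype.card_fin, Finset.prod_univ_sum]
  congr 1
  unfold K5_P
  refine Finset.sum_congr rfl fun p _ => ?_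
  rw [← Complex.exp_sum]
  congr 1
  rw [← Finset.mul_sum, ← Finset.sum_div]
  unfold K5_k
  push_cast
  rfl

private theorem K5_zero {m : ℕ} {p : Fin (m + 1) → ℕ × ℕ} :
    K5_k p = 0 ↔ ∀ i, (p i).1 = (p i).2 := by
  unfold K5_k
  rw [funext_iff]
  refine forall_congr' fun i => ?_
  rw [Pi.zero_apply, sub_eq_zero, Nat.cast_inj]

private theorem K5_card (m J : ℕ) : ((K5_P m J).filter fun p => K5_k p = 0).card = J ^ (m + 1) := by
  have h : ((K5_P m J).filter fun p => K5_k p = 0) =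
      (Fintype.piFinset fun _ : Fin (m + 1) => range J).image fun t => fun i => (t i, t i) := by
    ext p
    rw [mem_filter, mem_image, K5_zero]
    unfold K5_P
    simp only [Fintype.mem_piFinset, mem_product, mem_range]
    constructor
    · rintro ⟨h1, h2⟩
      refine ⟨fun i => (p i).1, fun i => (h1 i).1, ?_⟩
      funext i
      exact Prod.ext rfl (h2 i)
    · rintro ⟨t, h1, rfl⟩
      exact ⟨fun i => ⟨h1 i, h1 i⟩, fun i => rfl⟩
  rw [h, Finset.card_image_of_injective, Fintype.card_piFinset]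
  · simp
  · intro a b hab
    funext i
    have := congrFun hab i
    simp only [Prod.mk.injEq] at this
    exact this.1

private theorem K5_nm {m J : ℕ} {p : Fin (m + 1) → ℕ × ℕ} (hp : p ∈ K5_P m J) (i : Fin (m + 1)) :
    (K5_k p i).natAbs < J := by
  unfold K5_P at hp
  simp only [Fintype.mem_piFinset, mem_product, mem_range] at hp
  have h := hp i
  unfold K5_k
  omega

/-- Proof. (Model: `FGO.ex_coset`.) `M' = 4HJ`. `‖∑ j<J e(j a/M')‖² = ∑_{j, j' < J} e((j - j') a / M')` (work in `ℂ`), so by `Finset.prod_univ_sum` (product over the coordinates)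
`WN J M' f = (2/J²)^(m+1) ∑_{(j, j')} e(k · f / M')`, where `j, j'` run through `Fin (m+1) → range J` (`Fintype.piFinset`) and `k i = j i - j' i`, `|k i| < J`. Exchange the sums.
For `k ≠ 0` the inner sum over the coset is `0` (`exists_moveN`, `char_sum_zeroN`); `k = 0` occurs `J^(m+1)` times and gives `#(coset) = M'^(m+1)/(M q^(m+1))` (`card_cosetN`).
Total: `(2/J²)^(m+1) J^(m+1) (4HJ)^(m+1)/(M q^(m+1)) = (8H)^(m+1)/(M q^(m+1))`. -/
theorem ex_cosetL {m H J M q q0 : ℕ} {l : Vn m} (hl0 : l 0 = 1) (hH : 0 < H) (hJ : 0 < J) (hM : 0 < M) (hq : 0 < q)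
    (hc : M.Coprime q) (hd : M * q ∣ J) (hq0 : q ≤ q0) (hG : GoodL m H q0 M l) (c : Vn m) :
    ∑ f ∈ (cubeN m (4 * H * J)).filter (CosL M q l c), WN J (4 * H * J) f =
      (8 * (H : ℝ)) ^ (m + 1) / ((M : ℝ) * (q : ℝ) ^ (m + 1)) := by
  have hM' : 0 < 4 * H * J := by positivity
  have hdM : M * q ∣ 4 * H * J := Dvd.dvd.mul_left hd _
  have hcard := card_cosetL (4 * H * J) M q hM' hM hq hc hdM l hl0 c
  have key : ((∑ f ∈ (cubeN m (4 * H * J)).filter (CosL M q l c), WN J (4 * H * J) f : ℝ) : ℂ) =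
      (2 / (J : ℂ) ^ 2) ^ (m + 1) * ((J : ℂ) ^ (m + 1) * (((cubeN m (4 * H * J)).filter (CosL M q l c)).card : ℂ)) := by
    rw [Complex.ofReal_sum]
    simp only [K5_aux2]
    rw [← Finset.mul_sum, Finset.sum_comm]
    congr 1
    rw [← Finset.sum_filter_add_sum_filter_not (K5_P m J) fun p => K5_k p = 0]
    have h1 : ∑ p ∈ (K5_P m J).filter (fun p => ¬ K5_k p = 0), ∑ f ∈ (cubeN m (4 * H * J)).filter (CosL M q l c),
        Complex.exp (2 * Real.pi * Complex.I * (((∑ i, K5_k p i * f i : ℤ) : ℂ) / ((4 * H * J : ℕ) : ℂ))) = 0 := by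
      refine Finset.sum_eq_zero fun p hp => ?_
      rw [mem_filter] at hp
      obtain ⟨u, hu, hku⟩ := exists_moveL hl0 hH hJ hM hq hd hq0 hG (K5_k p) hp.2 (K5_nm hp.1)
      exact char_sum_zeroL (4 * H * J) M q hM' hdM l c (K5_k p) u hu hku
    have h2 : ∑ p ∈ (K5_P m J).filter (fun p => K5_k p = 0), ∑ f ∈ (cubeN m (4 * H * J)).filter (CosL M q l c),
        Complex.exp (2 * Real.pi * Complex.I * (((∑ i, K5_k p i * f i : ℤ) : ℂ) / ((4 * H * J : ℕ) : ℂ))) =
          (J : ℂ) ^ (m + 1) * (((cubeN m (4 * H * J)).filter (CosL M q l c)).card : ℂ) := by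
      rw [Finset.sum_congr rfl (g := fun _ => (((cubeN m (4 * H * J)).filter (CosL M q l c)).card : ℂ))]
      · rw [Finset.sum_const, K5_card, nsmul_eq_mul]
        push_cast
        ring
      · intro p hp
        rw [mem_filter] at hp
        rw [hp.2, Finset.sum_congr rfl (g := fun _ => (1 : ℂ))]
        · rw [Finset.sum_const, nsmul_eq_mul, mul_one]
        · intro f _
          have h3 : ∑ i, (0 : Vn m) i * f i = 0 := by
            simp
          rw [h3]
          simp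
    rw [h1, h2, add_zero]
  have hR : (∑ f ∈ (cubeN m (4 * H * J)).filter (CosL M q l c), WN J (4 * H * J) f : ℝ) =
      (2 / (J : ℝ) ^ 2) ^ (m + 1) * ((J : ℝ) ^ (m + 1) * (((cubeN m (4 * H * J)).filter (CosL M q l c)).card : ℝ)) := by
    have h4 : ((∑ f ∈ (cubeN m (4 * H * J)).filter (CosL M q l c), WN J (4 * H * J) f : ℝ) : ℂ) =
        (((2 / (J : ℝ) ^ 2) ^ (m + 1) * ((J : ℝ) ^ (m + 1) * (((cubeN m (4 * H * J)).filter (CosL M q l c)).card : ℝ)) : ℝ) : ℂ) := by
      rw [key]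
      push_cast
      rfl
    exact Complex.ofReal_injective h4
  rw [hR]
  have hJ' : (J : ℝ) ≠ 0 := by exact_mod_cast hJ.ne'
  have hM'' : (M : ℝ) ≠ 0 := by exact_mod_cast hM.ne'
  have hq' : (q : ℝ) ≠ 0 := by exact_mod_cast hq.ne'
  have hc' : (((cubeN m (4 * H * J)).filter (CosL M q l c)).card : ℝ) * ((M : ℝ) * (q : ℝ) ^ (m + 1)) =
      (4 * (H : ℝ) * (J : ℝ)) ^ (m + 1) := by
    have h5 := congrArg (fun n : ℕ => (n : ℝ)) hcard
    simp only [Nat.cast_mul, Nat.cast_pow, Nat.cast_ofNat] at h5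
    exact h5
  rw [eq_div_iff (mul_ne_zero hM'' (pow_ne_zero (m + 1) hq'))]
  calc (2 / (J : ℝ) ^ 2) ^ (m + 1) * ((J : ℝ) ^ (m + 1) * (((cubeN m (4 * H * J)).filter (CosL M q l c)).card : ℝ)) *
        ((M : ℝ) * (q : ℝ) ^ (m + 1))
      = (2 / (J : ℝ) ^ 2) ^ (m + 1) * (J : ℝ) ^ (m + 1) *
        ((((cubeN m (4 * H * J)).filter (CosL M q l c)).card : ℝ) * ((M : ℝ) * (q : ℝ) ^ (m + 1))) := by ring
    _ = (8 * (H : ℝ)) ^ (m + 1) := by
        rw [hc', ← mul_pow, ← mul_pow]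
        congr 1
        field_simp
        ring

end HNF
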