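import Pool.Agent.Lib.MP_1ad228_ntH.K6
import Pool.Agent.Lib.MP_1ad228_ntG.Bon

/-! JOB K7 -/

set_option autoImplicit false

open Classical

namespace HNF

open Finset Polynomial FGO FQQ

/-- (sieve for `f`) Proof. (Model: `FGO.sieve`.) `J = M * G * ∏ p ∈ Q, p`. `F f = φ f * ∏ p ∈ Q, (1 - x p f) ≥ 0` is periodic modulo `J`; `box_le_cubeN`. By `FGO.bonf` for every `f`:
`∏ (1 - x p f) ≤ ∑_{D ⊆ Q, |D| ≤ 2k} (-1)^|D| ∏_D x p f`; multiply by `WN * φ ≥ 0`, exchange the sums, `ex_perN` with `q = G * ∏_D p` (coprime to `M`, `M q ∣ J`, `q ≤ q0` by `hk`) and the function `φ * ∏_D x p`, whose mean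
value is `ExN G φ * ∏_D ExN p (x p)` (`ExN_mul`, `ExN_prod`). Total `(8H)^(m+1)/M * ExN G φ * ∑_{D, |D| ≤ 2k} (-1)^|D| ∏_D ExN p (x p)`. Then `FGO.bonf_up`, `FGO.esymm_le` for the numbers `ExN m p (x p) ∈ [0, 1]`,
monotonicity in `B`, and `ExN G φ ≥ 0`. -/
theorem sieveL {m H M q0 k G : ℕ} {l : Vn m} (hl0 : l 0 = 1) (hH : 0 < H) (hM : 0 < M) (hG0 : 0 < G) (Q : Finset ℕ)
    (hQ : ∀ p ∈ Q, p.Prime ∧ ¬ p ∣ M ∧ ¬ p ∣ G) (hMG : M.Coprime G)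
    (hk : ∀ D ⊆ Q, D.card ≤ 2 * k → G * ∏ p ∈ D, p ≤ q0) (hG : GoodL m H q0 M l)
    (φ : Vn m → ℝ) (hφ : PerN G φ) (hφ0 : ∀ f, 0 ≤ φ f) (x : ℕ → Vn m → ℝ) (hx : ∀ p ∈ Q, PerN p (x p))
    (h0 : ∀ p ∈ Q, ∀ f, 0 ≤ x p f) (h1 : ∀ p ∈ Q, ∀ f, x p f ≤ 1) (B : ℝ) (hB : ∑ p ∈ Q, ExN m p (x p) ≤ B) :
    ∑ f ∈ (boxN m H).filter (fun f => (M : ℤ) ∣ evl l f), φ f * ∏ p ∈ Q, (1 - x p f) ≤
      (8 * (H : ℝ)) ^ (m + 1) / (M : ℝ) * ExN m G φ *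
        (∏ p ∈ Q, (1 - ExN m p (x p)) + B ^ (2 * k + 1) / ((2 * k + 1).factorial : ℝ)) := by
  classical
  have hpp : ∀ p ∈ Q, p.Prime := fun p hp => (hQ p hp).1
  obtain ⟨J, hJdef⟩ : ∃ J : ℕ, J = M * G * ∏ p ∈ Q, p := ⟨_, rfl⟩
  have hprod : 0 < ∏ p ∈ Q, p := Finset.prod_pos fun p hp => (hpp p hp).pos
  have hJ : 0 < J := by
    rw [hJdef]
    exact Nat.mul_pos (Nat.mul_pos hM hG0) hprod
  have hMJ : M ∣ J := by
    rw [hJdef, mul_assoc]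
    exact Dvd.intro _ rfl
  have hGJ : G ∣ 4 * H * J := by
    rw [hJdef]
    exact ⟨4 * H * M * ∏ p ∈ Q, p, by ring⟩
  have hpM : ∀ p ∈ Q, p ∣ 4 * H * J := by
    intro p hp
    have e1 : p ∣ ∏ p ∈ Q, p := Finset.dvd_prod_of_mem (fun p => p) hp
    rw [hJdef]
    exact (e1.mul_left (M * G)).mul_left (4 * H)
  have hf0 : ∀ f : Vn m, 0 ≤ φ f * ∏ p ∈ Q, (1 - x p f) := fun f =>
    mul_nonneg (hφ0 f) (Finset.prod_nonneg fun p hp => sub_nonneg.2 (h1 p hp f))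
  have hfP : PerN (4 * H * J) fun f => φ f * ∏ p ∈ Q, (1 - x p f) := by
    intro f g e1
    have e2 : ∏ p ∈ Q, (1 - x p f) = ∏ p ∈ Q, (1 - x p g) := by
      refine Finset.prod_congr rfl fun p hp => ?_
      rw [(hx p hp).mono (hpM p hp) f g e1]
    have e3 := hφ.mono hGJ f g e1
    simp only [e2, e3]
  refine (box_le_cubeL hH hJ hMJ (l := l) _ hf0 hfP).trans ?_
  set K : Finset (Finset ℕ) := Q.powerset.filter (fun D => D.card ≤ 2 * k) with hK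
  have hKm : ∀ D ∈ K, D ⊆ Q ∧ D.card ≤ 2 * k := by
    intro D hD
    rw [hK, Finset.mem_filter, Finset.mem_powerset] at hD
    exact hD
  -- the pointwise bound
  have hpt : ∀ f : Vn m, WN J (4 * H * J) f * (φ f * ∏ p ∈ Q, (1 - x p f)) ≤
      ∑ D ∈ K, (-1 : ℝ) ^ D.card * (WN J (4 * H * J) f * (φ f * ∏ p ∈ D, x p f)) := by
    intro f
    have e1 := bonf Q (fun p => x p f) (fun p hp => h0 p hp f) (fun p hp => h1 p hp f) k
    have e2 : 0 ≤ WN J (4 * H * J) f * φ f := mul_nonneg (WN_nonneg _ _ _) (hφ0 f)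
    rw [← mul_assoc]
    refine (mul_le_mul_of_nonneg_left e1 e2).trans (le_of_eq ?_)
    rw [Finset.mul_sum]
    refine Finset.sum_congr rfl fun D _ => ?_
    ring
  refine (Finset.sum_le_sum fun f _ => hpt f).trans ?_
  rw [Finset.sum_comm]
  -- the mean values
  have hD : ∀ D ∈ K, ∑ f ∈ (cubeN m (4 * H * J)).filter (fun f => (M : ℤ) ∣ evl l f),
      (-1 : ℝ) ^ D.card * (WN J (4 * H * J) f * (φ f * ∏ p ∈ D, x p f)) =
        (8 * (H : ℝ)) ^ (m + 1) / (M : ℝ) * ExN m G φ * ((-1 : ℝ) ^ D.card *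
          ∏ p ∈ D, ExN m p (x p)) := by
    intro D hDK
    obtain ⟨hDQ, hDc⟩ := hKm D hDK
    have hDp : ∀ p ∈ D, p.Prime := fun p hp => hpp p (hDQ hp)
    have hP := ExN_prod (m := m) D hDp x fun p hp => hx p (hDQ hp)
    have hqD : 0 < ∏ p ∈ D, p := Finset.prod_pos fun p hp => (hDp p hp).pos
    have hq : 0 < G * ∏ p ∈ D, p := Nat.mul_pos hG0 hqD
    have hcD : ∀ a : ℕ, (∀ p ∈ D, ¬ p ∣ a) → a.Coprime (∏ p ∈ D, p) := by
      intro a ha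
      refine Nat.Coprime.prod_right fun p hp => ?_
      exact ((Nat.Prime.coprime_iff_not_dvd (hDp p hp)).2 (ha p hp)).symm
    have hc : M.Coprime (G * ∏ p ∈ D, p) :=
      Nat.Coprime.mul_right hMG (hcD M fun p hp => (hQ p (hDQ hp)).2.1)
    have hcG : G.Coprime (∏ p ∈ D, p) := hcD G fun p hp => (hQ p (hDQ hp)).2.2
    have hd : M * (G * ∏ p ∈ D, p) ∣ J := by
      rw [hJdef, ← mul_assoc]
      exact mul_dvd_mul_left (M * G) (Finset.prod_dvd_prod_of_subset _ _ _ hDQ)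
    have hPG : PerN (G * ∏ p ∈ D, p) fun f => φ f * ∏ p ∈ D, x p f := hφ.mul hP.1
    have e1 := ex_perL hl0 hH hJ hM hq hc hd (hk D hDQ hDc) hG (fun f => φ f * ∏ p ∈ D, x p f) hPG
    rw [← Finset.mul_sum, e1, ExN_mul hG0 hqD hcG hφ hP.1, hP.2]
    ring
  rw [Finset.sum_congr rfl hD, ← Finset.mul_sum]
  have hE0 : 0 ≤ ExN m G φ := ExN_nonneg m G φ hφ0
  have hE1 : 0 ≤ (8 * (H : ℝ)) ^ (m + 1) / (M : ℝ) :=
    div_nonneg (pow_nonneg (mul_nonneg (by norm_num) (Nat.cast_nonneg H)) _) (Nat.cast_nonneg M)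
  refine mul_le_mul_of_nonneg_left ?_ (mul_nonneg hE1 hE0)
  have hy0 : ∀ p ∈ Q, 0 ≤ ExN m p (x p) := fun p hp => ExN_nonneg m p (x p) (h0 p hp)
  have hy1 : ∀ p ∈ Q, ExN m p (x p) ≤ 1 := fun p hp =>
    ExN_le_one (hpp p hp).pos (x p) (h1 p hp)
  refine (bonf_up Q (fun p => ExN m p (x p)) hy0 hy1 k).trans ?_
  refine add_le_add le_rfl ((esymm_le Q _ hy0 (2 * k + 1)).trans ?_)
  have hs0 : 0 ≤ ∑ p ∈ Q, ExN m p (x p) := Finset.sum_nonneg hy0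
  exact div_le_div_of_nonneg_right (pow_le_pow_left₀ hs0 hB _) (Nat.cast_nonneg _)

end HNF
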