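import Pool.Agent.Lib.MP_1ad228_ntH.LDefs

/-! The values at the points, up to squares. -/

set_option autoImplicit false

open Classical

namespace HNF

open Finset Polynomial FGO FQQ

theorem LA1_pos {F : Type} [Field F] (P : GP F) (h : P.a = 0) : P.val = P.b := by
  unfold GP.val
  exact if_pos h

theorem LA1_neg {F : Type} [Field F] (P : GP F) (h : P.a ≠ 0) : P.val = P.a := by
  unfold GP.val
  exact if_neg h

/-- The value is not zero. -/
theorem GP.val_ne {F : Type} [Field F] (P : GP F) : P.val ≠ 0 := by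
  by_cases h : P.a = 0
  · rw [LA1_pos P h]
    exact fun hb => P.ne ⟨h, hb⟩
  · rw [LA1_neg P h]
    exact h

/-- The product of the values of the two factors is a square. -/
theorem GP.norm_swap {F : Type} [Field F] (P : GP F) :
    IsSquare (Algebra.norm F P.val * Algebra.norm F P.swap.val) := by
  by_cases ha : P.a = 0
  · have hb : P.b ≠ 0 := fun hb => P.ne ⟨ha, hb⟩
    have h2 : P.swap.val = P.b := LA1_neg P.swap hb
    rw [LA1_pos P ha, h2]
    exact ⟨_, rfl⟩
  · by_cases hb : P.b = 0
    · have h2 : P.swap.val = P.a := LA1_pos P.swap hb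
      rw [LA1_neg P ha, h2]
      exact ⟨_, rfl⟩
    · have h2 : P.swap.val = P.b := LA1_neg P.swap hb
      rw [LA1_neg P ha, h2]
      refine ⟨Algebra.norm F P.y, ?_⟩
      have h3 : Algebra.norm F P.a * Algebra.norm F P.b = Algebra.norm F (P.y ^ 2) := by
        rw [P.eq, map_mul]
      exact h3.trans (by rw [map_pow, pow_two])

/-- A nonzero square in `ℚ_p` has even valuation. -/
theorem even_of_sq {p : ℕ} [Fact p.Prime] {x : ℚ_[p]} (h0 : x ≠ 0) (h : IsSquare x) : Even x.valuation := by
  obtain ⟨r, rfl⟩ := h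
  have hr : r ≠ 0 := by
    rintro rfl
    exact h0 (mul_zero 0)
  rw [Padic.valuation_mul hr hr]
  exact ⟨_, rfl⟩

/-- Parity for the exchanged point. -/
theorem GP.even_swap {p : ℕ} [Fact p.Prime] (P : GP ℚ_[p]) (h : Even (Algebra.norm ℚ_[p] P.swap.val).valuation) :
    Even (Algebra.norm ℚ_[p] P.val).valuation := by
  have h1 : Algebra.norm ℚ_[p] P.val ≠ 0 := Algebra.norm_ne_zero_iff.2 P.val_ne
  have h2 : Algebra.norm ℚ_[p] P.swap.val ≠ 0 := Algebra.norm_ne_zero_iff.2 P.swap.val_ne
  have h3 := even_of_sq (mul_ne_zero h1 h2) P.norm_swap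
  rw [Padic.valuation_mul h1 h2] at h3
  exact (Int.even_add.1 h3).2 h

/-- Parity if one of the two elements has the absolute value of a square. -/
theorem GP.even_of_Ev {p : ℕ} [Fact p.Prime] (P : GP ℚ_[p]) (h : P.Ev) :
    Even (Algebra.norm ℚ_[p] P.val).valuation := by
  obtain ⟨L, s, hs, h⟩ := h
  have hpos : L.v s ^ 2 ≠ 0 := pow_ne_zero _ fun h0 => hs ((L.zero_iff s).1 h0)
  rcases h with h | h
  · have ha : P.a ≠ 0 := by
      intro h0
      rw [h0, (L.zero_iff 0).2 rfl] at h
      exact hpos h.symm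
    rw [LA1_neg P ha]
    exact ZG.even_val L ha hs h
  · have hb : P.b ≠ 0 := by
      intro h0
      rw [h0, (L.zero_iff 0).2 rfl] at h
      exact hpos h.symm
    apply GP.even_swap
    have h2 : P.swap.val = P.b := LA1_neg P.swap hb
    rw [h2]
    exact ZG.even_val L hb hs h

/-- If `d` is a square then every element is of the form `X² - d Y²`. -/
theorem nf_trick {K : Type} [Field K] [CharZero K] (d s t : K) (hs : s ≠ 0) (h : s ^ 2 = d) :
    ∃ X Y : K, t = X ^ 2 - d * Y ^ 2 := by
  refine ⟨(t + 1) / 2, (t - 1) / (2 * s), ?_⟩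
  rw [← h]
  field_simp
  ring

end HNF
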