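import Pool.Agent.Lib.MP_1ad228_ntH.LA1

/-! Parity for the norm forms of the unramified quadratic extension. -/

set_option autoImplicit false

open Classical

namespace HNF

open Finset Polynomial FGO FQQ

theorem LA2_not_dvd {p : ℕ} {d : ℤ} [Fact p.Prime] (hn : jacobiSym d p = -1) : ¬ (p : ℤ) ∣ d := by
  intro h
  have h1 : jacobiSym d p = 0 := by
    rw [← jacobiSym.legendreSym.to_jacobiSym, legendreSym.eq_zero_iff]
    exact (ZMod.intCast_zmod_eq_zero_iff_dvd _ _).2 h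
  rw [h1] at hn
  norm_num at hn

theorem LA2_val {p : ℕ} [Fact p.Prime] {m : ℤ} (hm : ¬ (p : ℤ) ∣ m) : ((m : ℤ) : ℚ_[p]).valuation = 0 := by
  rw [Padic.valuation_intCast, padicValInt.eq_zero_of_not_dvd hm]
  rfl

/-- The nonzero values of the norm form of the unramified quadratic extension have even valuation. -/
theorem even_nonres {p : ℕ} [Fact p.Prime] (hp : p ≠ 2) (d : ℤ) (hn : jacobiSym d p = -1) (x y : ℚ_[p])
    (h : x ^ 2 - (d : ℚ_[p]) * y ^ 2 ≠ 0) : Even (x ^ 2 - (d : ℚ_[p]) * y ^ 2).valuation := by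
  have hd := LA2_not_dvd hn
  have hd0 : (d : ℚ_[p]) ≠ 0 := by
    have : d ≠ 0 := fun h0 => hd (h0 ▸ dvd_zero _)
    exact_mod_cast this
  by_contra hodd
  rw [Int.not_even_iff_odd] at hodd
  have hsplit : ZC.Split ℚ_[p] (d : ℚ_[p]) (x ^ 2 - (d : ℚ_[p]) * y ^ 2) := by
    refine ⟨y, 1, x, fun h3 => one_ne_zero h3.2.1, ?_⟩
    ring
  have h4 := (ZC.split_odd_iff hp _ _ hd0 h (by rw [LA2_val hd]; exact Even.zero) hodd).1 hsplit
  have h5 := (ZC.isSquare_int_iff hp d hd).1 h4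
  rw [hn] at h5
  norm_num at h5

theorem LA2_four {p : ℕ} [Fact p.Prime] (hp : p ≠ 2) {A : ℤ} (hA : ¬ (p : ℤ) ∣ A) : ¬ (p : ℤ) ∣ 4 * A := by
  have hpr : p.Prime := Fact.out
  have hpz : Prime (p : ℤ) := Nat.prime_iff_prime_int.1 hpr
  have h2p : ¬ (p : ℤ) ∣ 2 := by
    intro h
    have h' : p ∣ 2 := by exact_mod_cast h
    exact hp ((Nat.prime_dvd_prime_iff_eq hpr Nat.prime_two).1 h')
  intro h
  rcases hpz.dvd_or_dvd h with h' | h'
  · have h'' : (p : ℤ) ∣ 2 * 2 := by norm_num; exact h'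
    rcases hpz.dvd_or_dvd h'' with h3 | h3 <;> exact h2p h3
  · exact hA h'

/-- Norms of elements of the form `X² - d Y²` have even valuation if `d` is a nonresidue. -/
theorem LA2_norm {p : ℕ} [Fact p.Prime] (hp : p ≠ 2) {K : Type} [Field K] [Algebra ℚ_[p] K] [FiniteDimensional ℚ_[p] K]
    (d : ℤ) (hn : jacobiSym d p = -1) (u X Y : K) (hu : u ≠ 0) (h : u = X ^ 2 - (d : K) * Y ^ 2) :
    Even (Algebra.norm ℚ_[p] u).valuation := by
  obtain ⟨x, y, hxy⟩ := norm_form (d : ℚ_[p]) X Y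
  rw [map_intCast, ← h] at hxy
  have hn0 : Algebra.norm ℚ_[p] u ≠ 0 := Algebra.norm_ne_zero_iff.2 hu
  rw [hxy] at hn0 ⊢
  exact even_nonres hp d hn x y hn0

/-- Parity at a point where `4 c a` is a value of `X² - d Y²`, `d` a nonresidue. -/
theorem GP.even_nonresA {p : ℕ} [Fact p.Prime] (hp : p ≠ 2) (P : GP ℚ_[p]) (c d : ℤ) (hc : ¬ (p : ℤ) ∣ c)
    (hn : jacobiSym d p = -1) (h : P.NfA c d) : Even (Algebra.norm ℚ_[p] P.val).valuation := by
  have hch : CharZero P.K := charZero_of_injective_algebraMap (algebraMap ℚ_[p] P.K).injective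
  obtain ⟨X, Y, h, hXY⟩ := h
  have hd := LA2_not_dvd hn
  have hd0 : d ≠ 0 := fun h0 => hd (h0 ▸ dvd_zero _)
  have hc0 : c ≠ 0 := fun h0 => hc (h0 ▸ dvd_zero _)
  have hcK : (c : P.K) ≠ 0 := by exact_mod_cast hc0
  by_cases ha : P.a = 0
  · rw [LA1_pos P ha]
    have hb : P.b ≠ 0 := fun hb => P.ne ⟨ha, hb⟩
    rw [ha, mul_zero] at h
    have hX2 : X ^ 2 = (d : P.K) * Y ^ 2 := by linear_combination -h
    have hY : Y ≠ 0 := by
      intro hY
      apply hXY
      refine ⟨?_, hY⟩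
      rw [hY, zero_pow two_ne_zero, mul_zero] at hX2
      exact pow_eq_zero_iff two_ne_zero |>.1 hX2
    have hs2 : (X / Y) ^ 2 = (d : P.K) := by
      rw [div_pow, hX2]
      field_simp
    have hs0 : X / Y ≠ 0 := by
      intro h0
      rw [h0, zero_pow two_ne_zero] at hs2
      apply hd0
      exact_mod_cast hs2.symm
    obtain ⟨X', Y', h'⟩ := nf_trick (d : P.K) (X / Y) P.b hs0 hs2
    exact LA2_norm hp d hn P.b X' Y' hb h'
  · rw [LA1_neg P ha]
    have hu : 4 * (c : P.K) * P.a ≠ 0 := mul_ne_zero (mul_ne_zero (by norm_num) hcK) ha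
    have h1 := LA2_norm hp d hn _ X Y hu h
    have e4 : (4 : P.K) * (c : P.K) = algebraMap ℚ_[p] P.K ((4 * c : ℤ) : ℚ_[p]) := by
      rw [map_intCast]
      push_cast
      ring
    have h4c := LA2_four hp hc
    have h40 : ((4 * c : ℤ) : ℚ_[p]) ≠ 0 := by
      have : (4 * c : ℤ) ≠ 0 := fun h => h4c (h ▸ dvd_zero _)
      exact_mod_cast this
    rw [map_mul, e4, Algebra.norm_algebraMap, Padic.valuation_mul (pow_ne_zero _ h40) (Algebra.norm_ne_zero_iff.2 ha),
      Padic.valuation_pow, LA2_val h4c, mul_zero, zero_add] at h1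
    exact h1

/-- The same for the other factor. -/
theorem GP.even_nonresB {p : ℕ} [Fact p.Prime] (hp : p ≠ 2) (P : GP ℚ_[p]) (c d : ℤ) (hc : ¬ (p : ℤ) ∣ c)
    (hn : jacobiSym d p = -1) (h : P.NfB c d) : Even (Algebra.norm ℚ_[p] P.val).valuation :=
  GP.even_swap P (GP.even_nonresA hp P.swap c d hc hn h)

end HNF
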