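import Pool.Agent.Lib.MP_1ad228_ntH.HC2

/-! JOB PC1 -/

set_option autoImplicit false

open Classical

namespace HNF

open Finset Polynomial FGO FQQ

/-- the mean value of a function of the image under a surjective homomorphism -/
theorem PC1_avg {G H : Type} [AddGroup G] [Fintype G] [AddGroup H] [Fintype H] (f : G →+ H) (hf : Function.Surjective f)
    (φ : H → ℝ) : (∑ x, φ (f x)) / (Fintype.card G : ℝ) = (∑ y, φ y) / (Fintype.card H : ℝ) := by
  have hfib : ∀ y : H, (univ.filter fun x : G => f x = y).card = (univ.filter fun x : G => f x = 0).card := by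
    intro y
    obtain ⟨x0, hx0⟩ := hf y
    apply Finset.card_bij' (fun x _ => x - x0) (fun x _ => x + x0)
    · intro x hx
      rw [Finset.mem_filter] at hx ⊢
      refine ⟨Finset.mem_univ _, ?_⟩
      rw [map_sub, hx.2, hx0, sub_self]
    · intro x hx
      rw [Finset.mem_filter] at hx ⊢
      refine ⟨Finset.mem_univ _, ?_⟩
      rw [map_add, hx.2, hx0, zero_add]
    · intro x _
      exact sub_add_cancel x x0
    · intro x _
      exact add_sub_cancel_right x x0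
  obtain ⟨k, hk⟩ : ∃ k, k = (univ.filter fun x : G => f x = 0).card := ⟨_, rfl⟩
  have hsum : ∑ x, φ (f x) = (k : ℝ) * ∑ y, φ y := by
    rw [← Finset.sum_fiberwise (s := (univ : Finset G)) (g := fun x => f x) (f := fun x => φ (f x)), Finset.mul_sum]
    apply Finset.sum_congr rfl
    intro y _
    rw [Finset.sum_congr rfl (g := fun _ => φ y), Finset.sum_const, nsmul_eq_mul, hfib y, hk]
    intro x hx
    rw [(Finset.mem_filter.1 hx).2]
  have hcard : Fintype.card G = Fintype.card H * k := by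
    rw [← Finset.card_univ, Finset.card_eq_sum_card_fiberwise (f := fun x => f x) (t := (univ : Finset H))
      (fun x _ => Finset.mem_coe.2 (Finset.mem_univ _))]
    rw [Finset.sum_congr rfl (g := fun _ => k) (fun y _ => by rw [hfib y, hk]), Finset.sum_const, smul_eq_mul, Finset.card_univ]
  have hk0 : (k : ℝ) ≠ 0 := by
    have h1 : 0 < Fintype.card G := Fintype.card_pos
    rw [hcard] at h1
    have h2 : 0 < k := Nat.pos_of_mul_pos_left h1
    exact_mod_cast h2.ne'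
  rw [hsum, hcard]
  push_cast
  rw [mul_comm (Fintype.card H : ℝ), mul_div_mul_left _ _ hk0]

/-- the vector with `G₁ = a + b X`, `G₂ = a' + b' X` -/
def PC1_v (g : ℕ) {p : ℕ} (a b a' b' : ZMod p) : Fin (2 * g + 1 + 1) → ZMod p :=
  fun j => if (j : ℕ) = 0 then a else if (j : ℕ) = 1 then b else if (j : ℕ) = 2 then - a' else
    if (j : ℕ) = 3 then - b' else 0

theorem PC1_vA {g : ℕ} (hg : 1 ≤ g) {p : ℕ} [Fact p.Prime] (a b a' b' x : ZMod p) :
    hv (gA (PC1_v g a b a' b')) x 1 = a + b * x := by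
  obtain ⟨k, rfl⟩ : ∃ k, g = k + 1 := ⟨g - 1, by omega⟩
  unfold hv
  rw [Fin.sum_univ_succ, Fin.sum_univ_succ, Finset.sum_eq_zero]
  · have h0 : gA (PC1_v (k + 1) a b a' b') 0 = a := by
      unfold gA ex PC1_v
      simp
    have h1 : gA (PC1_v (k + 1) a b a' b') (Fin.succ 0) = b := by
      unfold gA ex PC1_v
      simp
    rw [h0, h1]
    simp
  · intro i _
    have h2 : gA (PC1_v (k + 1) a b a' b') i.succ.succ = 0 := by
      unfold gA ex PC1_v
      have e1 : ((i.succ.succ : Fin (k + 1 + 1)) : ℕ) = (i : ℕ) + 2 := by simp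
      rw [e1, if_neg (by omega)]
      split_ifs <;> first | rfl | (exfalso; simp only at * <;> omega)
    rw [h2, zero_mul, zero_mul]

theorem PC1_vB {g : ℕ} (hg : 1 ≤ g) {p : ℕ} [Fact p.Prime] (a b a' b' x : ZMod p) :
    hv (gB (PC1_v g a b a' b')) x 1 = a' + b' * x := by
  obtain ⟨k, rfl⟩ : ∃ k, g = k + 1 := ⟨g - 1, by omega⟩
  unfold hv
  rw [Fin.sum_univ_succ, Fin.sum_univ_succ, Finset.sum_eq_zero]
  · have h0 : gB (PC1_v (k + 1) a b a' b') 0 = a' := by
      unfold gB ex PC1_v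
      simp
    have h1 : gB (PC1_v (k + 1) a b a' b') (Fin.succ 0) = b' := by
      unfold gB ex PC1_v
      simp
    rw [h0, h1]
    simp
  · intro i _
    have h2 : gB (PC1_v (k + 1) a b a' b') i.succ.succ = 0 := by
      unfold gB ex PC1_v
      have e1 : ((i.succ.succ : Fin (k + 1 + 1)) : ℕ) = (i : ℕ) + 2 := by simp
      rw [e1, if_neg (by omega)]
      split_ifs <;> first | exact neg_zero | (exfalso; simp only at * <;> omega)
    rw [h2, zero_mul, zero_mul]

theorem PC1_addA {g : ℕ} {p : ℕ} [Fact p.Prime] (c c' : Fin (2 * g + 1 + 1) → ZMod p) (x z : ZMod p) :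
    hv (gA (c + c')) x z = hv (gA c) x z + hv (gA c') x z := by
  unfold hv
  rw [← Finset.sum_add_distrib]
  apply Finset.sum_congr rfl
  intro i _
  have h : gA (c + c') i = gA c i + gA c' i := by
    unfold gA ex
    split_ifs <;> first | rfl | exact (add_zero _).symm
  rw [h]
  ring

theorem PC1_addB {g : ℕ} {p : ℕ} [Fact p.Prime] (c c' : Fin (2 * g + 1 + 1) → ZMod p) (x z : ZMod p) :
    hv (gB (c + c')) x z = hv (gB c) x z + hv (gB c') x z := by
  unfold hv
  rw [← Finset.sum_add_distrib]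
  apply Finset.sum_congr rfl
  intro i _
  have h : gB (c + c') i = gB c i + gB c' i := by
    unfold gB ex
    split_ifs <;> first | (rw [Pi.add_apply, neg_add]) | simp
  rw [h]
  ring

/-- the values at the two points -/
def PC1_T {g : ℕ} {p : ℕ} [Fact p.Prime] (r s : ZMod p) :
    (Fin (2 * g + 1 + 1) → ZMod p) →+ (ZMod p × ZMod p) × (ZMod p × ZMod p) :=
  AddMonoidHom.mk' (fun c => ((hv (gA c) r 1, hv (gB c) r 1), (hv (gA c) s 1, hv (gB c) s 1))) (by
    intro c c'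
    simp only [PC1_addA, PC1_addB, Prod.mk_add_mk])

theorem PC1_surj {g : ℕ} (hg : 1 ≤ g) {p : ℕ} [Fact p.Prime] (r s : ZMod p) (hrs : r ≠ s) :
    Function.Surjective (PC1_T (g := g) r s) := by
  rintro ⟨⟨u1, v1⟩, ⟨u2, v2⟩⟩
  have h0 : r - s ≠ 0 := sub_ne_zero.2 hrs
  refine ⟨PC1_v g (u1 - (u1 - u2) / (r - s) * r) ((u1 - u2) / (r - s)) (v1 - (v1 - v2) / (r - s) * r) ((v1 - v2) / (r - s)), ?_⟩
  unfold PC1_T
  rw [AddMonoidHom.mk'_apply, PC1_vA hg, PC1_vA hg, PC1_vB hg, PC1_vB hg]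
  simp only [Prod.mk.injEq]
  refine ⟨⟨?_, ?_⟩, ⟨?_, ?_⟩⟩ <;> field_simp <;> ring

/-- Proof. `h = w(G₁, G₂)` at two different points `r ≠ s` of `F_p`: the map `c ↦ (G₁(r), G₂(r), G₁(s), G₂(s))` is additive and surjective onto `F_p⁴` (`g ≥ 1`: the coordinates `0, 1` for `G₁` and `2, 3` for `G₂` suffice), so all fibres have the same size. -/
theorem mF_two {g : ℕ} (hg : 1 ≤ g) (p : ℕ) [Fact p.Prime] (r s : ZMod p) (hrs : r ≠ s) (φ ψ : ZMod p × ZMod p → ℝ) :
    mF (2 * g + 1) p (fun c => φ (hv (gA c) r 1, hv (gB c) r 1) * ψ (hv (gA c) s 1, hv (gB c) s 1)) =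
      ((∑ t : ZMod p × ZMod p, φ t) / (p : ℝ) ^ 2) * ((∑ t : ZMod p × ZMod p, ψ t) / (p : ℝ) ^ 2) := by
  have h := PC1_avg (PC1_T (g := g) r s) (PC1_surj hg r s hrs) (fun t => φ t.1 * ψ t.2)
  have hG : (Fintype.card (Fin (2 * g + 1 + 1) → ZMod p) : ℝ) = (p : ℝ) ^ (2 * g + 1 + 1) := by
    rw [Fintype.card_fun, ZMod.card, Fintype.card_fin]
    push_cast
    rfl
  have hH : (Fintype.card ((ZMod p × ZMod p) × (ZMod p × ZMod p)) : ℝ) = (p : ℝ) ^ 2 * (p : ℝ) ^ 2 := by
    rw [Fintype.card_prod, Fintype.card_prod, ZMod.card]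
    push_cast
    ring
  have hS : ∑ t : (ZMod p × ZMod p) × (ZMod p × ZMod p), φ t.1 * ψ t.2 = (∑ t, φ t) * ∑ t, ψ t := by
    rw [Finset.sum_mul_sum, Fintype.sum_prod_type]
  rw [hG, hH, hS] at h
  unfold mF
  rw [div_mul_div_comm, ← h]
  rfl

/-- Proof. The same for one point. (`1 ≤ g` is needed: for `g = 0` the form `G₂` is zero.) -/
theorem mF_one {g : ℕ} (hg : 1 ≤ g) (p : ℕ) [Fact p.Prime] (r : ZMod p) (φ : ZMod p × ZMod p → ℝ) :
    mF (2 * g + 1) p (fun c => φ (hv (gA c) r 1, hv (gB c) r 1)) = (∑ t : ZMod p × ZMod p, φ t) / (p : ℝ) ^ 2 := by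
  have hp0 := BA_pos p
  have h := mF_two hg p r (r + 1) (fun h => one_ne_zero (α := ZMod p) (by linear_combination - h)) φ (fun _ => 1)
  simp only [mul_one] at h
  rw [h, Finset.sum_const, Finset.card_univ, Fintype.card_prod, ZMod.card, nsmul_eq_mul]
  push_cast
  rw [mul_one, ← pow_two, div_self (by positivity), mul_one]

/-- Proof. `w = 0` excluded. If `v` has no zero in `P¹(F_p)`: `mF_irr` (`3/p²`). Otherwise (`v.1 ≠ 0`, `ds v ≠ 0`) `Pq v = C v.1 (X - r)(X - s)`, `r ≠ s`, and `Pq v ∣ Pf h` gives `w(G₁(r), G₂(r)) = 0 = w(G₁(s), G₂(s))`: `mF_two` and `zeros_le`: `(3 p / p²)² = 9/p²`. -/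
theorem mF_div {g : ℕ} (hg : 1 ≤ g) (p : ℕ) [Fact p.Prime] (h2 : p ≠ 2) (v w : ZMod p × ZMod p × ZMod p) (hv1 : v.1 ≠ 0)
    (hd : ds v ≠ 0) (hw0 : w ≠ 0) :
    mF (2 * g + 1) p (fun c => ind (Pq v ∣ Pf (hw w (gA c) (gB c)))) ≤ 9 / (p : ℝ) ^ 2 := by
  have hp0 := BA_pos p
  by_cases hz : ∃ x z : ZMod p, ¬ (x = 0 ∧ z = 0) ∧ qv v x z = 0
  · obtain ⟨x, z, hxz, hq⟩ := hz
    have hz0 : z ≠ 0 := by
      intro h0
      apply hxz
      refine ⟨?_, h0⟩
      rw [h0] at hq
      unfold qv at hq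
      have h3 : v.1 * x ^ 2 = 0 := by linear_combination hq
      exact pow_eq_zero_iff (two_ne_zero) |>.1 ((mul_eq_zero.1 h3).resolve_left hv1)
    obtain ⟨r, hr⟩ : ∃ r : ZMod p, r = x / z := ⟨_, rfl⟩
    obtain ⟨s, hs⟩ : ∃ s : ZMod p, s = - v.2.1 / v.1 - r := ⟨_, rfl⟩
    have hqr : qv v r 1 = 0 := by
      unfold qv at hq ⊢
      rw [hr]
      field_simp
      linear_combination hq
    have hqs : qv v s 1 = 0 := by
      unfold qv at hqr ⊢
      rw [hs]
      field_simp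
      linear_combination v.1 * hqr
    have hrs : r ≠ s := by
      intro h
      apply hd
      have h3 : v.1 * (r + s) = - v.2.1 := by
        rw [hs]
        field_simp
        ring
      rw [← h] at h3
      unfold qv at hqr
      unfold ds
      linear_combination (v.2.1 + 2 * v.1 * r) * h3 - 4 * v.1 * hqr
    have hle : ∀ c : Fin (2 * g + 1 + 1) → ZMod p, ind (Pq v ∣ Pf (hw w (gA c) (gB c))) ≤
        (fun t : ZMod p × ZMod p => ind (qv w t.1 t.2 = 0)) (hv (gA c) r 1, hv (gB c) r 1) *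
          (fun t : ZMod p × ZMod p => ind (qv w t.1 t.2 = 0)) (hv (gA c) s 1, hv (gB c) s 1) := by
      intro c
      simp only
      rw [← HC2_ind_and]
      apply ind_mono
      rintro ⟨q, hq1⟩
      have h3 : ∀ y : ZMod p, qv v y 1 = 0 → qv w (hv (gA c) y 1) (hv (gB c) y 1) = 0 := by
        intro y hy
        rw [← hv_hw, ← eval_Pf, hq1, eval_mul, eval_Pq, hy, zero_mul]
      exact ⟨h3 r hqr, h3 s hqs⟩
    have h7 := mF_two hg p r s hrs (fun t => ind (qv w t.1 t.2 = 0)) (fun t => ind (qv w t.1 t.2 = 0))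
    refine (mF_mono _ p _ _ hle).trans (le_trans (le_of_eq h7) ?_)
    have h6 : ∀ D : DecidablePred fun t : ZMod p × ZMod p => qv w t.1 t.2 = 0,
        (@Finset.filter _ (fun t : ZMod p × ZMod p => qv w t.1 t.2 = 0) D univ).card ≤ 3 * p := by
      intro D
      refine le_trans (le_of_eq ?_) (zeros_le p w hw0)
      congr
    have h4 : (∑ t : ZMod p × ZMod p, ind (qv w t.1 t.2 = 0)) / (p : ℝ) ^ 2 ≤ 3 / (p : ℝ) := by
      rw [BA_sum_ind]
      rw [div_le_div_iff₀ (by positivity) (by positivity)]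
      calc _ ≤ ((3 * p : ℕ) : ℝ) * (p : ℝ) :=
            mul_le_mul_of_nonneg_right (Nat.cast_le.2 (h6 _)) (by positivity)
        _ = 3 * (p : ℝ) ^ 2 := by push_cast; ring
    have h5 : 0 ≤ (∑ t : ZMod p × ZMod p, ind (qv w t.1 t.2 = 0)) / (p : ℝ) ^ 2 :=
      div_nonneg (Finset.sum_nonneg fun _ _ => ind_nonneg _) (by positivity)
    calc _ ≤ (3 / (p : ℝ)) * (3 / (p : ℝ)) := mul_le_mul h4 h4 h5 (by positivity)
      _ = 9 / (p : ℝ) ^ 2 := by ring
  · refine (mF_irr hg p v w hw0 fun x z h1 h2 => hz ⟨x, z, h1, h2⟩).trans ?_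
    rw [div_le_div_iff₀ (by positivity) (by positivity)]
    nlinarith [sq_nonneg (p : ℝ)]

end HNF
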