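import Pool.Agent.Lib.MP_1ad228_ntH.PC1

/-! JOB PC2 -/

set_option autoImplicit false

open Classical

namespace HNF

open Finset Polynomial FGO FQQ

/-- Proof. `χ` the quadratic character of `ZMod p`. `4 w.1 w(X, Y) = (2 w.1 X + w.2.1 Y)² - ds w Y²` if `w.1 ≠ 0`: after the linear substitution the sum is `χ(w.1 a) ∑_{X,Y} χ(X² - d Y²)`, `d ≠ 0`; for `Y = 0`: `p - 1`; for `Y ≠ 0`: `X = Y t`: `(p - 1) ∑_t χ(t² - d) = - (p - 1)`. (Alternative without a formula: choose a value `w(s₀) =: b`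
of the form, hence a similitude: if `t ↦ M t` is an invertible linear map with `w(M t) = n w(t)`, `n` a nonsquare, then the sum `S = χ(n) S = - S`. If `w.1 = 0` exchange: `w.1 = 0` gives `w = Y (w.2.1 X + w.2.2 Y)`, `w.2.1 ≠ 0`: for `Y ≠ 0` the sum over `X` of `χ` of a linear polynomial is `0`; for `Y = 0` it is `0`.
For `w.1 ≠ 0` a direct proof that `∑_X χ(X² - d Y²)` summed over all `X, Y` is `0`: the number of `(X, Y)` with `X² - d Y² = n` is the same for all `n ≠ 0`: for `n, n'` nonzero, there is `(A, B)` with `A² - d B² = n'/n` (every nonzero element is of this form in a finite field of odd characteristic), and multiplication by `A + B √d`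
is a bijection.) -/
theorem sum_chi (p : ℕ) [Fact p.Prime] (h2 : p ≠ 2) (w : ZMod p × ZMod p × ZMod p) (hd : ds w ≠ 0) (a : ZMod p) :
    ∑ t : ZMod p × ZMod p, ((quadraticChar (ZMod p) (a * qv w t.1 t.2) : ℤ) : ℝ) = 0 := by
  have hch : ringChar (ZMod p) ≠ 2 := by
    rw [ZMod.ringChar_zmod_n]
    exact h2
  obtain ⟨n, hn⟩ := quadraticChar_exists_neg_one hch
  have hn0 : n ≠ 0 := by
    rintro rfl
    rw [quadraticChar_zero] at hn
    exact absurd hn (by norm_num)
  have hodd : Fintype.card (ZMod p) % 2 = 1 := by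
    rw [ZMod.card]
    exact Nat.odd_iff.1 ((Fact.out : p.Prime).odd_of_ne_two h2)
  obtain ⟨U, V, hUV⟩ := FiniteField.exists_root_sum_quadratic (R := ZMod p) (f := X ^ 2 - C n) (g := C (- ds w) * X ^ 2)
    (degree_X_pow_sub_C (by norm_num) n) (degree_C_mul_X_pow 2 (neg_ne_zero.2 hd)) hodd
  simp only [eval_sub, eval_pow, eval_X, eval_C, eval_mul] at hUV
  have hN : U ^ 2 - ds w * V ^ 2 = n := by linear_combination hUV
  let M : ZMod p × ZMod p → ZMod p × ZMod p := fun t =>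
    (U * t.1 - V * (w.2.1 * t.1 + 2 * w.2.2 * t.2), U * t.2 + V * (2 * w.1 * t.1 + w.2.1 * t.2))
  have hM : ∀ t, qv w (M t).1 (M t).2 = n * qv w t.1 t.2 := by
    intro t
    rw [← hN]
    simp only [M, qv, ds]
    ring
  have hinj : Function.Injective M := by
    intro t t' h
    have h1 := congrArg Prod.fst h
    have h3 := congrArg Prod.snd h
    simp only [M] at h1 h3
    have e1 : n * (t.1 - t'.1) = 0 := by
      rw [← hN]
      unfold ds
      linear_combination (U + V * w.2.1) * h1 + (2 * V * w.2.2) * h3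
    have e2 : n * (t.2 - t'.2) = 0 := by
      rw [← hN]
      unfold ds
      linear_combination (- 2 * V * w.1) * h1 + (U - V * w.2.1) * h3
    exact Prod.ext (sub_eq_zero.1 ((mul_eq_zero.1 e1).resolve_left hn0)) (sub_eq_zero.1 ((mul_eq_zero.1 e2).resolve_left hn0))
  have hbij : Function.Bijective M := Finite.injective_iff_bijective.1 hinj
  have hS : ∑ t : ZMod p × ZMod p, ((quadraticChar (ZMod p) (a * qv w t.1 t.2) : ℤ) : ℝ) =
      ∑ t : ZMod p × ZMod p, - ((quadraticChar (ZMod p) (a * qv w t.1 t.2) : ℤ) : ℝ) := by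
    rw [← Function.Bijective.sum_comp hbij]
    refine Finset.sum_congr rfl fun t _ => ?_
    have h4 : a * qv w (M t).1 (M t).2 = n * (a * qv w t.1 t.2) := by
      rw [hM]
      ring
    rw [h4, map_mul, hn]
    push_cast
    ring
  rw [Finset.sum_neg_distrib] at hS
  linarith

/-- a square root of the event -/
private theorem PC2_pt (p : ℕ) [Fact p.Prime] (h5 : 5 ≤ p) (x0 : ZMod p) (f : ZMod p → ZMod p)
    (E : ∀ x : ZMod p, x ≠ x0 → ¬ Sq (f x)) :
    (1 : ℝ) ≤ (4 / (p : ℝ)) * (∑ x : ZMod p, ind (f x = 0)) +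
      (4 / (p : ℝ) ^ 2) * (∑ x ∈ univ.erase x0, ((quadraticChar (ZMod p) (f x) : ℤ) : ℝ)) ^ 2 := by
  have hp : (5 : ℝ) ≤ p := by exact_mod_cast h5
  have h1 : ∀ x ∈ univ.erase x0, ((quadraticChar (ZMod p) (f x) : ℤ) : ℝ) ≤ ind (f x = 0) - 1 := by
    intro x hx
    have hx0 : x ≠ x0 := (Finset.mem_erase.1 hx).1
    unfold ind
    by_cases h0 : f x = 0
    · rw [if_pos h0, h0, quadraticChar_zero]
      norm_num
    · rw [if_neg h0]
      have h3 : quadraticChar (ZMod p) (f x) = -1 := by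
        rw [quadraticChar_neg_one_iff_not_isSquare]
        exact fun h => E x hx0 ⟨h0, h⟩
      rw [h3]
      norm_num
  have h2 : (∑ x ∈ univ.erase x0, ((quadraticChar (ZMod p) (f x) : ℤ) : ℝ)) ≤ (∑ x : ZMod p, ind (f x = 0)) - ((p : ℝ) - 1) := by
    calc _ ≤ ∑ x ∈ univ.erase x0, (ind (f x = 0) - 1) := Finset.sum_le_sum h1
      _ = (∑ x ∈ univ.erase x0, ind (f x = 0)) - ((p : ℝ) - 1) := by
        rw [Finset.sum_sub_distrib, Finset.sum_const, Finset.card_erase_of_mem (Finset.mem_univ _), Finset.card_univ, ZMod.card,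
          nsmul_eq_mul, mul_one, Nat.cast_sub (by omega), Nat.cast_one]
      _ ≤ _ := by
        refine sub_le_sub_right ?_ _
        exact Finset.sum_le_sum_of_subset_of_nonneg (Finset.erase_subset _ _) fun x _ _ => ind_nonneg _
  set n0 := ∑ x : ZMod p, ind (f x = 0) with hn0
  set Z := ∑ x ∈ univ.erase x0, ((quadraticChar (ZMod p) (f x) : ℤ) : ℝ) with hZ
  have hn : 0 ≤ n0 := Finset.sum_nonneg fun x _ => ind_nonneg _
  rcases le_or_gt ((p : ℝ) / 4) n0 with h3 | h3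
  · have h4 : 1 ≤ 4 / (p : ℝ) * n0 := by
      rw [div_mul_eq_mul_div, le_div_iff₀ (by linarith)]
      linarith
    have h6 : 0 ≤ 4 / (p : ℝ) ^ 2 * Z ^ 2 := by positivity
    linarith
  · have h4 : Z ≤ - ((p : ℝ) / 2) := by linarith
    have h6 : ((p : ℝ) / 2) ^ 2 ≤ Z ^ 2 := by nlinarith
    have h7 : 1 ≤ 4 / (p : ℝ) ^ 2 * Z ^ 2 := by
      rw [div_mul_eq_mul_div, le_div_iff₀ (by positivity)]
      nlinarith
    have h8 : 0 ≤ 4 / (p : ℝ) * n0 := by positivity
    linarith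

/-- Proof. (second moment) `a = v.1`, `T` = the set of the zeros `x` of `qv v x 1`: one element (`4 v.1 qv v x 1 = (2 v.1 x + v.2.1)²`). `χ` = quadratic character, `h(x) = qv w (G₁(x)) (G₂(x))` (`hv_hw`), `n₀(c)` = number of `x` with `h(x) = 0`, `Z(c) = ∑_{x ∉ T} χ(a h(x))`. If no `x ∉ T` has `a h(x)` a nonzero square then
`χ(a h(x)) ∈ {0, -1}` for `x ∉ T` and `- Z ≥ p - 1 - n₀`. So `n₀ ≥ p/4` or `Z² ≥ (p/2)²` (`p ≥ 5`). The mean value of `n₀` is `≤ p · 3 p / p² = 3` (`mF_one`, `zeros_le`), so the first has mean value `≤ 12/p`. The mean value of `Z²` is `∑_{x, x'} mF (χ χ) ≤ p` (`x ≠ x'`: `mF_two`, `sum_chi`: `0`; `x = x'`: `≤ 1`): `≤ 4/p`. -/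
theorem mF_nosq {g : ℕ} (hg : 1 ≤ g) (p : ℕ) [Fact p.Prime] (h5 : 5 ≤ p) (v w : ZMod p × ZMod p × ZMod p) (hd : ds v = 0)
    (hv1 : v.1 ≠ 0) (hdw : ds w ≠ 0) :
    mF (2 * g + 1) p (fun c => ind (∀ x : ZMod p, qv v x 1 ≠ 0 → ¬ Sq (v.1 * hv (hw w (gA c) (gB c)) x 1))) ≤ 22 / (p : ℝ) := by
  have hp : (5 : ℝ) ≤ p := by exact_mod_cast h5
  have h2 : p ≠ 2 := by omega
  have h20 : (2 : ZMod p) ≠ 0 := by
    intro h
    have h3 : ((2 : ℕ) : ZMod p) = 0 := by exact_mod_cast h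
    rw [ZMod.natCast_eq_zero_iff] at h3
    have := Nat.le_of_dvd (by norm_num) h3
    omega
  have hw0 : w ≠ 0 := by
    rintro rfl
    apply hdw
    unfold ds
    simp
  set a := v.1 with ha
  set x0 : ZMod p := - v.2.1 / (2 * v.1) with hx0
  have hT : ∀ x : ZMod p, x ≠ x0 → qv v x 1 ≠ 0 := by
    intro x hx h0
    apply hx
    have h3 : (2 * v.1 * x + v.2.1) ^ 2 = 0 := by
      unfold qv at h0
      unfold ds at hd
      linear_combination 4 * v.1 * h0 + hd
    have h4 : 2 * v.1 * x + v.2.1 = 0 := pow_eq_zero_iff (two_ne_zero) |>.1 h3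
    rw [hx0, eq_div_iff (mul_ne_zero h20 hv1)]
    linear_combination h4
  let f : (Fin (2 * g + 1 + 1) → ZMod p) → ZMod p → ZMod p := fun c x => a * qv w (hv (gA c) x 1) (hv (gB c) x 1)
  have hpt : ∀ c : Fin (2 * g + 1 + 1) → ZMod p,
      ind (∀ x : ZMod p, qv v x 1 ≠ 0 → ¬ Sq (v.1 * hv (hw w (gA c) (gB c)) x 1)) ≤
        (4 / (p : ℝ)) * (∑ x : ZMod p, ind (f c x = 0)) +
        (4 / (p : ℝ) ^ 2) * (∑ x ∈ univ.erase x0, ∑ y ∈ univ.erase x0, ((quadraticChar (ZMod p) (f c x) : ℤ) : ℝ) * ((quadraticChar (ZMod p) (f c y) : ℤ) : ℝ)) := by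
    intro c
    have h6 : (∑ x ∈ univ.erase x0, ∑ y ∈ univ.erase x0, ((quadraticChar (ZMod p) (f c x) : ℤ) : ℝ) * ((quadraticChar (ZMod p) (f c y) : ℤ) : ℝ)) =
        (∑ x ∈ univ.erase x0, ((quadraticChar (ZMod p) (f c x) : ℤ) : ℝ)) ^ 2 := by
      rw [pow_two, Finset.sum_mul_sum]
    rw [h6]
    by_cases hE : ∀ x : ZMod p, qv v x 1 ≠ 0 → ¬ Sq (v.1 * hv (hw w (gA c) (gB c)) x 1)
    · have h7 : ind (∀ x : ZMod p, qv v x 1 ≠ 0 → ¬ Sq (v.1 * hv (hw w (gA c) (gB c)) x 1)) = 1 := by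
        unfold ind
        rw [if_pos hE]
      rw [h7]
      refine PC2_pt p h5 x0 (f c) fun x hx hs => hE x (hT x hx) ?_
      rw [hv_hw]
      exact hs
    · have h7 : ind (∀ x : ZMod p, qv v x 1 ≠ 0 → ¬ Sq (v.1 * hv (hw w (gA c) (gB c)) x 1)) = 0 := by
        unfold ind
        rw [if_neg hE]
      rw [h7]
      have h8 : 0 ≤ ∑ x : ZMod p, ind (f c x = 0) := Finset.sum_nonneg fun x _ => ind_nonneg _
      positivity
  refine (mF_mono (2 * g + 1) p _ _ hpt).trans ?_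
  rw [mF_add, mF_smul, mF_smul, mF_sum, mF_sum]
  have hA : ∑ x : ZMod p, mF (2 * g + 1) p (fun c => ind (f c x = 0)) ≤ 3 := by
    have h6 : ∀ x : ZMod p, mF (2 * g + 1) p (fun c => ind (f c x = 0)) ≤ 3 / (p : ℝ) := by
      intro x
      have h7 := mF_one (g := g) hg p x (fun t => ind (a * qv w t.1 t.2 = 0))
      have h8 : (fun c : Fin (2 * g + 1 + 1) → ZMod p => ind (f c x = 0)) =
          fun c => (fun t : ZMod p × ZMod p => ind (a * qv w t.1 t.2 = 0)) (hv (gA c) x 1, hv (gB c) x 1) := rfl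
      rw [h8, h7]
      have h9 : ∑ t : ZMod p × ZMod p, ind (a * qv w t.1 t.2 = 0) ≤ 3 * (p : ℝ) := by
        have h10 : ∑ t : ZMod p × ZMod p, ind (a * qv w t.1 t.2 = 0) =
            (((univ : Finset (ZMod p × ZMod p)).filter fun s => qv w s.1 s.2 = 0).card : ℝ) := by
          rw [Finset.card_filter, Nat.cast_sum]
          refine Finset.sum_congr rfl fun t _ => ?_
          unfold ind
          by_cases h11 : qv w t.1 t.2 = 0
          · rw [if_pos h11, if_pos (by rw [h11, mul_zero]), Nat.cast_one]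
          · rw [if_neg h11, if_neg (mul_ne_zero hv1 h11), Nat.cast_zero]
        rw [h10]
        exact_mod_cast zeros_le p w hw0
      rw [div_le_div_iff₀ (by positivity) (by positivity)]
      calc _ ≤ (3 * (p : ℝ)) * p := mul_le_mul_of_nonneg_right h9 (by positivity)
        _ = 3 * (p : ℝ) ^ 2 := by ring
    calc _ ≤ ∑ x : ZMod p, 3 / (p : ℝ) := Finset.sum_le_sum fun x _ => h6 x
      _ = 3 := by
        rw [Finset.sum_const, Finset.card_univ, ZMod.card, nsmul_eq_mul]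
        field_simp
  have hB : ∑ x ∈ univ.erase x0, mF (2 * g + 1) p (fun c => ∑ y ∈ univ.erase x0, ((quadraticChar (ZMod p) (f c x) : ℤ) : ℝ) * ((quadraticChar (ZMod p) (f c y) : ℤ) : ℝ)) ≤ p := by
    have h6 : ∀ x ∈ univ.erase x0, mF (2 * g + 1) p (fun c => ∑ y ∈ univ.erase x0, ((quadraticChar (ZMod p) (f c x) : ℤ) : ℝ) * ((quadraticChar (ZMod p) (f c y) : ℤ) : ℝ)) ≤ 1 := by
      intro x hx
      rw [mF_sum, ← Finset.add_sum_erase _ _ hx, Finset.sum_eq_zero, add_zero]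
      · have h7 : mF (2 * g + 1) p (fun c => ((quadraticChar (ZMod p) (f c x) : ℤ) : ℝ) * ((quadraticChar (ZMod p) (f c x) : ℤ) : ℝ)) ≤
            mF (2 * g + 1) p (fun _ => (1 : ℝ)) := by
          refine mF_mono _ _ _ _ fun c => ?_
          by_cases h0 : f c x = 0
          · rw [h0, quadraticChar_zero]
            norm_num
          · rcases quadraticChar_dichotomy h0 with h8 | h8 <;> rw [h8] <;> norm_num
        rw [mF_const] at h7
        exact h7
      · intro y hy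
        have hyx : x ≠ y := (Finset.mem_erase.1 hy).1.symm
        have h7 := mF_two hg p x y hyx (fun t => ((quadraticChar (ZMod p) (a * qv w t.1 t.2) : ℤ) : ℝ))
          (fun t => ((quadraticChar (ZMod p) (a * qv w t.1 t.2) : ℤ) : ℝ))
        rw [sum_chi p h2 w hdw a, zero_div, zero_mul] at h7
        exact h7
    refine (Finset.sum_le_sum h6).trans ?_
    rw [Finset.sum_const, nsmul_eq_mul, mul_one]
    have h7 := Finset.card_le_univ (univ.erase x0)
    rw [ZMod.card] at h7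
    exact_mod_cast h7
  have hA' := mul_le_mul_of_nonneg_left hA (show (0 : ℝ) ≤ 4 / (p : ℝ) by positivity)
  have hB' := mul_le_mul_of_nonneg_left hB (show (0 : ℝ) ≤ 4 / (p : ℝ) ^ 2 by positivity)
  refine (add_le_add hA' hB').trans ?_
  have e1 : 4 / (p : ℝ) ^ 2 * p = 4 / (p : ℝ) := by
    field_simp
  rw [e1, div_mul_eq_mul_div, ← add_div]
  exact div_le_div_of_nonneg_right (by norm_num) (by positivity)

end HNF
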