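import Pool.Agent.Lib.MP_1ad228_ntH.HL0
import Pool.Agent.Lib.MP_1ad228_ntH.HB3

/-! JOB PF1 -/

set_option autoImplicit false

open Classical

namespace HNF

open Finset Polynomial FGO FQQ

/-- `Rg_ne` with the hypothesis on common zeros at the zeros of `v` only -/
theorem PF1_gen {g : ℕ} (A B : Vn g) (v w : V)
    (hc : ∀ (K : Type) [Field K] [CharZero K] (x : K), qv ((v.1 : K), (v.2.1 : K), (v.2.2 : K)) x 1 = 0 →
      ¬ (vG A x 1 = 0 ∧ vG B x 1 = 0))
    (hv : ¬ IsSquare (ds v)) (hw1 : ¬ IsSquare (ds w))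
    (hvw : ¬ IsSquare (ds v * ds w)) : Rg A B v w ≠ 0 := by
  intro h0
  obtain ⟨K, iF, iC, t, ht, hsq⟩ := HL0_field (ds v) hv
  have hv1 : v.1 ≠ 0 := by
    intro h
    refine hv ⟨v.2.1, ?_⟩
    unfold ds
    rw [h]
    ring
  have hw1' : w.1 ≠ 0 := by
    intro h
    refine hw1 ⟨w.2.1, ?_⟩
    unfold ds
    rw [h]
    ring
  have hv1K : (v.1 : K) ≠ 0 := Int.cast_ne_zero.2 hv1
  have hw1K : (w.1 : K) ≠ 0 := Int.cast_ne_zero.2 hw1'
  have h2K : (2 : K) ≠ 0 := two_ne_zero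
  have hds : (v.2.1 : K) ^ 2 - 4 * (v.1 : K) * (v.2.2 : K) = t ^ 2 := by
    rw [ht]
    unfold ds
    push_cast
    ring
  set r : K := (-(v.2.1 : K) + t) / (2 * (v.1 : K)) with hr
  set s : K := (-(v.2.1 : K) - t) / (2 * (v.1 : K)) with hs
  have e1 : (v.2.1 : K) = -((v.1 : K) * (r + s)) := by
    rw [hr, hs]
    field_simp
    ring
  have e2 : (v.2.2 : K) = (v.1 : K) * r * s := by
    rw [hr, hs]
    field_simp
    linear_combination (-1 : K) * hds
  have hmap := Rg_map (Int.castRingHom K) A B v w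
  have hvK : (((Int.castRingHom K) v.1, (Int.castRingHom K) v.2.1, (Int.castRingHom K) v.2.2) : K × K × K) =
      ((v.1 : K), -((v.1 : K) * (r + s)), (v.1 : K) * r * s) := by
    refine Prod.ext rfl (Prod.ext ?_ ?_)
    · exact e1
    · exact e2
  rw [hvK, Rg_vsplit, h0, map_zero] at hmap
  have key : ∀ x : K, qv ((v.1 : K), (v.2.1 : K), (v.2.2 : K)) x 1 = 0 → qv ((Int.castRingHom K) w.1, (Int.castRingHom K) w.2.1, (Int.castRingHom K) w.2.2)
      (FQQ.hv (fun i => (Int.castRingHom K) (A i)) x 1) (FQQ.hv (fun i => (Int.castRingHom K) (B i)) x 1) = 0 → False := by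
    intro x hxv hx
    have hnz := hc K x hxv
    rw [vG_eq, vG_eq] at hnz
    change qv ((w.1 : K), (w.2.1 : K), (w.2.2 : K)) (FQQ.hv (fun i => ((A i : ℤ) : K)) x 1)
      (FQQ.hv (fun i => ((B i : ℤ) : K)) x 1) = 0 at hx
    set X' := FQQ.hv (fun i => ((A i : ℤ) : K)) x 1 with hX
    set Y' := FQQ.hv (fun i => ((B i : ℤ) : K)) x 1 with hY
    unfold qv at hx
    simp only at hx
    have hid : (2 * (w.1 : K) * X' + (w.2.1 : K) * Y') ^ 2 = ((ds w : ℤ) : K) * Y' ^ 2 := by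
      unfold ds
      push_cast
      linear_combination 4 * (w.1 : K) * hx
    have hY0 : Y' ≠ 0 := by
      intro hy
      refine hnz ⟨?_, hy⟩
      rw [hy] at hid
      have h5 : (2 * (w.1 : K) * X') ^ 2 = 0 := by
        rw [mul_zero, add_zero] at hid
        rw [hid]
        ring
      have h6 := pow_eq_zero_iff (two_ne_zero) |>.1 h5
      rcases mul_eq_zero.1 h6 with h7 | h7
      · exact absurd h7 (mul_ne_zero h2K hw1K)
      · exact h7
    have hsqw : IsSquare ((ds w : ℤ) : K) := by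
      refine ⟨(2 * (w.1 : K) * X' + (w.2.1 : K) * Y') / Y', ?_⟩
      rw [← sq, div_pow, hid, mul_div_cancel_right₀ _ (pow_ne_zero 2 hY0)]
    rcases hsq _ hsqw with h | h
    · exact hw1 h
    · exact hvw h
  rcases mul_eq_zero.1 hmap.symm with h | h
  · rcases mul_eq_zero.1 h with h' | h'
    · exact absurd h' (pow_ne_zero _ hv1K)
    · refine key r ?_ h'
      unfold qv
      simp only
      rw [e1, e2]
      ring
  · refine key s ?_ h
    unfold qv
    simp only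
    rw [e1, e2]
    ring

theorem PF1_lin (a b : ℤ) (hab : a ≠ 0 ∨ b ≠ 0) (v : V) (hv : ¬ IsSquare (ds v)) (K : Type) [Field K] [CharZero K] (x : K)
    (hx : qv ((v.1 : K), (v.2.1 : K), (v.2.2 : K)) x 1 = 0) (h : (a : K) + (b : K) * x = 0) : False := by
  have hb : b ≠ 0 := by
    rintro rfl
    rcases hab with ha | hb
    · rw [Int.cast_zero, zero_mul, add_zero] at h
      exact ha (Int.cast_eq_zero.1 h)
    · exact hb rfl
  unfold qv at hx
  simp only at hx
  have h1 : ((ds v * b ^ 2 : ℤ) : K) = (((v.2.1 * b - 2 * v.1 * a) ^ 2 : ℤ) : K) := by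
    unfold ds
    push_cast
    linear_combination (-4 * (v.1 : K) * (b : K) ^ 2) * hx +
      (4 * (v.1 : K) ^ 2 * ((b : K) * x - (a : K)) + 4 * (v.1 : K) * (v.2.1 : K) * (b : K)) * h
  have h2 : ds v * b ^ 2 = (v.2.1 * b - 2 * v.1 * a) ^ 2 := Int.cast_injective h1
  apply hv
  rw [← Rat.isSquare_intCast_iff]
  refine ⟨((v.2.1 * b - 2 * v.1 * a : ℤ) : ℚ) / (b : ℚ), ?_⟩
  have hbQ : (b : ℚ) ≠ 0 := Int.cast_ne_zero.2 hb
  have h3 : ((ds v : ℤ) : ℚ) * (b : ℚ) ^ 2 = ((v.2.1 * b - 2 * v.1 * a : ℤ) : ℚ) ^ 2 := by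
    exact_mod_cast h2
  rw [div_mul_div_comm, ← sq, ← sq, ← h3, mul_div_cancel_right₀ _ (pow_ne_zero 2 hbQ)]

/-- Proof. As `Rg_ne` (file HL0) with `g = 1`: `A = gA d`, `B = gB d` are the linear forms `d 0 z + d 1 x`, `-(d 2 z + d 3 x)`. Common zero at a root `r ∉ ℚ` of `v`: `d 0 + d 1 r = 0 = d 2 + d 3 r` forces `d = 0`. (State and prove the common generalization of `Rg_ne` first: the hypothesis `NoCz` is only needed at the zeros of `v`.) -/
theorem Rg1_ne (d : Vn 3) (hd : d ≠ 0) (v w : V) (hv : ¬ IsSquare (ds v)) (hw1 : ¬ IsSquare (ds w))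
    (hvw : ¬ IsSquare (ds v * ds w)) : Rg (g := 1) (gA d) (gB d) v w ≠ 0 := by
  refine PF1_gen (g := 1) (gA d) (gB d) v w ?_ hv hw1 hvw
  intro K _ _ x hx
  rintro ⟨h1, h2⟩
  have e1 : vG (g := 1) (gA d) x 1 = (d 0 : K) + (d 1 : K) * x := by
    unfold vG gA ex
    rw [Fin.sum_univ_two]
    simp
  have e2 : vG (g := 1) (gB d) x 1 = -((d 2 : K) + (d 3 : K) * x) := by
    unfold vG gB ex
    rw [Fin.sum_univ_two]
    simp
    ring
  rw [e1] at h1
  rw [e2, neg_eq_zero] at h2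
  by_cases h : d 0 ≠ 0 ∨ d 1 ≠ 0
  · exact PF1_lin _ _ h v hv K x hx h1
  · by_cases h' : d 2 ≠ 0 ∨ d 3 ≠ 0
    · exact PF1_lin _ _ h' v hv K x hx h2
    · push Not at h h'
      apply hd
      funext i
      fin_cases i
      · exact h.1
      · exact h.2
      · exact h'.1
      · exact h'.2

end HNF
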