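import Pool.Agent.Lib.MP_1ad228_ntH.PF1
import Pool.Agent.Lib.MP_10e784_agF.VG

/-! JOB PF2 -/

set_option autoImplicit false

open Classical

namespace HNF

open Finset Polynomial FGO FQQ

theorem PF2_Pf {F F' : Type} [CommRing F] [CommRing F'] (φ : F →+* F') {m : ℕ} (f : Fin (m + 1) → F) (x : F') :
    (Pf f).eval₂ φ x = hv (fun i => φ (f i)) x 1 := by
  unfold Pf hv
  rw [eval₂_finsetSum]
  refine Finset.sum_congr rfl fun i _ => ?_
  rw [eval₂_mul, eval₂_C, eval₂_X_pow, one_pow, mul_one]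

theorem PF2_Pq {F F' : Type} [CommRing F] [CommRing F'] (φ : F →+* F') (v : F × F × F) (x : F') :
    (Pq v).eval₂ φ x = qv (φ v.1, φ v.2.1, φ v.2.2) x 1 := by
  unfold Pq qv
  rw [eval₂_add, eval₂_add, eval₂_mul, eval₂_mul, eval₂_C, eval₂_C, eval₂_C, eval₂_X_pow, eval₂_X]
  ring

theorem PF2_ex {F F' : Type} [CommRing F] [CommRing F'] (φ : F →+* F') {m : ℕ} (c : Fin (m + 1) → F) (k : ℕ) :
    φ (ex c k) = ex (fun i => φ (c i)) k := by
  unfold ex
  by_cases h : k < m + 1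
  · rw [dif_pos h, dif_pos h]
  · rw [dif_neg h, dif_neg h, map_zero]

theorem PF2_gA {F F' : Type} [CommRing F] [CommRing F'] (φ : F →+* F') {g : ℕ} (c : Fin (2 * g + 1 + 1) → F) :
    (fun i => φ (gA c i)) = gA (fun i => φ (c i)) := by
  funext i
  exact PF2_ex φ c _

theorem PF2_gB {F F' : Type} [CommRing F] [CommRing F'] (φ : F →+* F') {g : ℕ} (c : Fin (2 * g + 1 + 1) → F) :
    (fun i => φ (gB c i)) = gB (fun i => φ (c i)) := by
  funext i
  unfold gB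
  rw [map_neg, PF2_ex]

/-- the value of the form `h` at `x` in terms of `hl` -/
theorem PF2_val {F F' : Type} [Field F] [Field F'] (φ : F →+* F') {g : ℕ} (hg : 1 ≤ g) (c : Fin (2 * g + 1 + 1) → F)
    (w : F × F × F) (q q' x : F') (hw' : ((φ w.1, φ w.2.1, φ w.2.2) : F' × F' × F') = (φ w.1, -(φ w.1 * (q + q')), φ w.1 * q * q')) :
    (Pf (hw w (gA c) (gB c))).eval₂ φ x =
      φ w.1 * hl eH (fun i => φ (c i)) x q * hl eH (fun i => φ (c i)) x q' := by
  have h1 : (fun i => φ (hw w (gA c) (gB c) i)) =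
      hw (φ w.1, φ w.2.1, φ w.2.2) (fun j => φ (gA c j)) (fun j => φ (gB c j)) := by
    funext i
    exact map_hw φ w _ _ i
  rw [PF2_Pf, h1, hv_hw, PF2_gA, PF2_gB, hw', hl_eH hg, hl_eH hg]
  unfold qv
  ring

/-- divisibility from vanishing at two different roots -/
theorem PF2_dvd {F F' : Type} [Field F] [Field F'] (φ : F →+* F') (v : F × F × F) (P : F[X]) (r s : F') (hrs : r ≠ s)
    (hv : φ v.1 ≠ 0)
    (h : ((φ v.1, φ v.2.1, φ v.2.2) : F' × F' × F') = (φ v.1, -(φ v.1 * (r + s)), φ v.1 * r * s))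
    (h1 : P.eval₂ φ r = 0) (h2 : P.eval₂ φ s = 0) : Pq v ∣ P := by
  rw [← Polynomial.map_dvd_map' φ]
  have e1 : φ v.2.1 = -(φ v.1 * (r + s)) := congrArg (fun t : F' × F' × F' => t.2.1) h
  have e2 : φ v.2.2 = φ v.1 * r * s := congrArg (fun t : F' × F' × F' => t.2.2) h
  have e3 : (Pq v).map φ = C (φ v.1) * ((X - C r) * (X - C s)) := by
    unfold Pq
    rw [Polynomial.map_add, Polynomial.map_add, Polynomial.map_mul, Polynomial.map_mul,
      Polynomial.map_pow, Polynomial.map_C, Polynomial.map_C, Polynomial.map_C, Polynomial.map_X, e1, e2]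
    simp only [map_neg, map_mul, map_add]
    ring
  rw [e3]
  have hu : IsUnit (C (φ v.1) : F'[X]) := Polynomial.isUnit_C.2 (isUnit_iff_ne_zero.2 hv)
  rw [hu.mul_left_dvd]
  refine IsCoprime.mul_dvd ?_ ?_ ?_
  · exact Polynomial.isCoprime_X_sub_C_of_isUnit_sub (isUnit_iff_ne_zero.2 (sub_ne_zero.2 hrs))
  · rw [dvd_iff_isRoot, IsRoot.def, eval_map]
    exact h1
  · rw [dvd_iff_isRoot, IsRoot.def, eval_map]
    exact h2

theorem PF2_hl_sub {F : Type} [CommRing F] {m : ℕ} (e : ℕ → ℕ × ℕ) (c c' : Fin (m + 1) → F) (r q : F) :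
    hl e (fun i => c i - c' i) r q = hl e c r q - hl e c' r q := by
  unfold hl
  rw [← Finset.sum_sub_distrib]
  refine Finset.sum_congr rfl fun i _ => ?_
  ring

/-- the first four coordinates -/
def PF2_d {F : Type} {g : ℕ} (hg : 1 ≤ g) (D : Fin (2 * g + 1 + 1) → F) : Fin (2 * 1 + 1 + 1) → F :=
  fun i => D ⟨i, by have := i.isLt; omega⟩

theorem PF2_gAD {F : Type} [CommRing F] {g : ℕ} (hg : 1 ≤ g) (D : Fin (2 * g + 1 + 1) → F)
    (hD : ∀ i : Fin (2 * g + 1 + 1), 4 ≤ (i : ℕ) → D i = 0) : Pf (gA D) = Pf (gA (PF2_d hg D)) := by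
  have h1 : ∀ k, 4 ≤ k → ex D k = 0 := by
    intro k hk
    unfold ex
    split_ifs with h
    · exact hD _ hk
    · rfl
  have h2 : ∀ k, k < 4 → ex D k = ex (PF2_d hg D) k := by
    intro k hk
    unfold ex
    rw [dif_pos (by omega), dif_pos (by omega)]
    rfl
  have h3 : ∀ {G : ℕ} (c : Fin (2 * G + 1 + 1) → F), Pf (gA c) =
      ∑ i ∈ range (G + 1), C (ex c (if i = 1 then 1 else 2 * i)) * X ^ i := by
    intro G c
    rw [← Fin.sum_univ_eq_sum_range (fun i => C (ex c (if i = 1 then 1 else 2 * i)) * X ^ i) (G + 1)]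
    rfl
  rw [h3, h3]
  have h4 : range (1 + 1) ⊆ range (g + 1) := by
    intro i hi
    rw [Finset.mem_range] at hi ⊢
    omega
  rw [← Finset.sum_subset h4]
  · refine Finset.sum_congr rfl fun i hi => ?_
    rw [Finset.mem_range] at hi
    congr 2
    refine h2 _ ?_
    split_ifs <;> omega
  · intro i _ hi
    rw [Finset.mem_range, not_lt] at hi
    rw [if_neg (by omega), h1 _ (by omega), C_0, zero_mul]

theorem PF2_gBD {F : Type} [CommRing F] {g : ℕ} (hg : 1 ≤ g) (D : Fin (2 * g + 1 + 1) → F)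
    (hD : ∀ i : Fin (2 * g + 1 + 1), 4 ≤ (i : ℕ) → D i = 0) : Pf (gB D) = Pf (gB (PF2_d hg D)) := by
  have h1 : ∀ k, 4 ≤ k → ex D k = 0 := by
    intro k hk
    unfold ex
    split_ifs with h
    · exact hD _ hk
    · rfl
  have h2 : ∀ k, k < 4 → ex D k = ex (PF2_d hg D) k := by
    intro k hk
    unfold ex
    rw [dif_pos (by omega), dif_pos (by omega)]
    rfl
  have h3 : ∀ {G : ℕ} (c : Fin (2 * G + 1 + 1) → F), Pf (gB c) =
      ∑ i ∈ range (G + 1), C (-ex c (if i = 0 then 2 else 2 * i + 1)) * X ^ i := by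
    intro G c
    rw [← Fin.sum_univ_eq_sum_range (fun i => C (-ex c (if i = 0 then 2 else 2 * i + 1)) * X ^ i) (G + 1)]
    rfl
  rw [h3, h3]
  have h4 : range (1 + 1) ⊆ range (g + 1) := by
    intro i hi
    rw [Finset.mem_range] at hi ⊢
    omega
  rw [← Finset.sum_subset h4]
  · refine Finset.sum_congr rfl fun i hi => ?_
    rw [Finset.mem_range] at hi
    congr 3
    refine h2 _ ?_
    split_ifs <;> omega
  · intro i _ hi
    rw [Finset.mem_range, not_lt] at hi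
    rw [if_neg (by omega), h1 _ (by omega), neg_zero, C_0, zero_mul]

/-- the core: no small nonzero difference -/
theorem PF2_core {g N p L : ℕ} (hg : 1 ≤ g) (hp : p.Prime) (hpN : N < p)
    (hs : 3456 * (L - 1) ^ 4 * N ^ 4 < p ^ 2) (u : V × V) (hu : u ∈ box2 N)
    (hv : ¬ IsSquare (ds u.1)) (hw1 : ¬ IsSquare (ds u.2)) (hvw : ¬ IsSquare (ds u.1 * ds u.2)) (D : Vn (2 * g + 1))
    (hD4 : ∀ i : Fin (2 * g + 1 + 1), 4 ≤ (i : ℕ) → D i = 0)
    (hDL : ∀ i : Fin (2 * g + 1 + 1), |D i| ≤ ((L - 1 : ℕ) : ℤ))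
    (h : Pq (cV p u.1) ∣ Pf (hw (cV p u.2) (gA (cN p D)) (gB (cN p D)))) : D = 0 := by
  by_contra hne
  have hu1 : u.1 ∈ box N := (Finset.mem_product.1 hu).1
  have hu2 : u.2 ∈ box N := (Finset.mem_product.1 hu).2
  have hv1 : u.1.1 ≠ 0 := by
    intro h0
    refine hv ⟨u.1.2.1, ?_⟩
    unfold ds
    rw [h0]
    ring
  obtain ⟨d, hd⟩ : ∃ d : Vn 3, d = PF2_d hg D := ⟨_, rfl⟩
  have hd0 : d ≠ 0 := by
    intro h0
    refine hne ?_
    funext i
    by_cases hi : 4 ≤ (i : ℕ)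
    · exact hD4 i hi
    · have h1 := congrFun h0 ⟨(i : ℕ), by omega⟩
      rw [hd] at h1
      exact h1
  have hDp4 : ∀ i : Fin (2 * g + 1 + 1), 4 ≤ (i : ℕ) → cN p D i = 0 := by
    intro i hi
    unfold cN
    rw [hD4 i hi, Int.cast_zero]
  have hcd : PF2_d hg (cN p D) = cN p d := by
    funext i
    rw [hd]
    rfl
  have h1 : Pq (cV p u.1) ∣ Pf (cN p (hw u.2 (gA (g := 1) d) (gB (g := 1) d))) := by
    have e1 : cN p (hw u.2 (gA (g := 1) d) (gB (g := 1) d)) =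
        hw (cV p u.2) (gA (g := 1) (cN p d)) (gB (g := 1) (cN p d)) := by
      funext i
      have e2 := map_hw (Int.castRingHom (ZMod p)) u.2 (gA (g := 1) d) (gB (g := 1) d) i
      have e3 := gA_cN (g := 1) p d
      have e4 := gB_cN (g := 1) p d
      rw [← e3, ← e4]
      exact e2
    rw [e1, Pf_hw, ← hcd, ← PF2_gAD hg _ hDp4, ← PF2_gBD hg _ hDp4, ← Pf_hw]
    exact h
  have h2 := sq_dvd_Rs (m := 2) (le_refl 2) hp (hw u.2 (gA (g := 1) d) (gB (g := 1) d)) u.1 (VG_ne hpN u.1 hu1 hv1) h1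
  have h3 := Rg1_ne d hd0 u.1 u.2 hv hw1 hvw
  have hdL : ∀ i, |d i| ≤ ((L - 1 : ℕ) : ℤ) := by
    intro i
    rw [hd]
    exact hDL _
  have hex : ∀ k, |ex d k| ≤ ((L - 1 : ℕ) : ℤ) := by
    intro k
    unfold ex
    split_ifs with hk
    · exact hdL _
    · rw [abs_zero]
      exact Int.natCast_nonneg _
  have h4 := abs_Rg_le (g := 1) (gA (g := 1) d) (gB (g := 1) d) u.1 u.2 (L - 1) N (fun i => hex _)
    (fun i => by unfold gB; rw [abs_neg]; exact hex _) hu1 hu2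
  have h5 : (p : ℤ) ^ 2 ≤ |Rg (g := 1) (gA (g := 1) d) (gB (g := 1) d) u.1 u.2| :=
    Int.le_of_dvd (abs_pos.2 h3) ((dvd_abs _ _).2 h2)
  have h6 : ((2 * 1 + 2).factorial * (3 * (1 + 1) ^ 2) ^ 2 : ℕ) = 3456 := by decide
  rw [h6] at h4
  have h7 : (3456 : ℤ) * ((L - 1 : ℕ) : ℤ) ^ 4 * (N : ℤ) ^ 4 < (p : ℤ) ^ 2 := by exact_mod_cast hs
  have h8 : (((3456 : ℕ) : ℤ)) * ((L - 1 : ℕ) : ℤ) ^ 4 * (N : ℤ) ^ (2 * 1 + 2) =
      (3456 : ℤ) * ((L - 1 : ℕ) : ℤ) ^ 4 * (N : ℤ) ^ 4 := by norm_num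
  rw [h8] at h4
  exact absurd (lt_of_le_of_lt (h5.trans h4) h7) (lt_irrefl _)

/-- two integers of `[-H, H]` in the same interval of length `L` -/
theorem PF2_close {H L : ℕ} (hL : 0 < L) {a b : ℤ} (ha : -(H : ℤ) ≤ a) (hb : -(H : ℤ) ≤ b)
    (h : ((a + H) / L).toNat = ((b + H) / L).toNat) : |a - b| ≤ ((L - 1 : ℕ) : ℤ) := by
  have hL' : (0 : ℤ) < L := by exact_mod_cast hL
  have h1 : (a + H) / L = (b + H) / L := by
    have e1 : 0 ≤ (a + H) / (L : ℤ) := Int.ediv_nonneg (by linarith) hL'.le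
    have e2 : 0 ≤ (b + H) / (L : ℤ) := Int.ediv_nonneg (by linarith) hL'.le
    rw [← Int.toNat_of_nonneg e1, ← Int.toNat_of_nonneg e2, h]
  have h2 := Int.emod_add_mul_ediv (a + H) L
  have h3 := Int.emod_add_mul_ediv (b + H) L
  have h4 := Int.emod_nonneg (a + H) hL'.ne'
  have h5 := Int.emod_nonneg (b + H) hL'.ne'
  have h6 := Int.emod_lt_of_pos (a + H) hL'
  have h7 := Int.emod_lt_of_pos (b + H) hL'
  rw [h1] at h2
  have h8 : ((L - 1 : ℕ) : ℤ) = (L : ℤ) - 1 := by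
    rw [Nat.cast_sub hL, Nat.cast_one]
  rw [h8, abs_le]
  constructor <;> linarith

/-- the general counting principle -/
theorem PF2_count {g H L : ℕ} (hg : 1 ≤ g) (hL : 0 < L) (S : Finset (Vn (2 * g + 1))) (hS : S ⊆ boxN (2 * g + 1) H)
    (f1 f2 : Vn (2 * g + 1) → Bool)
    (h : ∀ c ∈ S, ∀ c' ∈ S, f1 c = f1 c' → f2 c = f2 c' → (∀ i : Fin (2 * g + 1 + 1), 4 ≤ (i : ℕ) → c i = c' i) →
      (∀ i : Fin (2 * g + 1 + 1), |c i - c' i| ≤ ((L - 1 : ℕ) : ℤ)) → c = c') :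
    S.card ≤ 4 * (2 * H + 1) ^ (2 * g - 2) * (2 * H / L + 1) ^ 4 := by
  have hbox : ∀ c ∈ S, ∀ i, -(H : ℤ) ≤ c i ∧ c i ≤ H := by
    intro c hc i
    have := hS hc
    unfold boxN at this
    rw [Fintype.mem_piFinset] at this
    exact Finset.mem_Icc.1 (this i)
  set T : Finset ((Bool × Bool) × ((Fin (2 * g - 2) → ℤ) × (Fin 4 → ℕ))) :=
    (Finset.univ : Finset (Bool × Bool)) ×ˢ ((Fintype.piFinset fun _ : Fin (2 * g - 2) => Icc (-(H : ℤ)) (H : ℤ)) ×ˢ
      (Fintype.piFinset fun _ : Fin 4 => range (2 * H / L + 1))) with hT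
  have hcard : T.card = 4 * (2 * H + 1) ^ (2 * g - 2) * (2 * H / L + 1) ^ 4 := by
    rw [hT, Finset.card_product, Finset.card_product, Fintype.card_piFinset, Fintype.card_piFinset, Finset.prod_const,
      Finset.prod_const, Finset.card_univ, Finset.card_univ, Finset.card_univ, Fintype.card_fin, Fintype.card_fin,
      Int.card_Icc, Finset.card_range, Fintype.card_prod, Fintype.card_bool]
    have e : ((H : ℤ) + 1 - -(H : ℤ)).toNat = 2 * H + 1 := by
      have : (H : ℤ) + 1 - -(H : ℤ) = ((2 * H + 1 : ℕ) : ℤ) := by push_cast; ring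
      rw [this, Int.toNat_natCast]
    rw [e]
    ring
  rw [← hcard]
  refine Finset.card_le_card_of_injOn (fun c => ((f1 c, f2 c), ((fun j : Fin (2 * g - 2) => c ⟨(j : ℕ) + 4, by
    have := j.isLt; omega⟩), (fun j : Fin 4 => ((c ⟨(j : ℕ), by have := j.isLt; omega⟩ + H) / L).toNat)))) ?_ ?_
  · intro c hc
    have hc' : c ∈ S := hc
    refine Finset.mem_coe.2 (Finset.mem_product.2 ⟨Finset.mem_univ _, Finset.mem_product.2 ⟨?_, ?_⟩⟩)
    · rw [Fintype.mem_piFinset]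
      intro j
      exact Finset.mem_Icc.2 (hbox c hc' _)
    · rw [Fintype.mem_piFinset]
      intro j
      rw [Finset.mem_range]
      obtain ⟨b1, b2⟩ := hbox c hc' ⟨(j : ℕ), by have := j.isLt; omega⟩
      have hL' : (0 : ℤ) < L := by exact_mod_cast hL
      have e1 : (c ⟨(j : ℕ), by have := j.isLt; omega⟩ + H) / (L : ℤ) ≤ (2 * H : ℤ) / (L : ℤ) :=
        Int.ediv_le_ediv hL' (by linarith)
      have e2 : ((2 * H : ℤ)) / (L : ℤ) = ((2 * H / L : ℕ) : ℤ) := by push_cast; rfl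
      rw [e2] at e1
      have e3 := Int.toNat_le_toNat e1
      rw [Int.toNat_natCast] at e3
      exact Nat.lt_succ_of_le e3
  · intro c hc c' hc' hcc
    have hcS : c ∈ S := hc
    have hcS' : c' ∈ S := hc'
    simp only [Prod.mk.injEq] at hcc
    obtain ⟨⟨k1, k2⟩, k3, k4⟩ := hcc
    have k5 : ∀ i : Fin (2 * g + 1 + 1), 4 ≤ (i : ℕ) → c i = c' i := by
      intro i hi
      have := congrFun k3 ⟨(i : ℕ) - 4, by have := i.isLt; omega⟩
      simp only at this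
      have e : (⟨(i : ℕ) - 4 + 4, by have := i.isLt; omega⟩ : Fin (2 * g + 1 + 1)) = i := Fin.ext (by simp only; omega)
      rw [e] at this
      exact this
    refine h c hcS c' hcS' k1 k2 k5 ?_
    intro i
    by_cases hi : 4 ≤ (i : ℕ)
    · rw [k5 i hi, sub_self, abs_zero]
      exact Int.natCast_nonneg _
    · have := congrFun k4 ⟨(i : ℕ), by omega⟩
      exact PF2_close hL (hbox c hcS i).1 (hbox c' hcS' i).1 this

/-- (packing) Proof. `E` = an algebraic closure of `ZMod p`; over `E`: `v(x, 1) = v.1 (x - r)(x - s)`, `r ≠ s` (`ds v ≠ 0`), `w(X, Y) = w.1 (X - q Y)(X - q' Y)`. For `c` in the set, `h = w(G₁, G₂)` vanishes at `r` and `s`, so there are `q₁, q₂ ∈ {q, q'}` with `hl eH c r q₁ = 0`, `hl eH c s q₂ = 0` (`hl_eH`, reduction of `c` in `E`).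
Colour `c` by such a pair (4 colours), by the coordinates `c i`, `i ≥ 4`, and by the numbers `(c i + H) / L` (`i < 4`, natural or integer division; at most `2 H / L + 1` values). Claim: the colouring is injective. If `c ≠ c'` have the same colour then `D = c - c'` has `D i = 0` for `i ≥ 4`, `|D i| ≤ L - 1` for `i < 4`, and
(linearity) `hl eH D r q₁ = 0 = hl eH D s q₂`, so `h_D = w(gA D, gB D)` vanishes at `r` and `s`: `Pq v ∣ Pf h_D` over `E`, hence over `ZMod p`. Let `d : Vn 3` be the first four coordinates: `Pf (hw w (gA D) (gB D)) = Pf (hw w (gA d) (gB d))` (polynomials; `Pf_hw`), `sq_dvd_Rs` (file VG, `m = 2`): `p² ∣ Rg (gA d) (gB d) v w ≠ 0` (`Rg1_ne`), but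
`|Rg| ≤ 4! · 12² (L - 1)⁴ N⁴ = 3456 (L - 1)⁴ N⁴ < p²` (`abs_Rg_le` with `g = 1`, `H = L - 1`). The number of colours is `4 (2H+1)^(2g-2) (2H/L + 1)^4`. -/
theorem pack {g H N p L : ℕ} (hg : 1 ≤ g) (hp : p.Prime) (h2 : p ≠ 2) (hpN : N < p) (hL : 0 < L) (hs : 3456 * (L - 1) ^ 4 * N ^ 4 < p ^ 2) (u : V × V) (hu : u ∈ box2 N)
    (hpd : ¬ (p : ℤ) ∣ ds u.1) (hv : ¬ IsSquare (ds u.1)) (hw1 : ¬ IsSquare (ds u.2)) (hvw : ¬ IsSquare (ds u.1 * ds u.2)) :
    ((boxN (2 * g + 1) H).filter fun c => Pq (cV p u.1) ∣ Pf (hw (cV p u.2) (gA (cN p c)) (gB (cN p c)))).card ≤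
      4 * (2 * H + 1) ^ (2 * g - 2) * (2 * H / L + 1) ^ 4 := by
  have : Fact p.Prime := ⟨hp⟩
  have hu1 : u.1 ∈ box N := (Finset.mem_product.1 hu).1
  have hu2 : u.2 ∈ box N := (Finset.mem_product.1 hu).2
  have hne : ∀ v : V, ¬ IsSquare (ds v) → v.1 ≠ 0 := by
    intro v hv' h0
    refine hv' ⟨v.2.1, ?_⟩
    unfold ds
    rw [h0]
    ring
  obtain ⟨φ, hφ⟩ : ∃ φ : ZMod p →+* AlgebraicClosure (ZMod p), φ = algebraMap _ _ := ⟨_, rfl⟩
  have hinj : Function.Injective φ := φ.injective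
  have h20 : (2 : AlgebraicClosure (ZMod p)) ≠ 0 := by
    intro h0
    have h1 : φ 2 = 0 := by rw [map_ofNat]; exact h0
    have h3 : (2 : ZMod p) = 0 := hinj (by rw [h1, map_zero])
    have h4 : ((2 : ℕ) : ZMod p) = 0 := by exact_mod_cast h3
    rw [ZMod.natCast_eq_zero_iff] at h4
    exact h2 ((Nat.prime_dvd_prime_iff_eq hp Nat.prime_two).1 h4)
  have hlead : ∀ v ∈ box N, v.1 ≠ 0 → φ (cV p v).1 ≠ 0 := by
    intro v hv' h0 h1
    have h3 : ((v.1 : ℤ) : ZMod p) = 0 := hinj (by rw [map_zero]; exact h1)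
    exact VG_ne hpN v hv' h0 ((ZMod.intCast_zmod_eq_zero_iff_dvd _ p).1 h3)
  have hv0 := hlead u.1 hu1 (hne _ hv)
  have hw0 := hlead u.2 hu2 (hne _ hw1)
  have hsplit : ∀ v : V, φ (cV p v).1 ≠ 0 → ∃ r s : AlgebraicClosure (ZMod p),
      ((φ (cV p v).1, φ (cV p v).2.1, φ (cV p v).2.2) : AlgebraicClosure (ZMod p) × AlgebraicClosure (ZMod p) × AlgebraicClosure (ZMod p)) =
        (φ (cV p v).1, -(φ (cV p v).1 * (r + s)), φ (cV p v).1 * r * s) := by
    intro v h0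
    exact split_of_sq h20 (φ (cV p v).1, φ (cV p v).2.1, φ (cV p v).2.2) h0
      (IsAlgClosed.exists_eq_mul_self _)
  obtain ⟨r, s, hrs⟩ := hsplit u.1 hv0
  obtain ⟨q, q', hqq⟩ := hsplit u.2 hw0
  have hne' : r ≠ s := by
    intro h0
    have e1 : φ (cV p u.1).2.1 = -(φ (cV p u.1).1 * (r + s)) :=
      congrArg (fun t : AlgebraicClosure (ZMod p) × AlgebraicClosure (ZMod p) × AlgebraicClosure (ZMod p) => t.2.1) hrs
    have e2 : φ (cV p u.1).2.2 = φ (cV p u.1).1 * r * s :=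
      congrArg (fun t : AlgebraicClosure (ZMod p) × AlgebraicClosure (ZMod p) × AlgebraicClosure (ZMod p) => t.2.2) hrs
    have e3 : φ (ds (cV p u.1)) = 0 := by
      unfold ds
      rw [map_sub, map_mul, map_mul, map_pow, e1, e2, map_ofNat, h0]
      ring
    have e4 : ds (cV p u.1) = 0 := hinj (by rw [e3, map_zero])
    rw [← ds_cast] at e4
    exact hpd ((ZMod.intCast_zmod_eq_zero_iff_dvd _ _).1 e4)
  have hroot : ∀ x, (x = r ∨ x = s) → (Pq (cV p u.1)).eval₂ φ x = 0 := by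
    intro x hx
    rw [PF2_Pq, hrs]
    unfold qv
    rcases hx with rfl | rfl <;> ring
  refine PF2_count hg hL _ (Finset.filter_subset _ _)
    (fun c => decide (hl eH (fun i => φ (cN p c i)) r q = 0))
    (fun c => decide (hl eH (fun i => φ (cN p c i)) s q = 0)) ?_
  intro c hc c' hc' k1 k2 k3 k4
  rw [decide_eq_decide] at k1 k2
  have hcp := (Finset.mem_filter.1 hc).2
  have hcp' := (Finset.mem_filter.1 hc').2
  have hz : ∀ (a : Vn (2 * g + 1)), Pq (cV p u.1) ∣ Pf (hw (cV p u.2) (gA (cN p a)) (gB (cN p a))) →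
      ∀ x, (x = r ∨ x = s) → hl eH (fun i => φ (cN p a i)) x q = 0 ∨ hl eH (fun i => φ (cN p a i)) x q' = 0 := by
    intro a ha x hx
    obtain ⟨G, hG⟩ := ha
    have e1 : (Pf (hw (cV p u.2) (gA (cN p a)) (gB (cN p a)))).eval₂ φ x = 0 := by
      rw [hG, eval₂_mul, hroot x hx, zero_mul]
    rw [PF2_val φ hg (cN p a) (cV p u.2) q q' x hqq] at e1
    rcases mul_eq_zero.1 e1 with e2 | e2
    · rcases mul_eq_zero.1 e2 with e3 | e3
      · exact absurd e3 hw0
      · exact Or.inl e3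
    · exact Or.inr e2
  have hDh : ∀ x y, hl eH (fun i => φ (cN p (c - c') i)) x y =
      hl eH (fun i => φ (cN p c i)) x y - hl eH (fun i => φ (cN p c' i)) x y := by
    intro x y
    rw [← PF2_hl_sub]
    congr 1
    funext i
    rw [← map_sub]
    congr 1
    unfold cN
    rw [Pi.sub_apply, Int.cast_sub]
  have hDz : ∀ x, (x = r ∨ x = s) →
      (hl eH (fun i => φ (cN p c i)) x q = 0 ↔ hl eH (fun i => φ (cN p c' i)) x q = 0) →
      hl eH (fun i => φ (cN p (c - c') i)) x q = 0 ∨ hl eH (fun i => φ (cN p (c - c') i)) x q' = 0 := by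
    intro x hx hiff
    by_cases h0 : hl eH (fun i => φ (cN p c i)) x q = 0
    · left
      rw [hDh, h0, hiff.1 h0, sub_zero]
    · right
      have h0' : ¬ hl eH (fun i => φ (cN p c' i)) x q = 0 := fun h => h0 (hiff.2 h)
      rw [hDh, (hz c hcp x hx).resolve_left h0, (hz c' hcp' x hx).resolve_left h0', sub_zero]
  have hval : ∀ x, (x = r ∨ x = s) →
      (hl eH (fun i => φ (cN p c i)) x q = 0 ↔ hl eH (fun i => φ (cN p c' i)) x q = 0) →
      (Pf (hw (cV p u.2) (gA (cN p (c - c'))) (gB (cN p (c - c'))))).eval₂ φ x = 0 := by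
    intro x hx hiff
    rw [PF2_val φ hg (cN p (c - c')) (cV p u.2) q q' x hqq]
    rcases hDz x hx hiff with h0 | h0
    · rw [h0, mul_zero, zero_mul]
    · rw [h0, mul_zero]
  have hdvd : Pq (cV p u.1) ∣ Pf (hw (cV p u.2) (gA (cN p (c - c'))) (gB (cN p (c - c')))) :=
    PF2_dvd φ (cV p u.1) _ r s hne' hv0 hrs (hval r (Or.inl rfl) k1) (hval s (Or.inr rfl) k2)
  have hfin := PF2_core hg hp hpN hs u hu hv hw1 hvw (c - c')
    (fun i hi => by rw [Pi.sub_apply, k3 i hi, sub_self]) (fun i => by rw [Pi.sub_apply]; exact k4 i) hdvd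
  exact sub_eq_zero.1 hfin

end HNF
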