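import Pool.Agent.Lib.MP_1ad228_ntH.PF2
import Pool.Agent.Lib.MP_1ad228_ntH.PC3
import Pool.Agent.Lib.MP_1ad228_ntH.PB1
import Pool.Agent.Lib.MP_1ad228_ntH.PD

/-! JOB PF3 -/

set_option autoImplicit false

open Classical

namespace HNF

open Finset Polynomial FGO FQQ

/-- the third clause of the bad event -/
def PF3_D {g : ℕ} (p : ℕ) (c : Vn (2 * g + 1)) (u : V × V) : Prop :=
  Pq (cV p u.1) ∣ Pf (hw (cV p u.2) (gA (cN p c)) (gB (cN p c)))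

/-- the last clause of the bad event -/
def PF3_S {g : ℕ} (p : ℕ) (c : Vn (2 * g + 1)) (u : V × V) : Prop :=
  ∀ x : ZMod p, qv (cV p u.1) x 1 ≠ 0 → ¬ Sq ((cV p u.1).1 * hv (hw (cV p u.2) (gA (cN p c)) (gB (cN p c))) x 1)

theorem PF3_inv_sq (a b : ℕ) (ha : 0 < a) (Q : Finset ℕ) (hQ : ∀ p ∈ Q, a < p ∧ p ≤ b) :
    ∑ p ∈ Q, 1 / (p : ℝ) ^ 2 ≤ 1 / (a : ℝ) := by
  by_cases hab : a ≤ b
  · have h1 : Q ⊆ Finset.Ioc a b := by
      intro p hp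
      rw [Finset.mem_Ioc]
      exact hQ p hp
    have h2 : ∑ p ∈ Q, 1 / (p : ℝ) ^ 2 ≤ ∑ p ∈ Finset.Ioc a b, ((p : ℝ) ^ 2)⁻¹ := by
      refine (Finset.sum_le_sum_of_subset_of_nonneg h1 fun p _ _ => by positivity).trans (le_of_eq ?_)
      exact Finset.sum_congr rfl fun p _ => one_div _
    have h3 := sum_Ioc_inv_sq_le_sub (α := ℝ) (k := a) (n := b) (by omega) hab
    have h4 : (0 : ℝ) ≤ ((b : ℕ) : ℝ)⁻¹ := by positivity
    rw [one_div]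
    linarith
  · have h1 : Q = ∅ := by
      rw [Finset.eq_empty_iff_forall_notMem]
      intro p hp
      have := hQ p hp
      omega
    rw [h1, Finset.sum_empty]
    positivity

theorem PF3_box {N : ℕ} {v : V} (hv : v ∈ FGO.box N) :
    |v.1| ≤ (N : ℤ) ∧ |v.2.1| ≤ (N : ℤ) ∧ |v.2.2| ≤ (N : ℤ) := by
  unfold FGO.box at hv
  rw [Finset.mem_product, Finset.mem_product, Finset.mem_Icc, Finset.mem_Icc, Finset.mem_Icc] at hv
  exact ⟨abs_le.2 hv.1, abs_le.2 hv.2.1, abs_le.2 hv.2.2⟩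

theorem PF3_ne {N p : ℕ} (hp : N < p) {n : ℤ} (hn : |n| ≤ (N : ℤ)) (h0 : n ≠ 0) : ((n : ℤ) : ZMod p) ≠ 0 := by
  intro h
  rw [ZMod.intCast_zmod_eq_zero_iff_dvd] at h
  have h1 := Int.eq_zero_of_abs_lt_dvd h (by
    have : (N : ℤ) < (p : ℤ) := by exact_mod_cast hp
    linarith)
  exact h0 h1

theorem PF3_ds {N : ℕ} {v : V} (hv : v ∈ FGO.box N) : |ds v| ≤ 5 * (N : ℤ) ^ 2 := by
  obtain ⟨h1, h2, h3⟩ := PF3_box hv
  have hN : (0 : ℤ) ≤ N := Int.natCast_nonneg N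
  unfold ds
  have e1 : |v.2.1 ^ 2| ≤ (N : ℤ) ^ 2 := by
    rw [abs_pow]
    exact pow_le_pow_left₀ (abs_nonneg _) h2 2
  have e2 : |4 * v.1 * v.2.2| ≤ 4 * (N : ℤ) ^ 2 := by
    rw [abs_mul, abs_mul]
    have : |(4 : ℤ)| = 4 := by norm_num
    rw [this]
    have e3 : |v.1| * |v.2.2| ≤ (N : ℤ) * N := mul_le_mul h1 h3 (abs_nonneg _) hN
    nlinarith
  have e4 := abs_sub (v.2.1 ^ 2) (4 * v.1 * v.2.2)
  linarith

theorem PF3_gA {g H : ℕ} {c : Vn (2 * g + 1)} (hc : c ∈ boxN (2 * g + 1) H) :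
    (∀ i, |gA c i| ≤ (H : ℤ)) ∧ (∀ i, |gB c i| ≤ (H : ℤ)) := by
  have hH : (0 : ℤ) ≤ H := Int.natCast_nonneg H
  have h1 : ∀ i, |c i| ≤ (H : ℤ) := by
    intro i
    unfold boxN at hc
    rw [Fintype.mem_piFinset] at hc
    have := hc i
    rw [Finset.mem_Icc] at this
    exact abs_le.2 this
  have h2 : ∀ n, |ex c n| ≤ (H : ℤ) := by
    intro n
    unfold ex
    split_ifs
    · exact h1 _
    · rw [abs_zero]
      exact hH
  refine ⟨fun i => ?_, fun i => ?_⟩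
  · unfold gA
    exact h2 _
  · unfold gB
    rw [abs_neg]
    exact h2 _

/-- the constant -/
def PF3_B (g : ℕ) : ℕ := (2 * g + 2).factorial * (3 * (g + 1) ^ 2) ^ 2

theorem PF3_B_pos (g : ℕ) : 0 < PF3_B g := by
  unfold PF3_B
  have := Nat.factorial_pos (2 * g + 2)
  positivity

/-- very large primes do not occur -/
theorem PF3_big {g H N p : ℕ} (hg : 1 ≤ g) (hp : p.Prime) (hpN : N < p) (c : Vn (2 * g + 1)) (hc : c ∈ boxN (2 * g + 1) H)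
    (u : V × V) (hu1 : u.1 ∈ FGO.box N) (hu2 : u.2 ∈ FGO.box N) (hv0 : u.1.1 ≠ 0) (hz : NoCz (gA c) (gB c))
    (hv : ¬ IsSquare (ds u.1)) (hw1 : ¬ IsSquare (ds u.2)) (hvw : ¬ IsSquare (ds u.1 * ds u.2))
    (hP : PF3_B g * H ^ 2 * N ^ (g + 1) < p) : ¬ PF3_D p c u := by
  intro hD
  obtain ⟨h1, h2⟩ := PF3_gA hc
  have hne := Rg_ne (gA c) (gB c) u.1 u.2 hz hv hw1 hvw
  have hle := abs_Rg_le (gA c) (gB c) u.1 u.2 H N h1 h2 hu1 hu2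
  have hv1 : ¬ (p : ℤ) ∣ u.1.1 := by
    intro h
    exact PF3_ne hpN (PF3_box hu1).1 hv0 ((ZMod.intCast_zmod_eq_zero_iff_dvd _ _).2 h)
  have hcast : cN p (hw u.2 (gA c) (gB c)) = hw (cV p u.2) (gA (cN p c)) (gB (cN p c)) := by
    rw [← gA_cN, ← gB_cN]
    funext i
    exact map_hw (Int.castRingHom (ZMod p)) u.2 (gA c) (gB c) i
  unfold PF3_D at hD
  rw [← hcast] at hD
  have hdvd := sq_dvd_Rs (m := 2 * g) (by omega) hp (hw u.2 (gA c) (gB c)) u.1 hv1 hD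
  have hdvd' : (p : ℤ) ^ 2 ∣ Rg (gA c) (gB c) u.1 u.2 := hdvd
  apply hne
  refine Int.eq_zero_of_abs_lt_dvd hdvd' (lt_of_le_of_lt hle ?_)
  have e1 : ((PF3_B g : ℕ) : ℤ) * (H : ℤ) ^ 4 * (N : ℤ) ^ (2 * g + 2) ≤
      (((PF3_B g * H ^ 2 * N ^ (g + 1) : ℕ)) : ℤ) ^ 2 := by
    have e2 : PF3_B g * H ^ 4 * N ^ (2 * g + 2) ≤ (PF3_B g * H ^ 2 * N ^ (g + 1)) ^ 2 := by
      have e3 : (PF3_B g * H ^ 2 * N ^ (g + 1)) ^ 2 = PF3_B g * (PF3_B g * H ^ 4 * N ^ (2 * g + 2)) := by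
        ring
      rw [e3]
      exact Nat.le_mul_of_pos_left _ (PF3_B_pos g)
    exact_mod_cast e2
  have e4 : (((PF3_B g * H ^ 2 * N ^ (g + 1) : ℕ)) : ℤ) ^ 2 < (p : ℤ) ^ 2 := by
    have e5 : (PF3_B g * H ^ 2 * N ^ (g + 1)) ^ 2 < p ^ 2 := Nat.pow_lt_pow_left hP (by norm_num)
    exact_mod_cast e5
  exact lt_of_le_of_lt e1 e4

/-- the count for one prime, third clause, middle range -/
theorem PF3_mid {g H p : ℕ} (hg : 1 ≤ g) (hH : 0 < H) (hp : p.Prime) (h2 : p ≠ 2) (hpH : p ≤ 4 * H)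
    (u : V × V) (hv1 : (cV p u.1).1 ≠ 0) (hd : ds (cV p u.1) ≠ 0) (hw0 : (cV p u.2).1 ≠ 0) :
    (((boxN (2 * g + 1) H).filter fun c => PF3_D p c u).card : ℝ) ≤
      (8 * (H : ℝ)) ^ (2 * g + 2) * (9 * (1 / (p : ℝ) ^ 2)) := by
  have : Fact p.Prime := ⟨hp⟩
  have hc : (((boxN (2 * g + 1) H).filter fun c => PF3_D p c u).card : ℝ) =
      ∑ c ∈ boxN (2 * g + 1) H, ind (PF3_D p c u) := by
    rw [← Finset.sum_boole]
    refine Finset.sum_congr rfl fun c _ => ?_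
    unfold ind
    by_cases h : PF3_D p c u
    · rw [if_pos h]
    · rw [if_neg h]
  rw [hc]
  have h3 := boxc_mean (m := 2 * g + 1) hH hpH
    (fun c => ind (Pq (cV p u.1) ∣ Pf (hw (cV p u.2) (gA c) (gB c)))) (fun c => ind_nonneg _)
  refine h3.trans ?_
  refine mul_le_mul_of_nonneg_left ?_ (by positivity)
  have hw' : cV p u.2 ≠ 0 := by
    intro h
    apply hw0
    rw [h]
    rfl
  refine (mF_div hg p h2 (cV p u.1) (cV p u.2) hv1 hd hw').trans (le_of_eq ?_)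
  ring

/-- the count for one prime, last clause -/
theorem PF3_sq {g H p : ℕ} (hg : 1 ≤ g) (hH : 0 < H) (hp : p.Prime) (h5 : 5 ≤ p) (hpH : p ≤ 4 * H)
    (u : V × V) (hv1 : (cV p u.1).1 ≠ 0) (hd : ds (cV p u.1) = 0) (hdw : ds (cV p u.2) ≠ 0) :
    (((boxN (2 * g + 1) H).filter fun c => PF3_S p c u).card : ℝ) ≤
      (8 * (H : ℝ)) ^ (2 * g + 2) * (22 / (p : ℝ)) := by
  have : Fact p.Prime := ⟨hp⟩
  have hc : (((boxN (2 * g + 1) H).filter fun c => PF3_S p c u).card : ℝ) =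
      ∑ c ∈ boxN (2 * g + 1) H, ind (PF3_S p c u) := by
    rw [← Finset.sum_boole]
    refine Finset.sum_congr rfl fun c _ => ?_
    unfold ind
    by_cases h : PF3_S p c u
    · rw [if_pos h]
    · rw [if_neg h]
  rw [hc]
  have h3 := boxc_mean (m := 2 * g + 1) hH hpH
    (fun c => ind (∀ x : ZMod p, qv (cV p u.1) x 1 ≠ 0 → ¬ Sq ((cV p u.1).1 * hv (hw (cV p u.2) (gA c) (gB c)) x 1)))
    (fun c => ind_nonneg _)
  refine h3.trans ?_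
  exact mul_le_mul_of_nonneg_left (mF_nosq hg p h5 (cV p u.1) (cV p u.2) hd hv1 hdw) (by positivity)

theorem PF3_real {s : ℝ} (H N p : ℕ) (hN : 0 < N) (hs : 0 < s) (hsp : s ^ 2 = p) (_h4 : 4 ≤ p) :
    (((2 * H / (Nat.sqrt p / (8 * N) + 1) + 1 : ℕ)) : ℝ) ≤ 32 * H * N / s + 1 := by
  have hN0 : (0 : ℝ) < N := by exact_mod_cast hN
  obtain ⟨L, hL⟩ : ∃ L : ℕ, L = Nat.sqrt p / (8 * N) + 1 := ⟨_, rfl⟩
  have hL0 : 0 < L := by
    rw [hL]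
    exact Nat.succ_pos _
  have hL0r : (0 : ℝ) < L := by exact_mod_cast hL0
  rw [← hL]
  have h1 : Nat.sqrt p < 8 * N * L := by
    have h := Nat.lt_succ_of_le (le_refl (Nat.sqrt p / (8 * N)))
    have h' := Nat.lt_mul_div_succ (Nat.sqrt p) (show 0 < 8 * N by omega)
    rw [hL]
    exact h'
  have h2 : Nat.sqrt p + 1 ≤ 8 * N * L := h1
  have h3 : p < (Nat.sqrt p + 1) * (Nat.sqrt p + 1) := Nat.lt_succ_sqrt p
  have h4' : s ≤ 8 * N * L := by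
    have h5 : s ^ 2 ≤ ((8 * N * L : ℕ) : ℝ) ^ 2 := by
      rw [hsp]
      have h6 : p ≤ (8 * N * L) ^ 2 := by
        calc p ≤ (Nat.sqrt p + 1) * (Nat.sqrt p + 1) := h3.le
          _ ≤ (8 * N * L) * (8 * N * L) := Nat.mul_le_mul h2 h2
          _ = (8 * N * L) ^ 2 := by ring
      exact_mod_cast h6
    have h7 := abs_le_of_sq_le_sq h5 (by positivity)
    have h8 := (le_abs_self s).trans h7
    push_cast at h8
    exact h8
  have h9 : ((2 * H / L : ℕ) : ℝ) ≤ (2 * H : ℝ) / L := by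
    have := Nat.cast_div_le (α := ℝ) (m := 2 * H) (n := L)
    push_cast at this
    exact this
  have h10 : (2 * H : ℝ) / L ≤ 32 * H * N / s := by
    rw [div_le_div_iff₀ hL0r hs]
    have : (0 : ℝ) ≤ H := Nat.cast_nonneg _
    nlinarith [mul_le_mul_of_nonneg_left h4' (show (0 : ℝ) ≤ 2 * H by positivity), mul_nonneg (mul_nonneg this hN0.le) hL0r.le]
  push_cast
  linarith

theorem PF3_four (x : ℝ) (_hx : 0 ≤ x) : (x + 1) ^ 4 ≤ 8 * (x ^ 4 + 1) := by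
  nlinarith [sq_nonneg (x - 1), sq_nonneg (x ^ 2 - 1), sq_nonneg (x ^ 2 - x),
    sq_nonneg (x ^ 2 - 2 * x + 1)]

/-- the count for one prime, third clause, large primes -/
theorem PF3_pack {g H N p : ℕ} (hg : 1 ≤ g) (hN : 0 < N) (hH : 1 ≤ H) (hp : p.Prime) (h4 : 4 ≤ p) (hpN : N < p) (u : V × V)
    (hu : u ∈ box2 N) (hpd : ¬ (p : ℤ) ∣ ds u.1) (hv : ¬ IsSquare (ds u.1)) (hw1 : ¬ IsSquare (ds u.2))
    (hvw : ¬ IsSquare (ds u.1 * ds u.2)) :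
    (((boxN (2 * g + 1) H).filter fun c => PF3_D p c u).card : ℝ) ≤
      32 * (3 * (H : ℝ)) ^ (2 * g - 2) * ((32 * H * N : ℝ) ^ 4 * (1 / (p : ℝ) ^ 2) + 1) := by
  have hHr : (1 : ℝ) ≤ H := by exact_mod_cast hH
  have hsmall : 3456 * (Nat.sqrt p / (8 * N) + 1 - 1) ^ 4 * N ^ 4 < p ^ 2 := by
    rw [Nat.add_sub_cancel]
    obtain ⟨t, ht⟩ : ∃ t : ℕ, t = Nat.sqrt p / (8 * N) := ⟨_, rfl⟩
    rw [← ht]
    have h1 : 8 * N * t ≤ Nat.sqrt p := by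
      rw [ht]
      exact Nat.mul_div_le _ _
    have h2 : (8 * N * t) ^ 2 ≤ p := by
      calc (8 * N * t) ^ 2 ≤ (Nat.sqrt p) ^ 2 := Nat.pow_le_pow_left h1 2
        _ ≤ p := Nat.sqrt_le' p
    have h3 : (8 * N * t) ^ 4 ≤ p ^ 2 := by
      calc (8 * N * t) ^ 4 = ((8 * N * t) ^ 2) ^ 2 := by ring
        _ ≤ p ^ 2 := Nat.pow_le_pow_left h2 2
    have h5 : (8 * N * t) ^ 4 = 4096 * (t ^ 4 * N ^ 4) := by ring
    have h6 : 3456 * t ^ 4 * N ^ 4 = 3456 * (t ^ 4 * N ^ 4) := by ring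
    have h7 : 0 < p ^ 2 := by positivity
    omega
  have h1 := pack (g := g) (H := H) (N := N) (p := p) (L := Nat.sqrt p / (8 * N) + 1) hg hp (by omega) hpN
    (Nat.succ_pos _) hsmall u hu hpd hv hw1 hvw
  have hs0 : (0 : ℝ) < Real.sqrt p := Real.sqrt_pos.2 (by
    have : (4 : ℝ) ≤ p := by exact_mod_cast h4
    linarith)
  have hs2 : (Real.sqrt p) ^ 2 = p := Real.sq_sqrt (Nat.cast_nonneg _)
  have h2 := PF3_real H N p hN hs0 hs2 h4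
  have h3 : (((boxN (2 * g + 1) H).filter fun c => PF3_D p c u).card : ℝ) ≤
      4 * ((2 * H + 1 : ℕ) : ℝ) ^ (2 * g - 2) * (((2 * H / (Nat.sqrt p / (8 * N) + 1) + 1 : ℕ)) : ℝ) ^ 4 := by
    exact_mod_cast h1
  refine h3.trans ?_
  have h5 : ((2 * H + 1 : ℕ) : ℝ) ^ (2 * g - 2) ≤ (3 * (H : ℝ)) ^ (2 * g - 2) := by
    refine pow_le_pow_left₀ (by positivity) ?_ _
    push_cast
    linarith
  have h6 : (((2 * H / (Nat.sqrt p / (8 * N) + 1) + 1 : ℕ)) : ℝ) ^ 4 ≤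
      8 * ((32 * H * N : ℝ) ^ 4 * (1 / (p : ℝ) ^ 2) + 1) := by
    refine (pow_le_pow_left₀ (by positivity) h2 4).trans ?_
    refine (PF3_four _ (by positivity)).trans (le_of_eq ?_)
    have e1 : (p : ℝ) ^ 2 = (Real.sqrt p) ^ 4 := by
      rw [← hs2]
      ring_nf
      rw [Real.sqrt_sq (by positivity)]
    rw [e1, div_pow, mul_one_div]
  have h7 : 4 * ((2 * H + 1 : ℕ) : ℝ) ^ (2 * g - 2) ≤ 4 * (3 * (H : ℝ)) ^ (2 * g - 2) := by linarith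
  refine (mul_le_mul h7 h6 (by positivity) (by positivity)).trans (le_of_eq ?_)
  ring

/-- Proof. Let `p` be a prime `> 4 N` with `BdP p c u`: `p ∤ v.1` (`0 < |v.1| ≤ N < p`), not both discriminants, so the third clause (`p ∤ ds v`, `Pq v ∣ Pf h`) or the fifth (`p ∣ ds v`).
Fifth clause: at most one prime `p > 4 N` divides `ds v ≠ 0` (`|ds v| ≤ 5 N² < 16 N²`), `p ≤ 5 N² ≤ 4 N^5 ≤ 4 H`: `boxc_mean` and `mF_nosq`: `≤ (8H)^(2g+2) 22/(4N)`.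
Third clause: `4 N < p ≤ 4 H`: `boxc_mean`, `mF_div`: `∑ (8H)^(2g+2) 9/p² ≤ (8H)^(2g+2) 9/(4N)` (`sum_Ioc_inv_sq_le_sub`). `4 H < p ≤ Pm := B0 H² N^(g+1)`: `pack` with `L = Nat.sqrt p / (8 N) + 1` (natural division: `8 N (L - 1) ≤ √p`, so `3456 (L-1)⁴ N⁴ ≤ 3456/4096 p² < p²`; `L ≥ √p / (16 N)`): `≤ 4 (3H)^(2g-2) (48 H N/√p + 1)^4 ≤ 32 (3H)^(2g-2) ((48 H N)^4/p² + 1)`;
the sum over `p` is `≤ 32 (3H)^(2g-2) ((48 N)^4 H^4/(4H) + Pm) ≤ C H^(2g+2) (N^4/H + N^(g+1)/H²) ≤ 2 C H^(2g+2)/N`. `p > Pm`: `p² ∣ Rg` (`sq_dvd_Rs`, `m = 2 g`), `0 < |Rg| ≤ B0 H⁴ N^(2g+2) ≤ Pm² < p²` (`Rg_ne`, `abs_Rg_le`): impossible. -/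
theorem large_H (g : ℕ) (hg : 1 ≤ g) : ∃ C : ℝ, 0 < C ∧ ∀ H N : ℕ, 2 ≤ N → N ^ 5 ≤ H → N ^ (g + 2) ≤ H ^ 2 → ∀ u ∈ box2 N,
    u.1.1 ≠ 0 → u.2.1 ≠ 0 → ¬ IsSquare (ds u.1) → ¬ IsSquare (ds u.2) → ¬ IsSquare (ds u.1 * ds u.2) →
    (∀ p : ℕ, p.Prime → 4 * N < p → ¬ ((p : ℤ) ∣ ds u.1 ∧ (p : ℤ) ∣ ds u.2)) →
    (((boxN (2 * g + 1) H).filter fun c => NoCz (gA c) (gB c) ∧ ∃ p : ℕ, p.Prime ∧ 4 * N < p ∧ BdP p c u).card : ℝ) ≤
      C * (H : ℝ) ^ (2 * g + 2) / N := by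
  refine ⟨8 * 8 ^ (2 * g + 2) + 32 * 3 ^ (2 * g - 2) * (2 ^ 18 + (PF3_B g : ℝ)), by positivity, ?_⟩
  intro H N hN2 hN5 hNg u hu hv0 hw0 hv hw1 hvw hlarge
  have hN : 0 < N := by omega
  have hNN5 : N ≤ N ^ 5 := Nat.le_self_pow (by norm_num) N
  have hH1 : 1 ≤ H := by omega
  have hNH : N ≤ H := by omega
  have hN0 : (0 : ℝ) < N := by exact_mod_cast hN
  have hH0 : (0 : ℝ) < H := by
    have : (1 : ℝ) ≤ H := by exact_mod_cast hH1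
    linarith
  have hu' := hu
  rw [box2, mem_product] at hu'
  obtain ⟨hu1, hu2⟩ := hu'
  -- the sets of primes
  obtain ⟨Pm, hPm⟩ : ∃ Pm : ℕ, Pm = PF3_B g * H ^ 2 * N ^ (g + 1) := ⟨_, rfl⟩
  let A1 : Finset ℕ := (Ioc (4 * N) (4 * H)).filter fun p => p.Prime ∧ (p : ℤ) ∣ ds u.1
  let A2 : Finset ℕ := (Ioc (4 * N) (4 * H)).filter fun p => p.Prime ∧ ¬ (p : ℤ) ∣ ds u.1
  let A3 : Finset ℕ := (Ioc (4 * H) Pm).filter fun p => p.Prime ∧ ¬ (p : ℤ) ∣ ds u.1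
  have hds0 : ds u.1 ≠ 0 := by
    intro h
    apply hv
    rw [h]
    exact ⟨0, by norm_num⟩
  have hdsN := PF3_ds hu1
  have hcv : ∀ p : ℕ, (p : ℤ) ∣ ds u.1 ↔ ds (cV p u.1) = 0 := by
    intro p
    rw [← ds_cast, ZMod.intCast_zmod_eq_zero_iff_dvd]
  have hcw : ∀ p : ℕ, (p : ℤ) ∣ ds u.2 ↔ ds (cV p u.2) = 0 := by
    intro p
    rw [← ds_cast, ZMod.intCast_zmod_eq_zero_iff_dvd]
  have hne1 : ∀ p : ℕ, 4 * N < p → (cV p u.1).1 ≠ 0 := by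
    intro p hp
    exact PF3_ne (by omega) (PF3_box hu1).1 hv0
  have hne2 : ∀ p : ℕ, 4 * N < p → (cV p u.2).1 ≠ 0 := by
    intro p hp
    exact PF3_ne (by omega) (PF3_box hu2).1 hw0
  -- the covering
  have hsub : ((boxN (2 * g + 1) H).filter fun c => NoCz (gA c) (gB c) ∧ ∃ p : ℕ, p.Prime ∧ 4 * N < p ∧ BdP p c u) ⊆
      (A1.biUnion fun p => (boxN (2 * g + 1) H).filter fun c => PF3_S p c u) ∪
      ((A2.biUnion fun p => (boxN (2 * g + 1) H).filter fun c => PF3_D p c u) ∪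
      (A3.biUnion fun p => (boxN (2 * g + 1) H).filter fun c => PF3_D p c u)) := by
    intro c hc
    obtain ⟨hcB, hz, p, hp, hpN, hbad⟩ := mem_filter.1 hc
    unfold BdP BdF at hbad
    rcases hbad with ⟨h1, h2⟩ | ⟨h1, h2⟩ | ⟨h1, h2, h3⟩ | ⟨h1, h2⟩ | ⟨h1, h2, h3, h4⟩
    · exact absurd ⟨(hcv p).2 h1, (hcw p).2 h2⟩ (hlarge p hp hpN)
    · exact absurd h2 (hne1 p hpN)
    · have hpd : ¬ (p : ℤ) ∣ ds u.1 := fun h => h1 ((hcv p).1 h)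
      by_cases hpH : p ≤ 4 * H
      · refine mem_union_right _ (mem_union_left _ (mem_biUnion.2 ⟨p, ?_, mem_filter.2 ⟨hcB, h3⟩⟩))
        exact mem_filter.2 ⟨mem_Ioc.2 ⟨hpN, hpH⟩, hp, hpd⟩
      · by_cases hpP : p ≤ Pm
        · refine mem_union_right _ (mem_union_right _ (mem_biUnion.2 ⟨p, ?_, mem_filter.2 ⟨hcB, h3⟩⟩))
          exact mem_filter.2 ⟨mem_Ioc.2 ⟨by omega, hpP⟩, hp, hpd⟩
        · exact absurd h3 (PF3_big hg hp (by omega) c hcB u hu1 hu2 hv0 hz hv hw1 hvw (by omega))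
    · exact absurd h1 (hne1 p hpN)
    · refine mem_union_left _ (mem_biUnion.2 ⟨p, ?_, mem_filter.2 ⟨hcB, h4⟩⟩)
      have hpd : (p : ℤ) ∣ ds u.1 := (hcv p).2 h1
      have h6 : (p : ℤ) ≤ |ds u.1| := by
        have := Int.le_of_dvd (abs_pos.2 hds0) ((dvd_abs _ _).2 hpd)
        exact this
      have h7 : (p : ℤ) ≤ 5 * (N : ℤ) ^ 2 := h6.trans hdsN
      have h8 : p ≤ 5 * N ^ 2 := by exact_mod_cast h7
      have h9 : 5 * N ^ 2 ≤ 4 * N ^ 5 := by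
        have e1 : N ^ 5 = N ^ 2 * N ^ 3 := by ring
        have e2 : 2 ^ 3 ≤ N ^ 3 := Nat.pow_le_pow_left hN2 3
        rw [e1]
        nlinarith [Nat.mul_le_mul_left (N ^ 2) e2]
      exact mem_filter.2 ⟨mem_Ioc.2 ⟨hpN, by omega⟩, hp, hpd⟩
  have hcu := (card_le_card hsub).trans ((card_union_le _ _).trans (Nat.add_le_add card_biUnion_le
    ((card_union_le _ _).trans (Nat.add_le_add card_biUnion_le card_biUnion_le))))
  have hcard : (((boxN (2 * g + 1) H).filter fun c => NoCz (gA c) (gB c) ∧ ∃ p : ℕ, p.Prime ∧ 4 * N < p ∧ BdP p c u).card : ℝ) ≤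
      (∑ p ∈ A1, (((boxN (2 * g + 1) H).filter fun c => PF3_S p c u).card : ℝ)) +
      (∑ p ∈ A2, (((boxN (2 * g + 1) H).filter fun c => PF3_D p c u).card : ℝ)) +
      (∑ p ∈ A3, (((boxN (2 * g + 1) H).filter fun c => PF3_D p c u).card : ℝ)) := by
    rw [← Nat.add_assoc] at hcu
    exact_mod_cast hcu
  refine hcard.trans ?_
  clear hcard hcu hsub
  -- the first sum
  have s1 : (∑ p ∈ A1, (((boxN (2 * g + 1) H).filter fun c => PF3_S p c u).card : ℝ)) ≤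
      (8 * (H : ℝ)) ^ (2 * g + 2) * (22 / (4 * (N : ℝ))) := by
    have hA1 : A1.card ≤ 1 := by
      rw [Finset.card_le_one]
      intro a ha b hb
      by_contra hab
      obtain ⟨ha1, ha2, ha3⟩ := mem_filter.1 ha
      obtain ⟨hb1, hb2, hb3⟩ := mem_filter.1 hb
      have ha4 := (mem_Ioc.1 ha1).1
      have hb4 := (mem_Ioc.1 hb1).1
      have hco : IsCoprime (a : ℤ) (b : ℤ) := by
        rw [Nat.isCoprime_iff_coprime]
        exact (Nat.coprime_primes ha2 hb2).2 hab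
      have h1 : (a : ℤ) * b ∣ ds u.1 := hco.mul_dvd ha3 hb3
      have h2 : (a : ℤ) * b ≤ |ds u.1| := Int.le_of_dvd (abs_pos.2 hds0) ((dvd_abs _ _).2 h1)
      have h3 : (4 * (N : ℤ)) < a := by exact_mod_cast ha4
      have h4 : (4 * (N : ℤ)) < b := by exact_mod_cast hb4
      have hNz : (0 : ℤ) < N := by exact_mod_cast hN
      nlinarith
    have hK : 0 ≤ (8 * (H : ℝ)) ^ (2 * g + 2) * (22 / (4 * (N : ℝ))) := by positivity
    have hterm : ∀ p ∈ A1, (((boxN (2 * g + 1) H).filter fun c => PF3_S p c u).card : ℝ) ≤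
        (8 * (H : ℝ)) ^ (2 * g + 2) * (22 / (4 * (N : ℝ))) := by
      intro p hp
      obtain ⟨h1, h2, h3⟩ := mem_filter.1 hp
      obtain ⟨h4, h5⟩ := mem_Ioc.1 h1
      have h6 : ds (cV p u.2) ≠ 0 := fun h => hlarge p h2 h4 ⟨h3, (hcw p).2 h⟩
      refine (PF3_sq hg (by omega) h2 (by omega) h5 u (hne1 p h4) ((hcv p).1 h3) h6).trans ?_
      refine mul_le_mul_of_nonneg_left ?_ (by positivity)
      refine div_le_div_of_nonneg_left (by norm_num) (by positivity) ?_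
      exact_mod_cast h4.le
    refine (Finset.sum_le_card_nsmul A1 _ _ hterm).trans ?_
    rw [nsmul_eq_mul]
    have : (A1.card : ℝ) ≤ 1 := by exact_mod_cast hA1
    nlinarith
  -- the second sum
  have s2 : (∑ p ∈ A2, (((boxN (2 * g + 1) H).filter fun c => PF3_D p c u).card : ℝ)) ≤
      (8 * (H : ℝ)) ^ (2 * g + 2) * (9 * (1 / (4 * (N : ℝ)))) := by
    have hterm : ∀ p ∈ A2, (((boxN (2 * g + 1) H).filter fun c => PF3_D p c u).card : ℝ) ≤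
        (8 * (H : ℝ)) ^ (2 * g + 2) * (9 * (1 / (p : ℝ) ^ 2)) := by
      intro p hp
      obtain ⟨h1, h2, h3⟩ := mem_filter.1 hp
      obtain ⟨h4, h5⟩ := mem_Ioc.1 h1
      exact PF3_mid hg (by omega) h2 (by omega) h5 u (hne1 p h4) (fun h => h3 ((hcv p).2 h)) (hne2 p h4)
    refine (Finset.sum_le_sum hterm).trans ?_
    rw [← Finset.mul_sum, ← Finset.mul_sum]
    refine mul_le_mul_of_nonneg_left (mul_le_mul_of_nonneg_left ?_ (by norm_num)) (by positivity)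
    have h := PF3_inv_sq (4 * N) (4 * H) (by omega) A2 (fun p hp => mem_Ioc.1 (mem_filter.1 hp).1)
    push_cast at h
    exact h
  -- the third sum
  have s3 : (∑ p ∈ A3, (((boxN (2 * g + 1) H).filter fun c => PF3_D p c u).card : ℝ)) ≤
      32 * (3 * (H : ℝ)) ^ (2 * g - 2) * ((32 * H * N : ℝ) ^ 4 * (1 / (4 * (H : ℝ))) + Pm) := by
    have hterm : ∀ p ∈ A3, (((boxN (2 * g + 1) H).filter fun c => PF3_D p c u).card : ℝ) ≤
        32 * (3 * (H : ℝ)) ^ (2 * g - 2) * ((32 * H * N : ℝ) ^ 4 * (1 / (p : ℝ) ^ 2) + 1) := by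
      intro p hp
      obtain ⟨h1, h2, h3⟩ := mem_filter.1 hp
      obtain ⟨h4, h5⟩ := mem_Ioc.1 h1
      exact PF3_pack hg hN hH1 h2 (by omega) (by omega) u hu h3 hv hw1 hvw
    refine (Finset.sum_le_sum hterm).trans ?_
    rw [← Finset.mul_sum, Finset.sum_add_distrib, ← Finset.mul_sum]
    refine mul_le_mul_of_nonneg_left ?_ (by positivity)
    have h := PF3_inv_sq (4 * H) Pm (by omega) A3 (fun p hp => mem_Ioc.1 (mem_filter.1 hp).1)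
    push_cast at h
    have h1 : (∑ p ∈ A3, (1 : ℝ)) ≤ Pm := by
      rw [Finset.sum_const, nsmul_eq_mul, mul_one]
      have e1 : A3.card ≤ (Ioc (4 * H) Pm).card := card_filter_le _ _
      rw [Nat.card_Ioc] at e1
      have e2 : A3.card ≤ Pm := by omega
      exact_mod_cast e2
    have h2 : (32 * H * N : ℝ) ^ 4 * ∑ p ∈ A3, 1 / (p : ℝ) ^ 2 ≤ (32 * H * N : ℝ) ^ 4 * (1 / (4 * (H : ℝ))) :=
      mul_le_mul_of_nonneg_left h (by positivity)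
    linarith
  -- the end
  have t1 : (N : ℝ) ^ 5 ≤ H := by exact_mod_cast hN5
  have t2 : (N : ℝ) ^ (g + 2) ≤ (H : ℝ) ^ 2 := by exact_mod_cast hNg
  have t3 : (32 * H * N : ℝ) ^ 4 * (1 / (4 * (H : ℝ))) + Pm ≤ (2 ^ 18 + (PF3_B g : ℝ)) * ((H : ℝ) ^ 4 / N) := by
    have e1 : (32 * H * N : ℝ) ^ 4 * (1 / (4 * (H : ℝ))) = 2 ^ 18 * ((H : ℝ) ^ 3 * N ^ 4) := by
      field_simp
      ring
    have e2 : (H : ℝ) ^ 3 * (N : ℝ) ^ 4 ≤ (H : ℝ) ^ 4 / N := by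
      rw [le_div_iff₀ hN0]
      calc (H : ℝ) ^ 3 * (N : ℝ) ^ 4 * N = (H : ℝ) ^ 3 * (N : ℝ) ^ 5 := by ring
        _ ≤ (H : ℝ) ^ 3 * H := mul_le_mul_of_nonneg_left t1 (by positivity)
        _ = (H : ℝ) ^ 4 := by ring
    have e3 : ((Pm : ℕ) : ℝ) ≤ (PF3_B g : ℝ) * ((H : ℝ) ^ 4 / N) := by
      rw [hPm]
      push_cast
      have e4 : (H : ℝ) ^ 2 * (N : ℝ) ^ (g + 1) ≤ (H : ℝ) ^ 4 / N := by
        rw [le_div_iff₀ hN0]
        calc (H : ℝ) ^ 2 * (N : ℝ) ^ (g + 1) * N = (H : ℝ) ^ 2 * (N : ℝ) ^ (g + 2) := by ring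
          _ ≤ (H : ℝ) ^ 2 * (H : ℝ) ^ 2 := mul_le_mul_of_nonneg_left t2 (by positivity)
          _ = (H : ℝ) ^ 4 := by ring
      calc (PF3_B g : ℝ) * (H : ℝ) ^ 2 * (N : ℝ) ^ (g + 1) = (PF3_B g : ℝ) * ((H : ℝ) ^ 2 * (N : ℝ) ^ (g + 1)) := by ring
        _ ≤ (PF3_B g : ℝ) * ((H : ℝ) ^ 4 / N) := mul_le_mul_of_nonneg_left e4 (Nat.cast_nonneg _)
    rw [e1]
    nlinarith
  have t4 : 32 * (3 * (H : ℝ)) ^ (2 * g - 2) * ((32 * H * N : ℝ) ^ 4 * (1 / (4 * (H : ℝ))) + Pm) ≤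
      32 * 3 ^ (2 * g - 2) * (2 ^ 18 + (PF3_B g : ℝ)) * ((H : ℝ) ^ (2 * g + 2) / N) := by
    refine (mul_le_mul_of_nonneg_left t3 (by positivity)).trans (le_of_eq ?_)
    have e1 : (H : ℝ) ^ (2 * g + 2) = (H : ℝ) ^ (2 * g - 2) * (H : ℝ) ^ 4 := by
      rw [← pow_add]
      congr 1
      omega
    rw [e1, mul_pow]
    ring
  have t5 : (8 * (H : ℝ)) ^ (2 * g + 2) * (22 / (4 * (N : ℝ))) + (8 * (H : ℝ)) ^ (2 * g + 2) * (9 * (1 / (4 * (N : ℝ)))) ≤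
      8 * 8 ^ (2 * g + 2) * ((H : ℝ) ^ (2 * g + 2) / N) := by
    have e1 : (8 * (H : ℝ)) ^ (2 * g + 2) * (22 / (4 * (N : ℝ))) + (8 * (H : ℝ)) ^ (2 * g + 2) * (9 * (1 / (4 * (N : ℝ)))) =
        31 / 4 * (8 ^ (2 * g + 2) * ((H : ℝ) ^ (2 * g + 2) / N)) := by
      rw [mul_pow]
      field_simp
      ring
    have e2 : 0 ≤ 8 ^ (2 * g + 2) * ((H : ℝ) ^ (2 * g + 2) / N) := by positivity
    rw [e1]
    linarith
  have t6 : (8 * 8 ^ (2 * g + 2) + 32 * 3 ^ (2 * g - 2) * (2 ^ 18 + (PF3_B g : ℝ))) * (H : ℝ) ^ (2 * g + 2) / N =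
      8 * 8 ^ (2 * g + 2) * ((H : ℝ) ^ (2 * g + 2) / N) +
      32 * 3 ^ (2 * g - 2) * (2 ^ 18 + (PF3_B g : ℝ)) * ((H : ℝ) ^ (2 * g + 2) / N) := by
    ring
  rw [t6]
  linarith

end HNF
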