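import Pool.Agent.Lib.MP_1ad228_ntH.Defs
import Pool.Agent.Lib.MP_10e784_agF.RB

/-! JOB SB -/

set_option autoImplicit false

open Classical

namespace HNF

open Finset Polynomial FGO FQQ

theorem evl_congr {m : ℕ} {e : ℕ → ℕ × ℕ} (f : Vn m) {d r q r' q' : ℤ} (h : d ∣ r - r') (h' : d ∣ q - q') :
    d ∣ evl (mo m e r q) f - evl (mo m e r' q') f := by
  unfold evl mo
  rw [← Finset.sum_sub_distrib]
  refine Finset.dvd_sum fun i _ => ?_
  rw [← mul_sub]
  refine Dvd.dvd.mul_left ?_ _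
  have h1 : r ^ (e i).1 * q ^ (e i).2 - r' ^ (e i).1 * q' ^ (e i).2 =
      (r ^ (e i).1 - r' ^ (e i).1) * q ^ (e i).2 + r' ^ (e i).1 * (q ^ (e i).2 - q' ^ (e i).2) := by ring
  rw [h1]
  exact dvd_add ((h.trans (sub_dvd_pow_sub_pow r r' _)).mul_right _) ((h'.trans (sub_dvd_pow_sub_pow q q' _)).mul_left _)

theorem ev_congr (v : V) {d x y : ℤ} (h : d ∣ x - y) : d ∣ ev v x - ev v y := by
  unfold ev
  have e : v.1 * x ^ 2 + v.2.1 * x + v.2.2 - (v.1 * y ^ 2 + v.2.1 * y + v.2.2) =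
      (x - y) * (v.1 * (x + y) + v.2.1) := by ring
  rw [e]
  exact h.mul_right _

theorem of_sub {d a b : ℤ} (h1 : d ∣ a - b) (h2 : d ∣ b) : d ∣ a := by
  have h3 := dvd_add h1 h2
  rwa [sub_add_cancel] at h3

/-- the three conditions modulo an integer -/
def Tz {m : ℕ} (e : ℕ → ℕ × ℕ) (f : Vn m) (u : V × V) (d r q : ℤ) : Prop :=
  d ∣ ev u.1 r ∧ d ∣ ev u.2 q ∧ d ∣ evl (mo m e r q) f

theorem Tz_congr {m : ℕ} {e : ℕ → ℕ × ℕ} {f : Vn m} {u : V × V} {d r q r' q' : ℤ} (h : d ∣ r - r') (h' : d ∣ q - q')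
    (hT : Tz e f u d r' q') : Tz e f u d r q :=
  ⟨of_sub (ev_congr _ h) hT.1, of_sub (ev_congr _ h') hT.2.1, of_sub (evl_congr f h h') hT.2.2⟩

theorem Tz_of_Ez {m : ℕ} {e : ℕ → ℕ × ℕ} {f : Vn m} {u : V × V} {p : ℕ} (hp : p.Prime)
    (h : Ez e (cN p f) (cV p u.1) (cV p u.2)) : ∃ r q : ℤ, Tz e f u (p : ℤ) r q := by
  have : Fact p.Prime := ⟨hp⟩
  obtain ⟨r, q, h1, h2, h3⟩ := h
  have hr : (((r.val : ℕ) : ℤ) : ZMod p) = r := by
    rw [Int.cast_natCast]
    exact ZMod.natCast_zmod_val _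
  have hq : (((q.val : ℕ) : ℤ) : ZMod p) = q := by
    rw [Int.cast_natCast]
    exact ZMod.natCast_zmod_val _
  refine ⟨((r.val : ℕ) : ℤ), ((q.val : ℕ) : ℤ), ?_, ?_, ?_⟩
  · rw [ev_eq]
    apply (ZMod.intCast_zmod_eq_zero_iff_dvd _ _).1
    rw [qv_cast, hr, Int.cast_one]
    exact h1
  · rw [ev_eq]
    apply (ZMod.intCast_zmod_eq_zero_iff_dvd _ _).1
    rw [qv_cast, hq, Int.cast_one]
    exact h2
  · apply (ZMod.intCast_zmod_eq_zero_iff_dvd _ _).1
    unfold evl mo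
    push_cast
    unfold hl at h3
    rw [Int.cast_natCast] at hr hq
    rw [hr, hq]
    exact h3

theorem Tz_crt {m : ℕ} {e : ℕ → ℕ × ℕ} (f : Vn m) (u : V × V) (S : Finset ℕ) (hS : ∀ p ∈ S, p.Prime)
    (h : ∀ p ∈ S, ∃ r q : ℤ, Tz e f u (p : ℤ) r q) :
    ∃ r q : ℤ, ∀ p ∈ S, Tz e f u (p : ℤ) r q := by
  induction S using Finset.induction_on with
  | empty =>
    refine ⟨0, 0, ?_⟩
    intro p hp
    exact absurd hp (Finset.notMem_empty p)
  | insert q S hq ih =>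
    obtain ⟨s, s', hs⟩ := ih (fun p hp => hS p (Finset.mem_insert_of_mem hp))
      (fun p hp => h p (Finset.mem_insert_of_mem hp))
    obtain ⟨t, t', ht⟩ := h q (Finset.mem_insert_self q S)
    have hqp : q.Prime := hS q (Finset.mem_insert_self q S)
    have hcop : Nat.Coprime q (∏ p ∈ S, p) := by
      apply Nat.Coprime.prod_right
      intro p hp
      apply (Nat.coprime_primes hqp (hS p (Finset.mem_insert_of_mem hp))).2
      rintro rfl
      exact hq hp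
    have hcop' : IsCoprime (q : ℤ) ((∏ p ∈ S, p : ℕ) : ℤ) := Nat.isCoprime_iff_coprime.2 hcop
    obtain ⟨a, b, hab⟩ := hcop'
    obtain ⟨M, hM⟩ : ∃ M : ℤ, M = ((∏ p ∈ S, p : ℕ) : ℤ) := ⟨_, rfl⟩
    rw [← hM] at hab
    have h1 : ∀ s t : ℤ, (q : ℤ) ∣ (s * (a * q) + t * (b * M)) - t := by
      intro s t
      have h2 : (s * (a * q) + t * (b * M)) - t = q * (a * s - a * t) := by
        have h3 : b * M = 1 - a * q := by linarith
        rw [h3]
        ring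
      rw [h2]
      exact dvd_mul_right _ _
    have h2 : ∀ s t : ℤ, M ∣ (s * (a * q) + t * (b * M)) - s := by
      intro s t
      have h4 : (s * (a * q) + t * (b * M)) - s = M * (b * t - b * s) := by
        have h3 : a * q = 1 - b * M := by linarith
        rw [h3]
        ring
      rw [h4]
      exact dvd_mul_right _ _
    refine ⟨s * (a * q) + t * (b * M), s' * (a * q) + t' * (b * M), ?_⟩
    intro p hp
    rcases Finset.mem_insert.1 hp with rfl | hp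
    · exact Tz_congr (h1 s t) (h1 s' t') ht
    · have hpM : (p : ℤ) ∣ M := by
        rw [hM]
        exact Int.natCast_dvd_natCast.2 (Finset.dvd_prod_of_mem _ hp)
      exact Tz_congr (hpM.trans (h2 s t)) (hpM.trans (h2 s' t')) (hs p hp)

/-- Proof. Chinese remainder theorem over the primes dividing `D`. -/
theorem common_root1 {m D : ℕ} {e : ℕ → ℕ × ℕ} (hD : Squarefree D) (f : Vn m) (u : V × V)
    (h : ∀ p : ℕ, p.Prime → p ∣ D → Ez e (cN p f) (cV p u.1) (cV p u.2)) :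
    ∃ x ∈ RS1 D u, (D : ℤ) ∣ evl (mo m e (x.1 : ℤ) (x.2 : ℤ)) f := by
  have hD0 : 0 < D := Nat.pos_of_ne_zero hD.ne_zero
  obtain ⟨r, q, hr⟩ := Tz_crt f u D.primeFactors (fun p hp => Nat.prime_of_mem_primeFactors hp) fun p hp =>
    Tz_of_Ez (Nat.prime_of_mem_primeFactors hp) (h p (Nat.prime_of_mem_primeFactors hp) (Nat.dvd_of_mem_primeFactors hp))
  have hprod : ∏ p ∈ D.primeFactors, p = D := Nat.prod_primeFactors_of_squarefree hD
  have key : ∀ x : ℤ, (∀ p ∈ D.primeFactors, (p : ℤ) ∣ x) → (D : ℤ) ∣ x := by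
    intro x hx
    rw [Int.natCast_dvd, ← hprod]
    apply Finset.prod_primes_dvd
    · intro p hp
      exact (Nat.prime_of_mem_primeFactors hp).prime
    · intro p hp
      exact Int.natCast_dvd.1 (hx p hp)
  have hT : Tz e f u (D : ℤ) r q := ⟨key _ fun p hp => (hr p hp).1, key _ fun p hp => (hr p hp).2.1, key _ fun p hp => (hr p hp).2.2⟩
  have hred : ∀ x : ℤ, ∃ y : ℕ, y < D ∧ (D : ℤ) ∣ (y : ℤ) - x := by
    intro x
    have hpos : (0 : ℤ) < (D : ℤ) := by exact_mod_cast hD0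
    refine ⟨(x % D).toNat, ?_, ?_⟩
    · have h1 : (((x % D).toNat : ℕ) : ℤ) < (D : ℤ) := by
        rw [Int.toNat_of_nonneg (Int.emod_nonneg _ hpos.ne')]
        exact Int.emod_lt_of_pos _ hpos
      exact_mod_cast h1
    · rw [Int.toNat_of_nonneg (Int.emod_nonneg _ hpos.ne'), ← dvd_neg, neg_sub]
      exact Int.dvd_self_sub_emod
  obtain ⟨r', hr1, hr2⟩ := hred r
  obtain ⟨q', hq1, hq2⟩ := hred q
  have hT' := Tz_congr hr2 hq2 hT
  refine ⟨(r', q'), ?_, hT'.2.2⟩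
  unfold RS1
  rw [mem_filter, mem_product, mem_range, mem_range]
  exact ⟨⟨hr1, hq1⟩, hT'.1, hT'.2.1⟩

end HNF
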