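import Pool.Agent.Lib.MP_1ad228_ntH.TA
import Pool.Agent.Lib.MP_10e784_agF.BC

/-! JOB TB -/

set_option autoImplicit false

open Classical

namespace HNF

open Finset Polynomial FGO FQQ

theorem TB_ind_or (P Q : Prop) : ind (P ∨ Q) ≤ ind P + ind Q := by
  unfold ind
  by_cases hP : P
  · rw [if_pos hP, if_pos (Or.inl hP)]
    split_ifs <;> norm_num
  · by_cases hQ : Q
    · rw [if_pos hQ, if_pos (Or.inr hQ), if_neg hP, zero_add]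
    · rw [if_neg hP, if_neg hQ, if_neg (fun h => h.elim hP hQ), add_zero]

theorem TB_E3_or {m q : ℕ} {P Q : Vn m → V × V → Prop} {a b : ℝ}
    (hP : E3 m q (fun f u => ind (P f u)) ≤ a) (hQ : E3 m q (fun f u => ind (Q f u)) ≤ b) :
    E3 m q (fun f u => ind (P f u ∨ Q f u)) ≤ a + b := by
  refine le_trans (E3_mono m q _ (fun f u => ind (P f u) + ind (Q f u))
    (fun f u => TB_ind_or _ _)) ?_
  rw [E3_add]
  exact add_le_add hP hQ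

theorem TB_dvd2 (p : ℕ) (a : ℤ) : (p : ℤ) ^ 2 ∣ a ↔ ((a : ℤ) : ZMod (p ^ 2)) = 0 := by
  rw [CharP.intCast_eq_zero_iff (ZMod (p ^ 2)) (p ^ 2) a, Nat.cast_pow]

theorem TB_per {m : ℕ} (p : ℕ) : Per3 (p ^ 2) (fun (_ : Vn m) u => ind ((p : ℤ) ^ 2 ∣ ds u.1 ∨ (p : ℤ) ^ 2 ∣ ds u.2)) := by
  intro f g u u' hf h1 h2
  have e2 : cV (p ^ 2) u.1 = cV (p ^ 2) u'.1 := (cV_eq_iff _ _ _).2 h1
  have e3 : cV (p ^ 2) u.2 = cV (p ^ 2) u'.2 := (cV_eq_iff _ _ _).2 h2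
  simp only [TB_dvd2, ds_cast, e2, e3]

theorem TB_E3 {m : ℕ} (p : ℕ) (hp : p.Prime) (h2 : p ≠ 2) :
    E3 m (p ^ 2) (fun _ u => ind ((p : ℤ) ^ 2 ∣ ds u.1 ∨ (p : ℤ) ^ 2 ∣ ds u.2)) ≤ 4 / (p : ℝ) ^ 2 := by
  have : Fact p.Prime := ⟨hp⟩
  have : NeZero p := ⟨hp.ne_zero⟩
  have : NeZero (p ^ 2) := ⟨pow_ne_zero 2 hp.ne_zero⟩
  have hD0 : E3 m (p ^ 2) (fun _ u => ind ((p : ℤ) ^ 2 ∣ ds u.1)) ≤ 2 / (p : ℝ) ^ 2 := by
    have h1 : E3 m (p ^ 2) (fun _ u => ind ((p : ℤ) ^ 2 ∣ ds u.1)) =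
        Av m (p ^ 2) (fun _ v _ => ind (ds v = 0)) := by
      rw [← E3_eq_Av m (p ^ 2) (fun _ v _ => ind (ds v = 0))]
      refine congrArg (E3 m (p ^ 2)) ?_
      funext f u
      simp only [TB_dvd2, ds_cast]
    rw [h1]
    unfold Av
    simp only [mF_const, mQ_const]
    exact mQ_ds_sq p h2
  have hD1 : E3 m (p ^ 2) (fun _ u => ind ((p : ℤ) ^ 2 ∣ ds u.2)) ≤ 2 / (p : ℝ) ^ 2 := by
    have h1 : E3 m (p ^ 2) (fun _ u => ind ((p : ℤ) ^ 2 ∣ ds u.2)) =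
        Av m (p ^ 2) (fun _ _ w => ind (ds w = 0)) := by
      rw [← E3_eq_Av m (p ^ 2) (fun _ _ w => ind (ds w = 0))]
      refine congrArg (E3 m (p ^ 2)) ?_
      funext f u
      simp only [TB_dvd2, ds_cast]
    rw [h1]
    unfold Av
    simp only [mF_const, mQ_const]
    exact mQ_ds_sq p h2
  refine (TB_E3_or hD0 hD1).trans (le_of_eq ?_)
  ring

/-- Proof. `TA_union`; for each `p ∈ Q`: `box3_mean` with the modulus `p²` (`p² ≤ 4 N`; the event depends only on the residues of `u` modulo `p²`), `E3_eq_Av`, and `mQ_ds_sq` (file BB) for each of the two discriminants: `2/p² + 2/p²`. (Model: `BC_typ` etc. in BC.lean and `typ_card` in TA.lean of FQQ.) -/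
theorem dsq_card {m H N : ℕ} (hN : 0 < N) (hH : N ≤ H) (Q : Finset ℕ) (hQ : ∀ p ∈ Q, p.Prime ∧ p ≠ 2 ∧ p ^ 2 ≤ 4 * N) :
    (((Bx m H N).filter fun g => ∃ p ∈ Q, (p : ℤ) ^ 2 ∣ ds g.2.1 ∨ (p : ℤ) ^ 2 ∣ ds g.2.2).card : ℝ) ≤
      (8 * (H : ℝ)) ^ (m + 1) * (8 * (N : ℝ)) ^ 6 * (4 * ∑ p ∈ Q, 1 / (p : ℝ) ^ 2) := by
  refine (TA_union Q (fun p _ u => (p : ℤ) ^ 2 ∣ ds u.1 ∨ (p : ℤ) ^ 2 ∣ ds u.2)).trans ?_
  have h1 : (8 * (H : ℝ)) ^ (m + 1) * (8 * (N : ℝ)) ^ 6 * (4 * ∑ p ∈ Q, 1 / (p : ℝ) ^ 2) =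
      ∑ p ∈ Q, (8 * (H : ℝ)) ^ (m + 1) * (8 * (N : ℝ)) ^ 6 * (4 / (p : ℝ) ^ 2) := by
    rw [Finset.mul_sum, Finset.mul_sum]
    refine Finset.sum_congr rfl fun p _ => ?_
    rw [mul_one_div]
  rw [h1]
  refine Finset.sum_le_sum fun p hp => ?_
  obtain ⟨hp1, hp2, hp3⟩ := hQ p hp
  refine (box3_mean hN hH (pow_pos hp1.pos 2) hp3
    (fun (_ : Vn m) u => ind ((p : ℤ) ^ 2 ∣ ds u.1 ∨ (p : ℤ) ^ 2 ∣ ds u.2))
    (fun f u => ind_nonneg _) (TB_per p)).trans ?_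
  exact mul_le_mul_of_nonneg_left (TB_E3 p hp1 hp2) (by positivity)

end HNF
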