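import Pool.Agent.Lib.MP_1ad228_ntH.Defs
import Pool.Agent.Lib.MP_10e784_agF.UA

/-! JOB UA -/

set_option autoImplicit false

open Classical

namespace HNF

open Finset Polynomial FGO FQQ

/-- Proof. (Model: `FQQ.card_RS` in UA.lean: one quadratic congruence has at most `2 ^ ω(D)` roots modulo the squarefree `D` if its leading coefficient is prime to `D`; in `FQQ.card_RS` take `D1 = D`, `D2 = 1` or the private part.) `RS1 D u` is contained in the product of the
sets of roots of `u.1` and of `u.2` modulo `D` (`FQQ.card_RS` with `D1 = D`, `D2 = 1` and the pair `(w, v) = (.., u.1)` resp. `(.., u.2)`). -/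
theorem card_RS1 {D : ℕ} (h1 : Squarefree D) (u : V × V)
    (hu : ∀ p : ℕ, p.Prime → p ∣ D → ¬ (p : ℤ) ∣ u.1.1 ∧ ¬ (p : ℤ) ∣ u.2.1) :
    (RS1 D u).card ≤ 2 ^ D.primeFactors.card * 2 ^ D.primeFactors.card := by
  have key : ∀ v : V, (∀ p : ℕ, p.Prime → p ∣ D → ¬ (p : ℤ) ∣ v.1) →
      ((range D).filter fun r : ℕ => (D : ℤ) ∣ ev v (r : ℤ)).card ≤ 2 ^ D.primeFactors.card := by
    intro v hv
    have h2 := card_RS (D1 := D) (D2 := 1) h1 squarefree_one (Nat.coprime_one_right D) (v, v) hv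
      (fun p hp hp1 => absurd hp1 hp.not_dvd_one)
    rw [Nat.primeFactors_one, card_empty, pow_zero, mul_one] at h2
    refine (card_le_card fun r hr => ?_).trans h2
    rw [mem_filter] at hr
    rw [RS, mem_filter, mul_one]
    exact ⟨hr.1, hr.2, by rw [Nat.cast_one]; exact one_dvd _⟩
  refine (card_le_card (t := ((range D).filter fun r : ℕ => (D : ℤ) ∣ ev u.1 (r : ℤ)) ×ˢ
    ((range D).filter fun r : ℕ => (D : ℤ) ∣ ev u.2 (r : ℤ))) fun x hx => ?_).trans ?_
  · rw [RS1, mem_filter, mem_product] at hx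
    rw [mem_product, mem_filter, mem_filter]
    exact ⟨⟨hx.1.1, hx.2.1⟩, ⟨hx.1.2, hx.2.2⟩⟩
  · rw [card_product]
    exact Nat.mul_le_mul (key u.1 fun p hp hD => (hu p hp hD).1)
      (key u.2 fun p hp hD => (hu p hp hD).2)

end HNF
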