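import Pool.Agent.Lib.MP_1ad228_ntH.UB
import Pool.Agent.Lib.MP_10e784_agF.KP1

/-! JOB UC -/

set_option autoImplicit false

open Classical

namespace HNF

open Finset Polynomial FGO FQQ

/-- (second stage) Proof. `FF = φ ∏_{lam = O} (1 - x p u) + φ TT` with `φ u = ∏_{lam ≠ O} ExN (gp .. u) ≥ 0`, `x p u = ExN (xo p · u) ∈ [0, 1]`, periodic modulo `p` (`Per3.right`). First term: `sieveB` with `G = ∏_{lam ≠ O} p`,
`Ex p (x p) = E3 m p (xo1 e p) ≤ 6/p` (`E3_xo`), `B = 6 ∑ 1/p`, `Ex G φ = ∏ E3 m p (gp ..) ≤ ∏ eb` (`Ex_prod1`, `E3_gp`), `0 ≤ 1 - Ex p (x p) ≤ 1 - dn5 p`. Second term: `sieveB` with the empty set `Q := ∅` (the product is `1`, `B = 0`),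
giving `TT * (8N)^6/δ² * ∏ eb`. Sum: factor `∏ (1 - dn5) + TT + TT`. -/
theorem stageU1 {m N q0 q1 k : ℕ} {e : ℕ → ℕ × ℕ} (he : Mon m e) (hN : 0 < N) (Q : Finset ℕ)
    (hQ : ∀ p ∈ Q, p.Prime ∧ p ≠ 2)
    (hk : ∀ D ⊆ Q, D.card ≤ 2 * k → q1 * ∏ p ∈ D, p ≤ q0) (δ : ℤ) (lam : ℕ → Lb)
    (hq1 : ∏ p ∈ Q.filter (fun p => lam p ≠ Lb.O), p ≤ q1) (hq0 : q0 ≤ 4 * N) :
    ∑ u ∈ box2 N, FF1 (m := m) e Q k δ lam u ≤
      (8 * (N : ℝ)) ^ 6 * ((∏ p ∈ Q.filter (fun p => lam p ≠ Lb.O), eb1 (lam p) p) *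
        (∏ p ∈ Q.filter (fun p => lam p = Lb.O), (1 - dn3 p) + 2 * TT Q k)) := by
  have hbox : (box2 N).filter (Lam 1 0) = box2 N := by
    refine Finset.filter_true_of_mem fun u _ => ?_
    exact ⟨by rw [Nat.cast_one]; exact one_dvd _, by rw [Nat.cast_one]; exact one_dvd _⟩
  have hG := good_one' N 0
  obtain ⟨Qn, hQn⟩ : ∃ Qn, Qn = Q.filter (fun p => lam p ≠ Lb.O) := ⟨_, rfl⟩
  obtain ⟨Qo, hQo⟩ : ∃ Qo, Qo = Q.filter (fun p => lam p = Lb.O) := ⟨_, rfl⟩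
  have hnQ : ∀ p ∈ Qn, p ∈ Q ∧ lam p ≠ Lb.O := fun p hp => by
    rw [hQn] at hp
    exact mem_filter.1 hp
  have hoQ : ∀ p ∈ Qo, p ∈ Q ∧ lam p = Lb.O := fun p hp => by
    rw [hQo] at hp
    exact mem_filter.1 hp
  obtain ⟨G, hGd⟩ : ∃ G : ℕ, G = ∏ p ∈ Qn, p := ⟨_, rfl⟩
  obtain ⟨y, hy⟩ : ∃ y : ℕ → V × V → ℝ, y = fun p u => ExN m p fun f => gp1 e δ (lam p) p f u := ⟨_, rfl⟩
  obtain ⟨x, hx⟩ : ∃ x : ℕ → V × V → ℝ, x = fun p u => ExN m p fun f => xo1 e p f u := ⟨_, rfl⟩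
  obtain ⟨φ, hφ⟩ : ∃ φ : V × V → ℝ, φ = fun u => ∏ p ∈ Qn, y p u := ⟨_, rfl⟩
  have hyP : ∀ p, Per p (y p) := by
    intro p
    rw [hy]
    exact (Per3_gp1 (m := m) e p δ (lam p)).right
  have hxP : ∀ p, Per p (x p) := by
    intro p
    rw [hx]
    exact (Per3_xo1 (m := m) e p).right
  have hy0 : ∀ p u, 0 ≤ y p u := by
    intro p u
    rw [hy]
    exact ExN_nonneg m p _ fun f => (gp1_nonneg e p δ (lam p) f u).1
  have hx0 : ∀ p u, 0 ≤ x p u := by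
    intro p u
    rw [hx]
    exact ExN_nonneg m p _ fun f => (xo1_nonneg e p f u).1
  have hx1 : ∀ p ∈ Q, ∀ u, x p u ≤ 1 := by
    intro p hp u
    rw [hx]
    exact ExN_le_one (hQ p hp).1.pos _ fun f => (xo1_nonneg e p f u).2
  have hφ0 : ∀ u, 0 ≤ φ u := by
    intro u
    rw [hφ]
    exact prod_nonneg fun p _ => hy0 p u
  obtain ⟨hPφ, hEφ⟩ := Ex_prod1 Qn (fun p hp => (hQ p (hnQ p hp).1).1) y (fun p _ => hyP p)
  rw [← hGd, ← hφ] at hPφ hEφ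
  have hyE : ∀ p, Ex p (y p) = E3 m p (gp1 e δ (lam p) p) := by
    intro p
    rw [hy]
    rfl
  have hxE : ∀ p, Ex p (x p) = E3 m p (xo1 e p) := by
    intro p
    rw [hx]
    rfl
  have hxE0 : ∀ p ∈ Q, Ex p (x p) ≤ 1 := by
    intro p hp
    rw [hxE]
    have h1 := E3_mono m p (xo1 e p) (fun _ _ => 1) fun f u => (xo1_nonneg e p f u).2
    rwa [E3_const (hQ p hp).1.pos] at h1
  have hyE0 : ∀ p ∈ Q, 0 ≤ Ex p (y p) := by
    intro p hp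
    rw [hyE]
    have h1 := E3_mono m p (fun _ _ => 0) (gp1 e δ (lam p) p) fun f u => (gp1_nonneg e p δ (lam p) f u).1
    rwa [E3_const (hQ p hp).1.pos] at h1
  have hEle : Ex G φ ≤ ∏ p ∈ Qn, eb1 (lam p) p := by
    rw [hEφ]
    refine prod_le_prod (fun p hp => hyE0 p (hnQ p hp).1) fun p hp => ?_
    rw [hyE]
    exact E3_gp1 he p (hQ p (hnQ p hp).1).1 (hQ p (hnQ p hp).1).2 δ (lam p)
  have hE0 : 0 ≤ Ex G φ := by
    rw [hEφ]
    exact prod_nonneg fun p hp => hyE0 p (hnQ p hp).1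
  have hG0 : 0 < G := by
    rw [hGd]
    exact prod_pos fun p hp => (hQ p (hnQ p hp).1).1.pos
  have hδG : Nat.Coprime 1 G := Nat.coprime_one_left G
  have hGq : G ≤ q1 := by
    rw [hGd, hQn]
    exact hq1
  have hkG : ∀ D ⊆ Q, D.card ≤ 2 * k → G * ∏ p ∈ D, p ≤ 4 * N := fun D hD hc =>
    ((Nat.mul_le_mul_right _ hGq).trans (hk D hD hc)).trans hq0
  have hoG : ∀ p ∈ Qo, p.Prime ∧ ¬ p ∣ 1 ∧ ¬ p ∣ G := by
    intro p hp
    obtain ⟨h1, h2⟩ := hoQ p hp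
    refine ⟨(hQ p h1).1, (hQ p h1).1.one_lt.ne' ∘ Nat.dvd_one.1, fun h => ?_⟩
    rw [hGd] at h
    obtain ⟨q, hq, hpq⟩ := ((hQ p h1).1.prime.dvd_finsetProd_iff _).1 h
    obtain ⟨h3, h4⟩ := hnQ q hq
    rw [(Nat.prime_dvd_prime_iff_eq (hQ p h1).1 (hQ q h3).1).1 hpq] at h2
    exact h4 h2
  have hoQs : Qo ⊆ Q := fun p hp => (hoQ p hp).1
  -- first term
  have hB : ∑ p ∈ Qo, Ex p (x p) ≤ 6 * ∑ p ∈ Q, 1 / (p : ℝ) := by
    have h1 : ∑ p ∈ Qo, Ex p (x p) ≤ ∑ p ∈ Qo, 6 * (1 / (p : ℝ)) := by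
      refine sum_le_sum fun p hp => ?_
      rw [hxE, mul_one_div]
      refine (E3_xo1 he p (hQ p (hoQ p hp).1).1 (hQ p (hoQ p hp).1).2).2.trans ?_
      exact div_le_div_of_nonneg_right (by norm_num) (Nat.cast_nonneg p)
    refine h1.trans ?_
    rw [← mul_sum]
    refine mul_le_mul_of_nonneg_left ?_ (by norm_num)
    exact sum_le_sum_of_subset_of_nonneg hoQs fun _ _ _ => by positivity
  have hS1 := sieveB (k := k) hN one_pos hG0 Qo hoG hδG (fun D hD hc => hkG D (hD.trans hoQs) hc) hG φ hPφ hφ0 x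
    (fun p _ => hxP p) (fun p _ => hx0 p) (fun p hp => hx1 p (hoQs hp)) _ hB
  have hS2 := sieveB (k := k) hN one_pos hG0 ∅ (fun p hp => absurd hp (notMem_empty p)) hδG
    (fun D hD hc => hkG D (hD.trans (empty_subset Q)) hc) hG φ hPφ hφ0 x
    (fun p _ => hxP p) (fun p _ => hx0 p) (fun p hp => absurd hp (notMem_empty p)) 0 (by rw [sum_empty])
  have hT : (6 * ∑ p ∈ Q, 1 / (p : ℝ)) ^ (2 * k + 1) / ((2 * k + 1).factorial : ℝ) = TT Q k := rfl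
  rw [hT] at hS1
  rw [hbox, Nat.cast_one, one_pow, div_one] at hS1 hS2
  rw [prod_empty, zero_pow (by omega), zero_div, add_zero, mul_one] at hS2
  simp_rw [prod_empty, mul_one] at hS2
  have hTT := TT_nonneg Q k
  -- the product over the unlabelled primes
  have hPr : ∏ p ∈ Qo, (1 - Ex p (x p)) ≤ ∏ p ∈ Qo, (1 - dn3 p) := by
    refine prod_le_prod (fun p hp => ?_) fun p hp => ?_
    · have := hxE0 p (hoQs hp)
      linarith
    · have h1 := (E3_xo1 he p (hQ p (hoQs hp)).1 (hQ p (hoQs hp)).2).1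
      rw [hxE]
      linarith
  have hPr0 : 0 ≤ ∏ p ∈ Qo, (1 - Ex p (x p)) := prod_nonneg fun p hp => by
    have := hxE0 p (hoQs hp)
    linarith
  have hFF : ∀ u, FF1 (m := m) e Q k δ lam u = φ u * ∏ p ∈ Qo, (1 - x p u) + TT Q k * φ u := by
    intro u
    have h1 : FF1 (m := m) e Q k δ lam u = φ u * (∏ p ∈ Qo, (1 - x p u) + TT Q k) := by
      rw [hφ, hy, hx, hQn, hQo]
      rfl
    rw [h1]
    ring
  rw [sum_congr rfl fun u _ => hFF u, sum_add_distrib, ← mul_sum, ← hQn, ← hQo]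
  obtain ⟨C, hC⟩ : ∃ C : ℝ, C = (8 * (N : ℝ)) ^ 6 := ⟨_, rfl⟩
  have hC0 : 0 ≤ C := by
    rw [hC]
    positivity
  rw [← hC] at hS1 hS2 ⊢
  have h1 := mul_le_mul_of_nonneg_left hS2 hTT
  have h2 : C * Ex G φ * (∏ p ∈ Qo, (1 - Ex p (x p)) + TT Q k) + TT Q k * (C * Ex G φ) =
      C * (Ex G φ * (∏ p ∈ Qo, (1 - Ex p (x p)) + 2 * TT Q k)) := by ring
  refine (add_le_add hS1 h1).trans ?_
  rw [h2]
  refine mul_le_mul_of_nonneg_left ?_ hC0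
  refine mul_le_mul hEle (by linarith) (by linarith) (hE0.trans hEle)

end HNF
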