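import Pool.Agent.Lib.MP_1ad228_ntH.UC
import Pool.Agent.Lib.MP_1ad228_ntH.UA

/-! JOB UD -/

set_option autoImplicit false

open Classical

namespace HNF

open Finset Polynomial FGO FQQ

/-- the bound for the label function `lam` -/
noncomputable def LB1 (Q : Finset ℕ) (k : ℕ) (lam : ℕ → Lb) : ℝ :=
  (∏ p ∈ Q.filter (fun p => lam p ≠ Lb.O), eb1 (lam p) p) *
    (∏ p ∈ Q.filter (fun p => lam p = Lb.O), (1 - dn3 p) + 2 * TT Q k)

theorem ud_gp {m : ℕ} (e : ℕ → ℕ × ℕ) (Q : Finset ℕ) (δ : ℤ) (lam : ℕ → Lb) (f : Vn m) (u : V × V) :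
    0 ≤ ∏ p ∈ Q, gp1 e δ (lam p) p f u := prod_nonneg fun p _ => (gp1_nonneg e p δ (lam p) f u).1

theorem ud_one {m : ℕ} {e : ℕ → ℕ × ℕ} {Q : Finset ℕ} {δ : ℤ} {lam : ℕ → Lb} {f : Vn m} {u : V × V}
    (h : ∀ p ∈ Q, Ev1 e (δ : ZMod p) (cN p f) (cV p u.1) (cV p u.2) (lam p)) :
    ∏ p ∈ Q, gp1 e δ (lam p) p f u = 1 := by
  refine prod_eq_one fun p hp => ?_
  unfold gp1 ind
  rw [if_pos (h p hp)]

theorem dn3_le (p : ℕ) (hp : p.Prime) (h2 : p ≠ 2) : 0 ≤ 1 - dn3 p := by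
  have h3 : (3 : ℝ) ≤ p := by
    have : 3 ≤ p := by
      have := hp.two_le
      omega
    exact_mod_cast this
  have h : dn3 p = 3 * (1 / (p : ℝ)) - 5 * (1 / (p : ℝ)) ^ 2 := by
    unfold dn3
    ring
  rw [h]
  have h4 : (0 : ℝ) ≤ 1 / (p : ℝ) := by positivity
  have h5 : 1 / (p : ℝ) ≤ 1 / 3 := one_div_le_one_div_of_le (by norm_num) h3
  nlinarith [sq_nonneg (1 / (p : ℝ))]

theorem LB1_nonneg (Q : Finset ℕ) (hQ : ∀ p ∈ Q, p.Prime ∧ p ≠ 2) (k : ℕ) (lam : ℕ → Lb) : 0 ≤ LB1 Q k lam := by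
  have h1 : ∀ l : Lb, ∀ p : ℕ, 0 ≤ eb1 l p := by
    intro l p
    cases l <;> unfold eb1 <;> positivity
  refine mul_nonneg (prod_nonneg fun p _ => h1 _ _) (add_nonneg (prod_nonneg fun p hp => ?_) ?_)
  · have h2 := hQ p (mem_filter.1 hp).1
    exact dn3_le p h2.1 h2.2
  · exact mul_nonneg (by norm_num) (TT_nonneg Q k)

/-- (one structure) Proof. If `Str1` holds for `(f, u)` then there is `x ∈ RS1 D u` (good, `D ∣ evl (mo x) f`) with `∏ p ∈ Q, gp1 = 1`. So the number is at most `∑_{u ∈ box2, cond} ∑_{x ∈ RS1, good} ∑_{f, D ∣ evl} ∏ gp1`;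
`stageL`, `card_RS1`, `stageU1`. -/
theorem str_card1 {m H N P0 z0 q0 q1 k P : ℕ} {e : ℕ → ℕ × ℕ} (he : Mon m e) (hH : 0 < H) (hN : 0 < N) (hP0 : 2 ≤ P0)
    (hk : ∀ D ⊆ PQ P0 z0, D.card ≤ 2 * k → q1 * ∏ p ∈ D, p ≤ q0) (hq0 : q0 ≤ 4 * N) (τ : ℤ) (κ : ℕ)
    (lam : ℕ → Lb) (D : ℕ) (hD : D ∈ DR z0 P) (hq1 : ∏ p ∈ (PQ P0 z0).filter (fun p => lam p ≠ Lb.O), p ≤ q1) :
    (((Bx m H N).filter fun g => Str1 e H q0 (PQ P0 z0) τ κ lam D g.1 g.2).card : ℝ) ≤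
      (8 * (H : ℝ)) ^ (m + 1) * (8 * (N : ℝ)) ^ 6 * ((4 : ℝ) ^ D.primeFactors.card / (D : ℝ)) *
        LB1 (PQ P0 z0) k lam := by
  obtain ⟨Q, hQd⟩ : ∃ Q, Q = PQ P0 z0 := ⟨_, rfl⟩
  rw [← hQd] at hk hq1 ⊢
  obtain ⟨δ, hδ⟩ : ∃ δ : ℤ, δ = dl1 Q τ κ lam D := ⟨_, rfl⟩
  have hDR : 0 < D ∧ Squarefree D ∧ ∀ p : ℕ, p.Prime → p ∣ D → z0 < p := by
    obtain ⟨h2, h3⟩ := mem_filter.1 hD
    exact ⟨(mem_Icc.1 h2).1, h3⟩
  have hQp : ∀ p ∈ Q, p.Prime ∧ p ≠ 2 ∧ ¬ p ∣ D := by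
    intro p hp
    rw [hQd] at hp
    obtain ⟨h1, h2⟩ := mem_filter.1 hp
    obtain ⟨h3, h4⟩ := mem_Ioc.1 h1
    refine ⟨h2, by omega, fun h => ?_⟩
    have := hDR.2.2 p h2 h
    omega
  -- the sum over `f` and `x` for fixed `u`
  obtain ⟨K, hK⟩ : ∃ K : ℝ, K = (2 : ℝ) ^ D.primeFactors.card * (2 : ℝ) ^ D.primeFactors.card *
      ((8 * (H : ℝ)) ^ (m + 1) / (D : ℝ)) := ⟨_, rfl⟩
  have hK0 : 0 ≤ K := by
    rw [hK]
    positivity
  have hF0 : ∀ u, 0 ≤ FF1 (m := m) e Q k δ lam u := fun u => FF1_nonneg e Q (fun p hp => (hQp p hp).1) k δ lam u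
  have hS : ∀ u, (((boxN m H).filter fun f => Str1 e H q0 Q τ κ lam D f u).card : ℝ) ≤
      K * FF1 (m := m) e Q k δ lam u := by
    intro u
    by_cases hu : ∀ p : ℕ, p.Prime → p ∣ D → ¬ (p : ℤ) ∣ u.1.1 ∧ ¬ (p : ℤ) ∣ u.2.1
    · obtain ⟨R, hR⟩ : ∃ R, R = (RS1 D u).filter (fun x : ℕ × ℕ => GoodL m H q0 D (mo m e (x.1 : ℤ) (x.2 : ℤ))) := ⟨_, rfl⟩
      have h1 : (((boxN m H).filter fun f => Str1 e H q0 Q τ κ lam D f u).card : ℝ) ≤
          ∑ x ∈ R, ∑ f ∈ (boxN m H).filter (fun f => (D : ℤ) ∣ evl (mo m e (x.1 : ℤ) (x.2 : ℤ)) f),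
            ∏ p ∈ Q, gp1 e δ (lam p) p f u := by
        have h2 : ∀ f ∈ (boxN m H).filter (fun f => Str1 e H q0 Q τ κ lam D f u), (1 : ℝ) ≤
            ∑ x ∈ R, if (D : ℤ) ∣ evl (mo m e (x.1 : ℤ) (x.2 : ℤ)) f then ∏ p ∈ Q, gp1 e δ (lam p) p f u else 0 := by
          intro f hf
          obtain ⟨_, _, ⟨x, hr1, hr2, hr3⟩, h5⟩ := mem_filter.1 hf
          have h6 : (if (D : ℤ) ∣ evl (mo m e (x.1 : ℤ) (x.2 : ℤ)) f then ∏ p ∈ Q, gp1 e δ (lam p) p f u else 0) = 1 := by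
            rw [if_pos hr2]
            exact ud_one (by rw [hδ]; exact h5)
          rw [← h6]
          refine single_le_sum (f := fun x : ℕ × ℕ => if (D : ℤ) ∣ evl (mo m e (x.1 : ℤ) (x.2 : ℤ)) f then
            ∏ p ∈ Q, gp1 e δ (lam p) p f u else 0) (fun x _ => ?_) (by rw [hR]; exact mem_filter.2 ⟨hr1, hr3⟩)
          show 0 ≤ if (D : ℤ) ∣ evl (mo m e (x.1 : ℤ) (x.2 : ℤ)) f then ∏ p ∈ Q, gp1 e δ (lam p) p f u else 0
          split_ifs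
          · exact ud_gp e Q δ lam f u
          · exact le_rfl
        have h3 : (((boxN m H).filter fun f => Str1 e H q0 Q τ κ lam D f u).card : ℝ) =
            ∑ _f ∈ (boxN m H).filter (fun f => Str1 e H q0 Q τ κ lam D f u), (1 : ℝ) := by
          rw [sum_const, nsmul_eq_mul, mul_one]
        rw [h3]
        refine (sum_le_sum h2).trans ?_
        rw [sum_comm]
        refine sum_le_sum fun x _ => ?_
        rw [sum_filter (s := boxN m H) (p := fun f => (D : ℤ) ∣ evl (mo m e (x.1 : ℤ) (x.2 : ℤ)) f)]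
        refine sum_le_sum_of_subset_of_nonneg (filter_subset _ _) fun f _ _ => ?_
        split_ifs
        · exact ud_gp e Q δ lam f u
        · exact le_rfl
      have h2 : ∑ x ∈ R, ∑ f ∈ (boxN m H).filter (fun f => (D : ℤ) ∣ evl (mo m e (x.1 : ℤ) (x.2 : ℤ)) f),
            ∏ p ∈ Q, gp1 e δ (lam p) p f u ≤
          ∑ _x ∈ R, ((8 * (H : ℝ)) ^ (m + 1) / (D : ℝ) * FF1 (m := m) e Q k δ lam u) := by
        refine sum_le_sum fun x hx => ?_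
        rw [hR] at hx
        refine stageL he hH hDR.1 Q (fun p hp => ⟨(hQp p hp).1, (hQp p hp).2.2⟩) hk δ lam hq1 _ ?_ (mem_filter.1 hx).2 u
        show (x.1 : ℤ) ^ (e ((0 : Fin (m + 1)) : ℕ)).1 * (x.2 : ℤ) ^ (e ((0 : Fin (m + 1)) : ℕ)).2 = 1
        rw [Fin.val_zero, he.e0, pow_zero, pow_zero, mul_one]
      rw [sum_const, nsmul_eq_mul] at h2
      have h3 : (R.card : ℝ) ≤ (2 : ℝ) ^ D.primeFactors.card * (2 : ℝ) ^ D.primeFactors.card := by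
        have h4 : R.card ≤ 2 ^ D.primeFactors.card * 2 ^ D.primeFactors.card := by
          rw [hR]
          exact (card_filter_le _ _).trans (card_RS1 hDR.2.1 u hu)
        exact_mod_cast h4
      have h4 : 0 ≤ (8 * (H : ℝ)) ^ (m + 1) / (D : ℝ) * FF1 (m := m) e Q k δ lam u := mul_nonneg (by positivity) (hF0 u)
      refine h1.trans (h2.trans ((mul_le_mul_of_nonneg_right h3 h4).trans (le_of_eq ?_)))
      rw [hK]
      ring
    · have h1 : (boxN m H).filter (fun f => Str1 e H q0 Q τ κ lam D f u) = ∅ :=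
        filter_eq_empty_iff.2 fun f _ h => hu h.1
      rw [h1, card_empty, Nat.cast_zero]
      exact mul_nonneg hK0 (hF0 u)
  have hT : (((Bx m H N).filter fun g => Str1 e H q0 Q τ κ lam D g.1 g.2).card : ℝ) ≤
      ∑ u ∈ box2 N, K * FF1 (m := m) e Q k δ lam u := by
    have h1 : (((Bx m H N).filter fun g => Str1 e H q0 Q τ κ lam D g.1 g.2).card : ℝ) =
        ∑ u ∈ box2 N, (((boxN m H).filter fun f => Str1 e H q0 Q τ κ lam D f u).card : ℝ) := by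
      have h2 : ((Bx m H N).filter fun g => Str1 e H q0 Q τ κ lam D g.1 g.2).card =
          ∑ u ∈ box2 N, ((boxN m H).filter fun f => Str1 e H q0 Q τ κ lam D f u).card := by
        rw [card_filter, Bx, sum_product_right]
        refine sum_congr rfl fun u _ => ?_
        rw [card_filter]
      rw [h2, Nat.cast_sum]
    rw [h1]
    exact sum_le_sum fun u _ => hS u
  refine hT.trans ?_
  rw [← mul_sum]
  have hU := stageU1 he hN Q (fun p hp => ⟨(hQp p hp).1, (hQp p hp).2.1⟩) hk δ lam hq1 hq0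
  refine (mul_le_mul_of_nonneg_left hU hK0).trans (le_of_eq ?_)
  have h4 : (4 : ℝ) ^ D.primeFactors.card = (2 : ℝ) ^ D.primeFactors.card * (2 : ℝ) ^ D.primeFactors.card := by
    rw [← mul_pow]
    norm_num
  have e1 : (D : ℝ) ≠ 0 := by exact_mod_cast hDR.1.ne'
  rw [hK, h4]
  unfold LB1
  field_simp

end HNF
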